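import Mathlib
import Pool.Graph.R_seed8.Helper226.VCNorm
import Pool.Graph.R_pool_sql_team_seeded_f72693b1.W455.Cub.Fam

set_option autoImplicit false
set_option linter.unusedSectionVars false

open scoped TensorProduct
open MvPolynomial
open Pool.Agent.Helper226

universe u

namespace Pool.Agent.H59.VC

open Pool.Agent.W455.Cub (evR evR_tmul)

section tau
variable (k : Type u) [Field k] {n : ℕ}
variable {R : Type u} [CommRing R] [Algebra k R] {R' : Type u} [CommRing R'] [Algebra k R']

/-- translation with coefficients in `R` -/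
noncomputable def tau (v : Fin n → R) :
    MvPolynomial (Fin n) k →ₐ[k] R ⊗[k] MvPolynomial (Fin n) k :=
  aeval fun i => (1 : R) ⊗ₜ[k] X i + v i ⊗ₜ[k] 1

lemma tau_X (v : Fin n → R) (i : Fin n) :
    tau k v (X i) = (1 : R) ⊗ₜ[k] X i + v i ⊗ₜ[k] 1 := by
  simp [tau]

/-- the linear extension of the translation -/
noncomputable def tauR (v : Fin n → R) :
    R ⊗[k] MvPolynomial (Fin n) k →ₐ[R] R ⊗[k] MvPolynomial (Fin n) k :=
  evR R (tau k v)

lemma tauR_tmul (v : Fin n → R) (a : R) (x : MvPolynomial (Fin n) k) :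
    tauR k v (a ⊗ₜ x) = a • tau k v x := evR_tmul _ _ _

lemma tauR_one_tmul (v : Fin n → R) (x : MvPolynomial (Fin n) k) :
    tauR k v ((1 : R) ⊗ₜ x) = tau k v x := by
  rw [tauR_tmul, one_smul]

lemma tauR_tau (v w : Fin n → R) (h : ∀ i, v i + w i = 0) (x : MvPolynomial (Fin n) k) :
    tauR k v (tau k w x) = (1 : R) ⊗ₜ[k] x := by
  have h1 : ((tauR k v).restrictScalars k).comp (tau k w) =
      (Algebra.TensorProduct.includeRight : MvPolynomial (Fin n) k →ₐ[k] _) := by
    apply MvPolynomial.algHom_ext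
    intro i
    rw [AlgHom.comp_apply, tau_X, map_add]
    change tauR k v ((1 : R) ⊗ₜ[k] X i) + tauR k v (w i ⊗ₜ[k] 1) = _
    rw [tauR_one_tmul, tau_X, tauR_tmul, map_one, add_assoc, Algebra.TensorProduct.one_def,
      TensorProduct.smul_tmul', smul_eq_mul, mul_one, ← TensorProduct.add_tmul, h,
      TensorProduct.zero_tmul, add_zero]
    rfl
  exact congrArg (fun f : MvPolynomial (Fin n) k →ₐ[k] R ⊗[k] MvPolynomial (Fin n) k => f x) h1

variable {k}

lemma bc_tau (φ : R →ₐ[k] R') (v : Fin n → R) (x : MvPolynomial (Fin n) k) :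
    bc (MvPolynomial (Fin n) k) φ (tau k v x) = tau k (fun i => φ (v i)) x := by
  have h1 : (bc (MvPolynomial (Fin n) k) φ).comp (tau k v) = tau k (fun i => φ (v i)) := by
    apply MvPolynomial.algHom_ext
    intro i
    rw [AlgHom.comp_apply, tau_X, tau_X, map_add]
    simp
  exact congrArg (fun f : MvPolynomial (Fin n) k →ₐ[k] R' ⊗[k] MvPolynomial (Fin n) k => f x) h1

lemma bc_tauR (φ : R →ₐ[k] R') (v : Fin n → R) (x : R ⊗[k] MvPolynomial (Fin n) k) :
    tauR k (fun i => φ (v i)) (bc (MvPolynomial (Fin n) k) φ x) =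
      bc (MvPolynomial (Fin n) k) φ (tauR k v x) := by
  induction x using TensorProduct.induction_on with
  | zero => simp
  | add x y hx hy => rw [map_add, map_add, map_add, map_add, hx, hy]
  | tmul a x =>
    rw [tauR_tmul]
    have : bc (MvPolynomial (Fin n) k) φ (a ⊗ₜ[k] x) = φ a ⊗ₜ[k] x := by simp
    rw [this, tauR_tmul, ← bc_tau]
    generalize tau k v x = y
    induction y using TensorProduct.induction_on with
    | zero => simp
    | add x y hx hy => rw [map_add, smul_add, hx, hy, smul_add, map_add]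
    | tmul b y =>
      rw [TensorProduct.smul_tmul']
      simp [TensorProduct.smul_tmul']

lemma tau_field (v : Fin n → k) (x : MvPolynomial (Fin n) k) :
    tau k v x = (1 : k) ⊗ₜ[k] tr v x := by
  have h1 : tau k v = (Algebra.TensorProduct.includeRight :
      MvPolynomial (Fin n) k →ₐ[k] k ⊗[k] MvPolynomial (Fin n) k).comp
        (tr v : MvPolynomial (Fin n) k →ₐ[k] MvPolynomial (Fin n) k) := by
    apply MvPolynomial.algHom_ext
    intro i
    rw [AlgHom.comp_apply, tau_X]
    change _ = (1 : k) ⊗ₜ[k] tr v (X i)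
    rw [tr_X, TensorProduct.tmul_add]
    congr 1
    rw [show (C (v i) : MvPolynomial (Fin n) k) = v i • 1 by rw [smul_eq_C_mul, mul_one],
      TensorProduct.tmul_smul, TensorProduct.smul_tmul', smul_eq_mul, mul_one]
  rw [h1]
  rfl

end tau

section span
variable {k : Type u} [Field k] {n d : ℕ} (D : QData n d)
variable {R : Type u} [CommRing R] [Algebra k R] {R' : Type u} [CommRing R'] [Algebra k R']

/-- the span of the basis monomials, with coefficients in `R` -/
noncomputable def spR (k : Type u) [Field k] {n d : ℕ} (D : QData n d) (R : Type u) [CommRing R]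
    [Algebra k R] : Submodule R (R ⊗[k] MvPolynomial (Fin n) k) :=
  Submodule.span R (Set.range fun j => (1 : R) ⊗ₜ[k] mb k D.e j)

lemma one_mem_spR (a : R) : a ⊗ₜ[k] (1 : MvPolynomial (Fin n) k) ∈ spR k D R := by
  obtain ⟨j, hj⟩ := D.e_small 0 (by simp)
  have : a ⊗ₜ[k] (1 : MvPolynomial (Fin n) k) = a • ((1 : R) ⊗ₜ[k] mb k D.e j) := by
    rw [mb, hj, TensorProduct.smul_tmul', smul_eq_mul, mul_one]
    rfl
  rw [this]
  exact Submodule.smul_mem _ _ (Submodule.subset_span ⟨j, rfl⟩)

lemma X_mem_spR (a : R) (i : Fin n) : a ⊗ₜ[k] (X i : MvPolynomial (Fin n) k) ∈ spR k D R := by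
  obtain ⟨j, hj⟩ := D.e_small (Finsupp.single i 1) (by simp)
  have : a ⊗ₜ[k] (X i : MvPolynomial (Fin n) k) = a • ((1 : R) ⊗ₜ[k] mb k D.e j) := by
    rw [mb, hj, TensorProduct.smul_tmul', smul_eq_mul, mul_one]
    rfl
  rw [this]
  exact Submodule.smul_mem _ _ (Submodule.subset_span ⟨j, rfl⟩)

lemma tau_mb_mem (v : Fin n → R) (j : Fin d) : tau k v (mb k D.e j) ∈ spR k D R := by
  have hj := D.e_deg j
  rcases Nat.lt_or_ge (D.e j).degree 1 with h | h
  · have : D.e j = 0 := (Finsupp.degree_eq_zero_iff _).1 (by omega)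
    have h1 : mb k D.e j = 1 := by
      rw [mb, this]
      rfl
    rw [h1, map_one]
    exact one_mem_spR D 1
  · obtain ⟨i, ν, h1, h2⟩ := exists_add_of_degree_succ (D.e j) ((D.e j).degree - 1) (by omega)
    have h3 : mb k D.e j = X i * monomial ν 1 := by
      rw [mb, h1, Pool.Agent.Helper226.monomial_single_add]
    rcases Nat.lt_or_ge ν.degree 1 with h4 | h4
    · have : ν = 0 := (Finsupp.degree_eq_zero_iff _).1 (by omega)
      rw [h3, this]
      have h5 : (X i * monomial 0 1 : MvPolynomial (Fin n) k) = X i := by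
        change X i * C 1 = X i
        simp
      rw [h5, tau_X]
      exact Submodule.add_mem _ (X_mem_spR D _ i) (one_mem_spR D _)
    · obtain ⟨l, hl⟩ := exists_single_of_degree_one ν (by omega)
      have h6 : mb k D.e j = X i * X l := by
        rw [h3, hl]
        rfl
      have h7 : tau k v (mb k D.e j) =
          (1 : R) ⊗ₜ[k] mb k D.e j + v l ⊗ₜ[k] X i + v i ⊗ₜ[k] X l + (v i * v l) ⊗ₜ[k] 1 := by
        rw [h6, map_mul, tau_X, tau_X]
        simp only [mul_add, add_mul, Algebra.TensorProduct.tmul_mul_tmul, mul_one, one_mul]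
        ring
      rw [h7]
      refine Submodule.add_mem _ (Submodule.add_mem _ (Submodule.add_mem _
        (Submodule.subset_span ⟨j, rfl⟩) ?_) ?_) (one_mem_spR D _)
      · exact X_mem_spR D _ i
      · exact X_mem_spR D _ l

variable {D} in
lemma expand_L_of_mem (c : Chart k (mb k D.e) R) (x : R ⊗[k] MvPolynomial (Fin n) k)
    (hx : x ∈ spR k D R) : Chart.expand R (mb k D.e) (c.L x) = x := by
  obtain ⟨α, rfl⟩ := (Submodule.mem_span_range_iff_exists_fun R).1 hx
  have : (∑ i, α i • ((1 : R) ⊗ₜ[k] mb k D.e i)) = Chart.expand R (mb k D.e) α := by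
    rw [Chart.expand_apply]
    refine Finset.sum_congr rfl fun i _ => ?_
    rw [TensorProduct.smul_tmul', smul_eq_mul, mul_one]
  rw [this, Chart.L_expand]

end span

section tchart
variable {k : Type u} [Field k] {n d : ℕ} {D : QData n d}
variable {R : Type u} [CommRing R] [Algebra k R] {R' : Type u} [CommRing R'] [Algebra k R']

/-- the matrix of the translation on the span of the basis -/
noncomputable def tmx (c : Chart k (mb k D.e) R) (v : Fin n → R) : Matrix (Fin d) (Fin d) R :=
  Matrix.of fun j => c.L (tau k v (mb k D.e j))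

lemma tmx_mul (c : Chart k (mb k D.e) R) (v w : Fin n → R) (h : ∀ i, v i + w i = 0) :
    tmx c w * tmx c v = 1 := by
  ext j l
  rw [Matrix.mul_apply]
  have h1 := tauR_tau k v w h (mb k D.e j)
  rw [← expand_L_of_mem c _ (tau_mb_mem D w j), Chart.expand_apply, map_sum] at h1
  simp only [tauR_tmul] at h1
  have h2 := congrArg (fun x => c.L x l) h1
  simp only [map_sum, map_smul, Finset.sum_apply, Pi.smul_apply, smul_eq_mul, Chart.L_tmul,
    c.q_b] at h2
  simp only [tmx, Matrix.of_apply]
  rw [h2, Matrix.one_apply, Pi.single_apply, one_mul]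
  simp only [eq_comm]

/-- translation of a chart datum -/
noncomputable def tch (c : Chart k (mb k D.e) R) (v : Fin n → R) : Chart k (mb k D.e) R :=
  Chart.mk' (mb k D.e) ((Matrix.vecMulLinear (tmx c (fun i => - v i))) ∘ₗ c.L ∘ₗ
    (tauR k v).toLinearMap) (by
      intro j
      simp only [LinearMap.comp_apply, AlgHom.toLinearMap_apply, Matrix.vecMulLinear_apply]
      rw [tauR_one_tmul]
      have h1 := tmx_mul c (fun i => - v i) v (by intro i; simp)
      have h2 : c.L (tau k v (mb k D.e j)) = Matrix.vecMul (Pi.single j 1) (tmx c v) := by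
        rw [Matrix.single_one_vecMul]
        rfl
      rw [h2, Matrix.vecMul_vecMul, h1, Matrix.vecMul_one])
    (by
      intro x y hx
      simp only [LinearMap.comp_apply, AlgHom.toLinearMap_apply, Matrix.vecMulLinear_apply] at hx ⊢
      have h1 := tmx_mul c v (fun i => - v i) (by intro i; simp)
      have h2 : c.L (tauR k v x) = 0 := by
        have h3 := congrArg (fun z => Matrix.vecMul z (tmx c v)) hx
        simp only [Matrix.vecMul_vecMul, h1, Matrix.vecMul_one, Matrix.zero_vecMul] at h3
        exact h3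
      have h4 : c.L (tauR k v (x * y)) = 0 := by
        rw [map_mul, mul_comm]
        exact c.ideal.mul_mem_left _ h2
      rw [h4, Matrix.zero_vecMul])

lemma tch_ideal (c : Chart k (mb k D.e) R) (v : Fin n → R)
    (x : R ⊗[k] MvPolynomial (Fin n) k) : x ∈ (tch c v).ideal ↔ c.L (tauR k v x) = 0 := by
  rw [Chart.mem_ideal, tch, Chart.mk'_L]
  simp only [LinearMap.comp_apply, AlgHom.toLinearMap_apply, Matrix.vecMulLinear_apply]
  constructor
  · intro hx
    have h1 := tmx_mul c v (fun i => - v i) (by intro i; simp)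
    have h3 := congrArg (fun z => Matrix.vecMul z (tmx c v)) hx
    simp only [Matrix.vecMul_vecMul, h1, Matrix.vecMul_one, Matrix.zero_vecMul] at h3
    exact h3
  · intro hx
    rw [hx, Matrix.zero_vecMul]

/-- two chart data with comparable ideals are equal -/
lemma chart_eq_of_le {b : Fin d → MvPolynomial (Fin n) k} {c c' : Chart k b R}
    (h : c.ideal ≤ c'.ideal) : c = c' := by
  ext x : 1
  have h1 := h (c.sub_expand_mem (1 ⊗ₜ x))
  rw [Chart.mem_ideal, map_sub, Chart.L_expand, sub_eq_zero] at h1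
  simpa using h1.symm

lemma tch_map (c : Chart k (mb k D.e) R) (v : Fin n → R) (φ : R →ₐ[k] R') :
    (tch c v).map φ = tch (c.map φ) (fun i => φ (v i)) := by
  apply chart_eq_of_le
  rw [Chart.ideal_map, Ideal.map_le_iff_le_comap]
  intro x hx
  rw [Ideal.mem_comap, tch_ideal, bc_tauR]
  rw [tch_ideal] at hx
  ext j
  rw [Chart.map_L, hx]
  simp

/-- the kernel of the translated chart over the ground field -/
lemma tch_ker (c : Chart k (mb k D.e) k) (v : Fin n → k) (x : MvPolynomial (Fin n) k) :
    x ∈ (tch c v).ker ↔ tr v x ∈ c.ker := by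
  rw [Chart.mem_ker, Chart.mem_ker]
  have h1 := tch_ideal c v ((1 : k) ⊗ₜ[k] x)
  rw [Chart.mem_ideal, Chart.L_tmul, one_smul, tauR_one_tmul, tau_field, Chart.L_tmul,
    one_smul] at h1
  exact h1

end tchart

end Pool.Agent.H59.VC
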