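import Mathlib
import Pool.Agent.H59.VC.Trans

set_option autoImplicit false
set_option linter.unusedSectionVars false

open scoped TensorProduct
open MvPolynomial
open Pool.Agent.Helper226

universe u

namespace Pool.Agent.H59.VC

open TrivSqZeroExt

section deriv
variable {k : Type u} [Field k] {n : ℕ}

/-- the derivation of a constant vector field -/
noncomputable def dmu (μ : Fin n → k) : Derivation k (MvPolynomial (Fin n) k) (MvPolynomial (Fin n) k) :=
  mkDerivation k (fun i => C (μ i))

lemma dmu_X (μ : Fin n → k) (i : Fin n) : dmu μ (X i) = C (μ i) := by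
  simp [dmu]

/-- the infinitesimal translation -/
noncomputable def vmu (μ : Fin n → k) : Fin n → DualNumber k := fun i => inr (μ i)

lemma tau_eps (μ : Fin n → k) (f : MvPolynomial (Fin n) k) :
    tau k (vmu μ) f = (1 : DualNumber k) ⊗ₜ[k] f + (inr 1 : DualNumber k) ⊗ₜ[k] dmu μ f := by
  have hs : ∀ (a : k) (x : MvPolynomial (Fin n) k),
      (inr a : DualNumber k) ⊗ₜ[k] x = (inr 1 : DualNumber k) ⊗ₜ[k] (a • x) := by
    intro a x
    rw [TensorProduct.tmul_smul, TensorProduct.smul_tmul', ← inr_smul, smul_eq_mul, mul_one]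
  induction f using MvPolynomial.induction_on with
  | C a =>
    have h1 : (C a : MvPolynomial (Fin n) k) = a • 1 := by rw [smul_eq_C_mul, mul_one]
    rw [h1, map_smul, map_one, Derivation.map_smul, Derivation.map_one_eq_zero, smul_zero,
      TensorProduct.tmul_zero, add_zero, TensorProduct.tmul_smul]
    rfl
  | add p q hp hq =>
    rw [map_add, hp, hq, map_add, TensorProduct.tmul_add, TensorProduct.tmul_add]
    abel
  | mul_X p i hp =>
    rw [map_mul, hp, tau_X, Derivation.leibniz, dmu_X]
    simp only [vmu, mul_add, add_mul, Algebra.TensorProduct.tmul_mul_tmul, mul_one, one_mul,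
      inr_mul_inr, TensorProduct.zero_tmul, add_zero, smul_eq_mul, TensorProduct.tmul_add]
    rw [hs (μ i) p, smul_eq_C_mul, mul_comm p (C (μ i)), mul_comm (X i)]
    abel

end deriv

section tan
variable {k : Type u} [Field k] {n d : ℕ} (D : QData n d)

/-- the index of a variable -/
noncomputable def jX (u : Fin n) : Fin d := (D.e_small (Finsupp.single u 1) (by simp)).choose

lemma e_jX (u : Fin n) : D.e (jX D u) = Finsupp.single u 1 :=
  (D.e_small (Finsupp.single u 1) (by simp)).choose_spec

/-- the index of the constant -/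
noncomputable def j0 : Fin d := (D.e_small 0 (by simp)).choose

lemma e_j0 : D.e (j0 D) = 0 := (D.e_small 0 (by simp)).choose_spec

lemma jX_injective : Function.Injective (jX D) := by
  intro u v h
  have h1 := e_jX D u
  rw [h, e_jX] at h1
  exact (Finsupp.single_left_injective one_ne_zero h1).symm

lemma sum_jX {M : Type*} [AddCommMonoid M] (g : Fin d → M)
    (hg : ∀ j, (D.e j).degree ≠ 1 → g j = 0) : ∑ j, g j = ∑ u, g (jX D u) := by
  symm
  apply Finset.sum_of_injOn (jX D)
  · exact (jX_injective D).injOn
  · intro _ _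
    simp
  · intro j _ hj
    apply hg
    intro h1
    obtain ⟨u, hu⟩ := exists_single_of_degree_one _ h1
    apply hj
    exact ⟨u, by simp, D.e_inj (by rw [e_jX, hu])⟩
  · intro _ _
    rfl

/-- the quadrics generating the ideal -/
noncomputable def Wq (a : D.N → D.E → k) (i : D.N) : MvPolynomial (Fin n) k :=
  monomial (D.nb i) (1 : k) - ∑ j : D.E, a i j • mb k D.e j.1

/-- trivial negative tangents, in coordinates -/
structure TNT (a : D.N → D.E → k) : Prop where
  gen : ∀ μ : Fin n →₀ ℕ, μ.degree = 3 → monomial μ (1 : k) ∈ Ideal.span (Set.range (Wq D a))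
  tan : ∀ (t : D.N → Fin n → k) (D3 : (Fin n →₀ ℕ) → D.E → k),
    (∀ (i : D.N) (r : Fin n) (e : D.E), D3 (D.nb i + Finsupp.single r 1) e =
      ∑ j : D.E, a i j * D3 (D.e j.1 + Finsupp.single r 1) e +
      ∑ u, t i u * (qchart D a).q (monomial (Finsupp.single u 1 + Finsupp.single r 1) (1 : k)) e.1) →
    ∃ μ : Fin n → k, ∀ i u, t i u = coeff (Finsupp.single u 1) (dmu μ (Wq D a i))
  tan0 : ∀ (t : D.N → k) (D2 : (Fin n →₀ ℕ) → Fin n → k),
    (∀ (i : D.N) (r : Fin n) (u : Fin n), D2 (D.nb i + Finsupp.single r 1) u =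
      ∑ j : D.E, a i j * D2 (D.e j.1 + Finsupp.single r 1) u +
      t i * (if u = r then 1 else 0)) → ∀ i, t i = 0

variable {D} {a : D.N → D.E → k}

/-- the dual part of a chart datum over the dual numbers -/
noncomputable def Dl (c : Chart k (mb k D.e) (DualNumber k)) :
    MvPolynomial (Fin n) k →ₗ[k] (Fin d → k) where
  toFun x j := (c.q x j).snd
  map_add' x y := by
    ext j
    simp
  map_smul' a x := by
    ext j
    simp

lemma Dl_apply (c : Chart k (mb k D.e) (DualNumber k)) (x : MvPolynomial (Fin n) k) (j : Fin d) :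
    Dl c x j = (c.q x j).snd := rfl

variable (c : Chart k (mb k D.e) (DualNumber k)) (hc : ∀ x j, (c.q x j).fst = (qchart D a).q x j)

include hc

lemma Dl_mul (x y : MvPolynomial (Fin n) k) (l : Fin d) :
    Dl c (x * y) l = ∑ j, ((qchart D a).q x j * Dl c (mb k D.e j * y) l +
      Dl c x j * (qchart D a).q (mb k D.e j * y) l) := by
  have hsum : ∀ (f : Fin d → DualNumber k), (∑ j, f j).snd = ∑ j, (f j).snd := by
    intro f
    exact map_sum (sndHom k k) f Finset.univ
  rw [Dl_apply, c.q_mul, Finset.sum_apply, hsum]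
  refine Finset.sum_congr rfl fun j _ => ?_
  rw [Pi.smul_apply, smul_eq_mul, DualNumber.snd_mul, hc, hc, Dl_apply, Dl_apply]

lemma Dl_nb_mul (i : D.N) (r : Fin n) (l : Fin d) :
    Dl c (monomial (D.nb i + Finsupp.single r 1) (1 : k)) l =
      ∑ j : D.E, a i j * Dl c (monomial (D.e j.1 + Finsupp.single r 1) (1 : k)) l +
      ∑ j, Dl c (monomial (D.nb i) (1 : k)) j *
        (qchart D a).q (monomial (D.e j + Finsupp.single r 1) (1 : k)) l := by
  have h1 : (monomial (D.nb i + Finsupp.single r 1) 1 : MvPolynomial (Fin n) k) =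
      monomial (D.nb i) 1 * monomial (Finsupp.single r 1) 1 := by
    rw [monomial_mul, one_mul]
  have h2 : ∀ j, mb k D.e j * monomial (Finsupp.single r 1) 1 =
      monomial (D.e j + Finsupp.single r 1) (1 : k) := by
    intro j
    rw [mb, monomial_mul, one_mul]
  rw [h1, Dl_mul c hc, Finset.sum_add_distrib]
  simp only [h2]
  congr 1
  rw [D.sum_E]
  · refine Finset.sum_congr rfl fun j _ => ?_
    rw [qchart_q, D.wfun_nb]
    simp only [j.2, dite_true]
  · intro j hj
    rw [qchart_q, D.wfun_nb]
    simp only [dif_neg hj, zero_mul]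

lemma q_three (j : Fin d) (hj : (D.e j).degree = 2) (r : Fin n) (l : Fin d) :
    (qchart D a).q (monomial (D.e j + Finsupp.single r 1) (1 : k)) l = 0 := by
  rw [qchart_q, D.wfun_three _ _ _ (by rw [map_add, hj]; simp)]
  simp

/-- the relations of the components in degree one -/
lemma rel_one (i : D.N) (r : Fin n) (e : D.E) :
    Dl c (monomial (D.nb i + Finsupp.single r 1) (1 : k)) e.1 =
      ∑ j : D.E, a i j * Dl c (monomial (D.e j.1 + Finsupp.single r 1) (1 : k)) e.1 +
      ∑ u, Dl c (monomial (D.nb i) (1 : k)) (jX D u) *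
        (qchart D a).q (monomial (Finsupp.single u 1 + Finsupp.single r 1) (1 : k)) e.1 := by
  rw [Dl_nb_mul c hc]
  congr 1
  rw [sum_jX D]
  · simp only [e_jX]
  · intro j hj
    have h2 := D.e_deg j
    rcases Nat.lt_or_ge (D.e j).degree 2 with h | h
    · have h3 : D.e j = 0 := (Finsupp.degree_eq_zero_iff _).1 (by omega)
      rw [h3, zero_add, qchart_q, ← e_jX D r, D.wfun_e, Pi.single_apply, if_neg, mul_zero]
      intro h4
      have h5 := e.2
      rw [h4, e_jX] at h5
      simp at h5
    · rw [q_three c hc j (by omega), mul_zero]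

/-- the relations of the components in degree zero -/
lemma rel_zero (i : D.N) (r : Fin n) (u : Fin n) :
    Dl c (monomial (D.nb i + Finsupp.single r 1) (1 : k)) (jX D u) =
      ∑ j : D.E, a i j * Dl c (monomial (D.e j.1 + Finsupp.single r 1) (1 : k)) (jX D u) +
      Dl c (monomial (D.nb i) (1 : k)) (j0 D) * (if u = r then 1 else 0) := by
  rw [Dl_nb_mul c hc]
  congr 1
  rw [Finset.sum_eq_single (j0 D)]
  · congr 1
    rw [e_j0, zero_add, qchart_q, ← e_jX D r, D.wfun_e, Pi.single_apply]
    simp only [(jX_injective D).eq_iff]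
  · intro j _ hj
    have h2 := D.e_deg j
    rcases Nat.lt_or_ge (D.e j).degree 2 with h | h
    · have h3 : (D.e j).degree = 1 := by
        rcases Nat.lt_or_ge (D.e j).degree 1 with h3 | h3
        · exfalso
          apply hj
          apply D.e_inj
          rw [e_j0, (Finsupp.degree_eq_zero_iff _).1 (show (D.e j).degree = 0 by omega)]
        · omega
      rw [qchart_q, D.wfun_supp, mul_zero]
      · rw [map_add, h3]
        simp
      · rw [e_jX]
        simp
    · rw [q_three c hc j (by omega), mul_zero]
  · simp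

end tan

section main
variable {k : Type u} [Field k] {n d : ℕ} {D : QData n d} {a : D.N → D.E → k}
variable (c : Chart k (mb k D.e) (DualNumber k)) (hc : ∀ x j, (c.q x j).fst = (qchart D a).q x j)

/-- the deformed parameters -/
noncomputable def aeps (a : D.N → D.E → k) (G : D.N → D.E → k) : D.N → D.E → DualNumber k :=
  fun i j => inl (a i j) + inr (G i j)

lemma qchart_map {R R' : Type u} [CommRing R] [Algebra k R] [CommRing R'] [Algebra k R']
    (b : D.N → D.E → R) (φ : R →ₐ[k] R') :
    (qchart (k := k) D b).map φ = qchart D (fun i j => φ (b i j)) := by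
  apply chart_ext_monomial
  intro μ
  ext l
  rw [Chart.map_q, qchart_q, qchart_q]
  unfold QData.wfun
  split_ifs with h1 h2 h3
  · rw [Pi.single_apply, Pi.single_apply]
    split_ifs <;> simp
  · dsimp only
    split_ifs <;> simp
  · simp
  · simp

lemma fst_qchart (G : D.N → D.E → k) (x : MvPolynomial (Fin n) k) (l : Fin d) :
    ((qchart (k := k) D (aeps a G)).q x l).fst = (qchart D a).q x l := by
  have h := qchart_map (k := k) (aeps a G) (fstHom k k k)
  have h2 : (fun i j => fstHom k k k (aeps a G i j)) = a := by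
    funext i j
    simp [aeps]
  rw [h2] at h
  have h3 := congrArg (fun c : Chart k (mb k D.e) k => c.q x l) h
  exact h3

lemma eps_smul_q (G : D.N → D.E → k) (x : MvPolynomial (Fin n) k) (l : Fin d) :
    (inr 1 : DualNumber k) * (qchart (k := k) D (aeps a G)).q x l = inr ((qchart D a).q x l) := by
  ext
  · simp
  · rw [DualNumber.snd_mul, fst_inr, snd_inr, zero_mul, zero_add, one_mul, fst_qchart, snd_inr]

include hc in
lemma eps_smul_c (x : MvPolynomial (Fin n) k) (l : Fin d) :
    (inr 1 : DualNumber k) * c.q x l = inr ((qchart D a).q x l) := by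
  ext
  · simp
  · rw [DualNumber.snd_mul, fst_inr, snd_inr, zero_mul, zero_add, one_mul, hc, snd_inr]

lemma sum_inr_tmul (r : Fin d → DualNumber k) (hr : ∀ j, (r j).fst = 0) :
    ∑ j, r j ⊗ₜ[k] mb k D.e j = (inr 1 : DualNumber k) ⊗ₜ[k] ∑ j, (r j).snd • mb k D.e j := by
  rw [TensorProduct.tmul_sum]
  refine Finset.sum_congr rfl fun j _ => ?_
  rw [TensorProduct.tmul_smul, TensorProduct.smul_tmul', ← inr_smul, smul_eq_mul, mul_one]
  congr 1
  ext
  · rw [hr, fst_inr]
  · rw [snd_inr]

/-- an ideal containing the border relations contains the ideal of the chart -/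
lemma ideal_le_of_border {R : Type u} [CommRing R] [Algebra k R] (c : Chart k (mb k D.e) R)
    (J : Ideal (R ⊗[k] MvPolynomial (Fin n) k))
    (h : ∀ (j : Fin d) (r : Fin n), (1 : R) ⊗ₜ[k] (mb k D.e j * X r) -
      Chart.expand R (mb k D.e) (c.q (mb k D.e j * X r)) ∈ J) : c.ideal ≤ J := by
  have h1 : ∀ x : MvPolynomial (Fin n) k, (1 : R) ⊗ₜ[k] x -
      Chart.expand R (mb k D.e) (c.q x) ∈ J := by
    intro x
    induction x using MvPolynomial.induction_on with
    | C a =>
      have h2 : (C a : MvPolynomial (Fin n) k) = a • mb k D.e (j0 D) := by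
        rw [mb, e_j0, smul_monomial, smul_eq_mul, mul_one]
        rfl
      rw [h2, map_smul, c.q_b, Chart.expand_apply, Finset.sum_eq_single (j0 D)]
      · rw [TensorProduct.tmul_smul, Pi.smul_apply, Pi.single_eq_same, TensorProduct.smul_tmul',
          sub_self]
        exact J.zero_mem
      · intro j _ hj
        rw [Pi.smul_apply, Pi.single_apply, if_neg hj, smul_zero, TensorProduct.zero_tmul]
      · simp
    | add p q hp hq =>
      rw [map_add, map_add, TensorProduct.tmul_add, add_sub_add_comm]
      exact J.add_mem hp hq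
    | mul_X p r hp =>
      have h2 := J.mul_mem_right ((1 : R) ⊗ₜ[k] X r) hp
      rw [sub_mul, Algebra.TensorProduct.tmul_mul_tmul, one_mul, Chart.expand_apply,
        Finset.sum_mul] at h2
      have h3 : ∑ j, c.q p j • ((1 : R) ⊗ₜ[k] (mb k D.e j * X r) -
          Chart.expand R (mb k D.e) (c.q (mb k D.e j * X r))) ∈ J :=
        J.sum_mem fun j _ => Submodule.smul_of_tower_mem J _ (h j r)
      have h4 := J.add_mem h2 h3
      convert h4 using 1
      rw [c.q_mul, map_sum]
      simp only [smul_sub, Finset.sum_sub_distrib, map_smul, TensorProduct.smul_tmul', smul_eq_mul,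
        mul_one, Algebra.TensorProduct.tmul_mul_tmul]
      ring
  intro y hy
  have h5 : ∀ y : R ⊗[k] MvPolynomial (Fin n) k, y - Chart.expand R (mb k D.e) (c.L y) ∈ J := by
    intro y
    induction y using TensorProduct.induction_on with
    | zero => simp
    | add x y hx hy =>
      rw [map_add, map_add, add_sub_add_comm]
      exact J.add_mem hx hy
    | tmul a x =>
      have h6 := Submodule.smul_of_tower_mem J a (h1 x)
      rw [smul_sub, TensorProduct.smul_tmul', smul_eq_mul, mul_one, ← map_smul] at h6
      rw [Chart.L_tmul]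
      exact h6
  have h7 := h5 y
  rw [Chart.mem_ideal.1 hy, map_zero, sub_zero] at h7
  exact h7

end main

end Pool.Agent.H59.VC
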