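import Mathlib
import Pool.Agent.H59.VC.Tan

set_option autoImplicit false
set_option linter.unusedSectionVars false

open scoped TensorProduct
open MvPolynomial
open Pool.Agent.Helper226

universe u

namespace Pool.Agent.H59.VC

open TrivSqZeroExt

section lin
variable {k : Type u} [Field k] {n d : ℕ} {D : QData n d} {a : D.N → D.E → k}

/-- linear forms -/
noncomputable def linForm (w : Fin n → k) : MvPolynomial (Fin n) k := ∑ u, w u • X u

lemma coeff_linForm (w : Fin n → k) (u : Fin n) :
    coeff (Finsupp.single u 1) (linForm w) = w u := by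
  unfold linForm
  rw [coeff_sum, Finset.sum_eq_single u]
  · rw [coeff_smul, coeff_X, if_pos rfl, smul_eq_mul, mul_one]
  · intro v _ hv
    rw [coeff_smul, coeff_X, if_neg, smul_zero]
    intro h
    exact hv (Finsupp.single_left_injective one_ne_zero h)
  · simp

/-- being a linear form -/
def IsLin (f : MvPolynomial (Fin n) k) : Prop := ∃ w : Fin n → k, f = linForm w

lemma IsLin.eq {f : MvPolynomial (Fin n) k} (h : IsLin f) :
    f = linForm (fun u => coeff (Finsupp.single u 1) f) := by
  obtain ⟨w, rfl⟩ := h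
  simp only [coeff_linForm]

lemma isLin_zero : IsLin (0 : MvPolynomial (Fin n) k) := ⟨0, by simp [linForm]⟩

lemma IsLin.add {f g : MvPolynomial (Fin n) k} (hf : IsLin f) (hg : IsLin g) : IsLin (f + g) := by
  obtain ⟨v, rfl⟩ := hf
  obtain ⟨w, rfl⟩ := hg
  exact ⟨v + w, by simp [linForm, add_smul, Finset.sum_add_distrib]⟩

lemma IsLin.smul {f : MvPolynomial (Fin n) k} (hf : IsLin f) (c : k) : IsLin (c • f) := by
  obtain ⟨v, rfl⟩ := hf
  exact ⟨c • v, by simp [linForm, Finset.smul_sum, smul_smul]⟩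

lemma IsLin.sub {f g : MvPolynomial (Fin n) k} (hf : IsLin f) (hg : IsLin g) : IsLin (f - g) := by
  have : f - g = f + (-1 : k) • g := by simp [sub_eq_add_neg]
  rw [this]
  exact hf.add (hg.smul _)

lemma isLin_X (i : Fin n) : IsLin (X i : MvPolynomial (Fin n) k) :=
  ⟨Pi.single i 1, by
    unfold linForm
    rw [Finset.sum_eq_single i]
    · simp
    · intro j _ hj
      rw [Pi.single_apply, if_neg hj, zero_smul]
    · simp⟩

lemma isLin_sum {ι : Type*} (s : Finset ι) (f : ι → MvPolynomial (Fin n) k)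
    (h : ∀ i ∈ s, IsLin (f i)) : IsLin (∑ i ∈ s, f i) := by
  classical
  induction s using Finset.induction_on with
  | empty => simpa using isLin_zero
  | insert i s hi ih =>
    rw [Finset.sum_insert hi]
    exact (h i (Finset.mem_insert_self _ _)).add
      (ih fun j hj => h j (Finset.mem_insert_of_mem hj))

lemma exists_two (ν : Fin n →₀ ℕ) (h : ν.degree = 2) :
    ∃ p q : Fin n, ν = Finsupp.single p 1 + Finsupp.single q 1 := by
  obtain ⟨p, ν', h1, h2⟩ := exists_add_of_degree_succ ν 1 h
  obtain ⟨q, hq⟩ := exists_single_of_degree_one ν' h2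
  exact ⟨p, q, by rw [h1, hq]⟩

lemma dmu_XX (μ : Fin n → k) (p q : Fin n) :
    dmu μ (monomial (Finsupp.single p 1 + Finsupp.single q 1) (1 : k)) =
      μ q • X p + μ p • X q := by
  have h : (monomial (Finsupp.single p 1 + Finsupp.single q 1) (1 : k) :
      MvPolynomial (Fin n) k) = X p * X q := by
    rw [X, X, monomial_mul, one_mul]
  rw [h, Derivation.leibniz, dmu_X, dmu_X, smul_eq_mul, smul_eq_mul, smul_eq_C_mul, smul_eq_C_mul]
  ring

lemma isLin_dmu_two (μ : Fin n → k) (ν : Fin n →₀ ℕ) (h : ν.degree = 2) :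
    IsLin (dmu μ (monomial ν (1 : k))) := by
  obtain ⟨p, q, rfl⟩ := exists_two ν h
  rw [dmu_XX]
  exact ((isLin_X p).smul _).add ((isLin_X q).smul _)

lemma isLin_dmu_Wq (μ : Fin n → k) (i : D.N) : IsLin (dmu μ (Wq D a i)) := by
  unfold Wq
  rw [map_sub, map_sum]
  refine (isLin_dmu_two μ _ (D.nb_deg i)).sub (isLin_sum _ _ fun j _ => ?_)
  rw [Derivation.map_smul]
  exact (isLin_dmu_two μ _ j.2).smul _

lemma q_linForm (w : Fin n → k) (u : Fin n) : (qchart D a).q (linForm w) (jX D u) = w u := by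
  unfold linForm
  rw [map_sum, Finset.sum_apply, Finset.sum_eq_single u]
  · rw [map_smul, Pi.smul_apply]
    have : (X u : MvPolynomial (Fin n) k) = mb k D.e (jX D u) := by
      rw [mb, e_jX]
      rfl
    rw [this, (qchart D a).q_b, Pi.single_eq_same, smul_eq_mul, mul_one]
  · intro v _ hv
    have : (X v : MvPolynomial (Fin n) k) = mb k D.e (jX D v) := by
      rw [mb, e_jX]
      rfl
    rw [map_smul, Pi.smul_apply, this, (qchart D a).q_b, Pi.single_apply, if_neg, smul_zero]
    intro h
    exact hv (jX_injective D h).symm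
  · simp

lemma q_linForm_ne (w : Fin n → k) (l : Fin d) (hl : (D.e l).degree ≠ 1) :
    (qchart D a).q (linForm w) l = 0 := by
  unfold linForm
  rw [map_sum, Finset.sum_apply]
  refine Finset.sum_eq_zero fun v _ => ?_
  have : (X v : MvPolynomial (Fin n) k) = mb k D.e (jX D v) := by
    rw [mb, e_jX]
    rfl
  rw [map_smul, Pi.smul_apply, this, (qchart D a).q_b, Pi.single_apply, if_neg, smul_zero]
  rintro rfl
  apply hl
  rw [e_jX]
  simp

end lin

section main
variable {k : Type u} [Field k] {n d : ℕ} {D : QData n d} {a : D.N → D.E → k}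
variable (c : Chart k (mb k D.e) (DualNumber k)) (hc : ∀ x j, (c.q x j).fst = (qchart D a).q x j)

lemma L_tau (G : D.N → D.E → k) (μ : Fin n → k) (f : MvPolynomial (Fin n) k) (l : Fin d) :
    (qchart (k := k) D (aeps a G)).L (tau k (vmu μ) f) l =
      (qchart (k := k) D (aeps a G)).q f l + inr ((qchart D a).q (dmu μ f) l) := by
  rw [tau_eps, map_add, Chart.L_tmul, Chart.L_tmul, one_smul, Pi.add_apply, Pi.smul_apply,
    smul_eq_mul, eps_smul_q]

lemma sub_expand_mem_q {R : Type u} [CommRing R] [Algebra k R] {b : Fin d → MvPolynomial (Fin n) k}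
    (c : Chart k b R) (x : MvPolynomial (Fin n) k) :
    (1 : R) ⊗ₜ[k] x - Chart.expand R b (c.q x) ∈ c.ideal := by
  have := c.sub_expand_mem ((1 : R) ⊗ₜ[k] x)
  rwa [Chart.L_tmul, one_smul] at this

lemma tmul_mul_add {R : Type u} [CommRing R] [Algebra k R] (g : MvPolynomial (Fin n) k)
    (z : R ⊗[k] MvPolynomial (Fin n) k) (e : R) (y : MvPolynomial (Fin n) k) :
    ((1 : R) ⊗ₜ[k] g) * (z + e ⊗ₜ[k] y) = ((1 : R) ⊗ₜ[k] g) * z + e ⊗ₜ[k] (g * y) := by
  rw [mul_add, Algebra.TensorProduct.tmul_mul_tmul, one_mul]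

lemma snd_q_nb (G : D.N → D.E → k) (i : D.N) (l : Fin d) :
    ((qchart (k := k) D (aeps a G)).q (monomial (D.nb i) (1 : k)) l).snd =
      if h : (D.e l).degree = 2 then G i ⟨l, h⟩ else 0 := by
  rw [qchart_q, D.wfun_nb]
  by_cases h : (D.e l).degree = 2
  · simp only [dif_pos h, aeps, snd_add, snd_inl, snd_inr, zero_add]
  · simp only [dif_neg h, snd_zero]

lemma sum_q_nb (i : D.N) : ∑ j, (qchart D a).q (monomial (D.nb i) (1 : k)) j • mb k D.e j =
    ∑ j : D.E, a i j • mb k D.e j.1 := by
  rw [D.sum_E]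
  · refine Finset.sum_congr rfl fun j _ => ?_
    rw [qchart_q, D.wfun_nb]
    simp only [j.2, dite_true]
  · intro j hj
    rw [qchart_q, D.wfun_nb]
    simp only [dif_neg hj, zero_smul]

include hc in
/-- the quadratic relations lie in the ideal of the family member -/
lemma rho_mem (μ : Fin n → k)
    (h1 : ∀ i u, Dl c (monomial (D.nb i) (1 : k)) (jX D u) =
      coeff (Finsupp.single u 1) (dmu μ (Wq D a i)))
    (h0 : ∀ i, Dl c (monomial (D.nb i) (1 : k)) (j0 D) = 0) (i : D.N) :
    (1 : DualNumber k) ⊗ₜ[k] (monomial (D.nb i) (1 : k)) -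
      Chart.expand (DualNumber k) (mb k D.e) (c.q (monomial (D.nb i) (1 : k))) ∈
      (tch (qchart (k := k) D (aeps a (fun i j => Dl c (monomial (D.nb i) (1 : k)) j.1)))
        (vmu μ)).ideal := by
  set G : D.N → D.E → k := fun i j => Dl c (monomial (D.nb i) (1 : k)) j.1 with hG
  rw [tch_ideal, map_sub, tauR_one_tmul, Chart.expand_apply, map_sum, map_sub, map_sum]
  ext l : 1
  rw [Pi.sub_apply, Finset.sum_apply, L_tau]
  simp only [tauR_tmul, map_smul, Pi.smul_apply, smul_eq_mul, L_tau]
  have hq : ∀ j, (qchart (k := k) D (aeps a G)).q (mb k D.e j) l = if l = j then 1 else 0 := by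
    intro j
    rw [(qchart (k := k) D (aeps a G)).q_b, Pi.single_apply]
  simp only [hq, mul_add, Finset.sum_add_distrib, mul_ite, mul_one, mul_zero,
    Finset.sum_ite_eq, Finset.mem_univ, if_true]
  have h3 : ∑ j, c.q (monomial (D.nb i) (1 : k)) j * inr ((qchart D a).q (dmu μ (mb k D.e j)) l) =
      inr ((qchart D a).q (dmu μ (∑ j : D.E, a i j • mb k D.e j.1)) l) := by
    rw [← sum_q_nb, map_sum, map_sum, Finset.sum_apply]
    have h4 : ∀ s : Finset (Fin d), ∀ f : Fin d → k,
        (inr (∑ j ∈ s, f j) : DualNumber k) = ∑ j ∈ s, inr (f j) := by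
      intro s f
      exact map_sum (inrHom k k) f s
    rw [h4]
    refine Finset.sum_congr rfl fun j _ => ?_
    rw [Derivation.map_smul, map_smul, Pi.smul_apply, smul_eq_mul]
    ext
    · simp
    · rw [DualNumber.snd_mul, fst_inr, snd_inr, mul_zero, add_zero, hc, snd_inr]
  rw [h3]
  ext
  · rw [fst_sub, fst_add, fst_add, fst_inr, fst_inr, add_zero, add_zero, fst_qchart, hc, sub_self]
    rfl
  · rw [snd_sub, snd_add, snd_add, snd_inr, snd_inr, snd_q_nb]
    have h5 : (if h : (D.e l).degree = 2 then G i ⟨l, h⟩ else 0) +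
        (qchart D a).q (dmu μ (monomial (D.nb i) (1 : k))) l -
        ((c.q (monomial (D.nb i) (1 : k)) l).snd +
        (qchart D a).q (dmu μ (∑ j : D.E, a i j • mb k D.e j.1)) l) =
        (if h : (D.e l).degree = 2 then G i ⟨l, h⟩ else 0) +
        (qchart D a).q (dmu μ (Wq D a i)) l - Dl c (monomial (D.nb i) (1 : k)) l := by
      rw [Dl_apply]
      unfold Wq
      rw [map_sub, map_sub, Pi.sub_apply]
      ring
    rw [h5, (isLin_dmu_Wq (a := a) μ i).eq]
    have h6 := D.e_deg l
    change _ = (0 : k)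
    rcases Nat.lt_or_ge (D.e l).degree 2 with h7 | h7
    · rw [dif_neg (by omega)]
      rcases Nat.lt_or_ge (D.e l).degree 1 with h8 | h8
      · have h9 : l = j0 D := D.e_inj (by
          rw [e_j0, (Finsupp.degree_eq_zero_iff _).1 (show (D.e l).degree = 0 by omega)])
        rw [q_linForm_ne _ _ (by omega), h9, h0]
        ring
      · obtain ⟨u, hu⟩ := exists_single_of_degree_one (D.e l) (by omega)
        have h9 : l = jX D u := D.e_inj (by rw [e_jX, hu])
        rw [h9, q_linForm, h1]
        ring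
    · rw [dif_pos (by omega), q_linForm_ne _ _ (by omega)]
      simp only [hG]
      ring

include hc in
/-- the structure of the first order deformations -/
theorem tangent (h : TNT D a) : ∃ (G : D.N → D.E → k) (μ : Fin n → k),
    c = tch (qchart (k := k) D (aeps a G)) (vmu μ) := by
  obtain ⟨μ, hμ⟩ := h.tan (fun i u => Dl c (monomial (D.nb i) (1 : k)) (jX D u))
    (fun μ e => Dl c (monomial μ (1 : k)) e.1) (fun i r e => rel_one c hc i r e)
  have h0 := h.tan0 (fun i => Dl c (monomial (D.nb i) (1 : k)) (j0 D))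
    (fun μ u => Dl c (monomial μ (1 : k)) (jX D u)) (fun i r u => rel_zero c hc i r u)
  set G : D.N → D.E → k := fun i j => Dl c (monomial (D.nb i) (1 : k)) j.1 with hG
  refine ⟨G, μ, ?_⟩
  have hrho := rho_mem c hc μ hμ h0
  rw [← hG] at hrho
  set J := (tch (qchart (k := k) D (aeps a G)) (vmu μ)).ideal with hJ
  apply chart_eq_of_le
  -- the elements with dual number coefficient
  have heps : ∀ y : MvPolynomial (Fin n) k, (inr 1 : DualNumber k) ⊗ₜ[k] y ∈ c.ideal →
      (inr 1 : DualNumber k) ⊗ₜ[k] y ∈ J := by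
    intro y hy
    rw [Chart.mem_ideal, Chart.L_tmul] at hy
    rw [hJ, tch_ideal, tauR_tmul, map_smul]
    ext l : 1
    have h1 := congrFun hy l
    rw [Pi.smul_apply, smul_eq_mul, eps_smul_c c hc] at h1
    rw [Pi.smul_apply, smul_eq_mul, L_tau, mul_add, eps_smul_q, inr_mul_inr, add_zero]
    exact h1
  -- decomposition of the cubics
  have hdec : ∀ f ∈ Ideal.span (Set.range (Wq D a)), ∃ z ∈ J ⊓ c.ideal,
      ∃ y : MvPolynomial (Fin n) k,
        (1 : DualNumber k) ⊗ₜ[k] f = z + (inr 1 : DualNumber k) ⊗ₜ[k] y := by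
    intro f hf
    refine Submodule.span_induction ?_ ?_ ?_ ?_ hf
    · rintro _ ⟨i, rfl⟩
      refine ⟨(1 : DualNumber k) ⊗ₜ[k] monomial (D.nb i) (1 : k) -
          Chart.expand (DualNumber k) (mb k D.e) (c.q (monomial (D.nb i) (1 : k))),
          ⟨hrho i, sub_expand_mem_q c _⟩, ∑ j, Dl c (monomial (D.nb i) (1 : k)) j •
        mb k D.e j, ?_⟩
      have h1 : (1 : DualNumber k) ⊗ₜ[k] Wq D a i = (1 : DualNumber k) ⊗ₜ[k] monomial (D.nb i) (1 : k) -
          Chart.expand (DualNumber k) (mb k D.e) (c.q (monomial (D.nb i) (1 : k))) +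
          ∑ j, (c.q (monomial (D.nb i) (1 : k)) j -
            inl ((qchart D a).q (monomial (D.nb i) (1 : k)) j)) ⊗ₜ[k] mb k D.e j := by
        unfold Wq
        rw [← sum_q_nb, TensorProduct.tmul_sub, TensorProduct.tmul_sum, Chart.expand_apply]
        simp only [TensorProduct.sub_tmul, Finset.sum_sub_distrib]
        have h2 : ∀ j, (inl ((qchart D a).q (monomial (D.nb i) (1 : k)) j) : DualNumber k) ⊗ₜ[k]
            mb k D.e j = (1 : DualNumber k) ⊗ₜ[k]
            ((qchart D a).q (monomial (D.nb i) (1 : k)) j • mb k D.e j) := by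
          intro j
          rw [TensorProduct.tmul_smul, TensorProduct.smul_tmul', ← inl_one, ← inl_smul,
            smul_eq_mul, mul_one]
        simp only [h2]
        abel
      rw [h1, sum_inr_tmul]
      · congr 2
        refine Finset.sum_congr rfl fun j _ => ?_
        rw [snd_sub, snd_inl, sub_zero, Dl_apply]
      · intro j
        rw [fst_sub, fst_inl, hc, sub_self]
    · exact ⟨0, Submodule.zero_mem _, 0, by simp⟩
    · rintro f g _ _ ⟨z, hz, y, hy⟩ ⟨z', hz', y', hy'⟩
      refine ⟨z + z', Submodule.add_mem _ hz hz', y + y', ?_⟩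
      rw [TensorProduct.tmul_add, hy, hy', TensorProduct.tmul_add]
      abel
    · rintro g f _ ⟨z, hz, y, hy⟩
      refine ⟨((1 : DualNumber k) ⊗ₜ[k] g) * z, Ideal.mul_mem_left _ _ hz, g * y, ?_⟩
      have h1 : (1 : DualNumber k) ⊗ₜ[k] (g • f) =
          ((1 : DualNumber k) ⊗ₜ[k] g) * ((1 : DualNumber k) ⊗ₜ[k] f) := by
        rw [Algebra.TensorProduct.tmul_mul_tmul, one_mul, smul_eq_mul]
      rw [h1, hy, tmul_mul_add]
  apply ideal_le_of_border
  intro j r
  have hm : mb k D.e j * X r = monomial (D.e j + Finsupp.single r 1) (1 : k) := by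
    rw [mb, X, monomial_mul, one_mul]
  rw [hm]
  have htriv : ∀ j' : Fin d, (1 : DualNumber k) ⊗ₜ[k] monomial (D.e j') (1 : k) -
      Chart.expand (DualNumber k) (mb k D.e) (c.q (monomial (D.e j') (1 : k))) ∈ J := by
    intro j'
    have h1 : monomial (D.e j') (1 : k) = mb k D.e j' := rfl
    rw [h1, c.q_b, Chart.expand_apply, Finset.sum_eq_single j']
    · rw [Pi.single_eq_same, sub_self]
      exact J.zero_mem
    · intro l _ hl
      rw [Pi.single_apply, if_neg hl, TensorProduct.zero_tmul]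
    · simp
  have hdeg := D.e_deg j
  have hadd : (D.e j + Finsupp.single r 1).degree = (D.e j).degree + 1 := by
    rw [map_add]
    simp
  rcases Nat.lt_or_ge (D.e j).degree 1 with h1 | h1
  · obtain ⟨j', hj'⟩ := D.e_small (D.e j + Finsupp.single r 1) (by omega)
    rw [← hj']
    exact htriv j'
  · rcases Nat.lt_or_ge (D.e j).degree 2 with h2 | h2
    · rcases D.cover (D.e j + Finsupp.single r 1) (by omega) with ⟨j', hj'⟩ | ⟨i, hi⟩
      · rw [← hj']
        exact htriv j'
      · rw [← hi]
        exact hrho i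
    · set m := D.e j + Finsupp.single r 1 with hmd
      have hm3 : m.degree = 3 := by omega
      obtain ⟨z, hz, y, hy⟩ := hdec _ (h.gen m hm3)
      have hfst : ∀ l, (c.q (monomial m (1 : k)) l).fst = 0 := by
        intro l
        rw [hc, qchart_q, D.wfun_three _ _ _ hm3]
        simp
      have h3 : Chart.expand (DualNumber k) (mb k D.e) (c.q (monomial m (1 : k))) =
          (inr 1 : DualNumber k) ⊗ₜ[k] ∑ l, (c.q (monomial m (1 : k)) l).snd • mb k D.e l := by
        rw [Chart.expand_apply, sum_inr_tmul _ hfst]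
      have h4 : (1 : DualNumber k) ⊗ₜ[k] monomial m (1 : k) -
          Chart.expand (DualNumber k) (mb k D.e) (c.q (monomial m (1 : k))) ∈ c.ideal :=
        sub_expand_mem_q c _
      rw [h3, hy, add_sub_assoc, ← TensorProduct.tmul_sub] at h4 ⊢
      refine J.add_mem hz.1 (heps _ ?_)
      have h5 := c.ideal.sub_mem h4 hz.2
      rwa [add_sub_cancel_left] at h5

end main

end Pool.Agent.H59.VC
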