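import Mathlib
import Pool.Agent.H59.VC.Tan2
import Pool.Graph.R_pool_sql_team_seeded_f72693b1.W455.Cub.Top

set_option autoImplicit false
set_option linter.unusedSectionVars false

open scoped TensorProduct
open MvPolynomial CategoryTheory AlgebraicGeometry
open Pool.Agent.Helper226

universe u

namespace Pool.Agent.H59.VC

open TrivSqZeroExt
open Pool.Agent.W455.Cub (rho rho_apply rho_XC rho_C)

section univ
variable (k : Type u) [Field k] {n d : ℕ} (D : QData n d)

/-- the parameter ring of the family of translated algebras -/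
abbrev PP : Type u := MvPolynomial ((D.N × D.E) ⊕ Fin n) k

/-- the universal member -/
noncomputable def cU : Chart k (mb k D.e) (PP k D) :=
  tch (qchart D (fun i j => X (Sum.inl (i, j)))) (fun u => X (Sum.inr u))

variable {k D}
variable {R : Type u} [CommRing R] [Algebra k R]

/-- evaluation of the parameters -/
noncomputable def evP (a : D.N → D.E → R) (v : Fin n → R) : PP k D →ₐ[k] R :=
  aeval (Sum.elim (fun p => a p.1 p.2) v)

lemma cU_map (φ : PP k D →ₐ[k] R) : (cU k D).map φ =
    tch (qchart D (fun i j => φ (X (Sum.inl (i, j))))) (fun u => φ (X (Sum.inr u))) := by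
  unfold cU
  rw [tch_map, qchart_map]

lemma cU_evP (a : D.N → D.E → R) (v : Fin n → R) :
    (cU k D).map (evP a v) = tch (qchart D a) v := by
  rw [cU_map]
  congr 1
  · congr 1
    funext i j
    simp [evP]
  · funext u
    simp [evP]

lemma tch_zero (c : Chart k (mb k D.e) R) (v : Fin n → R) (hv : ∀ u, v u = 0) : tch c v = c := by
  apply chart_eq_of_le
  intro x hx
  rw [tch_ideal] at hx
  rw [Chart.mem_ideal]
  have h1 : tauR k v x = x := by
    have h2 : ∀ y : MvPolynomial (Fin n) k, tau k v y = (1 : R) ⊗ₜ[k] y := by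
      intro y
      have h3 : tau k v = (Algebra.TensorProduct.includeRight :
          MvPolynomial (Fin n) k →ₐ[k] R ⊗[k] MvPolynomial (Fin n) k) := by
        apply MvPolynomial.algHom_ext
        intro i
        rw [tau_X, hv, TensorProduct.zero_tmul, add_zero]
        rfl
      rw [h3]
      rfl
    induction x using TensorProduct.induction_on with
    | zero => simp
    | tmul a y => rw [tauR_tmul, h2, TensorProduct.smul_tmul', smul_eq_mul, mul_one]
    | add x y hx' hy' =>
      have h4 : ∀ x : R ⊗[k] MvPolynomial (Fin n) k, tauR k v x = x := by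
        intro x
        induction x using TensorProduct.induction_on with
        | zero => simp
        | tmul a y => rw [tauR_tmul, h2, TensorProduct.smul_tmul', smul_eq_mul, mul_one]
        | add x y hx hy => rw [map_add, hx, hy]
      exact h4 _
  rw [h1] at hx
  exact hx

end univ

section arcs
variable {k : Type u} [Field k] {n d : ℕ} {D : QData n d} {a : D.N → D.E → k}

/-- the arc of quadratic coefficients -/
noncomputable def aS (a G : D.N → D.E → k) : D.N → D.E → PowerSeries k :=
  fun i j => PowerSeries.C (a i j) + PowerSeries.X * PowerSeries.C (G i j)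

/-- the arc of translations -/
noncomputable def vS (μ : Fin n → k) : Fin n → PowerSeries k :=
  fun u => PowerSeries.X * PowerSeries.C (μ u)

lemma arc_map (G : D.N → D.E → k) (μ : Fin n → k) :
    (tch (qchart (k := k) D (aS a G)) (vS μ)).map (rho k) =
      tch (qchart (k := k) D (aeps a G)) (vmu μ) := by
  rw [tch_map, qchart_map]
  congr 1
  · congr 1
    funext i j
    rw [aS, map_add, rho_XC, rho_C]
    rfl
  · funext u
    rw [vS, rho_XC]
    rfl

/-- near the base point every function vanishing on the family vanishes -/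
theorem loc_main (h : TNT D a) [Infinite k] (f : AR k (mb k D.e))
    (hf : clf (cU k D) f = 0) : ∃ u, clf (qchart D a) u ≠ 0 ∧ u * f = 0 := by
  have := noetherian_AR (k := k) (mb k D.e)
  refine Pool.Agent.Helper413.Gal.loc_lemma (clf (qchart D a)) (RingHom.ker (clf (cU k D))) ?_ f hf
  intro φ hφ
  set c := (uc k (mb k D.e)).map φ with hc
  have hc1 : ∀ x j, (c.q x j).fst = (qchart D a).q x j := by
    intro x j
    rw [hc, Chart.map_q, hφ, ← Chart.map_q, uc_map_clf]
  obtain ⟨G, μ, hch⟩ := tangent c hc1 h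
  refine ⟨clf (tch (qchart (k := k) D (aS a G)) (vS μ)), ?_, ?_⟩
  · intro g hg
    rw [← cU_evP, clf_map, AlgHom.comp_apply]
    rw [RingHom.mem_ker] at hg
    rw [hg, map_zero]
  · have h3 : (rho k).comp (clf (tch (qchart (k := k) D (aS a G)) (vS μ))) = φ := by
      rw [← clf_map]
      apply hom_ext_uc
      rw [uc_map_clf, arc_map, ← hch]
    intro g
    have h4 := congrArg (fun ψ : AR k (mb k D.e) →ₐ[k] DualNumber k => ψ g) h3
    simp only [AlgHom.comp_apply, rho_apply] at h4
    constructor
    · rw [← hφ g, ← h4]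
      simp
    · rw [← h4]
      simp

lemma exists_u (h : TNT D a) [Infinite k] : ∃ u : AR k (mb k D.e), clf (qchart D a) u ≠ 0 ∧
    ∀ f, clf (cU k D) f = 0 → u * f = 0 := by
  have hn := noetherian_AR (k := k) (mb k D.e)
  obtain ⟨S, hS⟩ := (isNoetherianRing_iff_ideal_fg (AR k (mb k D.e))).1 hn
    (RingHom.ker (clf (cU k D)))
  have h1 : ∀ f : S, ∃ u, clf (qchart D a) u ≠ 0 ∧ u * f.1 = 0 := by
    intro f
    apply loc_main h
    have : f.1 ∈ RingHom.ker (clf (cU k D)) := by
      rw [← hS]
      exact Ideal.subset_span f.2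
    exact this
  choose u hu1 hu2 using h1
  refine ⟨∏ f, u f, ?_, ?_⟩
  · rw [map_prod]
    exact Finset.prod_ne_zero_iff.2 fun f _ => hu1 f
  · intro f hf
    have hf' : f ∈ Ideal.span (S : Set (AR k (mb k D.e))) := by
      rw [hS]
      exact hf
    refine Submodule.span_induction (p := fun f _ => (∏ f, u f) * f = 0) ?_ ?_ ?_ ?_ hf'
    · intro g hg
      have h3 : u ⟨g, hg⟩ ∣ ∏ f, u f := Finset.dvd_prod_of_mem _ (Finset.mem_univ _)
      obtain ⟨w, hw⟩ := h3
      rw [hw]
      have h4 := hu2 ⟨g, hg⟩
      simp only at h4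
      rw [mul_comm (u ⟨g, hg⟩), mul_assoc, h4, mul_zero]
    · rw [mul_zero]
    · intro a b _ _ ha hb
      rw [mul_add, ha, hb, add_zero]
    · intro a b _ hb
      rw [smul_eq_mul, mul_left_comm, hb, mul_zero]

end arcs

section comp
variable (k : Type u) [Field k] {n d : ℕ} (D : QData n d)

/-- the closure of the family -/
def ZZ : Set (HilbS k (MvPolynomial (Fin n) k) d) := closure (Set.range (mor (cU k D)))

variable {k D} {a : D.N → D.E → k}

lemma ZZ_irreducible : IsIrreducible (ZZ k D) := by
  unfold ZZ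
  apply IsIrreducible.closure
  rw [← Set.image_univ]
  have : IrreducibleSpace (Spec (CommRingCat.of (PP k D))) :=
    inferInstanceAs (IrreducibleSpace (PrimeSpectrum (PP k D)))
  exact (IrreducibleSpace.isIrreducible_univ _).image _ (mor (cU k D)).continuous.continuousOn

/-- members of the family lie in the closed set -/
lemma fam_mem (c : Chart k (mb k D.e) k) (φ : PP k D →ₐ[k] k) (h : (cU k D).map φ = c) :
    chartι k (Idx.single (mb k D.e)) (zp c) ∈ ZZ k D := by
  apply subset_closure
  let y0 : Spec (CommRingCat.of k) := (⟨⊥, Ideal.isPrime_bot⟩ : PrimeSpectrum k)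
  have h1 : chartι k (Idx.single (mb k D.e)) (zp c) = mor c y0 :=
    ((mem_range_mor_iff c _).1 ⟨y0, rfl⟩).symm
  rw [h1, ← h, mor_map]
  exact ⟨Spec.map (CommRingCat.ofHom φ.toRingHom) y0, rfl⟩

/-- points near the base point lie in the closed set -/
lemma mem_ZZ_of_u {u : AR k (mb k D.e)} (hu : ∀ f, clf (cU k D) f = 0 → u * f = 0)
    (z : Spec (CommRingCat.of (AR k (mb k D.e)))) (hz : u ∉ z.asIdeal) :
    chartι k (Idx.single (mb k D.e)) z ∈ ZZ k D := by
  have h1 : z ∈ closure (Set.range (Spec.map (CommRingCat.ofHom (clf (cU k D)).toRingHom))) := by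
    have h2 : closure (Set.range (Spec.map (CommRingCat.ofHom (clf (cU k D)).toRingHom))) =
        PrimeSpectrum.zeroLocus (RingHom.ker (clf (cU k D)).toRingHom) :=
      PrimeSpectrum.closure_range_comap _
    rw [h2]
    intro f hf
    have hp : z.asIdeal.IsPrime := z.isPrime
    have h3 : u * f ∈ z.asIdeal := by
      rw [hu f hf]
      exact z.asIdeal.zero_mem
    exact (hp.mem_or_mem h3).resolve_left hz
  have h2 := image_closure_subset_closure_image (chartι k (Idx.single (mb k D.e))).continuous
    (s := Set.range (Spec.map (CommRingCat.ofHom (clf (cU k D)).toRingHom)))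
  have h3 := h2 ⟨_, h1, rfl⟩
  unfold ZZ
  convert h3 using 2
  ext y
  constructor
  · rintro ⟨x, rfl⟩
    exact ⟨_, ⟨x, rfl⟩, rfl⟩
  · rintro ⟨_, ⟨x, rfl⟩, rfl⟩
    exact ⟨x, rfl⟩

theorem comp_unique (h : TNT D a) [Infinite k]
    (Z : Set (HilbS k (MvPolynomial (Fin n) k) d))
    (hZ : Z ∈ irreducibleComponents (HilbS k (MvPolynomial (Fin n) k) d))
    (hx : chartι k (Idx.single (mb k D.e)) (zp (qchart D a)) ∈ Z) : Z = ZZ k D := by
  obtain ⟨u, hu1, hu2⟩ := exists_u h
  have hZc : IsClosed Z := isClosed_of_mem_irreducibleComponents Z hZ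
  let O : Set (HilbS k (MvPolynomial (Fin n) k) d) :=
    chartι k (Idx.single (mb k D.e)) '' {z | u ∉ (z : PrimeSpectrum (AR k (mb k D.e))).asIdeal}
  have hO : IsOpen O := by
    apply (chartι k (Idx.single (mb k D.e))).isOpenEmbedding.isOpenMap
    exact (PrimeSpectrum.basicOpen u).2
  have hOne : (Z ∩ O).Nonempty := ⟨_, hx, zp (qchart D a), hu1, rfl⟩
  have h3 : Z ∩ O ⊆ ZZ k D := by
    rintro _ ⟨_, z, hz, rfl⟩
    exact mem_ZZ_of_u hu2 z hz
  have h4 : Z ⊆ closure (Z ∩ O) :=
    subset_closure_inter_of_isPreirreducible_of_isOpen hZ.1.2 hO hOne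
  have h5 : Z ⊆ ZZ k D := h4.trans (closure_minimal h3 isClosed_closure)
  exact subset_antisymm h5 (hZ.2 ZZ_irreducible h5)

theorem ZZ_mem (h : TNT D a) [Infinite k] :
    ZZ k D ∈ irreducibleComponents (HilbS k (MvPolynomial (Fin n) k) d) := by
  rw [← comp_unique h (irreducibleComponent (chartι k (Idx.single (mb k D.e)) (zp (qchart D a))))
    (irreducibleComponent_mem_irreducibleComponents _) mem_irreducibleComponent]
  exact irreducibleComponent_mem_irreducibleComponents _

end comp

end Pool.Agent.H59.VC
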