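import Mathlib
import Pool.Agent.H59.VC.Arc
import Pool.Graph.R_seed8.Helper17.VCG.Gen
import Pool.Graph.R_pool_sql_team_seeded_f72693b1.W455.Cub.Trans

set_option autoImplicit false
set_option linter.unusedSectionVars false

open scoped TensorProduct
open MvPolynomial CategoryTheory AlgebraicGeometry
open Pool.Agent.Helper226

universe u

namespace Pool.Agent.H59.VC

section base
variable {k : Type u} [Field k] {n d : ℕ} (D D' : QData n d)

/-- the matching of the common monomials -/
noncomputable def sgE : {l // ∃ l', D'.e l' = D.e l} ≃ {l' // ∃ l, D.e l = D'.e l'} where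
  toFun := fun l => ⟨l.2.choose, ⟨l.1, l.2.choose_spec.symm⟩⟩
  invFun := fun l' => ⟨l'.2.choose, ⟨l'.1, l'.2.choose_spec.symm⟩⟩
  left_inv := by
    intro l
    apply Subtype.ext
    apply D.e_inj
    simp only
    generalize_proofs h1 h2
    have e1 := h2.choose_spec
    have e2 := h1.choose_spec
    rw [e1, e2]
  right_inv := by
    intro l
    apply Subtype.ext
    apply D'.e_inj
    simp only
    generalize_proofs h1 h2
    have e1 := h2.choose_spec
    have e2 := h1.choose_spec
    rw [e1, e2]

lemma sgE_spec (l : {l // ∃ l', D'.e l' = D.e l}) : D'.e (sgE D D' l).1 = D.e l.1 :=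
  l.2.choose_spec

open Classical in
/-- a permutation matching the common monomials -/
noncomputable def sg : Equiv.Perm (Fin d) := (sgE D D').extendSubtype

lemma sg_mem (l : Fin d) (h : ∃ l', D'.e l' = D.e l) : D'.e (sg D D' l) = D.e l := by
  have h1 : sg D D' l = (sgE D D' ⟨l, h⟩).1 := by
    classical
    unfold sg
    convert Equiv.extendSubtype_apply_of_mem (sgE D D') l h
  rw [h1, sgE_spec]

lemma sg_notMem (l : Fin d) (h : ¬ ∃ l', D'.e l' = D.e l) :
    ¬ ∃ l', D.e l' = D'.e (sg D D' l) := by
  classical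
  have h1 := Equiv.extendSubtype_not_mem (sgE D D') l h
  unfold sg
  convert h1

open Classical in
/-- the algebra with both monomial bases -/
noncomputable def a1 (k : Type u) [Field k] {n d : ℕ} (D D' : QData n d) : D'.N → D'.E → k :=
  fun i j => if ∃ l, D.e l = D'.nb i ∧ sg D D' l = j.1 then 1 else 0

lemma q_a1 (l : Fin d) :
    (qchart D' (a1 k D D')).q (monomial (D.e l) (1 : k)) = Pi.single (sg D D' l) 1 := by
  by_cases h : ∃ l', D'.e l' = D.e l
  · rw [← sg_mem D D' l h, qchart_q, D'.wfun_e]
  · have h1 : (D.e l).degree = 2 := by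
      by_contra h2
      apply h
      exact D'.e_small _ (by have := D.e_deg l; omega)
    obtain ⟨i, hi⟩ := (D'.cover _ h1).resolve_left h
    have h3 : (D'.e (sg D D' l)).degree = 2 := by
      by_contra h4
      apply sg_notMem D D' l h
      exact D.e_small _ (by have := D'.e_deg (sg D D' l); omega)
    rw [← hi, qchart_q, D'.wfun_nb]
    funext j
    by_cases hj : j = sg D D' l
    · subst hj
      rw [dif_pos h3, Pi.single_eq_same]
      unfold a1
      rw [if_pos ⟨l, hi.symm, rfl⟩]
    · rw [Pi.single_apply, if_neg hj]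
      split_ifs with h5
      · unfold a1
        rw [if_neg]
        rintro ⟨l', h6, h7⟩
        apply hj
        have h8 : l' = l := D.e_inj (h6.trans hi)
        rw [← h8]
        exact h7.symm
      · rfl

lemma isBas_a1 : IsBas (mb k D.e) (qchart D' (a1 k D D')).ideal := by
  apply isBas_of_isUnit_det
  have h1 : tmat (qchart D' (a1 k D D')) (mb k D.e) =
      (1 : Matrix (Fin d) (Fin d) k).submatrix (sg D D') id := by
    ext i j
    rw [tmat, Matrix.of_apply, Matrix.submatrix_apply, Matrix.one_apply]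
    have h2 := congrFun (q_a1 (k := k) D D' i) j
    rw [mb, h2, Pi.single_apply]
    simp only [id, eq_comm]
  rw [h1, Matrix.det_permute, Matrix.det_one, mul_one]
  exact (((Equiv.Perm.sign (sg D D')).isUnit).map (Int.castRingHom k))

end base

section chg
variable {k : Type u} [Field k] {n d : ℕ} {D D' : QData n d}

lemma tauR_ideal_isBas {R : Type u} [CommRing R] [Algebra k R] (c : Chart k (mb k D'.e) R)
    (v : Fin n → R) (h : IsBas (mb k D.e) c.ideal) : IsBas (mb k D.e) (tch c v).ideal := by
  obtain ⟨c3, hc3⟩ := h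
  refine ⟨tch c3 v, ?_⟩
  ext x
  rw [tch_ideal, tch_ideal, ← Chart.mem_ideal, ← Chart.mem_ideal, hc3]

lemma tch_bounds (a : D.N → D.E → k) (v : Fin n → k) :
    pointIdeal v ^ 3 ≤ (tch (qchart D a) v).ker ∧ (tch (qchart D a) v).ker ≤ pointIdeal v ^ 2 := by
  constructor
  · intro x hx
    rw [tch_ker]
    exact qchart_cube D a ((mem_pointIdeal_pow_iff v 3 x).1 hx)
  · intro x hx
    rw [tch_ker] at hx
    exact (mem_pointIdeal_pow_iff v 2 x).2 (qchart_sq D a hx)

lemma ideal_eq_of_ker_eq {b b' : Fin d → MvPolynomial (Fin n) k} {c : Chart k b k}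
    {c' : Chart k b' k} (h : c.ker = c'.ker) : c.ideal = c'.ideal := by
  apply Pool.Agent.W455.Cub.comap_includeRight_injective
  exact h

/-- an ideal with a basis of monomials is in the family -/
lemma exists_eq_tch (c : Chart k (mb k D.e) k) (v : Fin n → k) (h3 : pointIdeal v ^ 3 ≤ c.ker)
    (h2 : c.ker ≤ pointIdeal v ^ 2) : ∃ a : D.N → D.E → k, c = tch (qchart D a) v := by
  obtain ⟨a, ha⟩ := exists_normal D c v h3 h2
  refine ⟨a, ?_⟩
  apply Chart.ideal_injective
  apply ideal_eq_of_ker_eq
  ext x
  rw [ha, tch_ker]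

lemma chartι_zp_eq {b b' : Fin d → MvPolynomial (Fin n) k} (c : Chart k b k) (c' : Chart k b' k)
    (h : c.ideal = c'.ideal) :
    chartι k (Idx.single b) (zp c) = chartι k (Idx.single b') (zp c') := by
  let y0 : Spec (CommRingCat.of k) := (⟨⊥, Ideal.isPrime_bot⟩ : PrimeSpectrum k)
  rw [← (mem_range_mor_iff c _).1 ⟨y0, rfl⟩, ← (mem_range_mor_iff c' _).1 ⟨y0, rfl⟩,
    mor_eq_of_ideal_eq c c' h]

lemma mem_ZZ_of_ideal_eq {b : Fin d → MvPolynomial (Fin n) k} (c : Chart k b k)
    (v : Fin n → k) (h3 : pointIdeal v ^ 3 ≤ c.ker) (h2 : c.ker ≤ pointIdeal v ^ 2)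
    (h : IsBas (mb k D.e) c.ideal) : chartι k (Idx.single b) (zp c) ∈ ZZ k D := by
  obtain ⟨c', hc'⟩ := h
  have hker : c'.ker = c.ker := by
    unfold Chart.ker
    rw [hc']
  obtain ⟨a, ha⟩ := exists_eq_tch c' v (hker ▸ h3) (hker ▸ h2)
  rw [chartι_zp_eq c c' hc'.symm]
  apply fam_mem c' (evP a v)
  rw [cU_evP, ha]

/-- all the families have the same closure -/
theorem fam_mem_other [Infinite k] (a : D'.N → D'.E → k) (v : Fin n → k) :
    chartι k (Idx.single (mb k D'.e)) (zp (tch (qchart D' a) v)) ∈ ZZ k D := by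
  let at' : D'.N → D'.E → Polynomial k := fun i j =>
    Polynomial.C (a i j) + Polynomial.X * Polynomial.C (a1 k D D' i j - a i j)
  let ct : Chart k (mb k D'.e) (Polynomial k) :=
    tch (qchart D' at') (fun u => Polynomial.C (v u))
  let δ : Polynomial k := (tmat ct (mb k D.e)).det
  have hev : ∀ s : k, ct.map (Polynomial.aeval s) =
      tch (qchart D' (fun i j => a i j + s * (a1 k D D' i j - a i j))) v := by
    intro s
    change (tch (qchart D' at') (fun u => Polynomial.C (v u))).map _ = _
    rw [tch_map, qchart_map]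
    congr 1
    · congr 1
      funext i j
      simp [at']
    · funext u
      simp
  have hδ : ∀ s : k, δ.eval s = (tmat (ct.map (Polynomial.aeval s)) (mb k D.e)).det := by
    intro s
    rw [tmat_map]
    change Polynomial.eval s (tmat ct (mb k D.e)).det = _
    rw [← Polynomial.coe_aeval_eq_eval, AlgHom.map_det]
    rfl
  have hδ1 : δ ≠ 0 := by
    intro h0
    have h1 : IsUnit (δ.eval 1) := by
      rw [hδ, hev]
      apply isUnit_det_of_isBas
      apply tauR_ideal_isBas
      have : (fun i j => a i j + 1 * (a1 k D D' i j - a i j)) = a1 k D D' := by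
        funext i j
        ring
      rw [this]
      exact isBas_a1 D D'
    rw [h0, Polynomial.eval_zero] at h1
    exact not_isUnit_zero h1
  have hgood : ∀ s : k, δ.eval s ≠ 0 →
      chartι k (Idx.single (mb k D'.e)) (zp (ct.map (Polynomial.aeval s))) ∈ ZZ k D := by
    intro s hs
    have h1 := tch_bounds (D := D') (fun i j => a i j + s * (a1 k D D' i j - a i j)) v
    rw [← hev] at h1
    refine mem_ZZ_of_ideal_eq _ v h1.1 h1.2 ?_
    apply isBas_of_isUnit_det
    apply IsUnit.mk0
    rw [← hδ]
    exact hs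
  -- the closed preimage in the line
  let y0 : Spec (CommRingCat.of k) := (⟨⊥, Ideal.isPrime_bot⟩ : PrimeSpectrum k)
  let pt : k → Spec (CommRingCat.of (Polynomial k)) := fun s =>
    Spec.map (CommRingCat.ofHom (Polynomial.aeval (R := k) s).toRingHom) y0
  have hpt : ∀ s, chartι k (Idx.single (mb k D'.e)) (zp (ct.map (Polynomial.aeval s))) =
      mor ct (pt s) := by
    intro s
    rw [← (mem_range_mor_iff (ct.map (Polynomial.aeval s)) _).1 ⟨y0, rfl⟩, mor_map]
    rfl
  have hclosed : IsClosed (mor ct ⁻¹' (ZZ k D)) := by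
    have : IsClosed (ZZ k D) := isClosed_closure
    exact this.preimage (mor ct).continuous
  obtain ⟨I, hI⟩ := (PrimeSpectrum.isClosed_iff_zeroLocus_ideal
    (mor ct ⁻¹' (ZZ k D) : Set (PrimeSpectrum (Polynomial k)))).1 hclosed
  have hI0 : ∀ f ∈ I, f = 0 := by
    intro f hf
    have h1 : f * δ = 0 := by
      apply Polynomial.funext
      intro s
      rw [Polynomial.eval_mul, Polynomial.eval_zero]
      by_cases hs : δ.eval s = 0
      · rw [hs, mul_zero]
      · have h2 : (pt s : PrimeSpectrum (Polynomial k)) ∈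
            (mor ct ⁻¹' (ZZ k D) : Set (PrimeSpectrum (Polynomial k))) := by
          change mor ct (pt s) ∈ ZZ k D
          rw [← hpt]
          exact hgood s hs
        rw [hI] at h2
        have h3 : f ∈ (pt s).asIdeal := h2 hf
        have h4 : (pt s).asIdeal = RingHom.ker (Polynomial.aeval (R := k) s) :=
          range_specMap_field _ _
        rw [h4, RingHom.mem_ker, Polynomial.coe_aeval_eq_eval] at h3
        rw [h3, zero_mul]
    exact (mul_eq_zero.1 h1).resolve_right hδ1
  have h5 : (pt 0 : PrimeSpectrum (Polynomial k)) ∈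
      (mor ct ⁻¹' (ZZ k D) : Set (PrimeSpectrum (Polynomial k))) := by
    rw [hI]
    intro f hf
    rw [hI0 f hf]
    exact (pt 0).asIdeal.zero_mem
  have h6 : mor ct (pt 0) ∈ ZZ k D := h5
  rw [← hpt, hev] at h6
  convert h6 using 5
  funext i j
  ring

end chg

end Pool.Agent.H59.VC
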