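import Mathlib
import Pool.Agent.H59.VC.Chg

set_option autoImplicit false
set_option linter.unusedSectionVars false

open scoped TensorProduct
open MvPolynomial CategoryTheory AlgebraicGeometry
open Pool.Agent.Helper226
open Pool.Agent.Helper17.VCG

universe u

namespace Pool.Agent.H59.VC

section trans
variable {k : Type u} [Field k] {n : ℕ}

lemma mem_sup_tr (v : Fin n → k) {I I' J J' : Ideal (MvPolynomial (Fin n) k)}
    (hI : ∀ x, x ∈ I' ↔ tr v x ∈ I) (hJ : ∀ x, x ∈ J' ↔ tr v x ∈ J) (x : MvPolynomial (Fin n) k) :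
    x ∈ J' ⊔ I' ↔ tr v x ∈ J ⊔ I := by
  constructor
  · intro hx
    obtain ⟨y, hy, z, hz, rfl⟩ := Submodule.mem_sup.1 hx
    rw [map_add]
    exact Submodule.add_mem_sup ((hJ y).1 hy) ((hI z).1 hz)
  · intro hx
    obtain ⟨y, hy, z, hz, h⟩ := Submodule.mem_sup.1 hx
    have h1 : x = (tr v).symm y + (tr v).symm z := by
      rw [← map_add, h, AlgEquiv.symm_apply_apply]
    rw [h1]
    refine Submodule.add_mem_sup ((hJ _).2 ?_) ((hI _).2 ?_)
    · rwa [AlgEquiv.apply_symm_apply]
    · rwa [AlgEquiv.apply_symm_apply]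

lemma hilbFn_tr (v : Fin n → k) {I I' m m' : Ideal (MvPolynomial (Fin n) k)}
    (hI : ∀ x, x ∈ I' ↔ tr v x ∈ I) (hm : ∀ N x, x ∈ m' ^ N ↔ tr v x ∈ m ^ N) (i : ℕ) :
    hilbFn I' m' i = hilbFn I m i := by
  have key : ∀ N x, x ∈ powSub I' m' N ↔ tr v x ∈ powSub I m N := by
    intro N x
    rw [mem_powSub, mem_powSub]
    exact mem_sup_tr v hI (hm N) x
  let φ : powSub I' m' i →ₗ[k] powSub I m i :=
    ((tr v).toLinearMap.restrict (fun x hx => (key i x).1 hx))
  unfold hilbFn
  refine finrank_quot _ _ (((powSub I m (i + 1)).submoduleOf (powSub I m i)).mkQ ∘ₗ φ) ?_ ?_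
  · intro y
    obtain ⟨y, rfl⟩ := Submodule.mkQ_surjective _ y
    refine ⟨⟨(tr v).symm y.1, ?_⟩, ?_⟩
    · rw [key, AlgEquiv.apply_symm_apply]
      exact y.2
    · rw [LinearMap.comp_apply]
      congr 1
      apply Subtype.ext
      change tr v ((tr v).symm y.1) = y.1
      rw [AlgEquiv.apply_symm_apply]
  · intro x
    rw [LinearMap.comp_apply, Submodule.mkQ_apply, Submodule.Quotient.mk_eq_zero]
    change tr v x.1 ∈ powSub I m (i + 1) ↔ _
    rw [key]

lemma tr_tr (v w : Fin n → k) (x : MvPolynomial (Fin n) k) : tr w (tr v x) = tr (w + v) x := by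
  have h : (tr w : MvPolynomial (Fin n) k →ₐ[k] MvPolynomial (Fin n) k).comp
      (tr v : MvPolynomial (Fin n) k →ₐ[k] MvPolynomial (Fin n) k) =
      (tr (w + v) : MvPolynomial (Fin n) k →ₐ[k] MvPolynomial (Fin n) k) := by
    apply MvPolynomial.algHom_ext
    intro i
    change tr w (tr v (X i)) = tr (w + v) (X i)
    rw [tr_X, tr_X, map_add, tr_X, tr_C, Pi.add_apply, C_add]
    ring
  exact congrArg (fun f : MvPolynomial (Fin n) k →ₐ[k] MvPolynomial (Fin n) k => f x) h

lemma isVeryCompressed_tr (d : ℕ) (v : Fin n → k) {I I' : Ideal (MvPolynomial (Fin n) k)}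
    (hI : ∀ x, x ∈ I' ↔ tr v x ∈ I) (h : IsVeryCompressed d I) : IsVeryCompressed d I' := by
  obtain ⟨w, s, h1, h2, h3, h4, h5, h6⟩ := h
  have hm : ∀ N x, x ∈ pointIdeal (w + v) ^ N ↔ tr v x ∈ pointIdeal w ^ N := by
    intro N x
    rw [mem_pointIdeal_pow_iff, mem_pointIdeal_pow_iff, tr_tr]
  refine ⟨w + v, s, h1, h2, ?_, ?_, ?_, ?_⟩
  · ext x
    have e1 : x ∈ I'.radical ↔ tr v x ∈ I.radical := by
      rw [Ideal.mem_radical_iff, Ideal.mem_radical_iff]
      refine exists_congr fun N => ?_
      rw [hI, map_pow]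
    rw [e1, h3]
    have e2 := hm 1 x
    rw [pow_one, pow_one] at e2
    exact e2.symm
  · intro i hi
    rw [hilbFn_tr v hI hm, h4 i hi]
  · rw [hilbFn_tr v hI hm, h5]
  · intro i hi
    rw [hilbFn_tr v hI hm, h6 i hi]

end trans

section sub
variable {k : Type u} [Field k] [IsAlgClosed k] {n d : ℕ} (D : QData n d)

lemma card_E_eq (D : QData n d) : Fintype.card D.E + (n + 1) = d := by
  classical
  have h1 : Fintype.card (Fin d) = Fintype.card D.E +
      Fintype.card {j : Fin d // ¬ (D.e j).degree = 2} := by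
    rw [Fintype.card_subtype_compl, ← Nat.add_sub_assoc (Fintype.card_subtype_le _)]
    simp
  have h2 : Fintype.card {j : Fin d // ¬ (D.e j).degree = 2} = Fintype.card (Option (Fin n)) := by
    refine Fintype.card_congr (Equiv.ofBijective (fun j : {j : Fin d // ¬ (D.e j).degree = 2} =>
      if h : (D.e j.1).degree = 1 then some (exists_single_of_degree_one _ h).choose else none)
      ⟨?_, ?_⟩)
    · intro j j' hjj
      simp only at hjj
      apply Subtype.ext
      apply D.e_inj
      have hj := D.e_deg j.1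
      have hj' := D.e_deg j'.1
      have hj2 := j.2
      have hj2' := j'.2
      split_ifs at hjj with e1 e2 e2
      · rw [(exists_single_of_degree_one _ e1).choose_spec,
          (exists_single_of_degree_one _ e2).choose_spec]
        rw [Option.some.inj hjj]
      · rw [(Finsupp.degree_eq_zero_iff _).1 (show (D.e j.1).degree = 0 by omega),
          (Finsupp.degree_eq_zero_iff _).1 (show (D.e j'.1).degree = 0 by omega)]
    · rintro (_ | u)
      · refine ⟨⟨j0 D, by rw [e_j0]; simp⟩, ?_⟩
        simp only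
        rw [dif_neg]
        simp [e_j0]
      · refine ⟨⟨jX D u, by rw [e_jX]; simp⟩, ?_⟩
        have h3 : (D.e (jX D u)).degree = 1 := by rw [e_jX]; simp
        simp only
        rw [dif_pos h3]
        congr 1
        have h4 := (exists_single_of_degree_one _ h3).choose_spec
        exact (Finsupp.single_left_injective one_ne_zero ((e_jX D u).symm.trans h4)).symm
  rw [Fintype.card_fin, h2, Fintype.card_option, Fintype.card_fin] at h1
  exact h1.symm

lemma vc_tch (hn : 1 ≤ n) (hd1 : n + 1 < d) (hd2 : d ≤ (n + 2).choose n)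
    (a : D.N → D.E → k) (v : Fin n → k) : IsVeryCompressed d (tch (qchart D a) v).ker := by
  have hE : Fintype.card D.E = d - (n + 1) := by
    have := card_E_eq D
    omega
  exact isVeryCompressed_tr d v (fun x => tch_ker (qchart D a) v x)
    (isVeryCompressed_of_bounds D (qchart D a) hn hd1 hd2 hE (qchart_cube D a) (qchart_sq D a))

lemma ZZ_subset (P : Ideal (MvPolynomial (Fin n) k) → Prop)
    (hP : ∀ (a : D.N → D.E → k) (v : Fin n → k), P (tch (qchart D a) v).ker) :
    ZZ k D ⊆ closure ((hilb k (MvPolynomial (Fin n) k) d).locus P) := by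
  unfold ZZ
  apply closure_minimal _ isClosed_closure
  rintro _ ⟨o, rfl⟩
  refine mem_closure_iff.2 ?_
  intro U hU hoU
  have hJ : JacobsonSpace (PrimeSpectrum (PP k D)) :=
    PrimeSpectrum.isJacobsonRing_iff_jacobsonSpace.1 (isJacobsonRing_of_finiteType (A := k))
  have hV : IsOpen ((mor (cU k D)) ⁻¹' U) := hU.preimage (mor (cU k D)).continuous
  obtain ⟨M, hMV, hMc⟩ := @nonempty_inter_closedPoints
    (PrimeSpectrum (PP k D)) _ hJ
    ((mor (cU k D)) ⁻¹' U) ⟨o, hoU⟩ hV.isLocallyClosed
  have hM : M.asIdeal.IsMaximal := (PrimeSpectrum.isClosed_singleton_iff_isMaximal M).1 hMc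
  obtain ⟨g, hg⟩ := exists_hom_of_maximal (k := k) M.asIdeal hM
  refine ⟨mor (cU k D) M, hMV, ?_⟩
  apply mem_locus_of_chart ((cU k D).map g) P
  · rw [cU_map]
    exact hP _ _
  · exact mor_point _ g M hg.symm

end sub

section mono
variable {k : Type u} [Field k] {n d : ℕ}

/-- every ideal between the cube and the square has a monomial basis -/
theorem exists_mono_basis {b : Fin d → MvPolynomial (Fin n) k} (c : Chart k b k)
    (h3 : idealOfVars (Fin n) k ^ 3 ≤ c.ker) (h2 : c.ker ≤ idealOfVars (Fin n) k ^ 2) :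
    ∃ D' : QData n d, IsBas (mb k D'.e) c.ideal := by
  classical
  let f : (Fin n →₀ ℕ) → (Fin d → k) := fun μ => c.q (monomial μ (1 : k))
  let s : Set (Fin n →₀ ℕ) := {μ | μ.degree ≤ 1}
  let t : Set (Fin n →₀ ℕ) := {μ | μ.degree ≤ 2}
  have hst : s ⊆ t := by
    intro μ hμ
    have h4 : μ.degree ≤ 1 := hμ
    change μ.degree ≤ 2
    omega
  have hfin : t.Finite := by
    have : t = ((S1 n ∪ S2 n : Finset (Fin n →₀ ℕ)) : Set (Fin n →₀ ℕ)) := by
      ext μ
      rw [Finset.coe_union, Set.mem_union, Finset.mem_coe, Finset.mem_coe, mem_S1, mem_S2]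
      change μ.degree ≤ 2 ↔ _
      omega
    rw [this]
    exact Finset.finite_toSet _
  have hli : LinearIndepOn k f s := by
    rw [linearIndepOn_iff]
    intro l hl hl0
    have h4 : Finsupp.linearCombination k (fun μ => (monomial μ (1 : k) :
        MvPolynomial (Fin n) k)) l ∈ c.ker := by
      rw [Chart.mem_ker, Finsupp.linearCombination_apply, Finsupp.sum, map_sum]
      simp only [map_smul]
      rw [Finsupp.linearCombination_apply, Finsupp.sum] at hl0
      exact hl0
    ext μ
    rw [Finsupp.coe_zero, Pi.zero_apply]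
    by_cases hμ : μ ∈ l.support
    · have h5 : μ.degree ≤ 1 := (Finsupp.mem_supported k l).1 hl hμ
      have h6 := (mem_pow_idealOfVars_iff' 2 _).1 (h2 h4) μ (by omega)
      rw [Finsupp.linearCombination_apply, Finsupp.sum, coeff_sum, Finset.sum_eq_single μ] at h6
      · simpa using h6
      · intro ν _ hν
        rw [coeff_smul, coeff_monomial, if_neg hν, smul_zero]
      · intro h7
        exact absurd hμ h7
    · exact Finsupp.notMem_support_iff.1 hμ
  set B := hli.extend hst with hB
  have hBt : B ⊆ t := hli.extend_subset hst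
  have hsB : s ⊆ B := hli.subset_extend hst
  have hBli : LinearIndepOn k f B := hli.linearIndepOn_extend hst
  have hspan : Submodule.span k (f '' B) = ⊤ := by
    rw [hB, hli.span_image_extend_eq_span_image hst, eq_top_iff]
    intro y _
    have hsurj : ∃ x, c.q x = y := by
      refine ⟨∑ i, y i • b i, ?_⟩
      rw [map_sum]
      ext j
      simp [c.q_b, Pi.single_apply]
    obtain ⟨x, rfl⟩ := hsurj
    rw [chart_q_eq_sum]
    refine Submodule.sum_mem _ fun μ _ => Submodule.smul_mem _ _ ?_
    by_cases hμ : μ.degree ≤ 2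
    · exact Submodule.subset_span ⟨μ, hμ, rfl⟩
    · have h5 : (monomial μ 1 : MvPolynomial (Fin n) k) ∈ c.ker := by
        apply h3
        rw [monomial_mem_pow_idealOfVars_iff _ _ one_ne_zero]
        omega
      rw [(Chart.mem_ker c _).1 h5]
      exact Submodule.zero_mem _
  have hBfin : B.Finite := hfin.subset hBt
  let BF : Finset (Fin n →₀ ℕ) := hBfin.toFinset
  have hcard : BF.card = d := by
    have : Fintype B := hBfin.fintype
    let bas : Module.Basis B k (Fin d → k) := Module.Basis.mk (v := fun x : B => f x) hBli (by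
      rw [← hspan, Set.image_eq_range])
    have h5 := Module.finrank_eq_card_basis bas
    rw [Module.finrank_fin_fun, ← Set.toFinset_card] at h5
    rw [h5]
    congr 1
    ext μ
    simp [BF]
  let M : Finset (Fin n →₀ ℕ) := BF.filter fun μ => μ.degree = 2
  have hM : M ⊆ S2 n := by
    intro μ hμ
    rw [mem_S2]
    exact (Finset.mem_filter.1 hμ).2
  have hBM : S1 n ∪ M = BF := by
    ext μ
    rw [Finset.mem_union, mem_S1, Finset.mem_filter, Set.Finite.mem_toFinset]
    constructor
    · rintro (h | h)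
      · exact hsB h
      · exact h.1
    · intro h
      have h5 : μ.degree ≤ 2 := hBt h
      by_cases h6 : μ.degree ≤ 1
      · exact Or.inl h6
      · exact Or.inr ⟨h, by omega⟩
  have hd : n + 1 + M.card = d := by
    rw [← card_B M hM, hBM, hcard]
  refine ⟨DD M hM d hd, ?_⟩
  apply isBas_of_isUnit_det
  rw [← Matrix.isUnit_iff_isUnit_det, ← Matrix.linearIndependent_rows_iff_isUnit]
  have hmem : ∀ j, (DD M hM d hd).e j ∈ B := by
    intro j
    have h5 : (DD M hM d hd).e j ∈ S1 n ∪ M := ((ee M hM d hd).symm j).2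
    rw [hBM] at h5
    exact (Set.Finite.mem_toFinset hBfin).1 h5
  have h6 := hBli.comp (fun j : Fin d => (⟨(DD M hM d hd).e j, hmem j⟩ : B)) (by
    intro i j hij
    have hij' : (DD M hM d hd).e i = (DD M hM d hd).e j := Subtype.mk.inj hij
    exact (DD M hM d hd).e_inj hij')
  exact h6

end mono

section final
variable {k : Type u} [Field k] [IsAlgClosed k] {n d : ℕ} (D : QData n d)

/-- the locus of very compressed algebras lies in the closure of the family -/
theorem locus_subset (hn : 1 ≤ n) (hd1 : n + 1 < d) (hd2 : d ≤ (n + 2).choose n) :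
    (hilb k (MvPolynomial (Fin n) k) d).locus (IsVeryCompressed d) ⊆ ZZ k D := by
  have hinf : Infinite k := IsAlgClosed.instInfinite
  intro x hx
  obtain ⟨b, c, hP, hr⟩ := exists_chart_of_mem_locus _ x hx
  rw [mem_range_mor_iff] at hr
  rw [hr]
  have hfin := Module.Finite.equiv c.quotEquiv.symm
  obtain ⟨v, h3, h2⟩ := bounds_of_isVeryCompressed hd1 hd2 hn c.ker hP
  set c' := c.trans (tr v).symm with hc'
  have hmem : ∀ x, x ∈ c'.ker ↔ (tr v).symm x ∈ c.ker := by
    intro x
    rw [hc', Chart.mem_trans_ker]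
  have h3' : idealOfVars (Fin n) k ^ 3 ≤ c'.ker := by
    intro x hx
    rw [hmem]
    apply h3
    rw [mem_pointIdeal_pow_iff, AlgEquiv.apply_symm_apply]
    exact hx
  have h2' : c'.ker ≤ idealOfVars (Fin n) k ^ 2 := by
    intro x hx
    rw [hmem] at hx
    have := h2 hx
    rwa [mem_pointIdeal_pow_iff, AlgEquiv.apply_symm_apply] at this
  obtain ⟨D', c3, hc3⟩ := exists_mono_basis c' h3' h2'
  have hker3 : c3.ker = c'.ker := by
    unfold Chart.ker
    rw [hc3]
  have hker : (tch c3 v).ker = c.ker := by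
    ext y
    rw [tch_ker, hker3, hmem, AlgEquiv.symm_apply_apply]
  obtain ⟨a, ha⟩ := exists_eq_tch (tch c3 v) v (hker ▸ h3) (hker ▸ h2)
  rw [chartι_zp_eq c (tch c3 v) (ideal_eq_of_ker_eq hker.symm), ha]
  exact fam_mem_other a v

theorem closure_locus (hn : 1 ≤ n) (hd1 : n + 1 < d) (hd2 : d ≤ (n + 2).choose n) :
    closure ((hilb k (MvPolynomial (Fin n) k) d).locus (IsVeryCompressed d)) = ZZ k D := by
  apply subset_antisymm
  · exact closure_minimal (locus_subset D hn hd1 hd2) isClosed_closure
  · exact ZZ_subset D _ (fun a v => vc_tch D hn hd1 hd2 a v)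

/-- trivial negative tangents at one point make the locus a component -/
theorem component_of_TNT (hn : 1 ≤ n) (hd1 : n + 1 < d) (hd2 : d ≤ (n + 2).choose n)
    (a : D.N → D.E → k) (h : TNT D a) :
    closure ((hilb k (MvPolynomial (Fin n) k) d).locus (IsVeryCompressed d)) ∈
      irreducibleComponents (HilbS k (MvPolynomial (Fin n) k) d) := by
  have hinf : Infinite k := IsAlgClosed.instInfinite
  rw [closure_locus D hn hd1 hd2]
  exact ZZ_mem h

end final

end Pool.Agent.H59.VC
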