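import Mathlib
import Pool.Agent.H59.VC.Locus

set_option autoImplicit false
set_option linter.unusedSectionVars false

open scoped TensorProduct
open MvPolynomial
open Pool.Agent.Helper226
open Pool.Agent.Helper17.VCG

universe u

namespace Pool.Agent.H59.VC

/-- A graded algebra `k ⊕ V ⊕ A₂` in coordinates: `m p q` are the coordinates of the product of
the variables `p` and `q` in the basis of `A₂` indexed by `EI`; the basis element `e` is the
product of the two variables `rep e`. -/
structure AD (k : Type u) [Field k] (U EI : Type) [DecidableEq EI] where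
  m : U → U → EI → k
  rep : EI → U × U
  symm : ∀ p q e, m p q e = m q p e
  m_rep : ∀ e e', m (rep e).1 (rep e).2 e' = if e = e' then 1 else 0
  m_sq : ∀ p e, m p p e = 0

/-- trivial negative tangents for such an algebra -/
structure AD.Good {k : Type u} [Field k] {U EI : Type} [Fintype U] [DecidableEq EI] [Fintype EI]
    (A : AD k U EI) : Prop where
  gen : ∀ (R : Type u) [CommRing R] [Algebra k R] (x : U → R),
    (∀ p q, x p * x q = ∑ e, A.m p q e • (x (A.rep e).1 * x (A.rep e).2)) →
    ∀ p q r, x p * x q * x r = 0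
  tan : ∀ (T : U → U → U → k) (D : U → U → U → EI → k),
    (∀ p q, T p q = T q p) → (∀ e, T (A.rep e).1 (A.rep e).2 = 0) → (∀ p, T p p p = 0) →
    (∀ p q r, D p q r = D q p r) → (∀ p q r, D p q r = D p r q) →
    (∀ p q r e, D p q r e = ∑ e', A.m p q e' * D (A.rep e').1 (A.rep e').2 r e +
      ∑ u, T p q u * A.m u r e) →
    ∀ p q, T p q = 0

namespace AD

variable {k : Type u} [Field k] {U EI : Type} [Fintype U] [DecidableEq U] [DecidableEq EI]
  [Fintype EI] (A : AD k U EI)

lemma rep_ne (e : EI) : (A.rep e).1 ≠ (A.rep e).2 := by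
  intro h
  have h1 := A.m_rep e e
  rw [if_pos rfl, h, A.m_sq] at h1
  exact zero_ne_one h1

/-- the derivation attached to a vector -/
def TD (μ : U → k) (p q u : U) : k :=
  (if u = q then μ p else 0) + (if u = p then μ q else 0) -
    ∑ e, A.m p q e * ((if u = (A.rep e).2 then μ (A.rep e).1 else 0) +
      (if u = (A.rep e).1 then μ (A.rep e).2 else 0))

/-- the derivation on cubics -/
def DDv (μ : U → k) (p q r : U) (e : EI) : k :=
  μ p * A.m q r e + μ q * A.m p r e + μ r * A.m p q e

lemma TD_symm (μ : U → k) (p q : U) : A.TD μ p q = A.TD μ q p := by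
  funext u
  unfold TD
  simp only [A.symm q p]
  ring

lemma TD_rep (μ : U → k) (e : EI) : A.TD μ (A.rep e).1 (A.rep e).2 = 0 := by
  funext u
  unfold TD
  simp only [A.m_rep, ite_mul, one_mul, zero_mul, Finset.sum_ite_eq, Finset.mem_univ, if_true,
    Pi.zero_apply]
  ring

lemma TD_sq (μ : U → k) (p : U) : A.TD μ p p p = 2 * μ p := by
  unfold TD
  simp only [A.m_sq, zero_mul, Finset.sum_const_zero, if_true, sub_zero]
  ring

lemma rel_TD (μ : U → k) (p q r : U) (e : EI) : A.DDv μ p q r e =
    ∑ e', A.m p q e' * A.DDv μ (A.rep e').1 (A.rep e').2 r e + ∑ u, A.TD μ p q u * A.m u r e := by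
  have h1 : ∑ u, A.TD μ p q u * A.m u r e = μ p * A.m q r e + μ q * A.m p r e -
      ∑ e', A.m p q e' * (μ (A.rep e').1 * A.m (A.rep e').2 r e +
        μ (A.rep e').2 * A.m (A.rep e').1 r e) := by
    unfold TD
    simp only [sub_mul, add_mul, ite_mul, zero_mul, Finset.sum_sub_distrib,
      Finset.sum_add_distrib, Finset.sum_ite_eq', Finset.mem_univ, if_true, Finset.sum_mul]
    congr 1
    rw [Finset.sum_comm]
    refine Finset.sum_congr rfl fun e' _ => ?_
    simp only [mul_add, add_mul, mul_ite, ite_mul, zero_mul, mul_zero, Finset.sum_add_distrib,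
      Finset.sum_ite_eq', Finset.mem_univ, if_true]
    ring
  have h2 : ∑ e', A.m p q e' * (μ r * (if e' = e then 1 else 0)) = μ r * A.m p q e := by
    simp only [mul_ite, mul_one, mul_zero, Finset.sum_ite_eq', Finset.mem_univ, if_true]
    ring
  rw [h1]
  unfold DDv
  simp only [A.m_rep]
  have h3 : ∀ e', A.m p q e' * (μ (A.rep e').1 * A.m (A.rep e').2 r e +
      μ (A.rep e').2 * A.m (A.rep e').1 r e + μ r * if e' = e then 1 else 0) =
      A.m p q e' * (μ (A.rep e').1 * A.m (A.rep e').2 r e +
      μ (A.rep e').2 * A.m (A.rep e').1 r e) + A.m p q e' * (μ r * if e' = e then 1 else 0) := by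
    intro e'
    ring
  simp only [h3, Finset.sum_add_distrib, h2]
  ring

variable {A}

/-- the normalisation of the tangent vectors -/
lemma Good.tan1 (hA : A.Good) (h2 : (2 : k) ≠ 0) (T : U → U → U → k) (D : U → U → U → EI → k)
    (h1 : ∀ p q, T p q = T q p) (h3 : ∀ e, T (A.rep e).1 (A.rep e).2 = 0)
    (h4 : ∀ p q r, D p q r = D q p r) (h5 : ∀ p q r, D p q r = D p r q)
    (h6 : ∀ p q r e, D p q r e = ∑ e', A.m p q e' * D (A.rep e').1 (A.rep e').2 r e +
      ∑ u, T p q u * A.m u r e) : ∃ μ : U → k, ∀ p q, T p q = A.TD μ p q := by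
  refine ⟨fun p => T p p p / 2, fun p q => ?_⟩
  set μ : U → k := fun p => T p p p / 2 with hμ
  have h7 := hA.tan (fun p q => T p q - A.TD μ p q) (fun p q r e => D p q r e - A.DDv μ p q r e)
    (fun p q => by rw [h1, TD_symm]) (fun e => by rw [h3, TD_rep, sub_zero])
    (fun p => by
      rw [Pi.sub_apply, TD_sq, hμ]
      field_simp
      ring)
    (fun p q r => by
      funext e
      rw [h4]
      unfold DDv
      rw [A.symm p q e]
      ring)
    (fun p q r => by
      funext e
      rw [h5]
      unfold DDv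
      rw [A.symm q r e]
      ring)
    (fun p q r e => by
      rw [h6, rel_TD]
      simp only [Pi.sub_apply, mul_sub, sub_mul, Finset.sum_sub_distrib]
      ring) p q
  exact sub_eq_zero.1 h7

lemma Good.tan0 (hA : A.Good) (h2 : (2 : k) ≠ 0) (hU : 2 ≤ Fintype.card U) (T : U → U → k)
    (D : U → U → U → U → k)
    (h1 : ∀ p q, T p q = T q p) (h3 : ∀ e, T (A.rep e).1 (A.rep e).2 = 0)
    (h4 : ∀ p q r, D p q r = D q p r) (h5 : ∀ p q r, D p q r = D p r q)
    (h6 : ∀ p q r u, D p q r u = ∑ e', A.m p q e' * D (A.rep e').1 (A.rep e').2 r u +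
      T p q * (if u = r then 1 else 0)) : ∀ p q, T p q = 0 := by
  have key : ∀ v, ∃ μ : U → k, ∀ p q u, T p q * (if u = v then 1 else 0) = A.TD μ p q u := by
    intro v
    obtain ⟨μ, hμ⟩ := hA.tan1 h2 (fun p q u => T p q * (if u = v then 1 else 0))
      (fun p q r e => ∑ u, D p q r u * A.m u v e)
      (fun p q => by rw [h1]) (fun e => by rw [h3]; funext u; simp)
      (fun p q r => by rw [h4]) (fun p q r => by rw [h5])
      (fun p q r e => by
        simp only [h6 p q r, add_mul, Finset.sum_add_distrib, Finset.sum_mul, Finset.mul_sum]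
        congr 1
        · rw [Finset.sum_comm]
          refine Finset.sum_congr rfl fun e' _ => Finset.sum_congr rfl fun u _ => ?_
          ring
        · simp only [mul_ite, ite_mul, mul_one, mul_zero, zero_mul, Finset.sum_ite_eq',
            Finset.mem_univ, if_true]
          rw [A.symm])
    exact ⟨μ, fun p q u => congrFun (hμ p q) u⟩
  have hne : ∀ v : U, ∃ w, w ≠ v := by
    intro v
    have : 1 < Fintype.card U := by omega
    have : Nontrivial U := Fintype.one_lt_card_iff_nontrivial.1 this
    exact exists_ne v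
  have hsq : ∀ w, T w w = 0 := by
    intro w
    obtain ⟨v, hv⟩ := hne w
    obtain ⟨μ, hμ⟩ := key v
    have h7 := hμ w w v
    rw [if_pos rfl, mul_one] at h7
    rw [h7]
    unfold TD
    simp only [A.m_sq, zero_mul, Finset.sum_const_zero, if_neg hv]
    ring
  intro p q
  obtain ⟨μ, hμ⟩ := key q
  have hμ0 : μ = 0 := by
    funext w
    have h7 := hμ w w w
    rw [hsq, zero_mul, TD_sq] at h7
    rcases mul_eq_zero.1 h7.symm with h8 | h8
    · exact absurd h8 h2
    · exact h8
  have h7 := hμ p q q
  rw [if_pos rfl, mul_one, hμ0] at h7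
  rw [h7]
  unfold TD
  simp

section build
variable {n : ℕ} (A) (eU : U ≃ Fin n)

/-- the exponent of a product of two variables -/
noncomputable def mm (p q : U) : Fin n →₀ ℕ := Finsupp.single (eU p) 1 + Finsupp.single (eU q) 1

variable {eU} in
lemma mm_eq {p q p' q' : U} (h : mm eU p q = mm eU p' q') :
    (p = p' ∧ q = q') ∨ (p = q' ∧ q = p') := by
  unfold mm at h
  rw [Finsupp.single_add_single_eq_single_add_single one_ne_zero one_ne_zero] at h
  rcases h with ⟨h1, h2⟩ | ⟨-, h1, h2⟩ | ⟨h1, -⟩
  · exact Or.inl ⟨eU.injective h1, eU.injective h2⟩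
  · exact Or.inr ⟨eU.injective h1, eU.injective h2⟩
  · exact absurd h1 (by norm_num)

lemma mm_comm (p q : U) : mm eU p q = mm eU q p := add_comm _ _

lemma mm_degree (p q : U) : (mm eU p q).degree = 2 := by
  unfold mm
  rw [map_add]
  simp

/-- the basis monomials -/
noncomputable def MM : Finset (Fin n →₀ ℕ) :=
  Finset.univ.image fun e => mm eU (A.rep e).1 (A.rep e).2

lemma MM_sub : A.MM eU ⊆ S2 n := by
  intro μ hμ
  obtain ⟨e, -, rfl⟩ := Finset.mem_image.1 hμ
  rw [mem_S2]
  exact mm_degree eU _ _

lemma m_eq_of_mm {p q p' q' : U} (h : mm eU p q = mm eU p' q') : A.m p q = A.m p' q' := by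
  funext e
  rcases mm_eq h with ⟨rfl, rfl⟩ | ⟨rfl, rfl⟩
  · rfl
  · exact A.symm _ _ _

lemma rep_inj {e e' : EI} (h : mm eU (A.rep e).1 (A.rep e).2 = mm eU (A.rep e').1 (A.rep e').2) :
    e = e' := by
  have h1 := congrFun (A.m_eq_of_mm eU h) e'
  rw [A.m_rep, A.m_rep, if_pos rfl] at h1
  by_contra h2
  rw [if_neg h2] at h1
  exact zero_ne_one h1

lemma card_MM : (A.MM eU).card = Fintype.card EI := by
  unfold MM
  rw [Finset.card_image_of_injective, Finset.card_univ]
  intro e e' h
  exact A.rep_inj eU h

variable {d : ℕ} (hd : n + 1 + Fintype.card EI = d)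

/-- the combinatorial datum -/
noncomputable def QD : QData n d :=
  DD (A.MM eU) (A.MM_sub eU) d (by rw [A.card_MM eU]; exact hd)

lemma exists_pr (i : (A.QD eU hd).N) : ∃ z : U × U, (A.QD eU hd).nb i = mm eU z.1 z.2 := by
  obtain ⟨p, q, h⟩ := exists_two _ ((A.QD eU hd).nb_deg i)
  exact ⟨(eU.symm p, eU.symm q), by rw [h]; simp [mm]⟩

/-- the variables of a monomial outside of the basis -/
noncomputable def pr (i : (A.QD eU hd).N) : U × U := (A.exists_pr eU hd i).choose

lemma pr_spec (i : (A.QD eU hd).N) :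
    (A.QD eU hd).nb i = mm eU (A.pr eU hd i).1 (A.pr eU hd i).2 := (A.exists_pr eU hd i).choose_spec

lemma exists_inv (j : (A.QD eU hd).E) :
    ∃ e, (A.QD eU hd).e j.1 = mm eU (A.rep e).1 (A.rep e).2 := by
  have h : (A.QD eU hd).e j.1 ∈ S1 n ∪ A.MM eU :=
    ((ee (A.MM eU) (A.MM_sub eU) d (by rw [A.card_MM eU]; exact hd)).symm j.1).2
  rw [Finset.mem_union] at h
  rcases h with h | h
  · have h1 := (mem_S1 _).1 h
    have h2 := j.2
    omega
  · obtain ⟨e, -, he⟩ := Finset.mem_image.1 h
    exact ⟨e, he.symm⟩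

/-- the label of a basis element -/
noncomputable def inv (j : (A.QD eU hd).E) : EI := (A.exists_inv eU hd j).choose

lemma inv_spec (j : (A.QD eU hd).E) : (A.QD eU hd).e j.1 =
    mm eU (A.rep (A.inv eU hd j)).1 (A.rep (A.inv eU hd j)).2 := (A.exists_inv eU hd j).choose_spec

lemma inv_bij : Function.Bijective (A.inv eU hd) := by
  constructor
  · intro j j' h
    apply Subtype.ext
    apply (A.QD eU hd).e_inj
    rw [inv_spec, inv_spec, h]
  · intro e
    obtain ⟨j, hj⟩ := DD_e (A.MM eU) (A.MM_sub eU) d (by rw [A.card_MM eU]; exact hd) _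
      (Finset.mem_image_of_mem (fun e => mm eU (A.rep e).1 (A.rep e).2) (Finset.mem_univ e))
    have hj' : (A.QD eU hd).e j = mm eU (A.rep e).1 (A.rep e).2 := hj
    refine ⟨⟨j, by rw [hj']; exact mm_degree eU _ _⟩, ?_⟩
    apply A.rep_inj eU
    rw [← inv_spec, hj']

/-- the coefficients -/
noncomputable def aa : (A.QD eU hd).N → (A.QD eU hd).E → k :=
  fun i j => A.m (A.pr eU hd i).1 (A.pr eU hd i).2 (A.inv eU hd j)

lemma q_mm (p q : U) (j : (A.QD eU hd).E) :
    (qchart (A.QD eU hd) (A.aa eU hd)).q (monomial (mm eU p q) (1 : k)) j.1 =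
      A.m p q (A.inv eU hd j) := by
  rcases (A.QD eU hd).cover _ (mm_degree eU p q) with ⟨j', hj'⟩ | ⟨i, hi⟩
  · rw [← hj', qchart_q, QData.wfun_e, Pi.single_apply]
    have hdeg : ((A.QD eU hd).e j').degree = 2 := by rw [hj']; exact mm_degree eU p q
    have h1 := A.inv_spec eU hd ⟨j', hdeg⟩
    rw [hj'] at h1
    rw [A.m_eq_of_mm eU h1, A.m_rep]
    have h2 : (j.1 = j') ↔ (A.inv eU hd ⟨j', hdeg⟩ = A.inv eU hd j) := by
      rw [(A.inv_bij eU hd).injective.eq_iff]
      constructor
      · intro h
        exact Subtype.ext h.symm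
      · intro h
        rw [← h]
    simp only [h2]
  · rw [← hi, qchart_q, QData.wfun_nb]
    simp only [j.2, dite_true]
    unfold aa
    have h1 := A.pr_spec eU hd i
    rw [hi] at h1
    rw [A.m_eq_of_mm eU h1]

lemma sum_inv {M : Type*} [AddCommMonoid M] (f : EI → M) :
    ∑ j, f (A.inv eU hd j) = ∑ e, f e := (A.inv_bij eU hd).sum_comp f

lemma Wq_eq (i : (A.QD eU hd).N) : Wq (A.QD eU hd) (A.aa eU hd) i =
    monomial (mm eU (A.pr eU hd i).1 (A.pr eU hd i).2) (1 : k) -
      ∑ e, A.m (A.pr eU hd i).1 (A.pr eU hd i).2 e •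
        monomial (mm eU (A.rep e).1 (A.rep e).2) (1 : k) := by
  unfold Wq
  rw [pr_spec, ← A.sum_inv eU hd]
  congr 1
  refine Finset.sum_congr rfl fun j _ => ?_
  rw [mb, inv_spec]
  rfl

lemma mono_mm (p q : U) : (monomial (mm eU p q) (1 : k) : MvPolynomial (Fin n) k) =
    X (eU p) * X (eU q) := by
  rw [mm, X, X, monomial_mul, one_mul]

lemma exists_mm3 (μ : Fin n →₀ ℕ) (h : μ.degree = 3) :
    ∃ p q r : U, μ = mm eU p q + Finsupp.single (eU r) 1 := by
  obtain ⟨r, ν, h1, h2⟩ := exists_add_of_degree_succ μ 2 h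
  obtain ⟨p, q, h3⟩ := exists_two ν h2
  exact ⟨eU.symm p, eU.symm q, eU.symm r, by rw [h1, h3]; simp [mm, add_comm]⟩

lemma coeff_TD (μ : U → k) (p q u : U) :
    coeff (Finsupp.single (eU u) 1) (dmu (fun i => μ (eU.symm i))
      (monomial (mm eU p q) (1 : k))) = (if u = q then μ p else 0) + (if u = p then μ q else 0) := by
  rw [mm, dmu_XX, coeff_add, coeff_smul, coeff_smul, coeff_X, coeff_X]
  simp only [Equiv.symm_apply_apply, smul_eq_mul, mul_ite, mul_one, mul_zero]
  have h1 : ∀ a b : U, (Finsupp.single (eU a) 1 = (Finsupp.single (eU b) 1 : Fin n →₀ ℕ)) ↔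
      b = a := by
    intro a b
    constructor
    · intro h
      exact (eU.injective (Finsupp.single_left_injective one_ne_zero h)).symm
    · rintro rfl
      rfl
  simp only [h1]
  rw [add_comm]

variable {A}

theorem Good.tnt (hA : A.Good) (h2 : (2 : k) ≠ 0) (hn : 2 ≤ n) :
    TNT (A.QD eU hd) (A.aa eU hd) where
  gen := by
    intro μ hμ
    obtain ⟨p, q, r, rfl⟩ := exists_mm3 eU μ hμ
    rw [← Ideal.Quotient.eq_zero_iff_mem]
    have h3 : (monomial (mm eU p q + Finsupp.single (eU r) 1) (1 : k) :
        MvPolynomial (Fin n) k) = X (eU p) * X (eU q) * X (eU r) := by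
      rw [← mono_mm, X, monomial_mul, one_mul]
    rw [h3, map_mul, map_mul]
    refine hA.gen _ (fun u => Ideal.Quotient.mk _ (X (eU u))) ?_ p q r
    intro p q
    have h4 : ∀ p q : U, Ideal.Quotient.mk (Ideal.span (Set.range (Wq (A.QD eU hd) (A.aa eU hd))))
        (X (eU p)) * Ideal.Quotient.mk (Ideal.span (Set.range (Wq (A.QD eU hd) (A.aa eU hd))))
        (X (eU q)) = Ideal.Quotient.mk _ (monomial (mm eU p q) (1 : k)) := by
      intro p q
      rw [mono_mm, map_mul]
    simp only [h4]
    rcases (A.QD eU hd).cover _ (mm_degree eU p q) with ⟨j', hj'⟩ | ⟨i, hi⟩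
    · have hdeg : ((A.QD eU hd).e j').degree = 2 := by rw [hj']; exact mm_degree eU p q
      have h1 := A.inv_spec eU hd ⟨j', hdeg⟩
      rw [hj'] at h1
      rw [h1]
      simp only [A.m_eq_of_mm eU h1, A.m_rep]
      rw [Finset.sum_eq_single (A.inv eU hd ⟨j', hdeg⟩)]
      · rw [if_pos rfl, one_smul]
      · intro e _ he
        rw [if_neg (Ne.symm he), zero_smul]
      · simp
    · have h1 := A.pr_spec eU hd i
      rw [hi] at h1
      rw [h1]
      simp only [A.m_eq_of_mm eU h1]
      have h5 : Wq (A.QD eU hd) (A.aa eU hd) i ∈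
          Ideal.span (Set.range (Wq (A.QD eU hd) (A.aa eU hd))) := Ideal.subset_span ⟨i, rfl⟩
      have h6 := Ideal.Quotient.eq_zero_iff_mem.2 h5
      rw [Wq_eq, map_sub, sub_eq_zero, map_sum] at h6
      rw [h6]
      refine Finset.sum_congr rfl fun e _ => ?_
      rfl
  tan := by
    intro t D3 hrel
    classical
    let T : U → U → U → k := fun p q u =>
      if h : ∃ i, (A.QD eU hd).nb i = mm eU p q then t h.choose (eU u) else 0
    let D : U → U → U → EI → k := fun p q r e =>
      D3 (mm eU p q + Finsupp.single (eU r) 1) ((A.inv_bij eU hd).surjective e).choose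
    have hchoose : ∀ j, ((A.inv_bij eU hd).surjective (A.inv eU hd j)).choose = j := by
      intro j
      exact (A.inv_bij eU hd).injective ((A.inv_bij eU hd).surjective (A.inv eU hd j)).choose_spec
    have hTi : ∀ i p q, (A.QD eU hd).nb i = mm eU p q → ∀ u, T p q u = t i (eU u) := by
      intro i p q hi u
      have hex : ∃ i, (A.QD eU hd).nb i = mm eU p q := ⟨i, hi⟩
      have h3 : hex.choose = i := (A.QD eU hd).nb_inj (hex.choose_spec.trans hi.symm)
      simp only [T]
      rw [dif_pos hex, h3]
    obtain ⟨μ, hμ⟩ := hA.tan1 h2 T D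
      (fun p q => by
        funext u
        simp only [T, mm_comm eU p q])
      (fun e => by
        funext u
        simp only [T]
        rw [dif_neg]
        · rfl
        · rintro ⟨i, hi⟩
          obtain ⟨j, hj⟩ := (A.inv_bij eU hd).surjective e
          rw [← hj, ← inv_spec] at hi
          exact (A.QD eU hd).nb_disj _ _ hi)
      (fun p q r => by
        funext e
        simp only [D, mm_comm eU p q])
      (fun p q r => by
        funext e
        simp only [D]
        congr 1
        unfold mm
        rw [add_assoc, add_comm (Finsupp.single (eU q) 1), ← add_assoc])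
      (fun p q r e => by
        obtain ⟨j, rfl⟩ := (A.inv_bij eU hd).surjective e
        rcases (A.QD eU hd).cover _ (mm_degree eU p q) with ⟨j', hj'⟩ | ⟨i, hi⟩
        · have hdeg : ((A.QD eU hd).e j').degree = 2 := by rw [hj']; exact mm_degree eU p q
          have h1 := A.inv_spec eU hd ⟨j', hdeg⟩
          rw [hj'] at h1
          have hT0 : T p q = 0 := by
            funext u
            simp only [T]
            rw [dif_neg]
            · rfl
            · rintro ⟨i, hi⟩
              exact (A.QD eU hd).nb_disj _ _ (hi.trans hj'.symm)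
          rw [hT0]
          simp only [A.m_eq_of_mm eU h1, A.m_rep, Pi.zero_apply, zero_mul, Finset.sum_const_zero,
            add_zero, ite_mul, one_mul, Finset.sum_ite_eq, Finset.mem_univ, if_true, D]
          rw [h1]
        · have h1 := A.pr_spec eU hd i
          have h1' := h1
          rw [hi] at h1
          have h3 := hrel i (eU r) j
          simp only [hTi i p q hi, D, hchoose]
          rw [← hi, h3]
          congr 1
          · rw [← A.sum_inv eU hd]
            refine Finset.sum_congr rfl fun j' _ => ?_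
            rw [← A.inv_spec eU hd j', A.m_eq_of_mm eU h1]
            rfl
          · rw [← eU.sum_comp]
            refine Finset.sum_congr rfl fun u _ => ?_
            rw [← A.q_mm eU hd]
            rfl)
    refine ⟨fun i => μ (eU.symm i), fun i u => ?_⟩
    have h3 := congrFun (hμ (A.pr eU hd i).1 (A.pr eU hd i).2) (eU.symm u)
    rw [hTi i _ _ (A.pr_spec eU hd i), Equiv.apply_symm_apply] at h3
    rw [h3, Wq_eq, map_sub, map_sum, coeff_sub, coeff_sum]
    unfold TD
    simp only [Derivation.map_smul, coeff_smul, smul_eq_mul]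
    have h4 : ∀ p q : U, coeff (Finsupp.single u 1) (dmu (fun i => μ (eU.symm i))
        (monomial (mm eU p q) (1 : k))) =
        (if eU.symm u = q then μ p else 0) + (if eU.symm u = p then μ q else 0) := by
      intro p q
      have := coeff_TD eU μ p q (eU.symm u)
      rwa [Equiv.apply_symm_apply] at this
    simp only [h4]
  tan0 := by
    intro t D2 hrel
    classical
    let T : U → U → k := fun p q =>
      if h : ∃ i, (A.QD eU hd).nb i = mm eU p q then t h.choose else 0
    let D : U → U → U → U → k := fun p q r u =>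
      D2 (mm eU p q + Finsupp.single (eU r) 1) (eU u)
    have hTi : ∀ i p q, (A.QD eU hd).nb i = mm eU p q → T p q = t i := by
      intro i p q hi
      have hex : ∃ i, (A.QD eU hd).nb i = mm eU p q := ⟨i, hi⟩
      have h3 : hex.choose = i := (A.QD eU hd).nb_inj (hex.choose_spec.trans hi.symm)
      simp only [T]
      rw [dif_pos hex, h3]
    have hcard : 2 ≤ Fintype.card U := by
      rw [Fintype.card_congr eU, Fintype.card_fin]
      exact hn
    have hμ := hA.tan0 h2 hcard T D
      (fun p q => by
        simp only [T, mm_comm eU p q])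
      (fun e => by
        simp only [T]
        rw [dif_neg]
        rintro ⟨i, hi⟩
        obtain ⟨j, hj⟩ := (A.inv_bij eU hd).surjective e
        rw [← hj, ← inv_spec] at hi
        exact (A.QD eU hd).nb_disj _ _ hi)
      (fun p q r => by
        funext e
        simp only [D, mm_comm eU p q])
      (fun p q r => by
        funext e
        simp only [D]
        congr 1
        unfold mm
        rw [add_assoc, add_comm (Finsupp.single (eU q) 1), ← add_assoc])
      (fun p q r u => by
        rcases (A.QD eU hd).cover _ (mm_degree eU p q) with ⟨j', hj'⟩ | ⟨i, hi⟩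
        · have hdeg : ((A.QD eU hd).e j').degree = 2 := by rw [hj']; exact mm_degree eU p q
          have h1 := A.inv_spec eU hd ⟨j', hdeg⟩
          rw [hj'] at h1
          have hT0 : T p q = 0 := by
            simp only [T]
            rw [dif_neg]
            rintro ⟨i, hi⟩
            exact (A.QD eU hd).nb_disj _ _ (hi.trans hj'.symm)
          rw [hT0]
          simp only [A.m_eq_of_mm eU h1, A.m_rep, zero_mul,
            add_zero, ite_mul, one_mul, Finset.sum_ite_eq, Finset.mem_univ, if_true, D]
          rw [h1]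
        · have h1 := A.pr_spec eU hd i
          rw [hi] at h1
          have h3 := hrel i (eU r) (eU u)
          simp only [hTi i p q hi, D]
          rw [← hi, h3]
          congr 1
          · rw [← A.sum_inv eU hd]
            refine Finset.sum_congr rfl fun j' _ => ?_
            rw [← A.inv_spec eU hd j', A.m_eq_of_mm eU h1]
            rfl
          · simp only [eU.injective.eq_iff])
    intro i
    rw [← hTi i _ _ (A.pr_spec eU hd i)]
    exact hμ _ _

end build

end AD

end Pool.Agent.H59.VC
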