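import Mathlib
import Pool.Agent.H59.VC.Abs

set_option autoImplicit false
set_option linter.unusedSectionVars false

universe u

namespace Pool.Agent.H59.VC

/-- the variables: `p` blocks of size three and `b` blocks of size two -/
abbrev UU (p b : ℕ) : Type := (Fin p × Fin 3) ⊕ (Fin b × Fin 2)

/-- pairs of blocks -/
abbrev Prs (p : ℕ) : Type := {x : Fin p × Fin p // x.1 < x.2}

section
variable {p b : ℕ} (F : Finset (Prs p × Fin 3)) (G : Finset (Fin p × Fin b))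

/-- labels of the basis of the quadratic part -/
abbrev EI : Type := (Prs p × Fin 3) ⊕ ({x // x ∈ F} ⊕ ((Fin p × Fin b × Fin 2) ⊕
  (({x // x ∈ G} × Fin 2) ⊕ (Prs b × Fin 2))))

/-- the other index among `0, 1` -/
def oc (c : Fin 2) : Fin 3 := if c = 0 then 1 else 0

variable {F G} in
/-- the basis monomials -/
def rep : EI F G → UU p b × UU p b
  | Sum.inl (z, s) => (Sum.inl (z.1.1, s - 1), Sum.inl (z.1.2, s + 1))
  | Sum.inr (Sum.inl f) => (Sum.inl (f.1.1.1.1, f.1.2), Sum.inl (f.1.1.1.2, f.1.2 + 1))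
  | Sum.inr (Sum.inr (Sum.inl (i, y, c))) => (Sum.inl (i, 2), Sum.inr (y, c))
  | Sum.inr (Sum.inr (Sum.inr (Sum.inl (g, c)))) => (Sum.inl (g.1.1, oc c), Sum.inr (g.1.2, c))
  | Sum.inr (Sum.inr (Sum.inr (Sum.inr (z, c)))) => (Sum.inr (z.1.1, 1), Sum.inr (z.1.2, 1 - c))

variable {F G} in
/-- the partner monomials -/
def part : EI F G → UU p b × UU p b
  | Sum.inl (z, s) => (Sum.inl (z.1.1, s), Sum.inl (z.1.2, s))
  | Sum.inr (Sum.inl f) => (Sum.inl (f.1.1.1.1, f.1.2), Sum.inl (f.1.1.1.2, f.1.2 + 1))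
  | Sum.inr (Sum.inr (Sum.inl (i, y, c))) => (Sum.inl (i, oc c), Sum.inr (y, 1 - c))
  | Sum.inr (Sum.inr (Sum.inr (Sum.inl (g, c)))) => (Sum.inl (g.1.1, oc c), Sum.inr (g.1.2, c))
  | Sum.inr (Sum.inr (Sum.inr (Sum.inr (z, c)))) => (Sum.inr (z.1.1, 0), Sum.inr (z.1.2, c))

/-- the scalars -/
def cc (k : Type u) [Field k] {p : ℕ} (i : Fin p) : k := ((i.1 + 2 : ℕ) : k)

variable {F G} in
/-- the weights -/
def wt (k : Type u) [Field k] : EI F G → k
  | Sum.inl (z, _) => cc k z.1.1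
  | Sum.inr (Sum.inl _) => 0
  | Sum.inr (Sum.inr (Sum.inl (i, _, _))) => cc k i
  | Sum.inr (Sum.inr (Sum.inr (Sum.inl _))) => 0
  | Sum.inr (Sum.inr (Sum.inr (Sum.inr (_, c)))) => if c = 0 then 1 else 2

variable {F G} in
/-- labels with partner -/
def core : EI F G → Prop
  | Sum.inl _ => True
  | Sum.inr (Sum.inl _) => False
  | Sum.inr (Sum.inr (Sum.inl _)) => True
  | Sum.inr (Sum.inr (Sum.inr (Sum.inl _))) => False
  | Sum.inr (Sum.inr (Sum.inr (Sum.inr _))) => True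

/-- the block of a variable -/
def blk {p b : ℕ} : UU p b → ℕ
  | Sum.inl x => x.1.1
  | Sum.inr y => p + y.1.1

variable {F G}

lemma wt_of_not_core (k : Type u) [Field k] (e : EI F G) (h : ¬ core e) : wt k e = 0 := by
  rcases e with e | e | e | e | e
  · exact absurd trivial h
  · rfl
  · exact absurd trivial h
  · rfl
  · exact absurd trivial h

lemma blk_rep (e : EI F G) : blk (rep e).1 < blk (rep e).2 := by
  rcases e with ⟨⟨⟨i, j⟩, h⟩, s⟩ | f | ⟨i, y, c⟩ | ⟨g, c⟩ | ⟨⟨⟨i, j⟩, h⟩, c⟩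
  · exact h
  · exact f.1.1.2
  · have := i.2
    simp only [rep, blk]
    omega
  · have := g.1.1.2
    simp only [rep, blk]
    omega
  · have h' : i.1 < j.1 := h
    simp only [rep, blk]
    omega

lemma blk_part (e : EI F G) : blk (part e).1 < blk (part e).2 := by
  rcases e with ⟨⟨⟨i, j⟩, h⟩, s⟩ | f | ⟨i, y, c⟩ | ⟨g, c⟩ | ⟨⟨⟨i, j⟩, h⟩, c⟩
  · exact h
  · exact f.1.1.2
  · have := i.2
    simp only [part, blk]
    omega
  · have := g.1.1.2
    simp only [part, blk]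
    omega
  · have h' : i.1 < j.1 := h
    simp only [part, blk]
    omega

lemma rep_injective : Function.Injective (rep : EI F G → _) := by
  intro e e' h
  rcases e with ⟨⟨⟨i, j⟩, hij⟩, s⟩ | ⟨⟨⟨⟨i, j⟩, hij⟩, s⟩, hf⟩ | ⟨i, y, c⟩ | ⟨⟨⟨i, y⟩, hg⟩, c⟩ | ⟨⟨⟨i, j⟩, hij⟩, c⟩ <;>
  rcases e' with ⟨⟨⟨i', j'⟩, hij'⟩, s'⟩ | ⟨⟨⟨⟨i', j'⟩, hij'⟩, s'⟩, hf'⟩ | ⟨i', y', c'⟩ | ⟨⟨⟨i', y'⟩, hg'⟩, c'⟩ | ⟨⟨⟨i', j'⟩, hij'⟩, c'⟩ <;>
  simp only [rep, Prod.mk.injEq, Sum.inl.injEq, Sum.inr.injEq, reduceCtorEq, and_false, false_and] at h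
  · obtain ⟨⟨rfl, h1⟩, rfl, h2⟩ := h
    have h3 : s = s' := by revert s s'; decide
    subst h3
    rfl
  · exfalso
    obtain ⟨⟨rfl, h1⟩, rfl, h2⟩ := h
    clear hf'
    revert s s'
    decide
  · exfalso
    obtain ⟨⟨rfl, h1⟩, rfl, h2⟩ := h
    clear hf
    revert s s'
    decide
  · obtain ⟨⟨rfl, h1⟩, rfl, h2⟩ := h
    subst h1
    rfl
  · obtain ⟨⟨rfl, -⟩, rfl, rfl⟩ := h
    rfl
  · exfalso
    obtain ⟨⟨rfl, h1⟩, rfl, h2⟩ := h
    revert c c'
    decide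
  · exfalso
    obtain ⟨⟨rfl, h1⟩, rfl, h2⟩ := h
    revert c c'
    decide
  · obtain ⟨⟨rfl, h1⟩, rfl, h2⟩ := h
    subst h2
    rfl
  · obtain ⟨⟨rfl, -⟩, rfl, h2⟩ := h
    have h3 : c = c' := by revert c c'; decide
    subst h3
    rfl

lemma rep_ne_part (e e' : EI F G) (he' : core e') : rep e ≠ part e' := by
  intro h
  rcases e with ⟨⟨⟨i, j⟩, hij⟩, s⟩ | ⟨⟨⟨⟨i, j⟩, hij⟩, s⟩, hf⟩ | ⟨i, y, c⟩ | ⟨⟨⟨i, y⟩, hg⟩, c⟩ | ⟨⟨⟨i, j⟩, hij⟩, c⟩ <;>
  rcases e' with ⟨⟨⟨i', j'⟩, hij'⟩, s'⟩ | ⟨⟨⟨⟨i', j'⟩, hij'⟩, s'⟩, hf'⟩ | ⟨i', y', c'⟩ | ⟨⟨⟨i', y'⟩, hg'⟩, c'⟩ | ⟨⟨⟨i', j'⟩, hij'⟩, c'⟩ <;>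
  first
  | exact he'
  | simp only [rep, part, Prod.mk.injEq, Sum.inl.injEq, Sum.inr.injEq, reduceCtorEq, and_false, false_and] at h
  · obtain ⟨⟨-, h1⟩, -, h2⟩ := h
    clear he'
    revert s s'
    decide
  · obtain ⟨⟨-, h1⟩, -, h2⟩ := h
    clear he' hf
    revert s s'
    decide
  · obtain ⟨⟨-, h1⟩, -, h2⟩ := h
    clear he'
    revert c c'
    decide
  · obtain ⟨⟨-, h1⟩, -, h2⟩ := h
    clear he' hg
    revert c c'
    decide
  · obtain ⟨⟨-, h1⟩, -, h2⟩ := h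
    exact absurd h1 (by decide)

lemma part_injective (e e' : EI F G) (he : core e) (he' : core e') (h : part e = part e') :
    e = e' := by
  rcases e with ⟨⟨⟨i, j⟩, hij⟩, s⟩ | ⟨⟨⟨⟨i, j⟩, hij⟩, s⟩, hf⟩ | ⟨i, y, c⟩ | ⟨⟨⟨i, y⟩, hg⟩, c⟩ | ⟨⟨⟨i, j⟩, hij⟩, c⟩ <;>
  rcases e' with ⟨⟨⟨i', j'⟩, hij'⟩, s'⟩ | ⟨⟨⟨⟨i', j'⟩, hij'⟩, s'⟩, hf'⟩ | ⟨i', y', c'⟩ | ⟨⟨⟨i', y'⟩, hg'⟩, c'⟩ | ⟨⟨⟨i', j'⟩, hij'⟩, c'⟩ <;>
  first
  | exact he.elim
  | exact he'.elim
  | simp only [part, Prod.mk.injEq, Sum.inl.injEq, Sum.inr.injEq, reduceCtorEq, and_false, false_and] at h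
  · obtain ⟨⟨rfl, h1⟩, rfl, h2⟩ := h
    subst h1
    rfl
  · obtain ⟨⟨rfl, h1⟩, rfl, h2⟩ := h
    have h3 : c = c' := by clear he he' h1; revert c c'; decide
    subst h3
    rfl
  · obtain ⟨⟨rfl, -⟩, rfl, h2⟩ := h
    subst h2
    rfl

section form
variable (k : Type u) [Field k]

/-- the symmetric form of a monomial -/
def dl (q r : UU p b) (z : UU p b × UU p b) : k :=
  (if q = z.1 then 1 else 0) * (if r = z.2 then 1 else 0) +
    (if q = z.2 then 1 else 0) * (if r = z.1 then 1 else 0)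

variable {k}

lemma dl_comm (q r : UU p b) (z : UU p b × UU p b) : dl k q r z = dl k r q z := by
  unfold dl
  ring

lemma dl_eq (z z' : UU p b × UU p b) (h : blk z.1 < blk z.2) (h' : blk z'.1 < blk z'.2) :
    dl k z.1 z.2 z' = if z = z' then 1 else 0 := by
  unfold dl
  by_cases h1 : z = z'
  · subst h1
    have h2 : z.1 ≠ z.2 := by
      intro h2
      rw [h2] at h
      exact lt_irrefl _ h
    rw [if_pos rfl, if_pos rfl, if_neg h2, if_pos rfl]
    ring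
  · rw [if_neg h1]
    have h2 : ¬ (z.1 = z'.1 ∧ z.2 = z'.2) := fun h2 => h1 (Prod.ext h2.1 h2.2)
    have h3 : ¬ (z.1 = z'.2 ∧ z.2 = z'.1) := by
      rintro ⟨h3, h4⟩
      rw [h3, h4] at h
      omega
    have h4 : (if z.1 = z'.1 then (1 : k) else 0) * (if z.2 = z'.2 then 1 else 0) = 0 := by
      by_cases h5 : z.1 = z'.1
      · rw [if_neg (fun h6 => h2 ⟨h5, h6⟩), mul_zero]
      · rw [if_neg h5, zero_mul]
    have h5 : (if z.1 = z'.2 then (1 : k) else 0) * (if z.2 = z'.1 then 1 else 0) = 0 := by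
      by_cases h5 : z.1 = z'.2
      · rw [if_neg (fun h6 => h3 ⟨h5, h6⟩), mul_zero]
      · rw [if_neg h5, zero_mul]
    rw [h4, h5, add_zero]

lemma dl_same (q r : UU p b) (h : blk q = blk r) (z : UU p b × UU p b)
    (h' : blk z.1 < blk z.2) : dl k q r z = 0 := by
  unfold dl
  have h4 : (if q = z.1 then (1 : k) else 0) * (if r = z.2 then 1 else 0) = 0 := by
    by_cases h5 : q = z.1
    · have h6 : ¬ r = z.2 := by
        intro h6
        rw [h5, h6] at h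
        omega
      rw [if_neg h6, mul_zero]
    · rw [if_neg h5, zero_mul]
  have h5 : (if q = z.2 then (1 : k) else 0) * (if r = z.1 then 1 else 0) = 0 := by
    by_cases h5 : q = z.2
    · have h6 : ¬ r = z.1 := by
        intro h6
        rw [h5, h6] at h
        omega
      rw [if_neg h6, mul_zero]
    · rw [if_neg h5, zero_mul]
  rw [h4, h5, add_zero]

variable (k F G)

/-- the multiplication -/
def mmul (q r : UU p b) (e : EI F G) : k := dl k q r (rep e) + wt k e * dl k q r (part e)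

/-- the block algebra -/
def BA : AD k (UU p b) (EI F G) where
  m := mmul F G k
  rep := rep
  symm q r e := by
    unfold mmul
    rw [dl_comm, dl_comm q r]
  m_rep e e' := by
    unfold mmul
    rw [dl_eq _ _ (blk_rep e) (blk_rep e')]
    have h1 : wt k e' * dl k (rep e).1 (rep e).2 (part e') = 0 := by
      by_cases h2 : core e'
      · rw [dl_eq _ _ (blk_rep e) (blk_part e'), if_neg (rep_ne_part e e' h2), mul_zero]
      · rw [wt_of_not_core k e' h2, zero_mul]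
    rw [h1, add_zero]
    simp only [rep_injective.eq_iff]
  m_sq q e := by
    unfold mmul
    rw [dl_same _ _ rfl _ (blk_rep e), dl_same _ _ rfl _ (blk_part e), mul_zero, add_zero]

variable {k F G}

lemma m_same (q r : UU p b) (h : blk q = blk r) (e : EI F G) : (BA F G k).m q r e = 0 := by
  change mmul F G k q r e = 0
  unfold mmul
  rw [dl_same _ _ h _ (blk_rep e), dl_same _ _ h _ (blk_part e), mul_zero, add_zero]

lemma m_part (e : EI F G) (h : core e) (e' : EI F G) :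
    (BA F G k).m (part e).1 (part e).2 e' = if e = e' then wt k e else 0 := by
  change mmul F G k _ _ e' = _
  unfold mmul
  rw [dl_eq _ _ (blk_part e) (blk_rep e'), dl_eq _ _ (blk_part e) (blk_part e'),
    if_neg (fun h1 => rep_ne_part e' e h h1.symm), zero_add]
  by_cases h2 : e = e'
  · subst h2
    simp
  · rw [if_neg h2]
    by_cases h3 : core e'
    · rw [if_neg (fun h4 => h2 (part_injective e e' h h3 h4)), mul_zero]
    · rw [wt_of_not_core k e' h3, zero_mul]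

/-- monomials which are neither basis monomials nor partners -/
lemma m_other (z : UU p b × UU p b) (hz : blk z.1 < blk z.2) (h1 : ∀ e : EI F G, rep e ≠ z)
    (h2 : ∀ e : EI F G, core e → part e ≠ z) (e' : EI F G) : (BA F G k).m z.1 z.2 e' = 0 := by
  change mmul F G k _ _ e' = _
  unfold mmul
  rw [dl_eq _ _ hz (blk_rep e'), if_neg (fun h => h1 e' h.symm), zero_add]
  by_cases h3 : core e'
  · rw [dl_eq _ _ hz (blk_part e'), if_neg (fun h4 => h2 e' h3 h4.symm), mul_zero]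
  · rw [wt_of_not_core k e' h3, zero_mul]

/-- the pairing of a vector with a variable -/
def PP' (e : EI F G) (τ : UU p b → k) (r : UU p b) : k :=
  (τ (rep e).1 * (if r = (rep e).2 then 1 else 0) + τ (rep e).2 * (if r = (rep e).1 then 1 else 0)) +
  wt k e * (τ (part e).1 * (if r = (part e).2 then 1 else 0) +
    τ (part e).2 * (if r = (part e).1 then 1 else 0))

lemma sum_dl (τ : UU p b → k) (r : UU p b) (z : UU p b × UU p b) :
    ∑ u, τ u * dl k u r z = τ z.1 * (if r = z.2 then 1 else 0) +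
      τ z.2 * (if r = z.1 then 1 else 0) := by
  unfold dl
  have h1 : ∀ a c : UU p b, ∑ u, τ u * ((if u = a then 1 else 0) * (if r = c then 1 else 0)) =
      τ a * (if r = c then 1 else 0) := by
    intro a c
    rw [Finset.sum_eq_single a]
    · rw [if_pos rfl, one_mul]
    · intro u _ hu
      rw [if_neg hu, zero_mul, mul_zero]
    · simp
  simp only [mul_add, Finset.sum_add_distrib, h1]

lemma sum_m (e : EI F G) (τ : UU p b → k) (r : UU p b) :
    ∑ u, τ u * (BA F G k).m u r e = PP' e τ r := by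
  change ∑ u, τ u * mmul F G k u r e = _
  unfold mmul PP'
  simp only [mul_add, Finset.sum_add_distrib]
  have h1 : ∀ u, τ u * (wt k e * dl k u r (part e)) = wt k e * (τ u * dl k u r (part e)) := by
    intro u
    ring
  simp only [h1, ← Finset.mul_sum, sum_dl]
  ring

end form

end

end Pool.Agent.H59.VC
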