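import Mathlib
import Pool.Agent.H59.VC.Locus

set_option autoImplicit false
set_option linter.unusedSectionVars false

open scoped TensorProduct
open MvPolynomial CategoryTheory AlgebraicGeometry
open Pool.Agent.Helper226
open Pool.Agent.Helper17.VCG

universe u

namespace Pool.Agent.H59.VC

section dens
variable {k : Type u} [Field k] {B : Type u} [CommRing B] [Algebra k B] {d : ℕ}

/-- if a dense set of points of a family lies in a closed set, the whole family does -/
lemma range_mor_subset {R : Type u} [CommRing R] [Algebra k R] {b : Fin d → B} (c : Chart k b R)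
    (Z : Set (HilbS k B d)) (hZ : IsClosed Z) (T : Set (R →ₐ[k] k))
    (hT : ∀ f : R, (∀ φ ∈ T, φ f = 0) → f = 0)
    (hm : ∀ φ ∈ T, chartι k (Idx.single b) (zp (c.map φ)) ∈ Z) :
    Set.range (mor c) ⊆ Z := by
  rintro _ ⟨y, rfl⟩
  by_contra hy
  have hO : IsOpen ((mor c) ⁻¹' Zᶜ) := hZ.isOpen_compl.preimage (mor c).continuous
  obtain ⟨_, ⟨f, rfl⟩, hf1, hf2⟩ :=
    (PrimeSpectrum.isTopologicalBasis_basic_opens (R := R)).exists_subset_of_mem_open
      (show y ∈ (mor c) ⁻¹' Zᶜ from hy) hO
  have hf0 : f ≠ 0 := by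
    rintro rfl
    exact hf1 y.asIdeal.zero_mem
  obtain ⟨φ, hφ, hne⟩ : ∃ φ ∈ T, φ f ≠ 0 := by
    by_contra hcon
    push Not at hcon
    exact hf0 (hT f hcon)
  let y0 : Spec (CommRingCat.of k) := (⟨⊥, Ideal.isPrime_bot⟩ : PrimeSpectrum k)
  have h3 : chartι k (Idx.single b) (zp (c.map φ)) = mor (c.map φ) y0 :=
    ((mem_range_mor_iff _ _).1 ⟨y0, rfl⟩).symm
  have h4 : mor (c.map φ) y0 = mor c (Spec.map (CommRingCat.ofHom φ.toRingHom) y0) := by
    rw [mor_map]
    rfl
  have h5 : Spec.map (CommRingCat.ofHom φ.toRingHom) y0 ∈ (mor c) ⁻¹' Zᶜ := by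
    apply hf2
    change f ∉ (Spec.map (CommRingCat.ofHom φ.toRingHom) y0).asIdeal
    rw [range_specMap_field, RingHom.mem_ker]
    exact hne
  apply h5
  rw [← h4, ← h3]
  exact hm φ hφ

end dens

section dil
variable {k : Type u} [Field k] {n d : ℕ} (D : QData n d)

lemma q_eq_zero_of_lt (c : Chart k (mb k D.e) k) (μ : Fin n →₀ ℕ) (j : Fin d)
    (h : μ.degree < (D.e j).degree) : c.q (monomial μ 1) j = 0 := by
  have h1 := D.e_deg j
  obtain ⟨i, hi⟩ := D.e_small μ (by omega)
  have h2 := c.q_b i
  rw [mb, hi] at h2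
  rw [h2, Pi.single_apply, if_neg]
  rintro rfl
  rw [hi] at h
  exact lt_irrefl _ h

/-- values of the dilated chart on monomials -/
noncomputable def dilW (c : Chart k (mb k D.e) k) (μ : Fin n →₀ ℕ) : Fin d → Polynomial k :=
  fun j => Polynomial.X ^ (μ.degree - (D.e j).degree) * Polynomial.C (c.q (monomial μ 1) j)

lemma dilW_e (c : Chart k (mb k D.e) k) (i : Fin d) : dilW D c (D.e i) = Pi.single i 1 := by
  ext1 j
  have h2 : c.q (monomial (D.e i) 1) = Pi.single i 1 := c.q_b i
  rw [dilW, h2]
  by_cases h : j = i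
  · subst h
    simp
  · simp [Pi.single_eq_of_ne h]

lemma dilW_add (c : Chart k (mb k D.e) k) (α β : Fin n →₀ ℕ) :
    dilW D c (α + β) = ∑ j, dilW D c α j • dilW D c (D.e j + β) := by
  ext1 l
  have h1 : c.q (monomial (α + β) 1) l =
      ∑ j, c.q (monomial α 1) j * c.q (monomial (D.e j + β) 1) l := by
    have h2 := c.q_mul (monomial α 1) (monomial β 1)
    rw [monomial_mul, one_mul] at h2
    rw [h2, Finset.sum_apply]
    refine Finset.sum_congr rfl fun j _ => ?_
    rw [mb, monomial_mul, one_mul, Pi.smul_apply, smul_eq_mul]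
  rw [Finset.sum_apply]
  unfold dilW
  rw [h1, map_sum, Finset.mul_sum]
  refine Finset.sum_congr rfl fun j _ => ?_
  rw [Pi.smul_apply, smul_eq_mul]
  have hadd : (α + β).degree = α.degree + β.degree := map_add _ _ _
  have haddj : (D.e j + β).degree = (D.e j).degree + β.degree := map_add _ _ _
  by_cases h3 : α.degree < (D.e j).degree
  · rw [q_eq_zero_of_lt D c α j h3]
    simp
  by_cases h4 : (D.e j + β).degree < (D.e l).degree
  · rw [q_eq_zero_of_lt D c _ l h4]
    simp
  rw [hadd, haddj, map_mul]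
  have h5 : α.degree + β.degree - (D.e l).degree = (α.degree - (D.e j).degree) +
      ((D.e j).degree + β.degree - (D.e l).degree) := by omega
  rw [h5, pow_add]
  ring

/-- the dilated chart -/
noncomputable def dil (c : Chart k (mb k D.e) k) : Chart k (mb k D.e) (Polynomial k) :=
  wChart D.e (dilW D c) (dilW_e D c) (dilW_add D c)

lemma dil_q (c : Chart k (mb k D.e) k) (μ : Fin n →₀ ℕ) (j : Fin d) :
    (dil D c).q (monomial μ 1) j =
      Polynomial.X ^ (μ.degree - (D.e j).degree) * Polynomial.C (c.q (monomial μ 1) j) := by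
  rw [dil, wChart_q]
  rfl

/-- dilation -/
noncomputable def dlt (k : Type u) [Field k] (n : ℕ) (t : k) :
    MvPolynomial (Fin n) k →ₐ[k] MvPolynomial (Fin n) k :=
  aeval fun i => C t * X i

lemma dlt_monomial (t : k) (μ : Fin n →₀ ℕ) :
    dlt k n t (monomial μ 1) = t ^ μ.degree • monomial μ 1 := by
  rw [dlt, aeval_monomial, map_one, one_mul, Finsupp.prod]
  simp only [mul_pow]
  rw [Finset.prod_mul_distrib]
  have h1 : ∏ i ∈ μ.support, (C t : MvPolynomial (Fin n) k) ^ μ i = C (t ^ μ.degree) := by
    rw [Finset.prod_pow_eq_pow_sum, ← map_pow]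
    rfl
  have h2 : ∏ i ∈ μ.support, (X i : MvPolynomial (Fin n) k) ^ μ i = monomial μ 1 := by
    rw [monomial_eq, C_1, one_mul]
    rfl
  rw [h1, h2, C_mul']

lemma dil_eval (c : Chart k (mb k D.e) k) (t : k) (f : MvPolynomial (Fin n) k) (j : Fin d) :
    t ^ (D.e j).degree * ((dil D c).map (Polynomial.aeval t)).q f j = c.q (dlt k n t f) j := by
  have key : ∀ μ : Fin n →₀ ℕ,
      t ^ (D.e j).degree * ((dil D c).map (Polynomial.aeval t)).q (monomial μ 1) j =
        c.q (dlt k n t (monomial μ 1)) j := by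
    intro μ
    rw [Chart.map_q, dil_q, dlt_monomial, map_smul, Pi.smul_apply, smul_eq_mul, map_mul, map_pow,
      Polynomial.aeval_X]
    have : Polynomial.aeval t (Polynomial.C (c.q (monomial μ 1) j)) = c.q (monomial μ 1) j := by
      simp
    rw [this]
    by_cases h3 : μ.degree < (D.e j).degree
    · rw [q_eq_zero_of_lt D c μ j h3]
      simp
    · rw [← mul_assoc, ← pow_add]
      congr 2
      omega
  rw [chart_q_eq_sum, Finset.sum_apply, Finset.mul_sum]
  conv_rhs => rw [f.as_sum]
  rw [map_sum, map_sum, Finset.sum_apply]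
  refine Finset.sum_congr rfl fun μ _ => ?_
  have h4 : (monomial μ (coeff μ f) : MvPolynomial (Fin n) k) = coeff μ f • monomial μ 1 := by
    rw [smul_monomial, smul_eq_mul, mul_one]
  rw [h4, map_smul, map_smul, Pi.smul_apply, Pi.smul_apply, smul_eq_mul, smul_eq_mul,
    ← key]
  ring

lemma dil_ker (c : Chart k (mb k D.e) k) (t : k) (ht : t ≠ 0) :
    ((dil D c).map (Polynomial.aeval t)).ker = c.ker.comap (dlt k n t) := by
  ext f
  rw [Chart.mem_ker, Ideal.mem_comap, Chart.mem_ker]
  constructor
  · intro h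
    ext j
    rw [← dil_eval, h]
    simp
  · intro h
    ext j
    have h1 := dil_eval D c t f j
    rw [h] at h1
    simpa [ht] using h1

lemma dil_zero (c : Chart k (mb k D.e) k) :
    (dil D c).map (Polynomial.aeval (0 : k)) =
      qchart D (fun i j => c.q (monomial (D.nb i) 1) j.1) := by
  apply chart_ext_monomial
  intro μ
  ext j
  rw [Chart.map_q, dil_q, qchart_q]
  rw [map_mul, map_pow, Polynomial.aeval_X]
  have h0 : Polynomial.aeval (0 : k) (Polynomial.C (c.q (monomial μ 1) j)) =
      c.q (monomial μ 1) j := by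
    simp
  rw [h0]
  rcases le_or_gt μ.degree 1 with h | h
  · obtain ⟨i, rfl⟩ := D.e_small μ h
    rw [QData.wfun_e]
    have h2 : c.q (monomial (D.e i) 1) = Pi.single i 1 := c.q_b i
    rw [h2]
    by_cases h3 : j = i
    · subst h3
      simp
    · simp [Pi.single_eq_of_ne h3]
  · rcases Nat.lt_or_ge μ.degree 3 with h4 | h4
    · rcases D.cover μ (by omega) with ⟨i, rfl⟩ | ⟨i, rfl⟩
      · rw [QData.wfun_e]
        have h2 : c.q (monomial (D.e i) 1) = Pi.single i 1 := c.q_b i
        rw [h2]
        by_cases h3 : j = i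
        · subst h3
          simp
        · simp [Pi.single_eq_of_ne h3]
      · rw [QData.wfun_nb]
        beta_reduce
        split_ifs with h5
        · rw [h5, D.nb_deg]
          simp
        · rw [D.nb_deg]
          have h6 := D.e_deg j
          have h7 : 2 - (D.e j).degree ≠ 0 := by omega
          rw [zero_pow h7, zero_mul]
    · have h6 := D.e_deg j
      rw [zero_pow (by omega), zero_mul]
      rcases Nat.lt_or_ge μ.degree 4 with h7 | h7
      · rw [QData.wfun_three _ _ _ _ (by omega)]
        beta_reduce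
        split_ifs <;> rfl
      · rw [QData.wfun_four _ _ _ _ h7]
        rfl

variable {D}

/-- the limit of the dilations, translated, lies in the closure of the radical locus -/
theorem limit_mem [Infinite k] (c : Chart k (mb k D.e) k) (hrad : c.ker.IsRadical)
    (v : Fin n → k) :
    chartι k (Idx.single (mb k D.e))
      (zp (tch (qchart D (fun i j => c.q (monomial (D.nb i) 1) j.1)) v)) ∈
        closure ((hilb k (MvPolynomial (Fin n) k) d).locus Ideal.IsRadical) := by
  set c' := tch (dil D c) (fun u => Polynomial.C (v u)) with hc'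
  have hmap : ∀ t : k, c'.map (Polynomial.aeval t) =
      tch ((dil D c).map (Polynomial.aeval t)) v := by
    intro t
    rw [hc', tch_map]
    congr 1
    funext u
    simp
  have h1 : Set.range (mor c') ⊆
      closure ((hilb k (MvPolynomial (Fin n) k) d).locus Ideal.IsRadical) := by
    refine range_mor_subset c' _ isClosed_closure
      {φ | ∃ t : k, t ≠ 0 ∧ φ = Polynomial.aeval t} ?_ ?_
    · classical
      intro f hf
      by_contra hf0
      obtain ⟨t, ht⟩ : ∃ t : k, t ∉ (f * Polynomial.X).roots.toFinset :=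
        Infinite.exists_notMem_finset _
      have h2 : f * Polynomial.X ≠ 0 := mul_ne_zero hf0 Polynomial.X_ne_zero
      rw [Multiset.mem_toFinset, Polynomial.mem_roots h2, Polynomial.IsRoot.def,
        Polynomial.eval_mul, Polynomial.eval_X] at ht
      have ht0 : t ≠ 0 := by
        rintro rfl
        exact ht (mul_zero _)
      have h3 := hf _ ⟨t, ht0, rfl⟩
      rw [Polynomial.coe_aeval_eq_eval] at h3
      exact ht (by rw [h3, zero_mul])
    · rintro _ ⟨t, ht, rfl⟩
      apply subset_closure
      apply chartι_zp_mem_locus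
      rw [hmap]
      have h4 : (tch ((dil D c).map (Polynomial.aeval t)) v).ker =
          ((dil D c).map (Polynomial.aeval t)).ker.comap (tr v) := by
        ext x
        rw [tch_ker]
        rfl
      rw [h4, dil_ker D c t ht]
      exact (hrad.comap _).comap _
  apply h1
  have h2 : tch (qchart D (fun i j => c.q (monomial (D.nb i) 1) j.1)) v =
      c'.map (Polynomial.aeval (0 : k)) := by
    rw [hmap, dil_zero]
  rw [h2]
  let y0 : Spec (CommRingCat.of k) := (⟨⊥, Ideal.isPrime_bot⟩ : PrimeSpectrum k)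
  have h3 : chartι k (Idx.single (mb k D.e)) (zp (c'.map (Polynomial.aeval (0 : k)))) =
      mor (c'.map (Polynomial.aeval (0 : k))) y0 :=
    ((mem_range_mor_iff _ _).1 ⟨y0, rfl⟩).symm
  rw [h3, mor_map]
  exact ⟨Spec.map (CommRingCat.ofHom (Polynomial.aeval (0 : k) :
    Polynomial k →ₐ[k] k).toRingHom) y0, rfl⟩

end dil

end Pool.Agent.H59.VC
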