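import Mathlib

set_option autoImplicit false
set_option linter.unusedSectionVars false

open MvPolynomial

namespace Pool.Agent.H59.VC

section
variable {k σ : Type*} [Field k]

lemma hom_eval_mul {g : MvPolynomial σ k} {m : ℕ} (hg : g.IsHomogeneous m) (c : k) (x : σ → k) :
    eval (fun s => c * x s) g = c ^ m * eval x g := by
  rw [eval_eq, eval_eq, Finset.mul_sum]
  refine Finset.sum_congr rfl fun d hd => ?_
  simp only [mul_pow]
  rw [Finset.prod_mul_distrib, Finset.prod_pow_eq_pow_sum]
  have h1 : ∑ i ∈ d.support, d i = m := (hg.degree_eq_sum_deg_support hd).symm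
  rw [h1]
  ring

/-- a nonzero polynomial does not vanish along suitable curves -/
lemma curve_ne [Infinite k] (g : MvPolynomial σ k) (hg : g ≠ 0) (a0 : σ → k) :
    ∃ v : σ → k, ∀ (δ : Polynomial k) (Z : σ → Polynomial k), δ.eval 0 ≠ 0 →
      (∀ s, (Z s).eval 0 = δ.eval 0 * v s) →
      ∃ t : k, δ.eval t ≠ 0 ∧ eval (fun s => a0 s + t / δ.eval t * (Z s).eval t) g ≠ 0 := by
  classical
  set g' : MvPolynomial σ k := aeval (fun s => X s + C (a0 s)) g with hg'
  have hev : ∀ z : σ → k, eval z g' = eval (fun s => a0 s + z s) g := by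
    intro z
    have h1 : ((aeval z : MvPolynomial σ k →ₐ[k] k).comp
        (aeval (fun s => X s + C (a0 s)) : MvPolynomial σ k →ₐ[k] MvPolynomial σ k)) =
        aeval (fun s => a0 s + z s) := by
      apply MvPolynomial.algHom_ext
      intro s
      simp [add_comm]
    have h2 := congrArg (fun φ : MvPolynomial σ k →ₐ[k] k => φ g) h1
    rw [AlgHom.comp_apply, ← hg'] at h2
    simpa [coe_aeval_eq_eval] using h2
  have hg0 : g' ≠ 0 := by
    intro h
    apply hg
    apply MvPolynomial.funext
    intro x
    have h1 := hev (fun s => x s - a0 s)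
    rw [h, map_zero] at h1
    rw [map_zero, h1]
    congr 1
    congr 1
    funext s
    ring
  have hex : ∃ j, homogeneousComponent j g' ≠ 0 := by
    by_contra hcon
    push Not at hcon
    apply hg0
    rw [← sum_homogeneousComponent g']
    exact Finset.sum_eq_zero fun j _ => hcon j
  set j0 := Nat.find hex with hj0
  have hj : homogeneousComponent j0 g' ≠ 0 := Nat.find_spec hex
  have hlt : ∀ j < j0, homogeneousComponent j g' = 0 := by
    intro j hjj
    have := Nat.find_min hex hjj
    push Not at this
    exact this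
  have hD : j0 ≤ g'.totalDegree := by
    by_contra hcon
    exact hj (homogeneousComponent_eq_zero _ _ (by omega))
  obtain ⟨v, hv⟩ : ∃ v : σ → k, eval v (homogeneousComponent j0 g') ≠ 0 := by
    by_contra hcon
    push Not at hcon
    apply hj
    apply MvPolynomial.funext
    intro x
    rw [hcon, map_zero]
  refine ⟨v, fun δ Z hδ hZ => ?_⟩
  set D := g'.totalDegree with hDdef
  let H : Polynomial k := ∑ j ∈ Finset.range (D + 1),
    if j < j0 then 0 else δ ^ (D - j) * Polynomial.X ^ (j - j0) *
      aeval Z (homogeneousComponent j g')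
  have haev : ∀ (t : k) (p : MvPolynomial σ k),
      (aeval Z p : Polynomial k).eval t = eval (fun s => (Z s).eval t) p := by
    intro t p
    have h1 : ((Polynomial.aeval t : Polynomial k →ₐ[k] k).comp
        (aeval Z : MvPolynomial σ k →ₐ[k] Polynomial k)) =
        aeval (fun s => (Z s).eval t) := by
      apply MvPolynomial.algHom_ext
      intro s
      simp [Polynomial.coe_aeval_eq_eval]
    have h2 := congrArg (fun φ : MvPolynomial σ k →ₐ[k] k => φ p) h1
    simpa [coe_aeval_eq_eval, Polynomial.coe_aeval_eq_eval] using h2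
  have hH0 : H.eval 0 ≠ 0 := by
    have h1 : H.eval 0 = δ.eval 0 ^ (D - j0) * (δ.eval 0 ^ j0 *
        eval v (homogeneousComponent j0 g')) := by
      simp only [H, Polynomial.eval_finsetSum]
      rw [Finset.sum_eq_single j0]
      · rw [if_neg (lt_irrefl _)]
        simp only [Polynomial.eval_mul, Polynomial.eval_pow, Polynomial.eval_X, Nat.sub_self,
          pow_zero, mul_one]
        rw [haev]
        have h2 : (fun s => (Z s).eval 0) = fun s => δ.eval 0 * v s := funext hZ
        rw [h2, hom_eval_mul (homogeneousComponent_isHomogeneous j0 g')]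
      · intro j _ hj'
        split_ifs with h3
        · simp
        · have h4 : j - j0 ≠ 0 := by omega
          simp [h4]
      · intro h3
        exact absurd (Finset.mem_range.2 (by omega)) h3
    rw [h1]
    exact mul_ne_zero (pow_ne_zero _ hδ) (mul_ne_zero (pow_ne_zero _ hδ) hv)
  have hP : H * Polynomial.X * δ ≠ 0 := by
    refine mul_ne_zero (mul_ne_zero ?_ Polynomial.X_ne_zero) ?_
    · rintro h
      rw [h] at hH0
      simp at hH0
    · rintro rfl
      simp at hδ
  obtain ⟨t, ht⟩ : ∃ t : k, t ∉ (H * Polynomial.X * δ).roots.toFinset :=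
    Infinite.exists_notMem_finset _
  rw [Multiset.mem_toFinset, Polynomial.mem_roots hP, Polynomial.IsRoot.def,
    Polynomial.eval_mul, Polynomial.eval_mul, Polynomial.eval_X] at ht
  have ht1 : H.eval t ≠ 0 := fun h => ht (by rw [h]; ring)
  have ht2 : t ≠ 0 := fun h => ht (by rw [h]; ring)
  have ht3 : δ.eval t ≠ 0 := fun h => ht (by rw [h]; ring)
  refine ⟨t, ht3, ?_⟩
  rw [← hev]
  set w := δ.eval t with hw
  have h5 : w ^ D * eval (fun s => t / w * (Z s).eval t) g' = t ^ j0 * H.eval t := by
    conv_lhs => rw [← sum_homogeneousComponent g']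
    rw [map_sum, Finset.mul_sum]
    simp only [H, Polynomial.eval_finsetSum]
    rw [Finset.mul_sum]
    refine Finset.sum_congr rfl fun j hjr => ?_
    have hjD : j ≤ D := by
      have := Finset.mem_range.1 hjr
      omega
    split_ifs with h3
    · rw [hlt j h3]
      simp
    · rw [hom_eval_mul (homogeneousComponent_isHomogeneous j g')]
      simp only [Polynomial.eval_mul, Polynomial.eval_pow, Polynomial.eval_X]
      rw [haev, ← hw, div_pow]
      obtain ⟨a, ha⟩ := Nat.exists_eq_add_of_le hjD
      obtain ⟨b, hb⟩ := Nat.exists_eq_add_of_le (not_lt.1 h3)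
      have e1 : D - j = a := by omega
      have e2 : j - j0 = b := by omega
      rw [e1, e2, ha, pow_add, hb, pow_add]
      field_simp
      ring
  intro h6
  rw [h6, mul_zero] at h5
  exact mul_ne_zero (pow_ne_zero _ ht2) ht1 h5.symm

end

end Pool.Agent.H59.VC
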