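import Mathlib
import Pool.Agent.H59.VC.Cfg1
import Pool.Agent.H59.VC.Crv

set_option autoImplicit false
set_option linter.unusedSectionVars false

open scoped TensorProduct
open MvPolynomial CategoryTheory AlgebraicGeometry
open Pool.Agent.Helper226
open Pool.Agent.Helper17.VCG

universe u

namespace Pool.Agent.H59.VC

section pts
variable (k : Type u) [Field k] {n d : ℕ} (D : QData n d)

/-- evaluation matrix of the basis monomials -/
noncomputable def EM {R : Type u} [CommRing R] [Algebra k R] (x : Fin d → Fin n → R) :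
    Matrix (Fin d) (Fin d) R :=
  Matrix.of fun l j => aeval (x l) (mb k D.e j)

lemma EM_map {R R' : Type u} [CommRing R] [Algebra k R] [CommRing R'] [Algebra k R']
    (φ : R →ₐ[k] R') (x : Fin d → Fin n → R) :
    (EM k D x).map φ = EM k D (fun l u => φ (x l u)) := by
  ext l j
  simp only [EM, Matrix.map_apply, Matrix.of_apply]
  have h1 : (φ.comp (aeval (x l) : MvPolynomial (Fin n) k →ₐ[k] R)) =
      aeval (fun u => φ (x l u)) := by
    apply MvPolynomial.algHom_ext
    intro s
    simp
  exact congrArg (fun ψ : MvPolynomial (Fin n) k →ₐ[k] R' => ψ (mb k D.e j)) h1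

variable {k}

/-- the chart of a configuration of points -/
noncomputable def ptChart (p : Fin d → Fin n → k) (h : (EM k D p).det ≠ 0) :
    Chart k (mb k D.e) k where
  q := (Matrix.mulVecLin (EM k D p)⁻¹) ∘ₗ (LinearMap.pi fun l => (aeval (p l) :
    MvPolynomial (Fin n) k →ₐ[k] k).toLinearMap)
  q_b := by
    intro i
    have hu : IsUnit (EM k D p).det := isUnit_iff_ne_zero.2 h
    have h1 : (LinearMap.pi fun l => (aeval (p l) :
        MvPolynomial (Fin n) k →ₐ[k] k).toLinearMap) (mb k D.e i) =
        (EM k D p).mulVec (Pi.single i 1) := by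
      ext l
      rw [Matrix.mulVec_single_one]
      rfl
    rw [LinearMap.comp_apply, h1, Matrix.mulVecLin_apply, Matrix.mulVec_mulVec,
      Matrix.nonsing_inv_mul _ hu, Matrix.one_mulVec]
  q_mul := by
    intro x y
    have hu : IsUnit (EM k D p).det := isUnit_iff_ne_zero.2 h
    set ev : MvPolynomial (Fin n) k →ₗ[k] (Fin d → k) := LinearMap.pi fun l => (aeval (p l) :
        MvPolynomial (Fin n) k →ₐ[k] k).toLinearMap with hev
    have hev' : ∀ f l, ev f l = aeval (p l) f := fun f l => rfl
    simp only [LinearMap.comp_apply, Matrix.mulVecLin_apply]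
    have h1 : ev (x * y) = ∑ j, ((EM k D p)⁻¹.mulVec (ev x)) j • ev (mb k D.e j * y) := by
      ext l
      rw [hev', map_mul, Finset.sum_apply]
      have h2 : aeval (p l) x = ∑ j, ((EM k D p)⁻¹.mulVec (ev x)) j * (EM k D p) l j := by
        have h3 : (EM k D p).mulVec ((EM k D p)⁻¹.mulVec (ev x)) = ev x := by
          rw [Matrix.mulVec_mulVec, Matrix.mul_nonsing_inv _ hu, Matrix.one_mulVec]
        have h4 : ((EM k D p).mulVec ((EM k D p)⁻¹.mulVec (ev x))) l =
            ∑ j, (EM k D p) l j * ((EM k D p)⁻¹.mulVec (ev x)) j := rfl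
        rw [h3, hev'] at h4
        rw [h4]
        exact Finset.sum_congr rfl fun j _ => mul_comm ((EM k D p) l j) _
      rw [h2, Finset.sum_mul]
      refine Finset.sum_congr rfl fun j _ => ?_
      rw [Pi.smul_apply, smul_eq_mul, hev', map_mul, EM, Matrix.of_apply, mul_assoc]
    rw [h1]
    rw [← Matrix.mulVecLin_apply, map_sum]
    refine Finset.sum_congr rfl fun j _ => ?_
    rw [map_smul, Matrix.mulVecLin_apply]

lemma ptChart_eval (p : Fin d → Fin n → k) (h : (EM k D p).det ≠ 0)
    (f : MvPolynomial (Fin n) k) (l : Fin d) :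
    ∑ j, (EM k D p) l j * (ptChart D p h).q f j = aeval (p l) f := by
  have hu : IsUnit (EM k D p).det := isUnit_iff_ne_zero.2 h
  have h1 : (EM k D p).mulVec ((ptChart D p h).q f) = fun l => aeval (p l) f := by
    simp only [ptChart, LinearMap.comp_apply, Matrix.mulVecLin_apply]
    rw [Matrix.mulVec_mulVec, Matrix.mul_nonsing_inv _ hu, Matrix.one_mulVec]
    rfl
  exact congrFun h1 l

lemma ptChart_rad (p : Fin d → Fin n → k) (h : (EM k D p).det ≠ 0) :
    (ptChart D p h).ker.IsRadical := by
  have hu : IsUnit (EM k D p).det := isUnit_iff_ne_zero.2 h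
  have hm : ∀ f, f ∈ (ptChart D p h).ker ↔ ∀ l, aeval (p l) f = 0 := by
    intro f
    rw [Chart.mem_ker]
    constructor
    · intro h1 l
      rw [← ptChart_eval D p h, h1]
      simp
    · intro h1
      simp only [ptChart, LinearMap.comp_apply, Matrix.mulVecLin_apply]
      have h2 : (LinearMap.pi fun l => (aeval (p l) :
        MvPolynomial (Fin n) k →ₐ[k] k).toLinearMap) f = 0 := by
        ext l
        exact h1 l
      rw [h2, Matrix.mulVec_zero]
  rintro f ⟨m, hf⟩
  rw [hm] at hf ⊢
  intro l
  have := hf l
  rw [map_pow] at this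
  exact eq_zero_of_pow_eq_zero this

end pts

section mats
variable {k : Type u} [Field k] {n d : ℕ}

/-- homogeneous coordinates -/
def hat {n : ℕ} {R : Type*} [One R] (x : Fin n → R) : Option (Fin n) → R := fun o => o.elim 1 x

/-- quadratic polynomials as symmetric matrices -/
def IsMat (f : MvPolynomial (Fin n) k) (S : Matrix (Option (Fin n)) (Option (Fin n)) k) : Prop :=
  S.IsSymm ∧ ∀ (R : Type u) [CommRing R] [Algebra k R] (x : Fin n → R),
    aeval x f = ∑ a, ∑ b, algebraMap k R (S a b) * hat x a * hat x b

lemma IsMat.add {f g : MvPolynomial (Fin n) k} {S T : Matrix (Option (Fin n)) (Option (Fin n)) k}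
    (hf : IsMat f S) (hg : IsMat g T) : IsMat (f + g) (S + T) := by
  refine ⟨hf.1.add hg.1, fun R _ _ x => ?_⟩
  rw [map_add, hf.2, hg.2, ← Finset.sum_add_distrib]
  refine Finset.sum_congr rfl fun a _ => ?_
  rw [← Finset.sum_add_distrib]
  refine Finset.sum_congr rfl fun b _ => ?_
  rw [Matrix.add_apply, map_add]
  ring

lemma IsMat.smul {f : MvPolynomial (Fin n) k} {S : Matrix (Option (Fin n)) (Option (Fin n)) k}
    (hf : IsMat f S) (c : k) : IsMat (c • f) (c • S) := by
  refine ⟨hf.1.smul c, fun R _ _ x => ?_⟩
  rw [map_smul, hf.2, Finset.smul_sum]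
  refine Finset.sum_congr rfl fun a _ => ?_
  rw [Finset.smul_sum]
  refine Finset.sum_congr rfl fun b _ => ?_
  rw [Matrix.smul_apply, smul_eq_mul, map_mul, Algebra.smul_def]
  ring

lemma IsMat.zero : IsMat (0 : MvPolynomial (Fin n) k) 0 := by
  refine ⟨Matrix.isSymm_zero, fun R _ _ x => ?_⟩
  simp

lemma IsMat.sum {ι : Type*} (s : Finset ι) {f : ι → MvPolynomial (Fin n) k}
    {S : ι → Matrix (Option (Fin n)) (Option (Fin n)) k} (h : ∀ i, IsMat (f i) (S i)) :
    IsMat (∑ i ∈ s, f i) (∑ i ∈ s, S i) := by
  classical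
  induction s using Finset.induction_on with
  | empty => simpa using IsMat.zero
  | insert i s hi ih =>
    rw [Finset.sum_insert hi, Finset.sum_insert hi]
    exact (h i).add ih

lemma exists_isMat (h2 : (2 : k) ≠ 0) (μ : Fin n →₀ ℕ) (hμ : μ.degree ≤ 2) :
    ∃ S, IsMat (monomial μ 1 : MvPolynomial (Fin n) k) S := by
  classical
  have key : ∀ a b : Option (Fin n), ∃ S : Matrix (Option (Fin n)) (Option (Fin n)) k,
      S.IsSymm ∧ ∀ (R : Type u) [CommRing R] [Algebra k R] (x : Fin n → R),
        hat x a * hat x b = ∑ a, ∑ b, algebraMap k R (S a b) * hat x a * hat x b := by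
    intro a b
    refine ⟨Matrix.of fun a' b' => (2 : k)⁻¹ * ((if a' = a then 1 else 0) * (if b' = b then 1 else 0) +
      (if a' = b then 1 else 0) * (if b' = a then 1 else 0)), ?_, ?_⟩
    · ext a' b'
      simp only [Matrix.transpose_apply, Matrix.of_apply]
      ring
    · intro R _ _ x
      have h3 : ∀ a b : Option (Fin n), ∑ a', ∑ b', algebraMap k R
          ((if a' = a then 1 else 0) * (if b' = b then 1 else 0)) * hat x a' * hat x b' =
          hat x a * hat x b := by
        intro a b
        rw [Finset.sum_eq_single a]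
        · rw [Finset.sum_eq_single b]
          · simp
          · intro b' _ hb
            simp [hb]
          · simp
        · intro a' _ ha
          refine Finset.sum_eq_zero fun b' _ => ?_
          simp [ha]
        · simp
      have h4 : ∀ a' b' : Option (Fin n), algebraMap k R ((2 : k)⁻¹ *
          ((if a' = a then 1 else 0) * (if b' = b then 1 else 0) +
          (if a' = b then 1 else 0) * (if b' = a then 1 else 0))) * hat x a' * hat x b' =
          algebraMap k R (2 : k)⁻¹ *
          (algebraMap k R ((if a' = a then 1 else 0) * (if b' = b then 1 else 0)) *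
            hat x a' * hat x b' +
          algebraMap k R ((if a' = b then 1 else 0) * (if b' = a then 1 else 0)) *
            hat x a' * hat x b') := by
        intro a' b'
        rw [map_mul, map_add]
        ring
      simp only [Matrix.of_apply, h4, ← Finset.mul_sum, Finset.sum_add_distrib, h3]
      have h5 : algebraMap k R (2 : k)⁻¹ * 2 = 1 := by
        have : (2 : R) = algebraMap k R 2 := (map_ofNat (algebraMap k R) 2).symm
        rw [this, ← map_mul, inv_mul_cancel₀ h2, map_one]
      rw [mul_comm (hat x b) (hat x a), ← two_mul, ← mul_assoc, h5, one_mul]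
  have hab : ∃ a b : Option (Fin n), ∀ (R : Type u) [CommRing R] [Algebra k R] (x : Fin n → R),
      aeval x (monomial μ 1 : MvPolynomial (Fin n) k) = hat x a * hat x b := by
    rcases Nat.lt_or_ge μ.degree 1 with h | h
    · have h0 : μ = 0 := (Finsupp.degree_eq_zero_iff _).1 (by omega)
      refine ⟨none, none, fun R _ _ x => ?_⟩
      subst h0
      simp [hat]
    · obtain ⟨i, ν, h1, h3⟩ := exists_add_of_degree_succ μ (μ.degree - 1) (by omega)
      rcases Nat.lt_or_ge ν.degree 1 with h4 | h4
      · have h0 : ν = 0 := (Finsupp.degree_eq_zero_iff _).1 (by omega)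
        refine ⟨some i, none, fun R _ _ x => ?_⟩
        rw [h1, h0, add_zero]
        change aeval x (X i) = _
        simp [hat]
      · obtain ⟨j, hj⟩ := exists_single_of_degree_one ν (by omega)
        refine ⟨some i, some j, fun R _ _ x => ?_⟩
        rw [h1, hj]
        have : (monomial (Finsupp.single i 1 + Finsupp.single j 1) 1 : MvPolynomial (Fin n) k) =
            X i * X j := by
          rw [X, X, monomial_mul, one_mul]
        rw [this]
        simp [hat]
  obtain ⟨a, b, hab⟩ := hab
  obtain ⟨S, h3, h4⟩ := key a b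
  exact ⟨S, h3, fun R _ _ x => by rw [hab, h4]⟩

end mats

end Pool.Agent.H59.VC
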