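import Mathlib
import Pool.Agent.H59.VC.Cfg2

set_option autoImplicit false
set_option linter.unusedSectionVars false

open scoped TensorProduct
open MvPolynomial CategoryTheory AlgebraicGeometry
open Pool.Agent.Helper226
open Pool.Agent.Helper17.VCG

universe u

namespace Pool.Agent.H59.VC

section gen
variable {k : Type u} [Field k] {n d : ℕ}

/-- the kernel condition -/
def KerZero {ι : Type*} [Fintype ι] {P : Type*} [Fintype P] (p : P → (ι → k)) : Prop :=
  ∀ S : P → Matrix ι ι k, (∀ l, (S l).IsSymm) →
    (∀ l, (S l).mulVec (p l) = 0) →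
    (∀ l l', ∑ a, ∑ b, S l a b * p l' a * p l' b = 0) →
    (∀ b, ∑ l, p l b • S l = 0) → ∀ l, S l = 0

/-- tangent direction in homogeneous coordinates -/
def hat0 {n : ℕ} {R : Type*} [Zero R] (x : Fin n → R) : Option (Fin n) → R := fun o => o.elim 0 x

lemma solve_mulVec {m : Type*} [Fintype m] [DecidableEq m] (M : Matrix m m k) (h : M.det ≠ 0)
    (w z : m → k) (hw : M.mulVec w = z) (j : m) :
    w j = M.det⁻¹ * ∑ l, M.adjugate j l * z l := by
  have h1 : M.adjugate.mulVec z = M.det • w := by
    rw [← hw, Matrix.mulVec_mulVec, Matrix.adjugate_mul, Matrix.smul_mulVec, Matrix.one_mulVec]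
  have h2 : ∑ l, M.adjugate j l * z l = M.det * w j := congrFun h1 j
  rw [h2, ← mul_assoc, inv_mul_cancel₀ h, one_mul]

variable (D : QData n d)

/-- surjectivity of the derivative of the coefficient map -/
lemma surj_of_kerZero [Infinite k] (h2 : (2 : k) ≠ 0) (p0 : Fin d → Fin n → k)
    (hdet : (EM k D p0).det ≠ 0) (hK : KerZero (fun l => hat (p0 l)))
    (q : D.N → MvPolynomial (Fin n) k)
    (hqdef : ∀ i, q i = monomial (D.nb i) 1 -
      ∑ j, (ptChart D p0 hdet).q (monomial (D.nb i) 1) j • mb k D.e j)
    (hq0 : ∀ i l, aeval (p0 l) (q i) = 0)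
    (S : D.N → Matrix (Option (Fin n)) (Option (Fin n)) k) (hS : ∀ i, IsMat (q i) (S i))
    (v : D.N × D.E → k) : ∃ Δ : Fin d → Fin n → k, ∀ s : D.N × D.E,
      ∑ l, (EM k D p0)⁻¹ s.2.1 l *
        (2 * ∑ a, ∑ b, S s.1 a b * hat0 (Δ l) a * hat (p0 l) b) = v s := by
  classical
  have hu : IsUnit (EM k D p0).det := isUnit_iff_ne_zero.2 hdet
  let T : (Fin d → Fin n → k) →ₗ[k] (D.N × D.E → k) :=
    { toFun := fun Δ s => ∑ l, (EM k D p0)⁻¹ s.2.1 l *
        (2 * ∑ a, ∑ b, S s.1 a b * hat0 (Δ l) a * hat (p0 l) b)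
      map_add' := by
        intro Δ Δ'
        ext s
        rw [Pi.add_apply, ← Finset.sum_add_distrib]
        refine Finset.sum_congr rfl fun l _ => ?_
        rw [← mul_add, ← mul_add, ← Finset.sum_add_distrib]
        congr 2
        refine Finset.sum_congr rfl fun a _ => ?_
        rw [← Finset.sum_add_distrib]
        refine Finset.sum_congr rfl fun b _ => ?_
        cases a <;> simp [hat0]
        ring
      map_smul' := by
        intro c Δ
        ext s
        rw [Pi.smul_apply, Finset.smul_sum]
        refine Finset.sum_congr rfl fun l _ => ?_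
        have h3 : ∑ a, ∑ b, S s.1 a b * hat0 ((c • Δ) l) a * hat (p0 l) b =
            c * ∑ a, ∑ b, S s.1 a b * hat0 (Δ l) a * hat (p0 l) b := by
          rw [Finset.mul_sum]
          refine Finset.sum_congr rfl fun a _ => ?_
          rw [Finset.mul_sum]
          refine Finset.sum_congr rfl fun b _ => ?_
          cases a
          · simp [hat0]
          · simp only [hat0, Option.elim_some, Pi.smul_apply, smul_eq_mul]
            ring
        rw [h3, RingHom.id_apply, smul_eq_mul]
        ring }
  suffices hT : LinearMap.range T = ⊤ by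
    have : v ∈ LinearMap.range T := by rw [hT]; trivial
    obtain ⟨Δ, hΔ⟩ := this
    exact ⟨Δ, fun s => congrFun hΔ s⟩
  by_contra hne
  obtain ⟨f, hf0, hf⟩ := Submodule.exists_le_ker_of_lt_top _ (lt_top_iff_ne_top.2 hne)
  let m : D.N → D.E → k := fun i j => f (Pi.single (i, j) 1)
  have hfm : ∀ z : D.N × D.E → k, f z = ∑ i, ∑ j, m i j * z (i, j) := by
    intro z
    have h3 : z = ∑ s, z s • (Pi.single s (1 : k) : D.N × D.E → k) := by
      ext s
      simp [Finset.sum_apply, Pi.single_apply]
    conv_lhs => rw [h3]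
    rw [map_sum, Fintype.sum_prod_type]
    refine Finset.sum_congr rfl fun i _ => Finset.sum_congr rfl fun j _ => ?_
    rw [map_smul, smul_eq_mul, mul_comm]
  let κ : D.N → Fin d → k := fun i l => ∑ j : D.E, m i j * (EM k D p0)⁻¹ j.1 l
  let SS : Fin d → Matrix (Option (Fin n)) (Option (Fin n)) k := fun l => ∑ i, κ i l • S i
  have hSSapp : ∀ l a b, SS l a b = ∑ i, κ i l * S i a b := by
    intro l a b
    simp only [SS, Matrix.sum_apply, Matrix.smul_apply, smul_eq_mul]
  have hM : ∀ l, IsMat (∑ i, κ i l • q i) (SS l) := fun l =>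
    IsMat.sum _ fun i => (hS i).smul _
  -- the functional vanishes on the range
  have hfT : ∀ Δ : Fin d → Fin n → k,
      ∑ l, ∑ a, ∑ b, SS l a b * hat0 (Δ l) a * hat (p0 l) b = 0 := by
    intro Δ
    have h3 : f (T Δ) = 0 := hf ⟨Δ, rfl⟩
    rw [hfm] at h3
    have h4 : ∑ i, ∑ j, m i j * T Δ (i, j) =
        2 * ∑ l, ∑ a, ∑ b, SS l a b * hat0 (Δ l) a * hat (p0 l) b := by
      have e1 : ∀ i : D.N, ∀ j : D.E, m i j * T Δ (i, j) = ∑ l, m i j * (EM k D p0)⁻¹ j.1 l *
          (2 * ∑ a, ∑ b, S i a b * hat0 (Δ l) a * hat (p0 l) b) := by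
        intro i j
        change m i j * ∑ l, (EM k D p0)⁻¹ j.1 l *
          (2 * ∑ a, ∑ b, S i a b * hat0 (Δ l) a * hat (p0 l) b) = _
        rw [Finset.mul_sum]
        exact Finset.sum_congr rfl fun l _ => by ring
      have e2 : ∀ i : D.N, ∑ j : D.E, m i j * T Δ (i, j) = ∑ l, κ i l *
          (2 * ∑ a, ∑ b, S i a b * hat0 (Δ l) a * hat (p0 l) b) := by
        intro i
        rw [Finset.sum_congr rfl fun j _ => e1 i j, Finset.sum_comm]
        refine Finset.sum_congr rfl fun l _ => ?_
        rw [← Finset.sum_mul]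
      rw [Finset.sum_congr rfl fun i _ => e2 i, Finset.sum_comm, Finset.mul_sum]
      refine Finset.sum_congr rfl fun l _ => ?_
      simp only [hSSapp, Finset.mul_sum, Finset.sum_mul]
      rw [Finset.sum_comm]
      refine Finset.sum_congr rfl fun a _ => ?_
      rw [Finset.sum_comm]
      refine Finset.sum_congr rfl fun b _ => Finset.sum_congr rfl fun i _ => ?_
      ring
    rw [h4] at h3
    exact (mul_eq_zero.1 h3).resolve_left h2
  have hvan : ∀ l l', ∑ a, ∑ b, SS l a b * hat (p0 l') a * hat (p0 l') b = 0 := by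
    intro l l'
    have h3 := (hM l).2 k (p0 l')
    have h4 : aeval (p0 l') (∑ i, κ i l • q i) = (0 : k) := by
      rw [map_sum]
      refine Finset.sum_eq_zero fun i _ => ?_
      rw [map_smul, hq0, smul_zero]
    rw [h4] at h3
    exact h3.symm
  have hmv : ∀ l, (SS l).mulVec (hat (p0 l)) = 0 := by
    intro l
    have hsome : ∀ u, ∑ b, SS l (some u) b * hat (p0 l) b = 0 := by
      intro u
      have h3 := hfT (Pi.single l (Pi.single u 1))
      rw [Finset.sum_eq_single l] at h3
      · rw [Finset.sum_eq_single (some u)] at h3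
        · simpa [hat0] using h3
        · intro a _ ha
          refine Finset.sum_eq_zero fun b _ => ?_
          cases a with
          | none => simp [hat0]
          | some a =>
            have : a ≠ u := fun h => ha (by rw [h])
            simp [hat0, this]
        · simp
      · intro l' _ hl
        refine Finset.sum_eq_zero fun a _ => Finset.sum_eq_zero fun b _ => ?_
        cases a <;> simp [hat0, hl]
      · simp
    have hnone : ∑ b, SS l none b * hat (p0 l) b = 0 := by
      have h3 := hvan l l
      rw [Fintype.sum_option] at h3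
      have h4 : ∑ u : Fin n, ∑ b, SS l (some u) b * hat (p0 l) (some u) * hat (p0 l) b = 0 := by
        refine Finset.sum_eq_zero fun u _ => ?_
        have h5 : ∑ b, SS l (some u) b * hat (p0 l) (some u) * hat (p0 l) b =
            hat (p0 l) (some u) * ∑ b, SS l (some u) b * hat (p0 l) b := by
          rw [Finset.mul_sum]
          exact Finset.sum_congr rfl fun b _ => by ring
        rw [h5, hsome, mul_zero]
      rw [h4, add_zero] at h3
      simpa [hat] using h3
    ext a
    cases a with
    | none => exact hnone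
    | some u => exact hsome u
  have hsum : ∀ b, ∑ l, hat (p0 l) b • SS l = 0 := by
    intro b
    obtain ⟨jb, hjb1, hjb2⟩ : ∃ j : Fin d, (D.e j).degree ≠ 2 ∧
        ∀ l, hat (p0 l) b = (EM k D p0) l j := by
      cases b with
      | none =>
        obtain ⟨j, hj⟩ := D.e_small 0 (by simp)
        refine ⟨j, by rw [hj]; simp, fun l => ?_⟩
        rw [EM, Matrix.of_apply, mb, hj]
        change (1 : k) = aeval (p0 l) (C 1)
        simp
      | some u =>
        obtain ⟨j, hj⟩ := D.e_small (Finsupp.single u 1) (by simp)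
        refine ⟨j, by rw [hj]; simp, fun l => ?_⟩
        rw [EM, Matrix.of_apply, mb, hj]
        change p0 l u = aeval (p0 l) (X u)
        simp
    have h3 : ∀ i, ∑ l, hat (p0 l) b * κ i l = 0 := by
      intro i
      simp only [κ, Finset.mul_sum]
      rw [Finset.sum_comm]
      refine Finset.sum_eq_zero fun j _ => ?_
      have h4 : ∑ l, (EM k D p0)⁻¹ j.1 l * (EM k D p0) l jb = 0 := by
        have h5 := congrFun (congrFun (Matrix.nonsing_inv_mul _ hu) j.1) jb
        rw [Matrix.mul_apply] at h5
        rw [h5, Matrix.one_apply_ne]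
        rintro h6
        exact hjb1 (h6 ▸ j.2)
      rw [← mul_zero (m i j), ← h4, Finset.mul_sum]
      refine Finset.sum_congr rfl fun l _ => ?_
      rw [hjb2]
      ring
    ext a a'
    simp only [Matrix.sum_apply, Matrix.smul_apply, smul_eq_mul, hSSapp, Finset.mul_sum,
      Matrix.zero_apply]
    rw [Finset.sum_comm]
    refine Finset.sum_eq_zero fun i _ => ?_
    rw [← zero_mul (S i a a'), ← h3 i, Finset.sum_mul]
    exact Finset.sum_congr rfl fun l _ => by ring
  have hzero := hK SS (fun l => (hM l).1) hmv hvan hsum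
  have hκ : ∀ i l, κ i l = 0 := by
    intro i l
    have h3 : ∑ i, κ i l • q i = 0 := by
      apply MvPolynomial.funext
      intro x
      have h4 := (hM l).2 k x
      rw [hzero l] at h4
      simp only [Matrix.zero_apply, map_zero, zero_mul, Finset.sum_const_zero] at h4
      rw [map_zero]
      have h5 := congrArg (fun φ : MvPolynomial (Fin n) k →+* k => φ (∑ i, κ i l • q i))
        (coe_aeval_eq_eval x)
      exact h5.symm.trans h4
    have h4 := congrArg (coeff (D.nb i)) h3
    rw [coeff_sum, coeff_zero, Finset.sum_eq_single i] at h4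
    · rw [coeff_smul, hqdef, coeff_sub, coeff_monomial, if_pos rfl, coeff_sum] at h4
      have h5 : ∑ j, coeff (D.nb i)
          ((ptChart D p0 hdet).q (monomial (D.nb i) 1) j • mb k D.e j) = 0 := by
        refine Finset.sum_eq_zero fun j _ => ?_
        rw [coeff_smul, mb, coeff_monomial, if_neg (fun h => D.nb_disj i j h.symm), smul_zero]
      rw [h5, sub_zero, smul_eq_mul, mul_one] at h4
      exact h4
    · intro i' _ hi
      rw [coeff_smul, hqdef, coeff_sub, coeff_monomial, if_neg (fun h => hi (D.nb_inj h)),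
        coeff_sum]
      have h5 : ∑ j, coeff (D.nb i)
          ((ptChart D p0 hdet).q (monomial (D.nb i') 1) j • mb k D.e j) = 0 := by
        refine Finset.sum_eq_zero fun j _ => ?_
        rw [coeff_smul, mb, coeff_monomial, if_neg (fun h => D.nb_disj i j h.symm), smul_zero]
      rw [h5, sub_zero, smul_zero]
    · simp
  apply hf0
  apply LinearMap.ext
  intro z
  rw [hfm, LinearMap.zero_apply]
  refine Finset.sum_eq_zero fun i _ => Finset.sum_eq_zero fun j _ => ?_
  have h3 : m i j = ∑ l, κ i l * (EM k D p0) l j.1 := by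
    simp only [κ, Finset.sum_mul]
    rw [Finset.sum_comm, Finset.sum_eq_single j]
    · have h5 := congrFun (congrFun (Matrix.nonsing_inv_mul _ hu) j.1) j.1
      rw [Matrix.mul_apply, Matrix.one_apply_eq] at h5
      calc m i j = m i j * ∑ l, (EM k D p0)⁻¹ j.1 l * (EM k D p0) l j.1 := by rw [h5, mul_one]
        _ = _ := by
          rw [Finset.mul_sum]
          exact Finset.sum_congr rfl fun l _ => by ring
    · intro j' _ hj'
      have h5 := congrFun (congrFun (Matrix.nonsing_inv_mul _ hu) j'.1) j.1
      rw [Matrix.mul_apply, Matrix.one_apply_ne (fun h => hj' (Subtype.ext h))] at h5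
      calc ∑ l, m i j' * (EM k D p0)⁻¹ j'.1 l * (EM k D p0) l j.1 =
          m i j' * ∑ l, (EM k D p0)⁻¹ j'.1 l * (EM k D p0) l j.1 := by
            rw [Finset.mul_sum]
            exact Finset.sum_congr rfl fun l _ => by ring
        _ = 0 := by rw [h5, mul_zero]
    · simp
  rw [h3, Finset.sum_eq_zero, zero_mul]
  intro l _
  rw [hκ, zero_mul]

end gen

end Pool.Agent.H59.VC
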