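import Mathlib
import Pool.Agent.H59.VC.Cfg3

set_option autoImplicit false
set_option linter.unusedSectionVars false

open scoped TensorProduct
open MvPolynomial CategoryTheory AlgebraicGeometry
open Pool.Agent.Helper226
open Pool.Agent.Helper17.VCG

universe u

namespace Pool.Agent.H59.VC

section gen
variable {k : Type u} [Field k] {n d : ℕ} (D : QData n d)

/-- expansion of a quadratic polynomial along a line through one of its zeros -/
lemma line_expand {f : MvPolynomial (Fin n) k} {S : Matrix (Option (Fin n)) (Option (Fin n)) k}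
    (hS : IsMat f S) (p Δ : Fin n → k) (hp : aeval p f = 0) :
    aeval (fun u => Polynomial.C (p u) + Polynomial.X * Polynomial.C (Δ u)) f =
      Polynomial.X * (Polynomial.C (2 * ∑ a, ∑ b, S a b * hat0 Δ a * hat p b) +
        Polynomial.X * Polynomial.C (∑ a, ∑ b, S a b * hat0 Δ a * hat0 Δ b)) := by
  have hx : ∀ a, hat (fun u => Polynomial.C (p u) + Polynomial.X * Polynomial.C (Δ u)) a =
      Polynomial.C (hat p a) + Polynomial.X * Polynomial.C (hat0 Δ a) := by
    intro a
    cases a <;> simp [hat, hat0]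
  rw [hS.2 (Polynomial k)]
  have h1 := hS.2 k p
  rw [hp] at h1
  have h2 : ∑ a, ∑ b, S a b * hat p a * hat0 Δ b = ∑ a, ∑ b, S a b * hat0 Δ a * hat p b := by
    rw [Finset.sum_comm]
    refine Finset.sum_congr rfl fun a _ => Finset.sum_congr rfl fun b _ => ?_
    rw [hS.1.apply a b]
    ring
  have h3 : ∀ a b, algebraMap k (Polynomial k) (S a b) *
      hat (fun u => Polynomial.C (p u) + Polynomial.X * Polynomial.C (Δ u)) a *
      hat (fun u => Polynomial.C (p u) + Polynomial.X * Polynomial.C (Δ u)) b =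
      Polynomial.C (S a b * hat p a * hat p b) +
      Polynomial.X * Polynomial.C (S a b * hat p a * hat0 Δ b) +
      Polynomial.X * Polynomial.C (S a b * hat0 Δ a * hat p b) +
      Polynomial.X * Polynomial.X * Polynomial.C (S a b * hat0 Δ a * hat0 Δ b) := by
    intro a b
    rw [hx, hx]
    simp only [map_mul, Polynomial.algebraMap_eq]
    ring
  simp only [h3, Finset.sum_add_distrib, ← Finset.mul_sum, ← map_sum]
  have h4 : ∑ a, ∑ b, S a b * hat p a * hat p b = 0 := by
    rw [h1]
    rfl
  rw [h2, h4, map_zero, zero_add, map_mul]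
  have : (Polynomial.C (2 : k)) = 2 := map_ofNat Polynomial.C 2
  rw [this]
  ring

/-- density of the coefficients of the quadrics through a configuration of points -/
theorem gen_dense [Infinite k] (h2 : (2 : k) ≠ 0) (p0 : Fin d → Fin n → k)
    (hdet : (EM k D p0).det ≠ 0) (hK : KerZero (fun l => hat (p0 l)))
    (g : MvPolynomial (D.N × D.E) k) (hg : g ≠ 0) :
    ∃ (p : Fin d → Fin n → k) (h : (EM k D p).det ≠ 0),
      eval (fun s => (ptChart D p h).q (monomial (D.nb s.1) 1) s.2.1) g ≠ 0 := by
  classical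
  obtain ⟨v, hv⟩ := curve_ne g hg
    (fun s => (ptChart D p0 hdet).q (monomial (D.nb s.1) 1) s.2.1)
  set q : D.N → MvPolynomial (Fin n) k := fun i => monomial (D.nb i) 1 -
      ∑ j, (ptChart D p0 hdet).q (monomial (D.nb i) 1) j • mb k D.e j with hq
  have hqe : ∀ (i : D.N) (p : Fin n → k), aeval p (q i) = aeval p (monomial (D.nb i) (1 : k)) -
      ∑ j, (ptChart D p0 hdet).q (monomial (D.nb i) 1) j * aeval p (mb k D.e j) := by
    intro i p
    rw [hq]
    simp only [map_sub, map_sum, map_smul, smul_eq_mul]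
  have hq0 : ∀ i l, aeval (p0 l) (q i) = 0 := by
    intro i l
    rw [hqe, ← ptChart_eval D p0 hdet, sub_eq_zero]
    exact Finset.sum_congr rfl fun j _ => mul_comm _ _
  have hSn : ∀ i, ∃ S, IsMat (q i) S := by
    intro i
    obtain ⟨S0, hS0⟩ := exists_isMat h2 (D.nb i) (le_of_eq (D.nb_deg i))
    choose Se hSe using fun j => exists_isMat (k := k) h2 (D.e j) (D.e_deg j)
    refine ⟨S0 + (-1 : k) • ∑ j, (ptChart D p0 hdet).q (monomial (D.nb i) 1) j • Se j, ?_⟩
    have h3 : q i = monomial (D.nb i) 1 + (-1 : k) • ∑ j,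
        (ptChart D p0 hdet).q (monomial (D.nb i) 1) j • mb k D.e j := by
      rw [hq]
      simp only
      rw [neg_one_smul, sub_eq_add_neg]
    rw [h3]
    exact hS0.add ((IsMat.sum _ fun j => (hSe j).smul _).smul _)
  choose S hS using hSn
  obtain ⟨Δ, hΔ⟩ := surj_of_kerZero D h2 p0 hdet hK q (fun i => rfl) hq0 S hS v
  let x : Fin d → Fin n → Polynomial k :=
    fun l u => Polynomial.C (p0 l u) + Polynomial.X * Polynomial.C (Δ l u)
  let pt : k → Fin d → Fin n → k := fun t l u => p0 l u + t * Δ l u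
  have hpt : ∀ t, (EM k D x).map (Polynomial.aeval t) = EM k D (pt t) := by
    intro t
    rw [EM_map]
    congr 1
    funext l u
    simp only [x, pt, map_add, map_mul, Polynomial.aeval_X, Polynomial.aeval_C,
      Algebra.algebraMap_self, RingHom.id_apply]
  let Y : Fin d → D.N → Polynomial k := fun l i =>
    Polynomial.C (2 * ∑ a, ∑ b, S i a b * hat0 (Δ l) a * hat (p0 l) b) +
        Polynomial.X * Polynomial.C (∑ a, ∑ b, S i a b * hat0 (Δ l) a * hat0 (Δ l) b)
  have hY : ∀ l i t, aeval (pt t l) (q i) = t * (Y l i).eval t := by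
    intro l i t
    have h3 := line_expand (hS i) (p0 l) (Δ l) (hq0 i l)
    have h4 := congrArg (Polynomial.aeval t) h3
    have h5 : ((Polynomial.aeval t : Polynomial k →ₐ[k] k).comp
        (aeval (fun u => Polynomial.C (p0 l u) + Polynomial.X * Polynomial.C (Δ l u)) :
          MvPolynomial (Fin n) k →ₐ[k] Polynomial k)) = aeval (pt t l) := by
      apply MvPolynomial.algHom_ext
      intro s
      simp only [pt, AlgHom.comp_apply, aeval_X, map_add, map_mul, Polynomial.aeval_X,
        Polynomial.aeval_C, Algebra.algebraMap_self, RingHom.id_apply]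
    have h6 := congrArg (fun φ : MvPolynomial (Fin n) k →ₐ[k] k => φ (q i)) h5
    rw [← h6]
    refine h4.trans ?_
    rw [Polynomial.coe_aeval_eq_eval, Polynomial.eval_mul, Polynomial.eval_X]
  let δ : Polynomial k := (EM k D x).det
  have hδ : ∀ t, δ.eval t = (EM k D (pt t)).det := by
    intro t
    rw [← hpt t]
    have h3 := AlgHom.map_det (Polynomial.aeval t : Polynomial k →ₐ[k] k) (EM k D x)
    rw [Polynomial.coe_aeval_eq_eval] at h3
    exact h3
  have hadj : ∀ t j l, ((EM k D x).adjugate j l).eval t = (EM k D (pt t)).adjugate j l := by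
    intro t j l
    rw [← hpt t]
    have h3 := AlgHom.map_adjugate (Polynomial.aeval t : Polynomial k →ₐ[k] k) (EM k D x)
    have h4 := congrFun (congrFun h3 j) l
    rw [← Polynomial.coe_aeval_eq_eval]
    exact h4
  have hp00 : pt 0 = p0 := by
    funext l u
    simp [pt]
  obtain ⟨t, ht1, ht2⟩ := hv δ (fun s => ∑ l, (EM k D x).adjugate s.2.1 l * Y l s.1) (by
      rw [hδ, hp00]
      exact hdet) (by
      intro s
      rw [Polynomial.eval_finsetSum, ← hΔ s, hδ, hp00, Finset.mul_sum]
      refine Finset.sum_congr rfl fun l _ => ?_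
      rw [Polynomial.eval_mul, hadj, hp00, Matrix.inv_def, Matrix.smul_apply, smul_eq_mul,
        Ring.inverse_eq_inv']
      have h3 : (Y l s.1).eval 0 = 2 * ∑ a, ∑ b, S s.1 a b * hat0 (Δ l) a * hat (p0 l) b := by
        simp only [Y, Polynomial.eval_add, Polynomial.eval_C, Polynomial.eval_mul,
          Polynomial.eval_X, zero_mul, add_zero]
      rw [h3]
      field_simp)
  rw [hδ] at ht1
  refine ⟨pt t, ht1, ?_⟩
  convert ht2 using 3
  funext s
  rw [hδ]
  have h3 : (EM k D (pt t)).mulVec (fun j => (ptChart D (pt t) ht1).q (monomial (D.nb s.1) 1) j -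
      (ptChart D p0 hdet).q (monomial (D.nb s.1) 1) j) = fun l => t * (Y l s.1).eval t := by
    funext l
    rw [← hY, hqe, ← ptChart_eval D (pt t) ht1]
    simp only [Matrix.mulVec, dotProduct, mul_sub, Finset.sum_sub_distrib]
    congr 1
    exact Finset.sum_congr rfl fun j _ => mul_comm _ _
  have h4 := solve_mulVec _ ht1 _ _ h3 s.2.1
  rw [Polynomial.eval_finsetSum]
  simp only [Polynomial.eval_mul, hadj]
  rw [sub_eq_iff_eq_add] at h4
  rw [h4, add_comm]
  congr 1
  rw [Finset.mul_sum, Finset.mul_sum]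
  exact Finset.sum_congr rfl fun l _ => by ring

end gen

end Pool.Agent.H59.VC
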