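import Mathlib
import Pool.Agent.H59.VC.Cfg4

set_option autoImplicit false
set_option linter.unusedSectionVars false

open scoped TensorProduct
open MvPolynomial CategoryTheory AlgebraicGeometry
open Pool.Agent.Helper226
open Pool.Agent.Helper17.VCG

universe u

namespace Pool.Agent.H59.VC

/-- the conditions on a configuration of points in projective space -/
structure GoodCfg {k : Type*} [Field k] {ι : Type*} [Fintype ι] {Q : Type*} [Fintype Q]
    (P : Q → (ι → k)) : Prop where
  H1 : ∀ w : ι → k, (∀ l, ∑ a, w a * P l a = 0) → w = 0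
  H2 : ∀ c : Q → k, (∀ a b, ∑ l, c l * (P l a * P l b) = 0) → c = 0
  H3 : KerZero P

section inv
variable {k : Type*} [Field k] {ι ι' : Type*} [Fintype ι] [Fintype ι'] {Q Q' : Type*} [Fintype Q]
  [Fintype Q']

lemma GoodCfg.lin [DecidableEq ι] [DecidableEq ι'] {P : Q → (ι → k)} (h : GoodCfg P)
    {P' : Q → (ι' → k)} (A : Matrix ι' ι k)
    (B : Matrix ι ι' k) (hA : ∀ l, P' l = A.mulVec (P l)) (hB : ∀ l, P l = B.mulVec (P' l))
    (hAB : A * B = 1) : GoodCfg P' := by
  refine ⟨?_, ?_, ?_⟩
  · intro w hw
    have h1 : Matrix.vecMul w A = 0 := by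
      apply h.H1
      intro l
      have h2 := hw l
      have h3 : ∑ a, w a * P' l a = w ⬝ᵥ (P' l) := rfl
      rw [h3, hA, Matrix.dotProduct_mulVec] at h2
      exact h2
    have h2 : Matrix.vecMul (Matrix.vecMul w A) B = w := by
      rw [Matrix.vecMul_vecMul, hAB, Matrix.vecMul_one]
    rw [← h2, h1, Matrix.zero_vecMul]
  · intro c hc
    apply h.H2
    intro a b
    have h1 : ∀ l, c l * (P l a * P l b) = ∑ x, ∑ y, B a x * B b y * (c l * (P' l x * P' l y)) := by
      intro l
      have ha : P l a = ∑ x, B a x * P' l x := congrFun (hB l) a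
      have hb : P l b = ∑ y, B b y * P' l y := congrFun (hB l) b
      rw [ha, hb, Finset.sum_mul_sum, Finset.mul_sum]
      refine Finset.sum_congr rfl fun x _ => ?_
      rw [Finset.mul_sum]
      exact Finset.sum_congr rfl fun y _ => by ring
    simp only [h1]
    rw [Finset.sum_comm]
    refine Finset.sum_eq_zero fun x _ => ?_
    rw [Finset.sum_comm]
    refine Finset.sum_eq_zero fun y _ => ?_
    rw [← Finset.mul_sum, hc, mul_zero]
  · intro S hS1 hS2 hS3 hS4 l
    have h1 := h.H3 (fun l => A.transpose * S l * A) ?_ ?_ ?_ ?_ l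
    · have h2 : S l = B.transpose * (A.transpose * S l * A) * B := by
        have h3 : B.transpose * A.transpose = 1 := by
          rw [← Matrix.transpose_mul, hAB, Matrix.transpose_one]
        rw [Matrix.mul_assoc, Matrix.mul_assoc, Matrix.mul_assoc, hAB, Matrix.mul_one,
          ← Matrix.mul_assoc, h3, Matrix.one_mul]
      rw [h2, h1]
      simp
    · intro l
      rw [Matrix.IsSymm, Matrix.transpose_mul, Matrix.transpose_mul, Matrix.transpose_transpose,
        (hS1 l).eq, Matrix.mul_assoc]
    · intro l
      rw [← Matrix.mulVec_mulVec, ← Matrix.mulVec_mulVec, ← hA, hS2, Matrix.mulVec_zero]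
    · intro l l'
      have h2 : ∀ (S : Matrix ι ι k) (p : ι → k),
          ∑ a, ∑ b, S a b * p a * p b = p ⬝ᵥ (S.mulVec p) := by
        intro S p
        simp only [dotProduct, Matrix.mulVec, Finset.mul_sum]
        exact Finset.sum_congr rfl fun a _ => Finset.sum_congr rfl fun b _ => by ring
      have h3 : ∀ (S : Matrix ι' ι' k) (p : ι' → k),
          ∑ a, ∑ b, S a b * p a * p b = p ⬝ᵥ (S.mulVec p) := by
        intro S p
        simp only [dotProduct, Matrix.mulVec, Finset.mul_sum]
        exact Finset.sum_congr rfl fun a _ => Finset.sum_congr rfl fun b _ => by ring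
      have h4 := hS3 l l'
      rw [h3, hA l', Matrix.dotProduct_mulVec] at h4
      rw [h2, Matrix.dotProduct_mulVec]
      rw [← Matrix.vecMul_vecMul, ← Matrix.vecMul_vecMul, Matrix.vecMul_transpose,
        ← Matrix.dotProduct_mulVec]
      exact h4
    · intro b
      have h2 : ∑ l, P l b • S l = 0 := by
        have h3 : ∀ l, P l b • S l = ∑ x, B b x • (P' l x • S l) := by
          intro l
          have hb : P l b = ∑ x, B b x * P' l x := congrFun (hB l) b
          rw [hb, Finset.sum_smul]
          exact Finset.sum_congr rfl fun x _ => by rw [mul_smul]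
        simp only [h3]
        rw [Finset.sum_comm]
        refine Finset.sum_eq_zero fun x _ => ?_
        rw [← Finset.smul_sum, hS4, smul_zero]
      have h3 : ∀ l, P l b • (A.transpose * S l * A) = A.transpose * (P l b • S l) * A := by
        intro l
        rw [Matrix.mul_smul, Matrix.smul_mul]
      simp only [h3]
      rw [← Matrix.sum_mul, ← Matrix.mul_sum, h2, Matrix.mul_zero, Matrix.zero_mul]

lemma GoodCfg.reindex {P : Q → (ι → k)} (h : GoodCfg P) (e : Q' ≃ Q) :
    GoodCfg (fun l => P (e l)) := by
  refine ⟨?_, ?_, ?_⟩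
  · intro w hw
    apply h.H1
    intro l
    simpa using hw (e.symm l)
  · intro c hc
    have h1 := h.H2 (fun l => c (e.symm l)) (by
      intro a b
      rw [← hc a b, ← Equiv.sum_comp e]
      simp)
    funext l
    have h2 := congrFun h1 (e l)
    simpa using h2
  · intro S hS1 hS2 hS3 hS4 l
    have h1 := h.H3 (fun l => S (e.symm l)) (fun l => hS1 _) (by
      intro l
      have h2 := hS2 (e.symm l)
      simp only [Equiv.apply_symm_apply] at h2
      exact h2) (by
      intro l l'
      have h2 := hS3 (e.symm l) (e.symm l')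
      simp only [Equiv.apply_symm_apply] at h2
      exact h2) (by
      intro b
      rw [← hS4 b, ← Equiv.sum_comp e]
      simp) (e l)
    simpa using h1

end inv

section qd
variable {k : Type u} [Field k] {n d : ℕ}

/-- choice of a monomial basis -/
lemma exists_QData_of (f : (Fin n →₀ ℕ) → (Fin d → k))
    (hli : LinearIndepOn k f {μ : Fin n →₀ ℕ | μ.degree ≤ 1})
    (hsp : Submodule.span k (f '' {μ : Fin n →₀ ℕ | μ.degree ≤ 2}) = ⊤) :
    ∃ D : QData n d, LinearIndependent k (fun j => f (D.e j)) := by
  classical
  let s : Set (Fin n →₀ ℕ) := {μ | μ.degree ≤ 1}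
  let t : Set (Fin n →₀ ℕ) := {μ | μ.degree ≤ 2}
  have hst : s ⊆ t := by
    intro μ hμ
    have h4 : μ.degree ≤ 1 := hμ
    change μ.degree ≤ 2
    omega
  have hfin : t.Finite := by
    have : t = ((S1 n ∪ S2 n : Finset (Fin n →₀ ℕ)) : Set (Fin n →₀ ℕ)) := by
      ext μ
      rw [Finset.coe_union, Set.mem_union, Finset.mem_coe, Finset.mem_coe, mem_S1, mem_S2]
      change μ.degree ≤ 2 ↔ _
      omega
    rw [this]
    exact Finset.finite_toSet _
  set B := hli.extend hst with hB
  have hBt : B ⊆ t := hli.extend_subset hst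
  have hsB : s ⊆ B := hli.subset_extend hst
  have hBli : LinearIndepOn k f B := hli.linearIndepOn_extend hst
  have hspan : Submodule.span k (f '' B) = ⊤ := by
    rw [hB, hli.span_image_extend_eq_span_image hst]
    exact hsp
  have hBfin : B.Finite := hfin.subset hBt
  let BF : Finset (Fin n →₀ ℕ) := hBfin.toFinset
  have hcard : BF.card = d := by
    have : Fintype B := hBfin.fintype
    let bas : Module.Basis B k (Fin d → k) := Module.Basis.mk (v := fun x : B => f x) hBli (by
      rw [← hspan, Set.image_eq_range])
    have h5 := Module.finrank_eq_card_basis bas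
    rw [Module.finrank_fin_fun, ← Set.toFinset_card] at h5
    rw [h5]
    congr 1
    ext μ
    simp [BF]
  let M : Finset (Fin n →₀ ℕ) := BF.filter fun μ => μ.degree = 2
  have hM : M ⊆ S2 n := by
    intro μ hμ
    rw [mem_S2]
    exact (Finset.mem_filter.1 hμ).2
  have hBM : S1 n ∪ M = BF := by
    ext μ
    rw [Finset.mem_union, mem_S1, Finset.mem_filter, Set.Finite.mem_toFinset]
    constructor
    · rintro (h | h)
      · exact hsB h
      · exact h.1
    · intro h
      have h5 : μ.degree ≤ 2 := hBt h
      by_cases h6 : μ.degree ≤ 1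
      · exact Or.inl h6
      · exact Or.inr ⟨h, by omega⟩
  have hd : n + 1 + M.card = d := by
    rw [← card_B M hM, hBM, hcard]
  refine ⟨DD M hM d hd, ?_⟩
  have hmem : ∀ j, (DD M hM d hd).e j ∈ B := by
    intro j
    have h5 : (DD M hM d hd).e j ∈ S1 n ∪ M := ((ee M hM d hd).symm j).2
    rw [hBM] at h5
    exact (Set.Finite.mem_toFinset hBfin).1 h5
  have h6 := hBli.comp (fun j : Fin d => (⟨(DD M hM d hd).e j, hmem j⟩ : B)) (by
    intro i j hij
    have hij' : (DD M hM d hd).e i = (DD M hM d hd).e j := Subtype.mk.inj hij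
    exact (DD M hM d hd).e_inj hij')
  exact h6

/-- exponents of the homogeneous coordinates -/
noncomputable def dex (n : ℕ) (o : Option (Fin n)) : Fin n →₀ ℕ :=
  o.elim 0 fun u => Finsupp.single u 1

lemma aeval_dex (x : Fin n → k) (o : Option (Fin n)) :
    aeval x (monomial (dex n o) (1 : k)) = hat x o := by
  cases o with
  | none =>
    change aeval x (C 1) = (1 : k)
    simp
  | some u =>
    change aeval x (X u) = x u
    simp

lemma dex_degree (o : Option (Fin n)) : (dex n o).degree ≤ 1 := by
  cases o <;> simp [dex]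

lemma dex_inj : Function.Injective (dex n) := by
  intro o o' h
  cases o with
  | none =>
    cases o' with
    | none => rfl
    | some u =>
      simp only [dex, Option.elim_none, Option.elim_some] at h
      exact absurd h.symm (Finsupp.single_ne_zero.2 one_ne_zero)
  | some u =>
    cases o' with
    | none =>
      simp only [dex, Option.elim_none, Option.elim_some] at h
      exact absurd h (Finsupp.single_ne_zero.2 one_ne_zero)
    | some u' =>
      simp only [dex, Option.elim_some] at h
      rw [Finsupp.single_left_injective one_ne_zero h]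

lemma range_dex : Set.range (dex n) = {μ : Fin n →₀ ℕ | μ.degree ≤ 1} := by
  ext μ
  constructor
  · rintro ⟨o, rfl⟩
    exact dex_degree o
  · intro hμ
    have h5 : μ.degree ≤ 1 := hμ
    rcases Nat.lt_or_ge μ.degree 1 with h6 | h6
    · exact ⟨none, ((Finsupp.degree_eq_zero_iff _).1 (by omega)).symm⟩
    · obtain ⟨u, rfl⟩ := exists_single_of_degree_one μ (by omega)
      exact ⟨some u, rfl⟩

/-- a good configuration has a monomial basis -/
lemma exists_QData (p : Fin d → Fin n → k) (h : GoodCfg (fun l => hat (p l))) :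
    ∃ D : QData n d, (EM k D p).det ≠ 0 := by
  classical
  let f : (Fin n →₀ ℕ) → (Fin d → k) := fun μ l => aeval (p l) (monomial μ (1 : k))
  obtain ⟨D, hD⟩ := exists_QData_of f (by
    rw [← range_dex, linearIndepOn_range_iff dex_inj, Fintype.linearIndependent_iff]
    intro g hg
    have h1 := h.H1 g (by
      intro l
      have h2 := congrFun hg l
      rw [Finset.sum_apply] at h2
      simp only [Function.comp_apply, Pi.smul_apply, smul_eq_mul, f, aeval_dex] at h2
      exact h2)
    exact fun i => congrFun h1 i)
    (by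
      by_contra hne
      obtain ⟨φ, hφ0, hφ⟩ := Submodule.exists_le_ker_of_lt_top _ (lt_top_iff_ne_top.2 hne)
      have hφm : ∀ z : Fin d → k, φ z = ∑ l, φ (Pi.single l 1) * z l := by
        intro z
        have h3 : z = ∑ s, z s • (Pi.single s (1 : k) : Fin d → k) := by
          ext s
          simp [Finset.sum_apply, Pi.single_apply]
        conv_lhs => rw [h3]
        rw [map_sum]
        refine Finset.sum_congr rfl fun i _ => ?_
        rw [map_smul, smul_eq_mul, mul_comm]
      have h1 := h.H2 (fun l => φ (Pi.single l 1)) (by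
        intro a b
        have h2 : φ (f (dex n a + dex n b)) = 0 := by
          apply hφ
          apply Submodule.subset_span
          refine ⟨_, ?_, rfl⟩
          have h3 := dex_degree a
          have h4 := dex_degree b
          change (dex n a + dex n b).degree ≤ 2
          rw [map_add]
          omega
        rw [hφm] at h2
        rw [← h2]
        refine Finset.sum_congr rfl fun l _ => ?_
        congr 1
        have h3 : (monomial (dex n a + dex n b) (1 : k)) =
            monomial (dex n a) 1 * monomial (dex n b) 1 := by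
          rw [monomial_mul, one_mul]
        simp only [f]
        rw [h3, map_mul, aeval_dex, aeval_dex])
      apply hφ0
      apply LinearMap.ext
      intro z
      rw [hφm, LinearMap.zero_apply]
      refine Finset.sum_eq_zero fun l _ => ?_
      have h2 : φ (Pi.single l 1) = 0 := congrFun h1 l
      rw [h2, zero_mul])
  refine ⟨D, ?_⟩
  have h1 : IsUnit (EM k D p).transpose := by
    rw [← Matrix.linearIndependent_rows_iff_isUnit]
    exact hD
  have h2 := (Matrix.isUnit_iff_isUnit_det _).1 h1
  rw [Matrix.det_transpose] at h2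
  exact h2.ne_zero

end qd

section crit
variable {k : Type u} [Field k] [IsAlgClosed k] {n d : ℕ}

/-- points of the closure of the family -/
lemma ZZ_subset_radical (D : QData n d) (Z : Set (HilbS k (MvPolynomial (Fin n) k) d))
    (hZ : IsClosed Z) (T : Set (D.N → D.E → k))
    (hT : ∀ g : MvPolynomial (D.N × D.E) k, g ≠ 0 → ∃ a ∈ T, eval (fun s => a s.1 s.2) g ≠ 0)
    (hm : ∀ a ∈ T, ∀ v : Fin n → k,
      chartι k (Idx.single (mb k D.e)) (zp (tch (qchart D a) v)) ∈ Z) : ZZ k D ⊆ Z := by
  have hinf : Infinite k := IsAlgClosed.instInfinite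
  unfold ZZ
  apply closure_minimal _ hZ
  refine range_mor_subset (cU k D) Z hZ {φ | ∃ a ∈ T, ∃ v, φ = evP a v} ?_ ?_
  · intro F hF
    by_contra hF0
    obtain ⟨x, hx⟩ : ∃ x, eval x F ≠ 0 := by
      by_contra hcon
      push Not at hcon
      apply hF0
      apply MvPolynomial.funext
      intro x
      rw [hcon, map_zero]
    let v : Fin n → k := fun u => x (Sum.inr u)
    let g : MvPolynomial (D.N × D.E) k := aeval (Sum.elim X (fun u => C (v u))) F
    have hg : ∀ y : D.N × D.E → k, eval y g = eval (Sum.elim y v) F := by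
      intro y
      have h1 : ((aeval y : MvPolynomial (D.N × D.E) k →ₐ[k] k).comp
          (aeval (Sum.elim X (fun u => C (v u))) :
            MvPolynomial ((D.N × D.E) ⊕ Fin n) k →ₐ[k] MvPolynomial (D.N × D.E) k)) =
          aeval (Sum.elim y v) := by
        apply MvPolynomial.algHom_ext
        rintro (s | u)
        · simp
        · simp
      have h2 := congrArg (fun φ : MvPolynomial ((D.N × D.E) ⊕ Fin n) k →ₐ[k] k => φ F) h1
      exact h2
    have hg0 : g ≠ 0 := by
      intro h
      apply hx
      have h1 := hg (fun s => x (Sum.inl s))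
      rw [h, map_zero] at h1
      rw [h1]
      congr 1
      congr 1
      funext s
      cases s <;> rfl
    obtain ⟨a, ha, hne⟩ := hT g hg0
    apply hne
    rw [hg]
    exact hF (evP a v) ⟨a, ha, v, rfl⟩
  · rintro _ ⟨a, ha, v, rfl⟩
    rw [cU_evP]
    exact hm a ha v

/-- criterion for smoothability of very compressed algebras -/
theorem smoothable_of_cfg0 (h2 : (2 : k) ≠ 0) (hn : 1 ≤ n) (hd1 : n + 1 < d)
    (hd2 : d ≤ (n + 2).choose n) (p0 : Fin d → Fin n → k)
    (h : GoodCfg (fun l => hat (p0 l))) :
    (hilb k (MvPolynomial (Fin n) k) d).locus (IsVeryCompressed d) ⊆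
      closure ((hilb k (MvPolynomial (Fin n) k) d).locus Ideal.IsRadical) := by
  have hinf : Infinite k := IsAlgClosed.instInfinite
  obtain ⟨D, hD⟩ := exists_QData p0 h
  refine (locus_subset D hn hd1 hd2).trans ?_
  refine ZZ_subset_radical D _ isClosed_closure {a | ∃ (p : Fin d → Fin n → k)
    (hp : (EM k D p).det ≠ 0), a = fun i j => (ptChart D p hp).q (monomial (D.nb i) 1) j.1} ?_ ?_
  · intro g hg
    obtain ⟨p, hp, h3⟩ := gen_dense D h2 p0 hD h.H3 g hg
    exact ⟨_, ⟨p, hp, rfl⟩, h3⟩
  · rintro _ ⟨p, hp, rfl⟩ v
    exact limit_mem _ (ptChart_rad D p hp) v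

/-- criterion for smoothability of very compressed algebras -/
theorem smoothable_of_cfg (h2 : (2 : k) ≠ 0) (hn : 1 ≤ n) (hd1 : n + 1 < d)
    (hd2 : d ≤ (n + 2).choose n) {ι Q : Type*} [Fintype ι] [Fintype Q] [DecidableEq ι]
    (hι : Fintype.card ι = n + 1) (hQ : Fintype.card Q = d) (P : Q → (ι → k))
    (hP : ∀ l, ∑ a, P l a = 2) (h : GoodCfg P) :
    (hilb k (MvPolynomial (Fin n) k) d).locus (IsVeryCompressed d) ⊆
      closure ((hilb k (MvPolynomial (Fin n) k) d).locus Ideal.IsRadical) := by
  classical
  let e : ι ≃ Option (Fin n) := Fintype.equivOfCardEq (by simp [hι])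
  let eQ : Fin d ≃ Q := (Fintype.equivFinOfCardEq hQ).symm
  let A : Matrix (Option (Fin n)) ι k := Matrix.of fun o a =>
    o.elim (2 : k)⁻¹ fun u => if e a = some u then 1 else 0
  let B : Matrix ι (Option (Fin n)) k := Matrix.of fun a o =>
    o.elim (if e a = none then 2 else 0) fun u => if e a = some u then 1 else
      if e a = none then -1 else 0
  have hAB : A * B = 1 := by
    ext o o'
    rw [Matrix.mul_apply, ← Equiv.sum_comp e.symm]
    simp only [A, B, Matrix.of_apply, Equiv.apply_symm_apply]
    cases o with
    | none =>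
      cases o' with
      | none =>
        rw [Fintype.sum_option]
        simp [h2]
      | some u' =>
        rw [Fintype.sum_option]
        simp
    | some u =>
      cases o' with
      | none =>
        rw [Fintype.sum_option]
        simp
      | some u' =>
        rw [Fintype.sum_option]
        by_cases hu : u = u'
        · subst hu
          simp
        · simp [Matrix.one_apply, hu, Ne.symm hu]
  let p0 : Fin d → Fin n → k := fun l u => P (eQ l) (e.symm (some u))
  have hA : ∀ l, hat (p0 l) = A.mulVec (P (eQ l)) := by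
    intro l
    funext o
    rw [Matrix.mulVec, dotProduct, ← Equiv.sum_comp e.symm]
    simp only [A, Matrix.of_apply, Equiv.apply_symm_apply]
    cases o with
    | none =>
      simp only [Option.elim_none, hat]
      rw [← Finset.mul_sum, Equiv.sum_comp e.symm (fun a => P (eQ l) a), hP, inv_mul_cancel₀ h2]
    | some u =>
      rw [Fintype.sum_option]
      simp [hat, p0]
  have hBA : B * A = 1 := (Matrix.mul_eq_one_comm_of_equiv e.symm).1 hAB
  have hB : ∀ l, P (eQ l) = B.mulVec (hat (p0 l)) := by
    intro l
    rw [hA, Matrix.mulVec_mulVec, hBA, Matrix.one_mulVec]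
  exact smoothable_of_cfg0 h2 hn hd1 hd2 p0 ((h.reindex eQ).lin A B hA hB hAB)

end crit

end Pool.Agent.H59.VC
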