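import Mathlib
import Pool.Agent.H59.VC.Cfg5

set_option autoImplicit false
set_option linter.unusedSectionVars false

namespace Pool.Agent.H59.VC

section pairs
variable {ι : Type*} [Fintype ι] [DecidableEq ι]

/-- unordered pairs of related vertices -/
abbrev PQ (r : ι → ℕ) (R : ι → ι → Prop) : Type _ := {x : ι × ι // r x.1 < r x.2 ∧ R x.1 x.2}

/-- sum of two coordinate vectors -/
def pv (M : Type*) [CommSemiring M] (i j : ι) : ι → M :=
  fun a => (if a = i then 1 else 0) + (if a = j then 1 else 0)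

variable {M : Type*} [CommSemiring M]

lemma pair_sum (r : ι → ℕ) (hr : Function.Injective r) (R : ι → ι → Prop) [DecidableRel R]
    (hR : ∀ i j, R i j → R j i) (hR0 : ∀ i, ¬ R i i) (F : ι → ι → M) (hF : ∀ i j, F i j = F j i)
    (b : ι) : ∑ x : PQ r R, pv M x.1.1 x.1.2 b * F x.1.1 x.1.2 =
      ∑ j, if R b j then F b j else 0 := by
  have h1 : ∑ x : PQ r R, pv M x.1.1 x.1.2 b * F x.1.1 x.1.2 =
      ∑ i, ∑ j, if (r i < r j ∧ R i j) then pv M i j b * F i j else 0 := by
    rw [← Fintype.sum_prod_type' (f := fun i j =>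
      if (r i < r j ∧ R i j) then pv M i j b * F i j else 0), ← Finset.sum_filter]
    symm
    exact Finset.sum_subtype (Finset.univ.filter fun x : ι × ι => r x.1 < r x.2 ∧ R x.1 x.2)
      (by simp) (fun x : ι × ι => pv M x.1 x.2 b * F x.1 x.2)
  rw [h1]
  have h2 : ∀ i j, (if (r i < r j ∧ R i j) then pv M i j b * F i j else 0) =
      (if b = i then (if (r i < r j ∧ R i j) then F i j else 0) else 0) +
      (if b = j then (if (r i < r j ∧ R i j) then F i j else 0) else 0) := by
    intro i j
    unfold pv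
    by_cases h3 : r i < r j ∧ R i j
    · rw [if_pos h3, if_pos h3, add_mul, ite_mul, ite_mul, one_mul, zero_mul]
    · simp only [h3, if_false]
      simp
  simp only [h2, Finset.sum_add_distrib]
  have h3 : ∑ i, ∑ j, (if b = i then (if (r i < r j ∧ R i j) then F i j else 0) else 0) =
      ∑ j, if (r b < r j ∧ R b j) then F b j else 0 := by
    rw [Finset.sum_eq_single b]
    · simp
    · intro i _ hi
      refine Finset.sum_eq_zero fun j _ => ?_
      rw [if_neg (Ne.symm hi)]
    · simp
  have h4 : ∑ i, ∑ j, (if b = j then (if (r i < r j ∧ R i j) then F i j else 0) else 0) =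
      ∑ i, if (r i < r b ∧ R i b) then F i b else 0 := by
    refine Finset.sum_congr rfl fun i _ => ?_
    rw [Finset.sum_eq_single b]
    · rw [if_pos rfl]
    · intro j _ hj
      rw [if_neg (Ne.symm hj)]
    · simp
  rw [h3, h4, ← Finset.sum_add_distrib]
  refine Finset.sum_congr rfl fun j _ => ?_
  by_cases h5 : R b j
  · have h6 : R j b := hR _ _ h5
    have h7 : b ≠ j := by
      rintro rfl
      exact hR0 _ h5
    have h8 : r b ≠ r j := fun h => h7 (hr h)
    rcases lt_or_gt_of_ne h8 with h9 | h9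
    · simp [h5, h9, not_lt.2 h9.le]
    · simp [h5, h6, h9, not_lt.2 h9.le, hF j b]
  · have h6 : ¬ R j b := fun h => h5 (hR _ _ h)
    simp [h5, h6]

lemma card_PQ (r : ι → ℕ) (hr : Function.Injective r) (R : ι → ι → Prop) [DecidableRel R]
    (hR : ∀ i j, R i j → R j i) (hR0 : ∀ i, ¬ R i i) :
    2 * Fintype.card (PQ r R) = ∑ b, (Finset.univ.filter fun j => R b j).card := by
  have h1 : ∀ b, ∑ x : PQ r R, pv ℕ x.1.1 x.1.2 b = (Finset.univ.filter fun j => R b j).card := by
    intro b
    have h2 := pair_sum (M := ℕ) r hr R hR hR0 (fun _ _ => 1) (fun _ _ => rfl) b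
    simp only [mul_one] at h2
    rw [h2, Finset.card_filter]
  rw [← Finset.sum_congr rfl fun b _ => h1 b, Finset.sum_comm]
  have h3 : ∀ x : PQ r R, ∑ b, pv ℕ x.1.1 x.1.2 b = 2 := by
    intro x
    unfold pv
    rw [Finset.sum_add_distrib]
    simp
  rw [Finset.sum_congr rfl fun x _ => h3 x]
  simp [mul_comm]

lemma sum_pv (i j : ι) : ∑ b, pv M i j b = 2 := by
  unfold pv
  rw [Finset.sum_add_distrib]
  simp only [Finset.sum_ite_eq', Finset.mem_univ, if_true]
  norm_num

end pairs

section mats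
variable {k : Type*} [Field k] {ι : Type*} [Fintype ι] [DecidableEq ι]

lemma mulVec_pv (S : Matrix ι ι k) (i j a : ι) :
    (S.mulVec (pv k i j)) a = S a i + S a j := by
  simp only [Matrix.mulVec, dotProduct, pv, mul_add, Finset.sum_add_distrib, mul_ite, mul_one,
    mul_zero, Finset.sum_ite_eq', Finset.mem_univ, if_true]

lemma quad_eq (S : Matrix ι ι k) (p : ι → k) :
    ∑ a, ∑ b, S a b * p a * p b = ∑ a, p a * (S.mulVec p) a := by
  refine Finset.sum_congr rfl fun a _ => ?_
  simp only [Matrix.mulVec, dotProduct, Finset.mul_sum]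
  exact Finset.sum_congr rfl fun b _ => by ring

lemma sum_pv_mul (f : ι → k) (i j : ι) : ∑ a, pv k i j a * f a = f i + f j := by
  simp only [pv, add_mul, Finset.sum_add_distrib, ite_mul, one_mul, zero_mul,
    Finset.sum_ite_eq', Finset.mem_univ, if_true]

lemma quad_pv (S : Matrix ι ι k) (hS : S.IsSymm) (i j : ι) :
    ∑ a, ∑ b, S a b * pv k i j a * pv k i j b = S i i + S j j + 2 * S i j := by
  rw [quad_eq, sum_pv_mul, mulVec_pv, mulVec_pv, hS.apply i j]
  ring

end mats

end Pool.Agent.H59.VC
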