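import Mathlib
import Pool.Agent.H59.VC.Pair

set_option autoImplicit false
set_option linter.unusedSectionVars false

namespace Pool.Agent.H59.VC

section sy
variable {ι : Type*} [Fintype ι] [DecidableEq ι] {V : Type*} [Zero V]

/-- symmetric extension of a function on unordered pairs -/
def sy (r : ι → ℕ) (R : ι → ι → Prop) [DecidableRel R] (f : PQ r R → V) (i j : ι) : V :=
  if h : r i < r j ∧ R i j then f ⟨(i, j), h⟩
  else if h : r j < r i ∧ R j i then f ⟨(j, i), h⟩ else 0

variable (r : ι → ℕ) (R : ι → ι → Prop) [DecidableRel R]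

lemma sy_symm (f : PQ r R → V) (i j : ι) : sy r R f i j = sy r R f j i := by
  unfold sy
  split_ifs with h1 h2 h3
  · exact absurd h1.1 (not_lt.2 h2.1.le)
  · rfl
  · rfl
  · rfl

lemma sy_apply (f : PQ r R → V) (x : PQ r R) : sy r R f x.1.1 x.1.2 = f x := by
  unfold sy
  rw [dif_pos x.2]

lemma sy_spec (hr : Function.Injective r) (hR : ∀ i j, R i j → R j i) (hR0 : ∀ i, ¬ R i i)
    (f : PQ r R → V) (i j : ι) (h : R i j) :
    ∃ x : PQ r R, sy r R f i j = f x ∧ (x.1 = (i, j) ∨ x.1 = (j, i)) := by
  have hij : r i ≠ r j := by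
    intro h'
    have := hr h'
    subst this
    exact hR0 _ h
  rcases lt_or_gt_of_ne hij with h1 | h1
  · exact ⟨⟨(i, j), h1, h⟩, sy_apply r R f ⟨(i, j), h1, h⟩, Or.inl rfl⟩
  · refine ⟨⟨(j, i), h1, hR _ _ h⟩, ?_, Or.inr rfl⟩
    rw [sy_symm]
    exact sy_apply r R f ⟨(j, i), h1, hR _ _ h⟩

end sy

section pvl
variable {k : Type*} [Field k] {ι : Type*} [Fintype ι] [DecidableEq ι]

lemma pv_comm (i j : ι) : pv k i j = pv k j i := by
  funext a
  unfold pv
  rw [add_comm]

lemma pv_of_eq {x : ι × ι} {i j : ι} (h : x = (i, j) ∨ x = (j, i)) : pv k x.1 x.2 = pv k i j := by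
  rcases h with h | h
  · rw [h]
  · rw [h, pv_comm]

lemma zero_of_pairs (h2 : (2 : k) ≠ 0) (h3 : 3 ≤ Fintype.card ι) (f : ι → k)
    (h : ∀ i j, i ≠ j → f i + f j = 0) : f = 0 := by
  funext i
  obtain ⟨j, hj⟩ : ∃ j : ι, j ∉ ({i} : Finset ι) := by
    by_contra hcon
    push Not at hcon
    have h4 : Fintype.card ι ≤ ({i} : Finset ι).card := Finset.card_le_card fun x _ => hcon x
    rw [Finset.card_singleton] at h4
    omega
  obtain ⟨l, hl⟩ : ∃ l : ι, l ∉ ({i, j} : Finset ι) := by
    by_contra hcon
    push Not at hcon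
    have h4 : Fintype.card ι ≤ ({i, j} : Finset ι).card := Finset.card_le_card fun x _ => hcon x
    have h5 := Finset.card_le_two (a := i) (b := j)
    omega
  simp only [Finset.mem_singleton] at hj
  simp only [Finset.mem_insert, Finset.mem_singleton, not_or] at hl
  have e1 := h i j (Ne.symm hj)
  have e2 := h j l (Ne.symm hl.2)
  have e3 := h i l (Ne.symm hl.1)
  have e4 : 2 * f i = 0 := by linear_combination e1 + e3 - e2
  exact (mul_eq_zero.1 e4).resolve_left h2

end pvl

section cfgA
variable {k : Type*} [Field k] {ι : Type*} [Fintype ι] [DecidableEq ι]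

/-- all sums of two coordinate points, and some coordinate points -/
def PA (k : Type*) [Field k] (r : ι → ℕ) (A : Finset ι) : PQ r (fun i j => i ≠ j) ⊕ A → (ι → k) :=
  Sum.elim (fun x => pv k x.1.1 x.1.2) (fun a => pv k a.1 a.1)

theorem goodA (h2 : (2 : k) ≠ 0) (h3 : 3 ≤ Fintype.card ι) (r : ι → ℕ)
    (hr : Function.Injective r) (A : Finset ι) : GoodCfg (PA k r A) := by
  have hsym : ∀ i j : ι, i ≠ j → j ≠ i := fun i j h => h.symm
  have hirr : ∀ i : ι, ¬ i ≠ i := fun i h => h rfl
  have h4 : (4 : k) ≠ 0 := by
    have : (4 : k) = 2 * 2 := by norm_num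
    rw [this]
    exact mul_ne_zero h2 h2
  refine ⟨?_, ?_, ?_⟩
  · intro w hw
    apply zero_of_pairs h2 h3
    intro i j hij
    rcases lt_or_gt_of_ne (fun h => hij (hr h)) with h5 | h5
    · have h6 := hw (Sum.inl ⟨(i, j), h5, hij⟩)
      simp only [PA, Sum.elim_inl] at h6
      rw [← sum_pv_mul, ← h6]
      exact Finset.sum_congr rfl fun a _ => mul_comm _ _
    · have h6 := hw (Sum.inl ⟨(j, i), h5, hij.symm⟩)
      simp only [PA, Sum.elim_inl] at h6
      rw [add_comm, ← sum_pv_mul, ← h6]
      exact Finset.sum_congr rfl fun a _ => mul_comm _ _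
  · intro c hc
    have key : ∀ a b : ι, (∑ j, if b ≠ j then sy r (fun i j => i ≠ j) (fun x => c (Sum.inl x)) b j *
        pv k b j a else 0) + ∑ y : A, c (Sum.inr y) * (pv k y.1 y.1 a * pv k y.1 y.1 b) = 0 := by
      intro a b
      have h5 := hc a b
      rw [Fintype.sum_sum_type] at h5
      simp only [PA, Sum.elim_inl, Sum.elim_inr] at h5
      refine Eq.trans ?_ h5
      congr 1
      rw [← pair_sum r hr (fun i j => i ≠ j) hsym hirr (fun i j =>
        sy r (fun i j => i ≠ j) (fun x => c (Sum.inl x)) i j * pv k i j a) (by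
          intro i j
          rw [sy_symm, pv_comm]) b]
      refine Finset.sum_congr rfl fun x _ => ?_
      rw [sy_apply]
      ring
    have h5 : ∀ a b : ι, a ≠ b → sy r (fun i j => i ≠ j) (fun x => c (Sum.inl x)) b a = 0 := by
      intro a b hab
      have h6 := key a b
      rw [Finset.sum_eq_single a] at h6
      · rw [if_pos (Ne.symm hab)] at h6
        have h7 : ∑ y : A, c (Sum.inr y) * (pv k y.1 y.1 a * pv k y.1 y.1 b) = 0 := by
          refine Finset.sum_eq_zero fun y _ => ?_
          by_cases h8 : a = y.1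
          · have h9 : b ≠ y.1 := fun h => hab (h8.trans h.symm)
            simp [pv, h9]
          · simp [pv, h8]
        rw [h7, add_zero] at h6
        have h8 : pv k b a a = 1 := by simp [pv, hab]
        rw [h8, mul_one] at h6
        exact h6
      · intro j _ hj
        split_ifs with h7
        · have : pv k b j a = 0 := by simp [pv, hab, Ne.symm hj]
          rw [this, mul_zero]
        · rfl
      · simp
    funext l
    rcases l with x | y
    · have h6 := h5 x.1.2 x.1.1 (Ne.symm x.2.2)
      rw [sy_apply] at h6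
      exact h6
    · have h6 := key y.1 y.1
      rw [Finset.sum_eq_zero, zero_add, Finset.sum_eq_single y] at h6
      · have h7 : pv k y.1 y.1 y.1 = 2 := by
          simp only [pv, if_true]
          norm_num
        rw [h7] at h6
        have h8 : c (Sum.inr y) * 4 = 0 := by rw [← h6]; ring
        exact (mul_eq_zero.1 h8).resolve_right h4
      · intro y' _ hy'
        have : pv k y'.1 y'.1 y.1 = 0 := by
          have : y.1 ≠ y'.1 := fun h => hy' (Subtype.ext h.symm)
          simp [pv, this]
        rw [this]
        ring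
      · simp
      · intro j _
        split_ifs with h7
        · rw [h5 j y.1 (Ne.symm h7), zero_mul]
        · rfl
  · intro S hS1 hS2 hS3 hS4
    -- membership in the linear system
    have hK : ∀ l a b, a ≠ b → S l a a + S l b b + 2 * S l a b = 0 := by
      intro l a b hab
      rcases lt_or_gt_of_ne (fun h => hab (hr h)) with h5 | h5
      · have h6 := hS3 l (Sum.inl ⟨(a, b), h5, hab⟩)
        simp only [PA, Sum.elim_inl] at h6
        rw [quad_pv _ (hS1 l)] at h6
        exact h6
      · have h6 := hS3 l (Sum.inl ⟨(b, a), h5, hab.symm⟩)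
        simp only [PA, Sum.elim_inl] at h6
        rw [quad_pv _ (hS1 l)] at h6
        have h7 := (hS1 l).apply a b
        linear_combination h6 - 2 * h7
    have hextra : ∀ (y : A), ∀ a, S (Sum.inr y) a a = 0 := by
      intro y
      have h5 : ∀ a, S (Sum.inr y) a y.1 = 0 := by
        intro a
        have h6 := congrFun (hS2 (Sum.inr y)) a
        simp only [PA, Sum.elim_inr] at h6
        rw [mulVec_pv, ← two_mul] at h6
        exact (mul_eq_zero.1 h6).resolve_left h2
      intro a
      by_cases h6 : a = y.1
      · rw [h6]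
        exact h5 _
      · have h7 := hK (Sum.inr y) a y.1 h6
        rw [h5, h5] at h7
        simpa using h7
    set Mt := sy r (fun i j : ι => i ≠ j) (fun x => S (Sum.inl x)) with hMt
    have hM : ∀ i j, i ≠ j → (∀ a, Mt i j a i + Mt i j a j = 0) ∧
        (∀ a b, a ≠ b → Mt i j a a + Mt i j b b + 2 * Mt i j a b = 0) := by
      intro i j hij
      obtain ⟨x, hx1, hx2⟩ := sy_spec r (fun i j : ι => i ≠ j) hr hsym hirr
        (fun x => S (Sum.inl x)) i j hij
      rw [← hMt] at hx1
      rw [hx1]
      refine ⟨fun a => ?_, fun a b hab => hK _ a b hab⟩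
      have h6 := congrFun (hS2 (Sum.inl x)) a
      simp only [PA, Sum.elim_inl] at h6
      rw [pv_of_eq hx2, mulVec_pv] at h6
      exact h6
    have hMs : ∀ i j, (Mt i j).IsSymm := by
      intro i j
      by_cases hij : i = j
      · subst hij
        rw [hMt]
        unfold sy
        simp only [ne_eq, not_true_eq_false, and_false, dite_false]
        exact Matrix.isSymm_zero
      · obtain ⟨x, hx1, hx2⟩ := sy_spec r (fun i j : ι => i ≠ j) hr hsym hirr
          (fun x => S (Sum.inl x)) i j hij
        rw [hMt, hx1]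
        exact hS1 _
    have hd1 : ∀ i j, i ≠ j → Mt i j j j = Mt i j i i := by
      intro i j hij
      have e1 := (hM i j hij).1 i
      have e2 := (hM i j hij).1 j
      have e3 := (hMs i j).apply i j
      rw [e3] at e2
      linear_combination e2 - e1
    have hd2 : ∀ i j a, i ≠ j → a ≠ i → a ≠ j → Mt i j a a = - Mt i j i i := by
      intro i j a hij hai haj
      have e1 := (hM i j hij).1 a
      have e2 := (hM i j hij).2 a i hai
      have e3 := (hM i j hij).2 a j haj
      have e4 := hd1 i j hij
      have e5 : 2 * (Mt i j a a + Mt i j i i) = 0 := by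
        linear_combination e2 + e3 - 2 * e1 - e4
      have := (mul_eq_zero.1 e5).resolve_left h2
      linear_combination this
    have hsum : ∀ a b, (∑ j, if b ≠ j then Mt b j a a else 0) = 0 := by
      intro a b
      have h5 := congrFun (congrFun (hS4 b) a) a
      rw [Fintype.sum_sum_type] at h5
      simp only [PA, Sum.elim_inl, Sum.elim_inr, Matrix.add_apply, Matrix.sum_apply,
        Matrix.smul_apply, smul_eq_mul, Matrix.zero_apply, hextra, mul_zero,
        Finset.sum_const_zero, add_zero] at h5
      refine Eq.trans ?_ h5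
      rw [← pair_sum r hr (fun i j => i ≠ j) hsym hirr (fun i j => Mt i j a a) (by
        intro i j
        rw [hMt, sy_symm]) b]
      refine Finset.sum_congr rfl fun x _ => ?_
      rw [hMt, sy_apply]
    have hT : ∀ b, (∑ j, if b ≠ j then Mt b j b b else 0) = 0 := fun b => hsum b b
    have hY : ∀ a b, a ≠ b → Mt b a b b = 0 := by
      intro a b hab
      have h5 := hsum a b
      have h6 : ∀ j, (if b ≠ j then Mt b j a a else 0) =
          (if j = a then 2 * Mt b a b b else 0) - (if b ≠ j then Mt b j b b else 0) := by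
        intro j
        by_cases h7 : j = a
        · subst h7
          rw [if_pos (Ne.symm hab), if_pos rfl, if_pos (Ne.symm hab), hd1 b j (Ne.symm hab)]
          ring
        · rw [if_neg h7, zero_sub]
          split_ifs with h8
          · exact hd2 b j a h8 hab (Ne.symm h7)
          · simp
      rw [Finset.sum_congr rfl fun j _ => h6 j, Finset.sum_sub_distrib, hT, sub_zero] at h5
      simp only [Finset.sum_ite_eq', Finset.mem_univ, if_true] at h5
      exact (mul_eq_zero.1 h5).resolve_left h2
    have hdiag : ∀ l a, S l a a = 0 := by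
      intro l a
      rcases l with x | y
      · have h5 : Mt x.1.1 x.1.2 = S (Sum.inl x) := by rw [hMt, sy_apply]
        have hne : x.1.1 ≠ x.1.2 := x.2.2
        rw [← h5]
        have h6 := hY x.1.2 x.1.1 hne.symm
        by_cases h7 : a = x.1.1
        · rw [h7, h6]
        · by_cases h8 : a = x.1.2
          · rw [h8, hd1 _ _ hne, h6]
          · rw [hd2 _ _ _ hne h7 h8, h6, neg_zero]
      · exact hextra y a
    intro l
    ext a b
    rw [Matrix.zero_apply]
    by_cases hab : a = b
    · rw [hab]
      exact hdiag l b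
    · have h5 := hK l a b hab
      rw [hdiag, hdiag, zero_add, zero_add] at h5
      exact (mul_eq_zero.1 h5).resolve_left h2

end cfgA

end Pool.Agent.H59.VC
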