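import Mathlib

set_option autoImplicit false
set_option linter.unusedSectionVars false

open Polynomial

namespace Pool.Agent.H59.VC

section
variable {k : Type*} [Field k]

lemma div_mul_add (f : k[X]) (a : k) : (X - C a) * (f /ₘ (X - C a)) + C (f.eval a) = f := by
  have h1 := modByMonic_add_div f (X - C a)
  rw [modByMonic_X_sub_C_eq_C_eval] at h1
  rw [add_comm]
  exact h1

lemma eval_div_ne (f : k[X]) (a b : k) (h : b ≠ a) :
    (f /ₘ (X - C a)).eval b = (f.eval b - f.eval a) / (b - a) := by
  have h1 := congrArg (eval b) (div_mul_add f a)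
  rw [eval_add, eval_mul, eval_sub, eval_X, eval_C, eval_C] at h1
  rw [eq_div_iff (sub_ne_zero.2 h), ← h1]
  ring

lemma eval_div_self (f : k[X]) (a : k) :
    (f /ₘ (X - C a)).eval a = f.derivative.eval a := by
  have h1 := congrArg (fun g : k[X] => (derivative g).eval a) (div_mul_add f a)
  simp only [derivative_add, derivative_mul, derivative_sub, derivative_X, derivative_C,
    eval_add, eval_mul, eval_sub, eval_X, eval_C, sub_self, zero_mul, sub_zero, one_mul,
    add_zero] at h1
  exact h1

/-- a linear system without nonzero solutions -/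
lemma interp_zero [CharZero k] (m : ℕ) (p : Fin m → k) (hp : Function.Injective p) (y : Fin m → k)
    (σ : ℕ) (h : ∀ t, 2 * p t * (∑ t' ∈ Finset.univ.erase t, (y t - y t') / (p t - p t')) +
      (1 + σ) * y t = 0) : y = 0 := by
  classical
  classical
  set f : k[X] := Lagrange.interpolate Finset.univ p y with hf
  have hfe : ∀ t, f.eval (p t) = y t := by
    intro t
    exact Lagrange.eval_interpolate_at_node y hp.injOn (Finset.mem_univ t)
  have hfd : f.degree < m := by
    have := Lagrange.degree_interpolate_lt (s := Finset.univ) y (v := p) hp.injOn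
    rw [Finset.card_univ, Fintype.card_fin] at this
    exact this
  by_cases hf0 : f = 0
  · funext t
    rw [← hfe, hf0, eval_zero]
    rfl
  exfalso
  set j := f.natDegree with hj
  have hjm : j < m := (natDegree_lt_iff_degree_lt hf0).2 hfd
  set Df : k[X] := ∑ t', f /ₘ (X - C (p t')) - f.derivative with hDf
  set g : k[X] := 2 * X * Df + C (1 + σ : k) * f with hg
  have hge : ∀ t, g.eval (p t) = 0 := by
    intro t
    rw [← h t]
    rw [hg, eval_add, eval_mul, eval_mul, eval_mul, eval_C, eval_X, hfe]
    have e1 : eval (p t) (2 : k[X]) = 2 := by simp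
    rw [e1]
    congr 2
    rw [hDf, eval_sub, eval_finsetSum, ← eval_div_self,
      ← Finset.add_sum_erase _ _ (Finset.mem_univ t), add_sub_cancel_left]
    refine Finset.sum_congr rfl fun t' ht' => ?_
    have hne : p t ≠ p t' := fun hh => (Finset.mem_erase.1 ht').1 (hp hh).symm
    rw [eval_div_ne _ _ _ hne, hfe, hfe]
  have hdiv : ∀ a : k, (f /ₘ (X - C a)).natDegree = j - 1 := by
    intro a
    rw [natDegree_divByMonic _ (monic_X_sub_C a), natDegree_X_sub_C]
  have hcoef : g.coeff j = (if j = 0 then 1 + (σ : k) else 2 * ((m : k) - j) + 1 + σ) *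
      f.leadingCoeff ∧ g.natDegree ≤ j := by
    by_cases hj0 : j = 0
    · have h1 : f = C (f.coeff 0) := eq_C_of_natDegree_eq_zero hj0
      have hD : Df = 0 := by
        rw [hDf, h1, derivative_C, sub_zero]
        refine Finset.sum_eq_zero fun t _ => ?_
        rw [divByMonic_eq_zero_iff (monic_X_sub_C _)]
        refine lt_of_le_of_lt degree_C_le ?_
        rw [degree_X_sub_C]
        exact zero_lt_one
      constructor
      · rw [if_pos hj0, hg, hD, mul_zero, zero_add, coeff_C_mul, leadingCoeff, ← hj]
      · rw [hg, hD, mul_zero, zero_add]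
        exact natDegree_C_mul_le _ _
    · have hdeg : f.degree ≠ 0 := by
        intro h0
        exact hj0 (natDegree_eq_of_degree_eq_some h0)
      have hc1 : ∀ a : k, (f /ₘ (X - C a)).coeff (j - 1) = f.leadingCoeff := by
        intro a
        rw [← hdiv a]
        exact leadingCoeff_divByMonic_X_sub_C f hdeg a
      have hDc : Df.coeff (j - 1) = ((m : k) - j) * f.leadingCoeff := by
        rw [hDf, coeff_sub, finsetSum_coeff, Finset.sum_congr rfl fun t _ => hc1 (p t),
          coeff_derivative]
        rw [Finset.sum_const, Finset.card_univ, Fintype.card_fin, nsmul_eq_mul,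
          Nat.sub_add_cancel (by omega)]
        have h2 : ((j - 1 : ℕ) : k) + 1 = j := by
          have : ((j - 1 + 1 : ℕ) : k) = j := by rw [Nat.sub_add_cancel (by omega)]
          rw [← this]
          push_cast
          ring
        rw [h2, leadingCoeff, ← hj]
        ring
      have hDd : Df.natDegree ≤ j - 1 := by
        rw [hDf]
        refine (natDegree_sub_le _ _).trans (max_le ?_ ?_)
        · refine natDegree_sum_le_of_forall_le _ _ fun t _ => ?_
          exact (hdiv _).le
        · exact natDegree_derivative_le _
      constructor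
      · rw [if_neg hj0, hg, coeff_add, coeff_C_mul]
        have h3 : (2 * X * Df : k[X]).coeff j = 2 * Df.coeff (j - 1) := by
          have e2 : (2 * X * Df : k[X]) = C 2 * (X * Df) := by
            rw [mul_assoc]
            rfl
          rw [e2, coeff_C_mul]
          obtain ⟨i, hi⟩ : ∃ i, j = i + 1 := ⟨j - 1, by omega⟩
          rw [hi, coeff_X_mul, Nat.add_sub_cancel]
        rw [h3, hDc, leadingCoeff, ← hj]
        ring
      · rw [hg]
        refine (natDegree_add_le _ _).trans (max_le ?_ (natDegree_C_mul_le _ _))
        have e2 : (2 * X * Df : k[X]) = C 2 * (X * Df) := by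
          rw [mul_assoc]
          rfl
        rw [e2]
        refine (natDegree_C_mul_le _ _).trans ?_
        refine natDegree_mul_le.trans ?_
        have : (X : k[X]).natDegree ≤ 1 := natDegree_X_le
        omega
  have hg0 : g = 0 := by
    by_contra hne
    have h1 : Finset.univ.image p ⊆ g.roots.toFinset := by
      intro x hx
      obtain ⟨t, -, rfl⟩ := Finset.mem_image.1 hx
      rw [Multiset.mem_toFinset, mem_roots hne]
      exact hge t
    have h2 := Finset.card_le_card h1
    rw [Finset.card_image_of_injective _ hp, Finset.card_univ, Fintype.card_fin] at h2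
    have h3 := Multiset.toFinset_card_le g.roots
    have h4 := card_roots' g
    have h5 := hcoef.2
    omega
  have h6 := hcoef.1
  rw [hg0, coeff_zero] at h6
  have h7 : f.leadingCoeff ≠ 0 := leadingCoeff_ne_zero.2 hf0
  have h8 := (mul_eq_zero.1 h6.symm).resolve_right h7
  split_ifs at h8 with h9
  · have : ((1 + σ : ℕ) : k) = 0 := by push_cast; exact h8
    rw [Nat.cast_eq_zero] at this
    omega
  · have : ((2 * (m - j) + 1 + σ : ℕ) : k) = 0 := by
      rw [← h8]
      push_cast [Nat.cast_sub hjm.le]
      ring
    rw [Nat.cast_eq_zero] at this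
    omega

end

end Pool.Agent.H59.VC
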