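import Mathlib
import Pool.Agent.H59.VC.Itp

set_option autoImplicit false
set_option linter.unusedSectionVars false

namespace Pool.Agent.H59.VC

/-- vertices: one special edge, `m` edges, at most one single vertex -/
abbrev VB (m s : ℕ) : Type := Bool ⊕ ((Fin m × Bool) ⊕ Fin s)

section defs
variable {m s : ℕ}

/-- vertices of the special edge -/
def zz (β : Bool) : VB m s := Sum.inl β

/-- vertices of the other edges -/
def vv (t : Fin m) (β : Bool) : VB m s := Sum.inr (Sum.inl (t, β))

/-- the single vertex -/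
def ss (i : Fin s) : VB m s := Sum.inr (Sum.inr i)

/-- the edge of a vertex -/
def edg : VB m s → Unit ⊕ (Fin m ⊕ Fin s) := Sum.map (fun _ => ()) (Sum.map Prod.fst id)

/-- vertices in different edges -/
def RB (i j : VB m s) : Prop := edg i ≠ edg j

instance : DecidableRel (RB (m := m) (s := s)) :=
  fun i j => inferInstanceAs (Decidable (edg i ≠ edg j))

lemma RB_symm (i j : VB m s) (h : RB i j) : RB j i := Ne.symm h

lemma RB_irrefl (i : VB m s) : ¬ RB i i := fun h => h rfl

lemma RB_zz (β β' : Bool) : ¬ RB (zz β : VB m s) (zz β') := by simp [RB, edg, zz]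

lemma RB_zv (β : Bool) (t : Fin m) (β' : Bool) : RB (zz β : VB m s) (vv t β') := by
  simp [RB, edg, zz, vv]

lemma RB_zs (β : Bool) (i : Fin s) : RB (zz β : VB m s) (ss i) := by
  simp [RB, edg, zz, ss]

lemma RB_vs (t : Fin m) (β : Bool) (i : Fin s) : RB (vv t β : VB m s) (ss i) := by
  simp [RB, edg, vv, ss]

lemma RB_vv (t t' : Fin m) (β β' : Bool) : RB (vv t β : VB m s) (vv t' β') ↔ t ≠ t' := by
  simp [RB, edg, vv]

lemma RB_not_v (t : Fin m) (β : Bool) (j : VB m s) (h : ¬ RB (vv t β) j) :
    j = vv t β ∨ j = vv t (!β) := by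
  rcases j with γ | ⟨⟨t', γ⟩ | i⟩
  · exact absurd (RB_symm _ _ (RB_zv γ t β)) h
  · have h1 : ¬ RB (vv t β : VB m s) (vv t' γ) := h
    rw [RB_vv, not_not] at h1
    subst h1
    cases β <;> cases γ <;> simp [vv]
  · exact absurd (RB_vs t β i) h

lemma RB_not_z (β : Bool) (j : VB m s) (h : ¬ RB (zz β) j) : j = zz false ∨ j = zz true := by
  rcases j with γ | ⟨⟨t', γ⟩ | i⟩
  · cases γ <;> simp [zz]
  · exact absurd (RB_zv β t' γ) h
  · exact absurd (RB_zs β i) h

lemma RB_not_s (hs : s ≤ 1) (i : Fin s) (j : VB m s) (h : ¬ RB (ss i) j) : j = ss i := by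
  rcases j with γ | ⟨⟨t', γ⟩ | i'⟩
  · exact absurd (RB_symm _ _ (RB_zs γ i)) h
  · exact absurd (RB_symm _ _ (RB_vs t' γ i)) h
  · have : i' = i := by
      apply Fin.ext
      have h1 := i.2
      have h2 := i'.2
      omega
    rw [this]
    rfl

end defs

section sys
variable {k : Type*} [Field k] {m s : ℕ}

/-- the extra points -/
def gv (τ : Fin m → k) (t : Fin m) : VB m s → k :=
  Sum.elim (fun β => if β then - τ t else τ t)
    (Sum.elim (fun x => if x.1 = t then 1 else 0) (fun _ => 0))

lemma gv_z0 (τ : Fin m → k) (t : Fin m) : gv τ t (zz false : VB m s) = τ t := by simp [gv, zz]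

lemma gv_z1 (τ : Fin m → k) (t : Fin m) : gv τ t (zz true : VB m s) = - τ t := by simp [gv, zz]

lemma gv_v (τ : Fin m → k) (t t' : Fin m) (β : Bool) :
    gv τ t (vv t' β : VB m s) = if t' = t then 1 else 0 := by simp [gv, vv]

lemma gv_s (τ : Fin m → k) (t : Fin m) (i : Fin s) : gv τ t (ss i : VB m s) = 0 := by simp [gv, ss]

/-- the linear system of the configuration -/
structure SysB (τ : Fin m → k) (d : VB m s → VB m s → VB m s → k) (e : VB m s → VB m s → k)
    (G : Fin m → VB m s → k) (ε L : Fin m → k) : Prop where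
  dsym : ∀ i j a, d i j a = d j i a
  esym : ∀ i j, e i j = e j i
  A1 : ∀ i j, RB i j → d i j j = d i j i
  A2 : ∀ i j a, RB i j → RB a i → RB a j → d i j a = - d i j i
  A3 : ∀ t β j, RB (vv t β) j → d (vv t β) j (vv t (!β)) = - d (vv t β) j (vv t β) +
    (τ t ^ 2 * e (vv t β) j + 2 * τ t * (d (vv t β) j (zz false) - d (vv t β) j (zz true))) / 2
  A4 : ∀ β j, RB (zz β) j → e (zz β) j = 0
  G1 : ∀ t, G t (zz false) - G t (zz true) = - τ t * ε t
  G2 : ∀ t β, G t (vv t β) = (L t + τ t ^ 2 * ε t) / 2
  G3 : ∀ t, G t (zz false) + G t (zz true) = - L t - 2 * τ t ^ 2 * ε t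
  G4 : ∀ t a, RB a (zz false) → RB a (vv t false) → G t a = - L t / 2
  Sd : ∀ a b, (∑ j, if RB b j then d b j a else 0) + ∑ t, gv τ t b * G t a = 0
  Se : ∀ b, (∑ j, if RB b j then e b j else 0) + ∑ t, gv τ t b * ε t = 0

variable {τ : Fin m → k} {d : VB m s → VB m s → VB m s → k} {e : VB m s → VB m s → k}
  {G : Fin m → VB m s → k} {ε L : Fin m → k}

/-- sum of the diagonal values -/
def TT' (d : VB m s → VB m s → VB m s → k) (b : VB m s) : k := ∑ j, if RB b j then d b j b else 0

lemma sum_gv_v (X : Fin m → k) (t : Fin m) (β : Bool) :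
    ∑ t', gv τ t' (vv t β : VB m s) * X t' = X t := by
  simp only [gv_v]
  simp

lemma sum_gv_s (X : Fin m → k) (i : Fin s) : ∑ t', gv τ t' (ss i : VB m s) * X t' = 0 := by
  simp only [gv_s]
  simp

/-- column sums at a vertex of an ordinary edge -/
lemma SysB.sumv (h : SysB τ d e G ε L) (b : VB m s) (t : Fin m) (β : Bool) (hb : RB b (vv t β)) :
    (∑ j, if RB b j then d b j (vv t β) else 0) = 2 * d b (vv t β) b - TT' d b +
      (τ t ^ 2 * e b (vv t (!β)) + 2 * τ t * (d b (vv t (!β)) (zz false) -
        d b (vv t (!β)) (zz true))) / 2 := by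
  have hb' : RB b (vv t (!β)) := by
    intro h1
    exact hb (h1.trans rfl)
  have hne : (vv t β : VB m s) ≠ vv t (!β) := by
    cases β <;> simp [vv]
  have key : ∀ j, (if RB b j then d b j (vv t β) else 0) =
      (if j = vv t β then 2 * d b (vv t β) b else 0) - (if RB b j then d b j b else 0) +
      (if j = vv t (!β) then (τ t ^ 2 * e b (vv t (!β)) + 2 * τ t * (d b (vv t (!β)) (zz false) -
        d b (vv t (!β)) (zz true))) / 2 else 0) := by
    intro j
    by_cases h1 : j = vv t β
    · subst h1
      rw [if_pos hb, if_pos rfl, if_pos hb, if_neg hne, h.A1 _ _ hb]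
      ring
    by_cases h2 : j = vv t (!β)
    · subst h2
      rw [if_pos hb', if_neg h1, if_pos hb', if_pos rfl]
      have h3 := h.A3 t (!β) b (RB_symm _ _ hb')
      rw [Bool.not_not, h.dsym (vv t (!β)) b, h.dsym (vv t (!β)) b, h.dsym (vv t (!β)) b,
        h.dsym (vv t (!β)) b, h.esym (vv t (!β)) b, h.A1 _ _ hb'] at h3
      rw [h3]
      ring
    · rw [if_neg h1, if_neg h2]
      by_cases h3 : RB b j
      · rw [if_pos h3, if_pos h3]
        have h4 : RB (vv t β) j := by
          by_contra h5
          rcases RB_not_v t β j h5 with h6 | h6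
          · exact h1 h6
          · exact h2 h6
        rw [h.A2 b j (vv t β) h3 (RB_symm _ _ hb) h4]
        ring
      · rw [if_neg h3, if_neg h3]
        ring
  rw [Finset.sum_congr rfl fun j _ => key j, Finset.sum_add_distrib, Finset.sum_sub_distrib]
  simp only [Finset.sum_ite_eq', Finset.mem_univ, if_true]
  rfl

/-- column sums at the single vertex -/
lemma SysB.sums (h : SysB τ d e G ε L) (hs : s ≤ 1) (b : VB m s) (i : Fin s) (hb : RB b (ss i)) :
    (∑ j, if RB b j then d b j (ss i) else 0) = 2 * d b (ss i) b - TT' d b := by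
  have key : ∀ j, (if RB b j then d b j (ss i) else 0) =
      (if j = ss i then 2 * d b (ss i) b else 0) - (if RB b j then d b j b else 0) := by
    intro j
    by_cases h1 : j = ss i
    · subst h1
      rw [if_pos hb, if_pos rfl, if_pos hb, h.A1 _ _ hb]
      ring
    · rw [if_neg h1]
      by_cases h3 : RB b j
      · rw [if_pos h3, if_pos h3]
        have h4 : RB (ss i) j := by
          by_contra h5
          exact h1 (RB_not_s hs i j h5)
        rw [h.A2 b j (ss i) h3 (RB_symm _ _ hb) h4]
        ring
      · rw [if_neg h3, if_neg h3]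
        ring
  rw [Finset.sum_congr rfl fun j _ => key j, Finset.sum_sub_distrib]
  simp only [Finset.sum_ite_eq', Finset.mem_univ, if_true]
  rfl

/-- column sums at the special edge -/
lemma SysB.sumz (h : SysB τ d e G ε L) (b : VB m s) (hb : RB b (zz false)) :
    (∑ j, if RB b j then d b j (zz false) + d b j (zz true) else 0) =
      4 * (d b (zz false) b + d b (zz true) b) - 2 * TT' d b -
      (d b (zz false) (zz false) - d b (zz false) (zz true)) +
      (d b (zz true) (zz false) - d b (zz true) (zz true)) := by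
  have hb' : RB b (zz true) := by
    intro h1
    exact hb (h1.trans rfl)
  have hne : (zz false : VB m s) ≠ zz true := by simp [zz]
  have key : ∀ j, (if RB b j then d b j (zz false) + d b j (zz true) else 0) =
      (if j = zz false then 4 * d b (zz false) b -
        (d b (zz false) (zz false) - d b (zz false) (zz true)) else 0) +
      (if j = zz true then 4 * d b (zz true) b +
        (d b (zz true) (zz false) - d b (zz true) (zz true)) else 0) -
      2 * (if RB b j then d b j b else 0) := by
    intro j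
    by_cases h1 : j = zz false
    · subst h1
      rw [if_pos hb, if_pos rfl, if_neg hne, if_pos hb, h.A1 _ _ hb]
      ring
    by_cases h2 : j = zz true
    · subst h2
      rw [if_pos hb', if_neg h1, if_pos rfl, if_pos hb', h.A1 _ _ hb']
      ring
    · rw [if_neg h1, if_neg h2]
      by_cases h3 : RB b j
      · rw [if_pos h3, if_pos h3]
        have h4 : ∀ β, RB (zz β) j := by
          intro β
          by_contra h5
          rcases RB_not_z β j h5 with h6 | h6
          · exact h1 h6
          · exact h2 h6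
        rw [h.A2 b j _ h3 (RB_symm _ _ hb) (h4 _), h.A2 b j _ h3 (RB_symm _ _ hb') (h4 _)]
        ring
      · rw [if_neg h3, if_neg h3]
        ring
  rw [Finset.sum_congr rfl fun j _ => key j, Finset.sum_sub_distrib, Finset.sum_add_distrib,
    ← Finset.mul_sum]
  simp only [Finset.sum_ite_eq', Finset.mem_univ, if_true]
  unfold TT'
  ring

/-- `θ` vanishes for pairs outside of the special edge -/
lemma SysB.th (h : SysB τ d e G ε L) (i j : VB m s) (hij : RB i j) (h1 : RB i (zz false))
    (h2 : RB j (zz false)) : d i j (zz false) - d i j (zz true) = 0 := by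
  have h1' : RB i (zz true) := fun h3 => h1 (h3.trans rfl)
  have h2' : RB j (zz true) := fun h3 => h2 (h3.trans rfl)
  rw [h.A2 i j _ hij (RB_symm _ _ h1) (RB_symm _ _ h2),
    h.A2 i j _ hij (RB_symm _ _ h1') (RB_symm _ _ h2')]
  ring

end sys

end Pool.Agent.H59.VC
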