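import Mathlib
import Pool.Agent.H59.VC.SysB

set_option autoImplicit false
set_option linter.unusedSectionVars false

namespace Pool.Agent.H59.VC

section sys
variable {k : Type*} [Field k] [CharZero k] {m s : ℕ}
variable {τ : Fin m → k} {d : VB m s → VB m s → VB m s → k} {e : VB m s → VB m s → k}
  {G : Fin m → VB m s → k} {ε L : Fin m → k}

/-- sums of `θ` -/
def Th (d : VB m s → VB m s → VB m s → k) (b : VB m s) : k :=
  ∑ j, if RB b j then d b j (zz false) - d b j (zz true) else 0

lemma SysB.eqTh (h : SysB τ d e G ε L) (b : VB m s) :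
    Th d b + ∑ t, gv τ t b * (G t (zz false) - G t (zz true)) = 0 := by
  have h1 := h.Sd (zz false) b
  have h2 := h.Sd (zz true) b
  have h3 : Th d b = (∑ j, if RB b j then d b j (zz false) else 0) -
      ∑ j, if RB b j then d b j (zz true) else 0 := by
    rw [Th, ← Finset.sum_sub_distrib]
    refine Finset.sum_congr rfl fun j _ => ?_
    split_ifs <;> ring
  have h4 : ∑ t, gv τ t b * (G t (zz false) - G t (zz true)) =
      ∑ t, gv τ t b * G t (zz false) - ∑ t, gv τ t b * G t (zz true) := by
    rw [← Finset.sum_sub_distrib]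
    exact Finset.sum_congr rfl fun j _ => by ring
  rw [h3, h4]
  linear_combination h1 - h2

lemma SysB.eqz (h : SysB τ d e G ε L) (b : VB m s) :
    (∑ j, if RB b j then d b j (zz false) + d b j (zz true) else 0) +
      ∑ t, gv τ t b * (G t (zz false) + G t (zz true)) = 0 := by
  have h1 := h.Sd (zz false) b
  have h2 := h.Sd (zz true) b
  have h3 : (∑ j, if RB b j then d b j (zz false) + d b j (zz true) else 0) =
      (∑ j, if RB b j then d b j (zz false) else 0) +
      ∑ j, if RB b j then d b j (zz true) else 0 := by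
    rw [← Finset.sum_add_distrib]
    refine Finset.sum_congr rfl fun j _ => ?_
    split_ifs <;> ring
  have h4 : ∑ t, gv τ t b * (G t (zz false) + G t (zz true)) =
      ∑ t, gv τ t b * G t (zz false) + ∑ t, gv τ t b * G t (zz true) := by
    rw [← Finset.sum_add_distrib]
    exact Finset.sum_congr rfl fun j _ => by ring
  rw [h3, h4]
  linear_combination h1 + h2

/-- the sums and the value of `L` at a vertex of an ordinary edge -/
lemma SysB.step1 (h : SysB τ d e G ε L) (t : Fin m) (β : Bool) :
    L t = - (3 / 2) * τ t ^ 2 * ε t ∧ TT' d (vv t β) = τ t ^ 2 * ε t / 4 ∧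
      Th d (vv t β) = τ t * ε t := by
  have e2 := h.Sd (vv t β) (vv t β)
  rw [sum_gv_v, h.G2] at e2
  have e2' : TT' d (vv t β) + (L t + τ t ^ 2 * ε t) / 2 = 0 := e2
  have ee := h.Se (vv t β)
  rw [sum_gv_v] at ee
  have eth := h.eqTh (vv t β)
  rw [sum_gv_v, h.G1] at eth
  have e3 := h.Sd (vv t (!β)) (vv t β)
  rw [sum_gv_v, h.G2] at e3
  have h1 : (∑ j, if RB (vv t β) j then d (vv t β) j (vv t (!β)) else 0) = - TT' d (vv t β) +
      (τ t ^ 2 * (∑ j, if RB (vv t β) j then e (vv t β) j else 0) +
        2 * τ t * Th d (vv t β)) / 2 := by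
    have key : ∀ j, (if RB (vv t β) j then d (vv t β) j (vv t (!β)) else 0) =
        - (if RB (vv t β) j then d (vv t β) j (vv t β) else 0) +
        (τ t ^ 2 * (if RB (vv t β) j then e (vv t β) j else 0) +
        2 * τ t * (if RB (vv t β) j then
          d (vv t β) j (zz false) - d (vv t β) j (zz true) else 0)) / 2 := by
      intro j
      split_ifs with h2
      · exact h.A3 t β j h2
      · ring
    rw [Finset.sum_congr rfl fun j _ => key j, Finset.sum_add_distrib, Finset.sum_neg_distrib,
      ← Finset.sum_div, Finset.sum_add_distrib, ← Finset.mul_sum, ← Finset.mul_sum]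
    rfl
  rw [h1] at e3
  refine ⟨?_, ?_, ?_⟩
  · linear_combination e2' + e3 - (τ t ^ 2 / 2) * ee - τ t * eth
  · linear_combination (1 / 2) * e2' - (1 / 2) * e3 + (τ t ^ 2 / 4) * ee + (τ t / 2) * eth
  · linear_combination eth

lemma SysB.y_symm (h : SysB τ d e G ε L) (i j : VB m s) (hij : RB i j) : d j i j = d i j i := by
  rw [h.dsym j i, h.A1 i j hij]

lemma SysB.step2 (h : SysB τ d e G ε L) (t t' : Fin m) (β β' : Bool) (htt : t ≠ t') :
    4 * d (vv t β) (vv t' β') (vv t β) + τ t' ^ 2 * e (vv t β) (vv t' (!β')) =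
      - (τ t ^ 2 * ε t) := by
  have hR : RB (vv t β : VB m s) (vv t' β') := (RB_vv _ _ _ _).2 htt
  have hR' : RB (vv t β : VB m s) (vv t' (!β')) := (RB_vv _ _ _ _).2 htt
  have e1 := h.Sd (vv t' β') (vv t β)
  rw [sum_gv_v, h.sumv _ _ _ hR, h.G4 t (vv t' β') (RB_symm _ _ (RB_zv _ _ _))
    ((RB_vv _ _ _ _).2 (Ne.symm htt))] at e1
  obtain ⟨s1, s2, -⟩ := h.step1 t β
  have hth := h.th _ _ hR' (RB_symm _ _ (RB_zv _ _ _)) (RB_symm _ _ (RB_zv _ _ _))
  rw [s1, s2] at e1
  linear_combination 2 * e1 - 2 * τ t' * hth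

lemma SysB.step2' (h : SysB τ d e G ε L) (hq : ∀ t t', t ≠ t' → τ t ^ 2 + τ t' ^ 2 ≠ 0)
    (t t' : Fin m) (β β' : Bool) (htt : t ≠ t') :
    (τ t ^ 2 - τ t' ^ 2) * e (vv t β) (vv t' β') = τ t ^ 2 * ε t - τ t' ^ 2 * ε t' := by
  have key : ∀ β β' : Bool, τ t ^ 2 * ε t + τ t' ^ 2 * e (vv t β) (vv t' (!β')) =
      τ t' ^ 2 * ε t' + τ t ^ 2 * e (vv t (!β)) (vv t' β') := by
    intro β β'
    have e1 := h.step2 t t' β β' htt
    have e2 := h.step2 t' t β' β (Ne.symm htt)
    have hR : RB (vv t β : VB m s) (vv t' β') := (RB_vv _ _ _ _).2 htt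
    rw [h.y_symm _ _ hR, h.esym (vv t' β')] at e2
    linear_combination e1 - e2
  have e1 := key β (!β')
  have e2 := key (!β) β'
  rw [Bool.not_not] at e1 e2
  have e3 : (τ t ^ 2 + τ t' ^ 2) * (e (vv t β) (vv t' β') - e (vv t (!β)) (vv t' (!β'))) = 0 := by
    linear_combination e1 - e2
  have e4 := (mul_eq_zero.1 e3).resolve_left (hq t t' htt)
  linear_combination τ t ^ 2 * e4 - e1

lemma SysB.step3 (h : SysB τ d e G ε L) (hs : s ≤ 1) (t : Fin m) (β : Bool) (i : Fin s) :
    4 * d (vv t β) (ss i) (vv t β) = - (τ t ^ 2 * ε t) := by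
  have hR := RB_vs (m := m) t β i
  have e1 := h.Sd (ss i) (vv t β)
  rw [sum_gv_v, h.sums hs _ _ hR, h.G4 t (ss i) (RB_symm _ _ (RB_zs _ _))
    (RB_symm _ _ (RB_vs _ _ _))] at e1
  obtain ⟨s1, s2, -⟩ := h.step1 t β
  rw [s1, s2] at e1
  linear_combination 2 * e1

lemma SysB.step3' (h : SysB τ d e G ε L) (hs : s ≤ 1) (hτ : ∀ t, τ t ≠ 0) (t : Fin m) (β : Bool)
    (i : Fin s) : e (ss i) (vv t β) = ε t := by
  have hR := RB_symm _ _ (RB_vs (m := m) t (!β) i)
  have e1 := h.Sd (vv t (!β)) (ss i)
  rw [sum_gv_s, h.sumv _ _ _ hR, Bool.not_not] at e1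
  have e2 := h.Sd (ss i) (ss i)
  rw [sum_gv_s, add_zero] at e2
  have e2' : TT' d (ss i) = 0 := e2
  have hth := h.th (ss i) (vv t β) (RB_symm _ _ (RB_vs (m := m) t β i))
    (RB_symm _ _ (RB_zs _ _)) (RB_symm _ _ (RB_zv _ _ _))
  have e3 := h.step3 hs t (!β) i
  have e4 := h.y_symm _ _ (RB_vs (m := m) t (!β) i)
  rw [e2', e4] at e1
  have e5 : τ t ^ 2 * (e (ss i) (vv t β) - ε t) = 0 := by
    linear_combination 2 * e1 - 2 * τ t * hth - e3
  have e6 := (mul_eq_zero.1 e5).resolve_left (pow_ne_zero 2 (hτ t))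
  exact sub_eq_zero.1 e6

lemma SysB.eps (h : SysB τ d e G ε L) (hs : s ≤ 1) (hτ : ∀ t, τ t ≠ 0)
    (hp : Function.Injective fun t => τ t ^ 2)
    (hq : ∀ t t', t ≠ t' → τ t ^ 2 + τ t' ^ 2 ≠ 0) (t : Fin m) : ε t = 0 := by
  have key : ∀ t, 2 * τ t ^ 2 * (∑ t' ∈ Finset.univ.erase t,
      (τ t ^ 2 * ε t - τ t' ^ 2 * ε t') / (τ t ^ 2 - τ t' ^ 2)) +
      (1 + (s : k)) * (τ t ^ 2 * ε t) = 0 := by
    intro t
    have ee := h.Se (vv t false)
    rw [sum_gv_v, Fintype.sum_sum_type, Fintype.sum_sum_type, Fintype.sum_prod_type] at ee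
    have h1 : ∑ β : Bool, (if RB (vv t false : VB m s) (Sum.inl β) then
        e (vv t false) (Sum.inl β) else 0) = 0 := by
      refine Finset.sum_eq_zero fun β _ => ?_
      split_ifs with h2
      · rw [h.esym]
        exact h.A4 β _ (RB_symm _ _ h2)
      · rfl
    have h2 : ∀ t' : Fin m, ∑ β : Bool, (if RB (vv t false : VB m s) (Sum.inr (Sum.inl (t', β)))
        then e (vv t false) (Sum.inr (Sum.inl (t', β))) else 0) =
        if t' = t then 0 else
          2 * ((τ t ^ 2 * ε t - τ t' ^ 2 * ε t') / (τ t ^ 2 - τ t' ^ 2)) := by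
      intro t'
      by_cases h3 : t' = t
      · rw [if_pos h3]
        refine Finset.sum_eq_zero fun β _ => ?_
        have h4 : ¬ RB (vv t false : VB m s) (vv t' β) := by
          rw [RB_vv, not_not]
          exact h3.symm
        exact if_neg h4
      · rw [if_neg h3]
        have h4 : ∀ β, (if RB (vv t false : VB m s) (vv t' β) then
            e (vv t false) (vv t' β) else 0) =
            (τ t ^ 2 * ε t - τ t' ^ 2 * ε t') / (τ t ^ 2 - τ t' ^ 2) := by
          intro β
          rw [if_pos ((RB_vv _ _ _ _).2 (Ne.symm h3))]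
          have h5 := h.step2' hq t t' false β (Ne.symm h3)
          have h6 : τ t ^ 2 - τ t' ^ 2 ≠ 0 := by
            intro h7
            exact h3 (hp (sub_eq_zero.1 h7)).symm
          rw [eq_div_iff h6, ← h5]
          ring
        have h5 := Finset.sum_congr (s₁ := (Finset.univ : Finset Bool)) rfl fun β _ => h4 β
        refine Eq.trans h5 ?_
        rw [Finset.sum_const, Finset.card_univ, Fintype.card_bool, nsmul_eq_mul]
        norm_num
    have h3 : ∑ i : Fin s, (if RB (vv t false : VB m s) (Sum.inr (Sum.inr i)) then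
        e (vv t false) (Sum.inr (Sum.inr i)) else 0) = s * ε t := by
      have h4 : ∀ i : Fin s, (if RB (vv t false : VB m s) (ss i) then
        e (vv t false) (ss i) else 0) = ε t := by
        intro i
        rw [if_pos (RB_vs _ _ _), h.esym]
        exact h.step3' hs hτ t false i
      have h5 := Finset.sum_congr (s₁ := (Finset.univ : Finset (Fin s))) rfl fun i _ => h4 i
      refine Eq.trans h5 ?_
      rw [Finset.sum_const, Finset.card_univ, Fintype.card_fin, nsmul_eq_mul]
    rw [h1, h3, Finset.sum_congr rfl fun t' _ => h2 t', zero_add] at ee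
    have h4 : ∑ t' : Fin m, (if t' = t then 0 else
          2 * ((τ t ^ 2 * ε t - τ t' ^ 2 * ε t') / (τ t ^ 2 - τ t' ^ 2))) =
        2 * ∑ t' ∈ Finset.univ.erase t,
          (τ t ^ 2 * ε t - τ t' ^ 2 * ε t') / (τ t ^ 2 - τ t' ^ 2) := by
      rw [← Finset.add_sum_erase _ _ (Finset.mem_univ t), if_pos rfl, zero_add, Finset.mul_sum]
      refine Finset.sum_congr rfl fun t' ht' => ?_
      rw [if_neg (Finset.mem_erase.1 ht').1]
    rw [h4] at ee
    linear_combination τ t ^ 2 * ee
  have h1 := interp_zero m (fun t => τ t ^ 2) hp (fun t => τ t ^ 2 * ε t) s key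
  have h2 : τ t ^ 2 * ε t = 0 := congrFun h1 t
  exact (mul_eq_zero.1 h2).resolve_left (pow_ne_zero 2 (hτ t))

/-- the linear system has no nonzero solution -/
theorem SysB.zero (h : SysB τ d e G ε L) (hs : s ≤ 1) (hτ : ∀ t, τ t ≠ 0)
    (hp : Function.Injective fun t => τ t ^ 2)
    (hq : ∀ t t', t ≠ t' → τ t ^ 2 + τ t' ^ 2 ≠ 0) :
    (∀ i j, RB i j → ∀ a, d i j a = 0) ∧ (∀ i j, RB i j → e i j = 0) ∧
      (∀ t a, G t a = 0) ∧ (∀ t, ε t = 0) := by
  have hε := h.eps hs hτ hp hq
  have hL : ∀ t, L t = 0 := by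
    intro t
    rw [(h.step1 t false).1, hε]
    ring
  have hTv : ∀ t β, TT' d (vv t β) = 0 := by
    intro t β
    rw [(h.step1 t β).2.1, hε]
    ring
  have hThv : ∀ t β, Th d (vv t β) = 0 := by
    intro t β
    rw [(h.step1 t β).2.2, hε]
    ring
  have hevv : ∀ t t' β β', t ≠ t' → e (vv t β) (vv t' β') = 0 := by
    intro t t' β β' htt
    have h5 := h.step2' hq t t' β β' htt
    rw [hε, hε] at h5
    have h6 : τ t ^ 2 - τ t' ^ 2 ≠ 0 := by
      intro h7
      exact htt (hp (sub_eq_zero.1 h7))
    have h7 : (τ t ^ 2 - τ t' ^ 2) * e (vv t β) (vv t' β') = 0 := by rw [h5]; ring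
    exact (mul_eq_zero.1 h7).resolve_left h6
  have hyvv : ∀ t t' β β', t ≠ t' → d (vv t β) (vv t' β') (vv t β) = 0 := by
    intro t t' β β' htt
    have h5 := h.step2 t t' β β' htt
    rw [hevv t t' β _ htt, hε] at h5
    linear_combination (1 / 4) * h5
  have hyvs : ∀ t β i, d (vv t β) (ss i) (vv t β) = 0 := by
    intro t β i
    have h5 := h.step3 hs t β i
    rw [hε] at h5
    linear_combination (1 / 4) * h5
  have hysv : ∀ t β i, d (ss i) (vv t β) (ss i) = 0 := by
    intro t β i
    rw [h.y_symm _ _ (RB_vs t β i)]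
    exact hyvs t β i
  have hesv : ∀ t β i, e (ss i) (vv t β) = 0 := by
    intro t β i
    rw [h.step3' hs hτ, hε]
  have hG1 : ∀ t, G t (zz false) - G t (zz true) = 0 := by
    intro t
    rw [h.G1, hε]
    ring
  have hG3 : ∀ t, G t (zz false) + G t (zz true) = 0 := by
    intro t
    rw [h.G3, hε, hL]
    ring
  have hG : ∀ t a, G t a = 0 := by
    intro t a
    rcases a with β | ⟨⟨t', β⟩ | i⟩
    · have e1 := hG1 t
      have e2 := hG3 t
      cases β
      · change G t (zz false) = 0
        linear_combination (1 / 2) * e1 + (1 / 2) * e2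
      · change G t (zz true) = 0
        linear_combination (1 / 2) * e2 - (1 / 2) * e1
    · change G t (vv t' β) = 0
      by_cases h1 : t' = t
      · subst h1
        rw [h.G2, hL, hε]
        ring
      · rw [h.G4 t _ (RB_symm _ _ (RB_zv _ _ _)) ((RB_vv _ _ _ _).2 h1), hL]
        ring
    · change G t (ss i) = 0
      rw [h.G4 t _ (RB_symm _ _ (RB_zs _ _)) (RB_symm _ _ (RB_vs _ _ _)), hL]
      ring
  have hSd : ∀ a b, (∑ j, if RB b j then d b j a else 0) = 0 := by
    intro a b
    have h1 := h.Sd a b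
    rw [Finset.sum_eq_zero (f := fun t => gv τ t b * G t a) (fun t _ => by rw [hG, mul_zero]),
      add_zero] at h1
    exact h1
  have hT0 : ∀ b, TT' d b = 0 := fun b => hSd b b
  have hTh0 : ∀ b, Th d b = 0 := by
    intro b
    have h1 := h.eqTh b
    rw [Finset.sum_eq_zero (fun t _ => by rw [hG, hG]; ring), add_zero] at h1
    exact h1
  -- vertices outside of the special edge
  have hb : ∀ b, RB b (zz false) → (∀ j, RB b j → RB j (zz false) → d b j b = 0) →
      d b (zz false) b + d b (zz true) b = 0 ∧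
      d b (zz false) (zz false) - d b (zz false) (zz true) = 0 ∧
      d b (zz true) (zz false) - d b (zz true) (zz true) = 0 := by
    intro b hb0 hy
    have hb1 : RB b (zz true) := fun h3 => hb0 (h3.trans rfl)
    have h1 : TT' d b = d b (zz false) b + d b (zz true) b := by
      rw [TT', Fintype.sum_sum_type, Fintype.sum_bool]
      have h2 : ∑ x, (if RB b (Sum.inr x) then d b (Sum.inr x) b else 0) = 0 := by
        refine Finset.sum_eq_zero fun x _ => ?_
        split_ifs with h3
        · apply hy _ h3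
          rcases x with ⟨t, β⟩ | i
          · exact RB_symm _ _ (RB_zv _ _ _)
          · exact RB_symm _ _ (RB_zs _ _)
        · rfl
      rw [h2, add_zero]
      change (if RB b (zz true) then d b (zz true) b else 0) +
        (if RB b (zz false) then d b (zz false) b else 0) = _
      rw [if_pos hb0, if_pos hb1, add_comm]
    have h2 : Th d b = (d b (zz false) (zz false) - d b (zz false) (zz true)) +
        (d b (zz true) (zz false) - d b (zz true) (zz true)) := by
      rw [Th, Fintype.sum_sum_type, Fintype.sum_bool]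
      have h2 : ∑ x, (if RB b (Sum.inr x) then
          d b (Sum.inr x) (zz false) - d b (Sum.inr x) (zz true) else 0) = 0 := by
        refine Finset.sum_eq_zero fun x _ => ?_
        split_ifs with h3
        · apply h.th _ _ h3 hb0
          rcases x with ⟨t, β⟩ | i
          · exact RB_symm _ _ (RB_zv _ _ _)
          · exact RB_symm _ _ (RB_zs _ _)
        · rfl
      rw [h2, add_zero]
      change (if RB b (zz true) then d b (zz true) (zz false) - d b (zz true) (zz true) else 0) +
        (if RB b (zz false) then d b (zz false) (zz false) - d b (zz false) (zz true) else 0) = _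
      rw [if_pos hb0, if_pos hb1, add_comm]
    have h3 := h.eqz b
    rw [Finset.sum_eq_zero (s := Finset.univ) (f := fun t => gv τ t b *
      (G t (zz false) + G t (zz true))) (fun t _ => by rw [hG, hG]; ring), add_zero,
      h.sumz b hb0] at h3
    rw [hT0] at h1 h3
    rw [hTh0] at h2
    refine ⟨h1.symm, ?_, ?_⟩
    · linear_combination (-1 / 2) * h3 - 2 * h1 - (1 / 2) * h2
    · linear_combination (1 / 2) * h3 + 2 * h1 - (1 / 2) * h2
  have hbv : ∀ t β, d (vv t β) (zz false) (vv t β) + d (vv t β) (zz true) (vv t β) = 0 ∧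
      d (vv t β) (zz false) (zz false) - d (vv t β) (zz false) (zz true) = 0 ∧
      d (vv t β) (zz true) (zz false) - d (vv t β) (zz true) (zz true) = 0 := by
    intro t β
    apply hb _ (RB_symm _ _ (RB_zv _ _ _))
    intro j hj1 hj2
    rcases j with γ | ⟨⟨t', γ⟩ | i⟩
    · exact absurd hj2 (RB_zz γ false)
    · exact hyvv t t' β γ ((RB_vv _ _ _ _).1 hj1)
    · exact hyvs t β i
  have hbs : ∀ i, d (ss i) (zz false) (ss i) + d (ss i) (zz true) (ss i) = 0 ∧
      d (ss i) (zz false) (zz false) - d (ss i) (zz false) (zz true) = 0 ∧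
      d (ss i) (zz true) (zz false) - d (ss i) (zz true) (zz true) = 0 := by
    intro i
    apply hb _ (RB_symm _ _ (RB_zs _ _))
    intro j hj1 hj2
    rcases j with γ | ⟨⟨t', γ⟩ | i'⟩
    · exact absurd hj2 (RB_zz γ false)
    · exact hysv t' γ i
    · exfalso
      apply hj1
      have : i = i' := by
        apply Fin.ext
        have h1 := i.2
        have h2 := i'.2
        omega
      rw [this]
      rfl
  -- `θ` vanishes everywhere
  have hth : ∀ b β, RB b (zz β) → d b (zz β) (zz false) - d b (zz β) (zz true) = 0 := by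
    intro b β hbz
    rcases b with γ | ⟨⟨t', γ⟩ | i⟩
    · exact absurd hbz (RB_zz γ β)
    · cases β
      · exact (hbv t' γ).2.1
      · exact (hbv t' γ).2.2
    · cases β
      · exact (hbs i).2.1
      · exact (hbs i).2.2
  have hyz : ∀ β j, RB (zz β) j → d (zz β) j (zz β) = 0 := by
    intro β j hj
    rcases j with γ | ⟨⟨t, γ⟩ | i⟩
    · exact absurd hj (RB_zz β γ)
    · have hR := RB_zv (s := s) β t γ
      have hR' := RB_zv (s := s) β t (!γ)
      have h1 := hSd (vv t γ) (zz β)
      rw [h.sumv _ _ _ hR, hT0, h.A4 _ _ hR', h.dsym (zz β) (vv t (!γ)),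
        h.dsym (zz β) (vv t (!γ)), hth _ _ (RB_symm _ _ hR')] at h1
      change d (zz β) (vv t γ) (zz β) = 0
      linear_combination (1 / 2) * h1
    · have hR := RB_zs (m := m) β i
      have h1 := hSd (ss i) (zz β)
      rw [h.sums hs _ _ hR, hT0] at h1
      change d (zz β) (ss i) (zz β) = 0
      linear_combination (1 / 2) * h1
  have hy : ∀ i j, RB i j → d i j i = 0 := by
    intro i j hij
    rcases i with γ | ⟨⟨t, γ⟩ | i⟩
    · exact hyz γ j hij
    · rcases j with γ' | ⟨⟨t', γ'⟩ | i'⟩
      · have h1 := hyz γ' _ (RB_zv γ' t γ)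
        have h2 := h.y_symm _ _ (RB_symm _ _ (RB_zv γ' t γ))
        exact h2.symm.trans h1
      · exact hyvv t t' γ γ' ((RB_vv _ _ _ _).1 hij)
      · exact hyvs t γ i'
    · rcases j with γ' | ⟨⟨t', γ'⟩ | i'⟩
      · have h1 := hyz γ' _ (RB_zs γ' i)
        have h2 := h.y_symm _ _ (RB_symm _ _ (RB_zs γ' i))
        exact h2.symm.trans h1
      · exact hysv t' γ' i
      · exfalso
        apply hij
        have : i = i' := by
          apply Fin.ext
          have h1 := i.2
          have h2 := i'.2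
          omega
        rw [this]
  have he : ∀ i j, RB i j → e i j = 0 := by
    intro i j hij
    rcases i with γ | ⟨⟨t, γ⟩ | i⟩
    · exact h.A4 γ j hij
    · rcases j with γ' | ⟨⟨t', γ'⟩ | i'⟩
      · rw [h.esym]
        exact h.A4 γ' _ (RB_symm _ _ hij)
      · exact hevv t t' γ γ' ((RB_vv _ _ _ _).1 hij)
      · rw [h.esym]
        exact hesv t γ i'
    · rcases j with γ' | ⟨⟨t', γ'⟩ | i'⟩
      · rw [h.esym]
        exact h.A4 γ' _ (RB_symm _ _ hij)
      · exact hesv t' γ' i
      · exfalso
        apply hij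
        have : i = i' := by
          apply Fin.ext
          have h1 := i.2
          have h2 := i'.2
          omega
        rw [this]
  have hθ : ∀ i j, RB i j → d i j (zz false) - d i j (zz true) = 0 := by
    intro i j hij
    by_cases h1 : RB i (zz false)
    · by_cases h2 : RB j (zz false)
      · exact h.th i j hij h1 h2
      · have h3 := RB_not_z false j (fun h4 => h2 (RB_symm _ _ h4))
        rcases h3 with rfl | rfl
        · exact hth i false hij
        · exact hth i true hij
    · have h3 := RB_not_z false i (fun h4 => h1 (RB_symm _ _ h4))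
      rcases h3 with rfl | rfl
      · rw [h.dsym (zz false), h.dsym (zz false)]
        exact hth j false (RB_symm _ _ hij)
      · rw [h.dsym (zz true), h.dsym (zz true)]
        exact hth j true (RB_symm _ _ hij)
  have hd1 : ∀ i j, RB i j → ∀ a, ¬ RB i a → d i j a = 0 := by
    intro i j hij a ha
    rcases i with γ | ⟨⟨t, γ⟩ | i⟩
    · have h0 := hθ _ _ hij
      have h1 : d (Sum.inl γ) j (Sum.inl γ) = 0 := hy _ _ hij
      have h2 := RB_not_z γ a ha
      cases γ
      · change d (zz false) j (zz false) = 0 at h1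
        rcases h2 with rfl | rfl
        · exact h1
        · change d (zz false) j (zz true) = 0
          change d (zz false) j (zz false) - d (zz false) j (zz true) = 0 at h0
          linear_combination h1 - h0
      · change d (zz true) j (zz true) = 0 at h1
        rcases h2 with rfl | rfl
        · change d (zz true) j (zz false) = 0
          change d (zz true) j (zz false) - d (zz true) j (zz true) = 0 at h0
          linear_combination h1 + h0
        · exact h1
    · rcases RB_not_v t γ a ha with rfl | rfl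
      · exact hy _ _ hij
      · have h1 := h.A3 t γ j hij
        have h2 : d (vv t γ) j (vv t γ) = 0 := hy _ _ hij
        have h3 : e (vv t γ) j = 0 := he _ _ hij
        have h4 : d (vv t γ) j (zz false) - d (vv t γ) j (zz true) = 0 := hθ _ _ hij
        rw [h2, h3, h4] at h1
        change d (vv t γ) j (vv t (!γ)) = 0
        rw [h1]
        ring
    · rw [RB_not_s hs i a ha]
      exact hy _ _ hij
  refine ⟨?_, he, hG, hε⟩
  intro i j hij a
  by_cases h1 : RB i a
  · by_cases h2 : RB j a
    · rw [h.A2 i j a hij (RB_symm _ _ h1) (RB_symm _ _ h2), hy i j hij, neg_zero]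
    · rw [h.dsym]
      exact hd1 j i (RB_symm _ _ hij) a h2
  · exact hd1 i j hij a h1

end sys

end Pool.Agent.H59.VC
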