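import Mathlib
import Pool.Agent.H59.VC.CfgA
import Pool.Agent.H59.VC.SysB2

set_option autoImplicit false
set_option linter.unusedSectionVars false

namespace Pool.Agent.H59.VC

section mats
variable {k : Type*} [Field k] {m s : ℕ}

lemma sum_gv_mul (τ : Fin m → k) (t : Fin m) (f : VB m s → k) :
    ∑ a, gv τ t a * f a = τ t * f (zz false) - τ t * f (zz true) + f (vv t false) +
      f (vv t true) := by
  rw [Fintype.sum_sum_type, Fintype.sum_sum_type, Fintype.sum_prod_type, Fintype.sum_bool]
  have h1 : ∑ i : Fin s, gv τ t (Sum.inr (Sum.inr i) : VB m s) * f (Sum.inr (Sum.inr i)) = 0 := by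
    refine Finset.sum_eq_zero fun i _ => ?_
    have := gv_s τ t i
    change gv τ t (ss i) * _ = 0
    rw [this, zero_mul]
  have h2 : ∑ t' : Fin m, ∑ β : Bool, gv τ t (Sum.inr (Sum.inl (t', β)) : VB m s) *
      f (Sum.inr (Sum.inl (t', β))) = f (vv t false) + f (vv t true) := by
    rw [Finset.sum_eq_single t]
    · rw [Fintype.sum_bool]
      change gv τ t (vv t true) * f (vv t true) + gv τ t (vv t false) * f (vv t false) = _
      rw [gv_v, gv_v, if_pos rfl]
      ring
    · intro t' _ ht
      refine Finset.sum_eq_zero fun β _ => ?_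
      change gv τ t (vv t' β) * _ = 0
      rw [gv_v, if_neg ht, zero_mul]
    · simp
  rw [h1, h2]
  change gv τ t (zz true) * f (zz true) + gv τ t (zz false) * f (zz false) + _ = _
  rw [gv_z0, gv_z1]
  ring

lemma mulVec_gv (τ : Fin m → k) (t : Fin m) (S : Matrix (VB m s) (VB m s) k) (a : VB m s) :
    (S.mulVec (gv τ t)) a = τ t * S a (zz false) - τ t * S a (zz true) + S a (vv t false) +
      S a (vv t true) := by
  rw [← sum_gv_mul τ t (fun b => S a b)]
  simp only [Matrix.mulVec, dotProduct]
  exact Finset.sum_congr rfl fun b _ => mul_comm _ _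

/-- the functional `η` -/
def et (S : Matrix (VB m s) (VB m s) k) : k :=
  2 * S (zz false) (zz true) - S (zz false) (zz false) - S (zz true) (zz true)

/-- the conditions of vanishing at the configuration -/
structure InK (τ : Fin m → k) (S : Matrix (VB m s) (VB m s) k) : Prop where
  sym : S.IsSymm
  K1 : ∀ a b, RB a b → S a a + S b b + 2 * S a b = 0
  K2 : ∀ t, 2 * S (vv t false) (vv t true) + S (vv t false) (vv t false) +
    S (vv t true) (vv t true) = τ t ^ 2 * et S +
      2 * τ t * (S (zz false) (zz false) - S (zz true) (zz true))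

lemma InK.zero (τ : Fin m → k) : InK τ (0 : Matrix (VB m s) (VB m s) k) := by
  refine ⟨Matrix.isSymm_zero, fun a b _ => by simp, fun t => by simp [et]⟩

lemma InK.of_quad (τ : Fin m → k) (S : Matrix (VB m s) (VB m s) k) (hS : S.IsSymm)
    (h1 : ∀ a b, RB a b → S a a + S b b + 2 * S a b = 0)
    (h2 : ∀ t, ∑ a, ∑ b, S a b * gv τ t a * gv τ t b = 0) : InK τ S := by
  refine ⟨hS, h1, fun t => ?_⟩
  have h3 := h2 t
  rw [quad_eq, sum_gv_mul] at h3
  simp only [mulVec_gv] at h3
  have e1 := h1 _ _ (RB_zv (s := s) false t false)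
  have e2 := h1 _ _ (RB_zv (s := s) false t true)
  have e3 := h1 _ _ (RB_zv (s := s) true t false)
  have e4 := h1 _ _ (RB_zv (s := s) true t true)
  have f1 := hS.apply (zz false) (zz true)
  have f2 := hS.apply (zz false) (vv t false)
  have f3 := hS.apply (zz false) (vv t true)
  have f4 := hS.apply (zz true) (vv t false)
  have f5 := hS.apply (zz true) (vv t true)
  have f6 := hS.apply (vv t false) (vv t true)
  rw [f1, f2, f3, f4, f5, f6] at h3
  unfold et
  linear_combination h3 - τ t * e1 - τ t * e2 + τ t * e3 + τ t * e4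

variable {τ : Fin m → k} {S : Matrix (VB m s) (VB m s) k}

lemma InK.v (h : InK τ S) (t : Fin m) (β : Bool) : 2 * S (vv t β) (vv t (!β)) +
    S (vv t β) (vv t β) + S (vv t (!β)) (vv t (!β)) = τ t ^ 2 * et S +
      2 * τ t * (S (zz false) (zz false) - S (zz true) (zz true)) := by
  have h1 := h.K2 t
  cases β
  · exact h1
  · have h2 := h.sym.apply (vv t false) (vv t true)
    change 2 * S (vv t true) (vv t false) + S (vv t true) (vv t true) +
      S (vv t false) (vv t false) = _
    linear_combination h1 + 2 * h2

/-- singular at the sum of two coordinate points -/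
lemma InK.pair (h2 : (2 : k) ≠ 0) (h : InK τ S) (i j : VB m s) (hij : RB i j)
    (hm : ∀ a, S a i + S a j = 0) : S j j = S i i ∧
    (∀ a, RB a i → RB a j → S a a = - S i i) ∧
    (∀ t β, i = vv t β → S (vv t (!β)) (vv t (!β)) = - S i i + (τ t ^ 2 * et S +
      2 * τ t * (S (zz false) (zz false) - S (zz true) (zz true))) / 2) ∧
    (∀ β, i = zz β → et S = 0) := by
  have e1 := hm i
  have e2 := hm j
  have e3 := h.sym.apply i j
  have hd : S j j = S i i := by linear_combination e2 - e1 - e3
  refine ⟨hd, ?_, ?_, ?_⟩
  · intro a hai haj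
    have e4 := hm a
    have e5 := h.K1 a i hai
    have e6 := h.K1 a j haj
    have e7 : 2 * (S a a + S i i) = 0 := by linear_combination e5 + e6 - 2 * e4 - hd
    have e8 := (mul_eq_zero.1 e7).resolve_left h2
    linear_combination e8
  · rintro t β rfl
    have hR : RB (vv t (!β)) j := fun h3 => hij (Eq.trans rfl h3)
    have e4 := hm (vv t (!β))
    have e5 := h.K1 _ _ hR
    have e6 := h.v t β
    have e7 := h.sym.apply (vv t β) (vv t (!β))
    have e8 : 2 * S (vv t (!β)) (vv t (!β)) = - 2 * S (vv t β) (vv t β) + (τ t ^ 2 * et S +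
      2 * τ t * (S (zz false) (zz false) - S (zz true) (zz true))) := by
      linear_combination e6 + 2 * e7 - 2 * e4 + e5 - hd
    rw [eq_comm, ← sub_eq_zero]
    have e9 : 2 * (- S (vv t β) (vv t β) + (τ t ^ 2 * et S +
      2 * τ t * (S (zz false) (zz false) - S (zz true) (zz true))) / 2 -
      S (vv t (!β)) (vv t (!β))) = 0 := by
      have : (2 : k) * ((τ t ^ 2 * et S +
        2 * τ t * (S (zz false) (zz false) - S (zz true) (zz true))) / 2) = (τ t ^ 2 * et S +
        2 * τ t * (S (zz false) (zz false) - S (zz true) (zz true))) := by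
        field_simp
      linear_combination this - e8
    exact (mul_eq_zero.1 e9).resolve_left h2
  · rintro β rfl
    have hR : RB (zz (!β)) j := fun h3 => hij (Eq.trans rfl h3)
    have e4 := hm (zz (!β))
    have e5 := h.K1 _ _ hR
    have e7 := h.sym.apply (zz false) (zz true)
    unfold et
    cases β
    · change S (zz true) (zz false) + S (zz true) j = 0 at e4
      change S (zz true) (zz true) + S j j + 2 * S (zz true) j = 0 at e5
      linear_combination 2 * e4 - e5 - 2 * e7 + hd
    · change S (zz false) (zz true) + S (zz false) j = 0 at e4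
      change S (zz false) (zz false) + S j j + 2 * S (zz false) j = 0 at e5
      linear_combination 2 * e4 - e5 + hd

/-- singular at an extra point -/
lemma InK.extra (h2 : (2 : k) ≠ 0) (h : InK τ S) (t : Fin m) (ht : τ t ≠ 0)
    (hm : ∀ a, (S.mulVec (gv τ t)) a = 0) :
    S (zz false) (zz false) - S (zz true) (zz true) = - τ t * et S ∧
    (∀ β, S (vv t β) (vv t β) = (τ t * (S (zz false) (zz false) - S (zz true) (zz true)) +
      S (vv t false) (vv t false) + S (vv t true) (vv t true) + τ t ^ 2 * et S) / 2) ∧
    S (zz false) (zz false) + S (zz true) (zz true) =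
      - (τ t * (S (zz false) (zz false) - S (zz true) (zz true)) +
      S (vv t false) (vv t false) + S (vv t true) (vv t true)) - 2 * τ t ^ 2 * et S ∧
    (∀ a, RB a (zz false) → RB a (vv t false) → S a a =
      - (τ t * (S (zz false) (zz false) - S (zz true) (zz true)) +
      S (vv t false) (vv t false) + S (vv t true) (vv t true)) / 2) := by
  simp only [mulVec_gv] at hm
  have e1 := h.K1 _ _ (RB_zv (s := s) false t false)
  have e2 := h.K1 _ _ (RB_zv (s := s) false t true)
  have e3 := h.K1 _ _ (RB_zv (s := s) true t false)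
  have e4 := h.K1 _ _ (RB_zv (s := s) true t true)
  have f1 := h.sym.apply (zz false) (zz true)
  have f2 := h.sym.apply (zz false) (vv t false)
  have f3 := h.sym.apply (zz false) (vv t true)
  have f4 := h.sym.apply (zz true) (vv t false)
  have f5 := h.sym.apply (zz true) (vv t true)
  have f6 := h.sym.apply (vv t false) (vv t true)
  have g1 := hm (vv t false)
  have g2 := hm (vv t true)
  have g3 := hm (zz false)
  have g4 := hm (zz true)
  have k2 := h.K2 t
  rw [f2, f4] at g1
  rw [f3, f5, f6] at g2
  rw [f1] at g4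
  -- `α = τ θ`
  have d1 : S (vv t false) (vv t false) = S (vv t true) (vv t true) := by
    have : 2 * (S (vv t false) (vv t false) - S (vv t true) (vv t true)) = 0 := by
      linear_combination 2 * g1 - 2 * g2 - τ t * e1 + τ t * e2 + τ t * e3 - τ t * e4
    exact sub_eq_zero.1 ((mul_eq_zero.1 this).resolve_left h2)
  have d2 : τ t * (S (zz false) (zz false) - S (zz true) (zz true) + τ t * et S) = 0 := by
    have : 2 * (τ t * (S (zz false) (zz false) - S (zz true) (zz true) + τ t * et S)) = 0 := by
      linear_combination 2 * g1 + 2 * g2 - τ t * e1 - τ t * e2 + τ t * e3 + τ t * e4 - 2 * k2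
    exact (mul_eq_zero.1 this).resolve_left h2
  have d3 := (mul_eq_zero.1 d2).resolve_left ht
  have hhalf : ∀ x y : k, 2 * x = y → x = y / 2 := by
    intro x y hxy
    rw [eq_div_iff h2, ← hxy]
    ring
  refine ⟨by linear_combination d3, ?_, ?_, ?_⟩
  · intro β
    apply hhalf
    cases β
    · linear_combination d1 - τ t * d3
    · linear_combination - d1 - τ t * d3
  · have : 2 * (S (zz false) (zz false) + S (zz true) (zz true) +
      (τ t * (S (zz false) (zz false) - S (zz true) (zz true)) +
      S (vv t false) (vv t false) + S (vv t true) (vv t true)) + 2 * τ t ^ 2 * et S) = 0 := by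
      linear_combination e1 + e2 + e3 + e4 - 2 * g3 - 2 * g4 + 4 * τ t * d3
    have h3 := (mul_eq_zero.1 this).resolve_left h2
    linear_combination h3
  · intro a ha1 ha2
    have ha3 : RB a (zz true) := fun h3 => ha1 (h3.trans rfl)
    have ha4 : RB a (vv t true) := fun h3 => ha2 (h3.trans rfl)
    apply hhalf
    linear_combination τ t * (h.K1 a _ ha1) - τ t * (h.K1 a _ ha3) + h.K1 a _ ha2 +
      h.K1 a _ ha4 - 2 * hm a

end mats

end Pool.Agent.H59.VC
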