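import Mathlib
import Pool.Agent.H59.VC.CfgB

set_option autoImplicit false
set_option linter.unusedSectionVars false

namespace Pool.Agent.H59.VC

section mats
variable {k : Type*} [Field k] {m s : ℕ}

lemma InK.eq_zero (h2 : (2 : k) ≠ 0) (hs : s ≤ 1) {τ : Fin m → k}
    {S : Matrix (VB m s) (VB m s) k} (h : InK τ S)
    (hd : ∀ a, S a a = 0) (he : et S = 0) : S = 0 := by
  have hpair : ∀ a b, RB a b → S a b = 0 := by
    intro a b hab
    have h1 := h.K1 a b hab
    rw [hd, hd, zero_add, zero_add] at h1
    exact (mul_eq_zero.1 h1).resolve_left h2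
  have hz : S (zz false) (zz true) = 0 := by
    unfold et at he
    rw [hd, hd, sub_zero, sub_zero] at he
    exact (mul_eq_zero.1 he).resolve_left h2
  have hz' : S (zz true) (zz false) = 0 := by
    rw [h.sym.apply (zz false) (zz true)]
    exact hz
  ext a b
  rw [Matrix.zero_apply]
  by_cases hab : RB a b
  · exact hpair a b hab
  · rcases a with γ | ⟨⟨t, γ⟩ | i⟩
    · rcases RB_not_z γ b hab with rfl | rfl
      · cases γ
        · exact hd _
        · exact hz'
      · cases γ
        · exact hz
        · exact hd _
    · rcases RB_not_v t γ b hab with rfl | rfl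
      · exact hd _
      · have h1 := h.v t γ
        rw [hd, hd, hd, hd, he, add_zero, add_zero] at h1
        have h3 : 2 * S (vv t γ) (vv t (!γ)) = 0 := by rw [h1]; ring
        exact (mul_eq_zero.1 h3).resolve_left h2
    · rw [RB_not_s hs i b hab]
      exact hd _

lemma sy_eq_zero {ι : Type*} [Fintype ι] [DecidableEq ι] {V : Type*} [Zero V]
    (r : ι → ℕ) (R : ι → ι → Prop) [DecidableRel R] (hR : ∀ i j, R i j → R j i)
    (f : PQ r R → V) (i j : ι) (h : ¬ R i j) : sy r R f i j = 0 := by
  unfold sy
  rw [dif_neg (fun h1 => h h1.2), dif_neg (fun h1 => h (hR _ _ h1.2))]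

/-- the configuration for codimension `n + 2` -/
def PB (r : VB m s → ℕ) (τ : Fin m → k) : PQ r RB ⊕ Fin m → (VB m s → k) :=
  Sum.elim (fun x => pv k x.1.1 x.1.2) (fun t => gv τ t)

theorem goodB [CharZero k] (hm1 : 1 ≤ m) (hm : 2 ≤ m + s) (hs : s ≤ 1) (r : VB m s → ℕ)
    (hr : Function.Injective r) (τ : Fin m → k) (hτ : ∀ t, τ t ≠ 0)
    (hp : Function.Injective fun t => τ t ^ 2)
    (hq : ∀ t t', t ≠ t' → τ t ^ 2 + τ t' ^ 2 ≠ 0) : GoodCfg (PB (s := s) r τ) := by
  have h2 : (2 : k) ≠ 0 := two_ne_zero
  refine ⟨?_, ?_, ?_⟩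
  · intro w hw
    have key : ∀ i j, RB i j → w i + w j = 0 := by
      intro i j hij
      have hne : r i ≠ r j := by
        intro h
        have := hr h
        subst this
        exact RB_irrefl _ hij
      rcases lt_or_gt_of_ne hne with h5 | h5
      · have h6 := hw (Sum.inl ⟨(i, j), h5, hij⟩)
        simp only [PB, Sum.elim_inl] at h6
        rw [← sum_pv_mul, ← h6]
        exact Finset.sum_congr rfl fun a _ => mul_comm _ _
      · have h6 := hw (Sum.inl ⟨(j, i), h5, RB_symm _ _ hij⟩)
        simp only [PB, Sum.elim_inl] at h6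
        rw [add_comm, ← sum_pv_mul, ← h6]
        exact Finset.sum_congr rfl fun a _ => mul_comm _ _
    have tri : ∀ i j l, RB i j → RB j l → RB i l → w i = 0 := by
      intro i j l h1 h3 h4
      have e1 := key i j h1
      have e2 := key j l h3
      have e3 := key i l h4
      have e4 : 2 * w i = 0 := by linear_combination e1 + e3 - e2
      exact (mul_eq_zero.1 e4).resolve_left h2
    let t0 : Fin m := ⟨0, by omega⟩
    by_cases hm2 : 2 ≤ m
    · let t1 : Fin m := ⟨1, by omega⟩
      have h01 : t0 ≠ t1 := by
        intro h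
        have := congrArg Fin.val h
        simp [t0, t1] at this
      funext i
      rcases i with γ | ⟨⟨t, γ⟩ | i⟩
      · exact tri (zz γ) (vv t0 false) (vv t1 false) (RB_zv _ _ _) ((RB_vv _ _ _ _).2 h01)
          (RB_zv _ _ _)
      · obtain ⟨t', ht'⟩ : ∃ t', t ≠ t' := by
          by_cases h : t = t0
          · exact ⟨t1, by rw [h]; exact h01⟩
          · exact ⟨t0, h⟩
        exact tri (vv t γ) (zz false) (vv t' false) (RB_symm _ _ (RB_zv _ _ _)) (RB_zv _ _ _)
          ((RB_vv _ _ _ _).2 ht')
      · exact tri (ss i) (zz false) (vv t0 false) (RB_symm _ _ (RB_zs _ _)) (RB_zv _ _ _)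
          (RB_symm _ _ (RB_vs _ _ _))
    · let i0 : Fin s := ⟨0, by omega⟩
      funext i
      rcases i with γ | ⟨⟨t, γ⟩ | i⟩
      · exact tri (zz γ) (vv t0 false) (ss i0) (RB_zv _ _ _) (RB_vs _ _ _) (RB_zs _ _)
      · exact tri (vv t γ) (zz false) (ss i0) (RB_symm _ _ (RB_zv _ _ _)) (RB_zs _ _)
          (RB_vs _ _ _)
      · exact tri (ss i) (zz false) (vv t0 false) (RB_symm _ _ (RB_zs _ _)) (RB_zv _ _ _)
          (RB_symm _ _ (RB_vs _ _ _))
  · intro c hc
    have key : ∀ a b : VB m s, (∑ j, if RB b j then sy r RB (fun x => c (Sum.inl x)) b j *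
        pv k b j a else 0) + ∑ t : Fin m, c (Sum.inr t) * (gv τ t a * gv τ t b) = 0 := by
      intro a b
      have h5 := hc a b
      rw [Fintype.sum_sum_type] at h5
      simp only [PB, Sum.elim_inl, Sum.elim_inr] at h5
      refine Eq.trans ?_ h5
      congr 1
      rw [← pair_sum r hr RB RB_symm RB_irrefl (fun i j =>
        sy r RB (fun x => c (Sum.inl x)) i j * pv k i j a) (by
          intro i j
          rw [sy_symm, pv_comm]) b]
      refine Finset.sum_congr rfl fun x _ => ?_
      rw [sy_apply]
      ring
    have hoff : ∀ a b : VB m s, a ≠ b → (∑ j, if RB b j then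
        sy r RB (fun x => c (Sum.inl x)) b j * pv k b j a else 0) =
        if RB b a then sy r RB (fun x => c (Sum.inl x)) b a else 0 := by
      intro a b hab
      rw [Finset.sum_eq_single a]
      · have h8 : pv k b a a = 1 := by simp [pv, hab]
        rw [h8, mul_one]
      · intro j _ hj
        split_ifs with h7
        · have : pv k b j a = 0 := by simp [pv, hab, Ne.symm hj]
          rw [this, mul_zero]
        · rfl
      · simp
    have hct : ∀ t, c (Sum.inr t) = 0 := by
      intro t
      have h5 := key (vv t false) (vv t true)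
      rw [hoff _ _ (by simp [vv]), if_neg (by rw [RB_vv, not_not]), zero_add,
        Finset.sum_eq_single t] at h5
      · rw [gv_v, gv_v, if_pos rfl] at h5
        simpa using h5
      · intro t' _ ht'
        rw [gv_v, gv_v, if_neg (Ne.symm ht')]
        ring
      · simp
    have hcx : ∀ a b, a ≠ b → RB b a → sy r RB (fun x => c (Sum.inl x)) b a = 0 := by
      intro a b hab hR
      have h5 := key a b
      rw [hoff _ _ hab, if_pos hR, Finset.sum_eq_zero (fun t _ => by rw [hct, zero_mul]),
        add_zero] at h5
      exact h5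
    funext l
    rcases l with x | t
    · have h6 := hcx x.1.2 x.1.1 (fun h => RB_irrefl x.1.1 (by
        have := x.2.2
        rwa [h] at this)) x.2.2
      rw [sy_apply] at h6
      exact h6
    · exact hct t
  · intro S hS1 hS2 hS3 hS4
    have hInK : ∀ l, InK τ (S l) := by
      intro l
      apply InK.of_quad _ _ (hS1 l)
      · intro a b hab
        have hne : r a ≠ r b := by
          intro h
          have := hr h
          subst this
          exact RB_irrefl _ hab
        rcases lt_or_gt_of_ne hne with h5 | h5
        · have h6 := hS3 l (Sum.inl ⟨(a, b), h5, hab⟩)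
          simp only [PB, Sum.elim_inl] at h6
          rw [quad_pv _ (hS1 l)] at h6
          exact h6
        · have h6 := hS3 l (Sum.inl ⟨(b, a), h5, RB_symm _ _ hab⟩)
          simp only [PB, Sum.elim_inl] at h6
          rw [quad_pv _ (hS1 l)] at h6
          have h7 := (hS1 l).apply a b
          linear_combination h6 - 2 * h7
      · intro t
        exact hS3 l (Sum.inr t)
    set Mt := sy r RB (fun x => S (Sum.inl x)) with hMt
    have hMK : ∀ i j, InK τ (Mt i j) := by
      intro i j
      by_cases hij : RB i j
      · obtain ⟨x, hx1, hx2⟩ := sy_spec r RB hr RB_symm RB_irrefl (fun x => S (Sum.inl x)) i j hij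
        rw [hMt, hx1]
        exact hInK _
      · rw [hMt, sy_eq_zero r RB RB_symm _ _ _ hij]
        exact InK.zero τ
    have hMm : ∀ i j, RB i j → ∀ a, Mt i j a i + Mt i j a j = 0 := by
      intro i j hij a
      obtain ⟨x, hx1, hx2⟩ := sy_spec r RB hr RB_symm RB_irrefl (fun x => S (Sum.inl x)) i j hij
      rw [← hMt] at hx1
      rw [hx1]
      have h6 := congrFun (hS2 (Sum.inl x)) a
      simp only [PB, Sum.elim_inl] at h6
      rw [pv_of_eq hx2, mulVec_pv] at h6
      exact h6
    have hsys : ∀ i j, Mt i j = Mt j i := fun i j => by rw [hMt, sy_symm]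
    have hent : ∀ a a' b, (∑ j, if RB b j then Mt b j a a' else 0) +
        ∑ t, gv τ t b * S (Sum.inr t) a a' = 0 := by
      intro a a' b
      have h5 := congrFun (congrFun (hS4 b) a) a'
      rw [Fintype.sum_sum_type] at h5
      simp only [PB, Sum.elim_inl, Sum.elim_inr, Matrix.add_apply, Matrix.sum_apply,
        Matrix.smul_apply, smul_eq_mul, Matrix.zero_apply] at h5
      refine Eq.trans ?_ h5
      congr 1
      rw [← pair_sum r hr RB RB_symm RB_irrefl (fun i j => Mt i j a a') (by
        intro i j
        rw [hsys]) b]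
      refine Finset.sum_congr rfl fun x _ => ?_
      rw [hMt, sy_apply]
    have hpf := fun i j (hij : RB i j) => (hMK i j).pair h2 i j hij (hMm i j hij)
    have hex := fun t => (hInK (Sum.inr t)).extra h2 t (hτ t)
      (fun a => congrFun (hS2 (Sum.inr t)) a)
    have hB : SysB τ (fun i j a => Mt i j a a) (fun i j => et (Mt i j))
        (fun t a => S (Sum.inr t) a a) (fun t => et (S (Sum.inr t)))
        (fun t => τ t * (S (Sum.inr t) (zz false) (zz false) -
          S (Sum.inr t) (zz true) (zz true)) +
          S (Sum.inr t) (vv t false) (vv t false) + S (Sum.inr t) (vv t true) (vv t true)) := by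
      refine ⟨?_, ?_, ?_, ?_, ?_, ?_, ?_, ?_, ?_, ?_, ?_, ?_⟩
      · intro i j a
        rw [hsys i j]
      · intro i j
        rw [hsys i j]
      · intro i j hij
        exact (hpf i j hij).1
      · intro i j a hij hai haj
        exact (hpf i j hij).2.1 a hai haj
      · intro t β j hij
        exact (hpf _ j hij).2.2.1 t β rfl
      · intro β j hij
        exact (hpf _ j hij).2.2.2 β rfl
      · intro t
        exact (hex t).1
      · intro t β
        exact (hex t).2.1 β
      · intro t
        exact (hex t).2.2.1
      · intro t a ha1 ha2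
        exact (hex t).2.2.2 a ha1 ha2
      · intro a b
        exact hent a a b
      · intro b
        have e1 := hent (zz false) (zz true) b
        have e2 := hent (zz false) (zz false) b
        have e3 := hent (zz true) (zz true) b
        have h5 : (∑ j, if RB b j then et (Mt b j) else 0) =
            2 * (∑ j, if RB b j then Mt b j (zz false) (zz true) else 0) -
            (∑ j, if RB b j then Mt b j (zz false) (zz false) else 0) -
            (∑ j, if RB b j then Mt b j (zz true) (zz true) else 0) := by
          rw [Finset.mul_sum, ← Finset.sum_sub_distrib, ← Finset.sum_sub_distrib]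
          refine Finset.sum_congr rfl fun j _ => ?_
          unfold et
          split_ifs <;> ring
        have h6 : ∑ t, gv τ t b * et (S (Sum.inr t)) =
            2 * (∑ t, gv τ t b * S (Sum.inr t) (zz false) (zz true)) -
            (∑ t, gv τ t b * S (Sum.inr t) (zz false) (zz false)) -
            (∑ t, gv τ t b * S (Sum.inr t) (zz true) (zz true)) := by
          rw [Finset.mul_sum, ← Finset.sum_sub_distrib, ← Finset.sum_sub_distrib]
          refine Finset.sum_congr rfl fun j _ => ?_
          unfold et
          ring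
        rw [h5, h6]
        linear_combination 2 * e1 - e2 - e3
    obtain ⟨z1, z2, z3, z4⟩ := hB.zero hs hτ hp hq
    intro l
    rcases l with x | t
    · have h5 : Mt x.1.1 x.1.2 = S (Sum.inl x) := by rw [hMt, sy_apply]
      rw [← h5]
      exact (hMK _ _).eq_zero h2 hs (fun a => z1 _ _ x.2.2 a) (z2 _ _ x.2.2)
    · exact (hInK _).eq_zero h2 hs (fun a => z3 t a) (z4 t)

end mats

end Pool.Agent.H59.VC
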