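import Mathlib

set_option autoImplicit false
set_option linter.unusedSectionVars false

universe u

namespace Pool.Agent.H59.VC

section
variable {k : Type u} [Field k] {U E : Type}

/-- a tangent vector of degree minus one: `T` are its values on the quadrics, `D` the values on
the cubics and `Q` the pairing -/
structure TV (T : U → U → U → k) (D : U → U → U → E → k) (Q : E → (U → k) → U → k) : Prop where
  T_comm : ∀ p q, T p q = T q p
  D12 : ∀ p q r, D p q r = D q p r
  D23 : ∀ p q r, D p q r = D p r q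

variable {T : U → U → U → k} {D : U → U → U → E → k} {Q : E → (U → k) → U → k}

lemma TV.D13 (h : TV T D Q) (p q r : U) : D p q r = D r q p := by
  rw [h.D12, h.D23, h.D12]

/-- a pair of blocks of size three -/
structure P33 (T : U → U → U → k) (D : U → U → U → E → k) (Q : E → (U → k) → U → k)
    (x y : Fin 3 → U) (c : k) (e : Fin 3 → E) : Prop where
  hx : ∀ s τ r, Q (e s) τ (x r) = τ (y (s + 1)) * (if r = s - 1 then 1 else 0) +
    c * (τ (y s) * (if r = s then 1 else 0))
  hy : ∀ s τ r, Q (e s) τ (y r) = τ (x (s - 1)) * (if r = s + 1 then 1 else 0) +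
    c * (τ (x s) * (if r = s then 1 else 0))
  hD : ∀ a r e', D (x a) (y a) r e' = c * D (x (a - 1)) (y (a + 1)) r e' +
    Q e' (T (x a) (y a)) r
  xx : ∀ a b r e', D (x a) (x b) r e' = Q e' (T (x a) (x b)) r
  yy : ∀ a b r e', D (y a) (y b) r e' = Q e' (T (y a) (y b)) r

lemma P33.swap {x y : Fin 3 → U} {c : k} {e : Fin 3 → E} (hT : TV T D Q) (h : P33 T D Q x y c e) :
    P33 T D Q (fun a => y (-a)) (fun a => x (-a)) c (fun a => e (-a)) where
  hx s τ r := by
    rw [h.hy]
    have h1 : (-r = -s + 1) = (r = s - 1) := by clear * -; revert r s; decide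
    have h2 : (-r = -s) = (r = s) := by clear * -; revert r s; decide
    have h3 : -s - 1 = -(s + 1) := by clear * -; revert s; decide
    simp only [h1, h2, h3]
  hy s τ r := by
    rw [h.hx]
    have h1 : (-r = -s - 1) = (r = s + 1) := by clear * -; revert r s; decide
    have h2 : (-r = -s) = (r = s) := by clear * -; revert r s; decide
    have h3 : -s + 1 = -(s - 1) := by clear * -; revert s; decide
    simp only [h1, h2, h3]
  hD a r e' := by
    rw [hT.D12, h.hD, hT.T_comm (x (-a))]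
    have h3 : -a + 1 = -(a - 1) := by clear * -; revert a; decide
    have h4 : -a - 1 = -(a + 1) := by clear * -; revert a; decide
    rw [h3, h4, hT.D12 (x _)]
  xx a b r e' := h.yy _ _ _ _
  yy a b r e' := h.xx _ _ _ _

/-- the components in another block vanish -/
lemma P33.b1 {x y : Fin 3 → U} {c : k} {e : Fin 3 → E} (hT : TV T D Q) (h : P33 T D Q x y c e)
    (hc : c ≠ 0) (a b s : Fin 3) : T (x a) (x b) (y s) = 0 := by
  have key : ∀ a b r s, Q (e s) (T (x a) (x b)) (x r) = Q (e s) (T (x a) (x r)) (x b) := by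
    intro a b r s
    rw [← h.xx, ← h.xx, hT.D23]
  simp only [h.hx] at key
  have h1 : ∀ a s, T (x a) (x (s + 1)) (y s) = 0 := by
    intro a s
    have h2 := key a s (s + 1) s
    have e1 : ¬ (s + 1 = s - 1) := by clear * -; revert s; decide
    have e2 : ¬ (s + 1 = s) := by clear * -; revert s; decide
    have e3 : ¬ (s = s - 1) := by clear * -; revert s; decide
    rw [if_neg e1, if_neg e2, if_neg e3, if_pos rfl] at h2
    have h3 : c * T (x a) (x (s + 1)) (y s) = 0 := by linear_combination -h2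
    exact (mul_eq_zero.1 h3).resolve_left hc
  have h2 : ∀ a s, T (x a) (x s) (y s) = 0 := by
    intro a s
    have h2 := key a (s + 1) s (s - 1)
    have e1 : ¬ (s = s - 1 - 1) := by clear * -; revert s; decide
    have e2 : ¬ (s = s - 1) := by clear * -; revert s; decide
    have e3 : s + 1 = s - 1 - 1 := by clear * -; revert s; decide
    have e4 : ¬ (s + 1 = s - 1) := by clear * -; revert s; decide
    have e5 : s - 1 + 1 = s := by clear * -; revert s; decide
    rw [if_neg e1, if_neg e2, if_pos e3, if_neg e4, e5] at h2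
    linear_combination -h2
  have h3 : ∀ a s, c * T (x a) (x (s - 1)) (y s) = T (x a) (x s) (y (s + 1)) := by
    intro a s
    have h2 := key a (s - 1) s s
    have e1 : ¬ (s = s - 1) := by clear * -; revert s; decide
    have e2 : ¬ (s - 1 = s) := by clear * -; revert s; decide
    rw [if_neg e1, if_pos rfl, if_pos rfl, if_neg e2] at h2
    linear_combination h2
  have hcases : ∀ b s : Fin 3, b = s + 1 ∨ b = s ∨ b = s - 1 := by decide
  rcases hcases b s with rfl | rfl | rfl
  · exact h1 a s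
  · exact h2 a b
  · rcases hcases a s with rfl | rfl | rfl
    · rw [hT.T_comm]
      exact h1 _ s
    · rw [hT.T_comm]
      exact h2 _ a
    · have h4 := h3 (s - 1) s
      have e1 : s - 1 = s + 1 + 1 := by clear * -; revert s; decide
      rw [hT.T_comm (x (s - 1)) (x s)] at h4
      have h5 := h1 s (s + 1)
      rw [← e1] at h5
      rw [h5] at h4
      exact (mul_eq_zero.1 h4).resolve_left hc

/-- the components in the block itself vanish -/
lemma P33.a1 {x y : Fin 3 → U} {c : k} {e : Fin 3 → E} (hT : TV T D Q) (h : P33 T D Q x y c e)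
    (hc : c ≠ 0) (hc3 : c ^ 3 + 1 ≠ 0) (h2 : (2 : k) ≠ 0) (h0 : ∀ a, T (x a) (x a) (x a) = 0)
    (a b u : Fin 3) : T (x a) (x b) (x u) = 0 := by
  set α : Fin 3 → Fin 3 → Fin 3 → k := fun a b u => T (x a) (x b) (x u) with hα
  set β : Fin 3 → Fin 3 → k := fun b v => T (x b) (y b) (y v) with hβ
  have hsym : ∀ a b u, α a b u = α b a u := fun a b u => by
    rw [hα]
    simp only
    rw [hT.T_comm]
  have key : ∀ a b s, α b a (s - 1) * (if b = s + 1 then 1 else 0) +
      c * (α b a s * (if b = s then 1 else 0)) =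
      c * (α (b - 1) a (s - 1) * (if b + 1 = s + 1 then 1 else 0) +
      c * (α (b - 1) a s * (if b + 1 = s then 1 else 0))) +
      (β b (s + 1) * (if a = s - 1 then 1 else 0) + c * (β b s * (if a = s then 1 else 0))) := by
    intro a b s
    have h3 := h.hD b (x a) (e s)
    rw [hT.D23, h.xx, h.hy, hT.D23 (x (b - 1)), h.xx, h.hy, h.hx] at h3
    exact h3
  -- s = b
  have k1 : ∀ a b, c * α b a b = c * α (b - 1) a (b - 1) +
      (β b (b + 1) * (if a = b - 1 then 1 else 0) + c * (β b b * (if a = b then 1 else 0))) := by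
    intro a b
    have h3 := key a b b
    have e1 : ¬ (b = b + 1) := by clear * -; revert b; decide
    have e2 : ¬ (b + 1 = b) := by clear * -; revert b; decide
    rw [if_neg e1, if_pos rfl, if_pos rfl, if_neg e2] at h3
    linear_combination h3
  -- s = b - 1
  have k2 : ∀ a b, α b a (b + 1) =
      β b b * (if a = b + 1 then 1 else 0) + c * (β b (b - 1) * (if a = b - 1 then 1 else 0)) := by
    intro a b
    have h3 := key a b (b - 1)
    have e1 : b = b - 1 + 1 := by clear * -; revert b; decide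
    have e2 : ¬ (b = b - 1) := by clear * -; revert b; decide
    have e3 : ¬ (b + 1 = b - 1 + 1) := by clear * -; revert b; decide
    have e4 : ¬ (b + 1 = b - 1) := by clear * -; revert b; decide
    have e5 : b - 1 - 1 = b + 1 := by clear * -; revert b; decide
    rw [if_pos e1, if_neg e2, if_neg e3, if_neg e4, e5, ← e1] at h3
    linear_combination h3
  -- s = b + 1
  have k3 : ∀ a b, 0 = c ^ 2 * α (b - 1) a (b + 1) +
      (β b (b - 1) * (if a = b then 1 else 0) +
        c * (β b (b + 1) * (if a = b + 1 then 1 else 0))) := by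
    intro a b
    have h3 := key a b (b + 1)
    have e1 : ¬ (b = b + 1 + 1) := by clear * -; revert b; decide
    have e2 : ¬ (b = b + 1) := by clear * -; revert b; decide
    have e3 : ¬ (b + 1 = b + 1 + 1) := by clear * -; revert b; decide
    have e5 : b + 1 + 1 = b - 1 := by clear * -; revert b; decide
    have e6 : b + 1 - 1 = b := by clear * -; revert b; decide
    rw [if_neg e1, if_neg e2, if_neg e3, if_pos rfl, e5, e6] at h3
    linear_combination h3
  have ne1 : ∀ b : Fin 3, b ≠ b + 1 := by decide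
  have ne2 : ∀ b : Fin 3, b ≠ b - 1 := by decide
  have ne3 : ∀ b : Fin 3, b + 1 ≠ b - 1 := by decide
  have h00 : ∀ t, α t t t = 0 := h0
  have a1 : ∀ t, α t t (t + 1) = 0 := by
    intro t
    rw [k2 t t, if_neg (ne1 t), if_neg (ne2 t)]
    ring
  have a2 : ∀ t, α t t (t + 2) = 0 := by
    intro t
    have h3 := k3 t (t + 1)
    have e1 : t + 1 - 1 = t := by clear * -; revert t; decide
    have e2 : t + 1 + 1 = t + 2 := by clear * -; revert t; decide
    have e3 : t ≠ t + 2 := by clear * -; revert t; decide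
    rw [e1, e2, if_neg (ne1 t), if_neg e3] at h3
    have h4 : c ^ 2 * α t t (t + 2) = 0 := by linear_combination -h3
    exact (mul_eq_zero.1 h4).resolve_left (pow_ne_zero 2 hc)
  have b1 : ∀ b, β b (b - 1) = 0 := by
    intro b
    have h3 := k2 (b - 1) b
    have h4 := k3 b b
    rw [if_neg (ne3 b).symm, if_pos rfl] at h3
    rw [if_pos rfl, if_neg (ne1 b), hsym] at h4
    rw [h3] at h4
    have h5 : (c ^ 3 + 1) * β b (b - 1) = 0 := by linear_combination -h4
    exact (mul_eq_zero.1 h5).resolve_left hc3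
  have a3 : ∀ b, α b (b - 1) (b + 1) = 0 := by
    intro b
    rw [k2 (b - 1) b, b1, if_neg (ne3 b).symm]
    ring
  have a4 : ∀ b, α b (b + 1) (b + 1) = β b b := by
    intro b
    rw [k2 (b + 1) b, if_pos rfl, if_neg (ne3 b)]
    ring
  have a5 : ∀ b, α b (b + 1) b = α (b - 1) (b + 1) (b - 1) := by
    intro b
    have h3 := k1 (b + 1) b
    rw [if_neg (ne3 b), if_neg (ne1 b).symm] at h3
    have h4 : c * (α b (b + 1) b - α (b - 1) (b + 1) (b - 1)) = 0 := by linear_combination h3
    exact sub_eq_zero.1 ((mul_eq_zero.1 h4).resolve_left hc)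
  have a6 : ∀ b, α (b - 1) b (b - 1) + β b b = 0 := by
    intro b
    have h3 := k1 b b
    rw [if_neg (ne2 b), if_pos rfl, h00] at h3
    have h4 : c * (α (b - 1) b (b - 1) + β b b) = 0 := by linear_combination -h3
    exact (mul_eq_zero.1 h4).resolve_left hc
  have a7 : ∀ b, β b b = 0 := by
    intro b
    have h3 := a5 (b - 1)
    have h4 := a4 b
    have h5 := a6 b
    have e1 : b - 1 + 1 = b := by clear * -; revert b; decide
    have e2 : b - 1 - 1 = b + 1 := by clear * -; revert b; decide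
    rw [e1, e2] at h3
    rw [h3, hsym, h4] at h5
    have h6 : 2 * β b b = 0 := by linear_combination h5
    exact (mul_eq_zero.1 h6).resolve_left h2
  have a8 : ∀ b, α b (b + 1) (b + 1) = 0 := fun b => by rw [a4, a7]
  have a9 : ∀ b, α b (b + 1) b = 0 := by
    intro b
    have h3 := a6 (b + 1)
    have e1 : b + 1 - 1 = b := by clear * -; revert b; decide
    rw [e1, a7, add_zero] at h3
    exact h3
  have a10 : ∀ b, α b (b + 1) (b + 2) = 0 := by
    intro b
    have h3 := a3 (b + 1)
    have e1 : b + 1 - 1 = b := by clear * -; revert b; decide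
    have e2 : b + 1 + 1 = b + 2 := by clear * -; revert b; decide
    rw [e1, e2, hsym] at h3
    exact h3
  have main : ∀ a u, α a a u = 0 := by
    intro a u
    have hcases : ∀ u a : Fin 3, u = a ∨ u = a + 1 ∨ u = a + 2 := by decide
    rcases hcases u a with rfl | rfl | rfl
    · exact h00 u
    · exact a1 a
    · exact a2 a
  have main2 : ∀ a u, α a (a + 1) u = 0 := by
    intro a u
    have hcases : ∀ u a : Fin 3, u = a ∨ u = a + 1 ∨ u = a + 2 := by decide
    rcases hcases u a with rfl | rfl | rfl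
    · exact a9 u
    · exact a8 a
    · exact a10 a
  have hcases : ∀ a b : Fin 3, b = a ∨ b = a + 1 ∨ a = b + 1 := by decide
  rcases hcases a b with rfl | rfl | rfl
  · exact main b u
  · exact main2 a u
  · have := main2 b u
    rw [hsym] at this
    exact this

/-- the pairing is nondegenerate -/
lemma P33.nx {x y : Fin 3 → U} {c : k} {e : Fin 3 → E} (h : P33 T D Q x y c e) (hc : c ≠ 0)
    (τ : U → k) (h0 : ∀ s r, Q (e s) τ (x r) = 0) (s : Fin 3) : τ (y s) = 0 := by
  have h1 := h0 s s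
  rw [h.hx, if_pos rfl, if_neg (by clear * -; revert s; decide)] at h1
  have h2 : c * τ (y s) = 0 := by linear_combination h1
  exact (mul_eq_zero.1 h2).resolve_left hc

/-- a pair of a block of size three and a block of size two -/
structure P32 (T : U → U → U → k) (D : U → U → U → E → k) (Q : E → (U → k) → U → k)
    (x : Fin 3 → U) (y : Fin 2 → U) (c : k) (e : Fin 2 → E) (o : Fin 2 → Fin 3) : Prop where
  ho : o 0 = 1 ∧ o 1 = 0
  hx : ∀ s τ r, Q (e s) τ (x r) = τ (y s) * (if r = 2 then 1 else 0) +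
    c * (τ (y (1 - s)) * (if r = o s then 1 else 0))
  hy : ∀ s τ r, Q (e s) τ (y r) = τ (x 2) * (if r = s then 1 else 0) +
    c * (τ (x (o s)) * (if r = 1 - s then 1 else 0))
  hD : ∀ s r e', D (x (o s)) (y (1 - s)) r e' = c * D (x 2) (y s) r e' +
    Q e' (T (x (o s)) (y (1 - s))) r
  xx : ∀ a b r e', D (x a) (x b) r e' = Q e' (T (x a) (x b)) r
  yy : ∀ a b r e', D (y a) (y b) r e' = Q e' (T (y a) (y b)) r

section p32
variable {x : Fin 3 → U} {y : Fin 2 → U} {c : k} {e : Fin 2 → E} {o : Fin 2 → Fin 3}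

lemma P32.x0 (h : P32 T D Q x y c e o) (τ : U → k) (r : Fin 3) : Q (e 0) τ (x r) =
    τ (y 0) * (if r = 2 then 1 else 0) + c * (τ (y 1) * (if r = 1 then 1 else 0)) := by
  rw [h.hx, h.ho.1]
  rfl

lemma P32.x1 (h : P32 T D Q x y c e o) (τ : U → k) (r : Fin 3) : Q (e 1) τ (x r) =
    τ (y 1) * (if r = 2 then 1 else 0) + c * (τ (y 0) * (if r = 0 then 1 else 0)) := by
  rw [h.hx, h.ho.2]
  rfl

lemma P32.y0 (h : P32 T D Q x y c e o) (τ : U → k) (r : Fin 2) : Q (e 0) τ (y r) =
    τ (x 2) * (if r = 0 then 1 else 0) + c * (τ (x 1) * (if r = 1 then 1 else 0)) := by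
  rw [h.hy, h.ho.1]
  rfl

lemma P32.y1 (h : P32 T D Q x y c e o) (τ : U → k) (r : Fin 2) : Q (e 1) τ (y r) =
    τ (x 2) * (if r = 1 then 1 else 0) + c * (τ (x 0) * (if r = 0 then 1 else 0)) := by
  rw [h.hy, h.ho.2]
  rfl

lemma P32.D0 (h : P32 T D Q x y c e o) (r : U) (e' : E) :
    D (x 1) (y 1) r e' = c * D (x 2) (y 0) r e' + Q e' (T (x 1) (y 1)) r := by
  have := h.hD 0 r e'
  rw [h.ho.1] at this
  exact this

lemma P32.D1 (h : P32 T D Q x y c e o) (r : U) (e' : E) :
    D (x 0) (y 0) r e' = c * D (x 2) (y 1) r e' + Q e' (T (x 0) (y 0)) r := by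
  have := h.hD 1 r e'
  rw [h.ho.2] at this
  exact this

/-- the components of the large block in the small block vanish -/
lemma P32.b1 (hT : TV T D Q) (h : P32 T D Q x y c e o) (hc : c ≠ 0) (a b : Fin 3) (s : Fin 2) :
    T (x a) (x b) (y s) = 0 := by
  have key : ∀ a b r s, Q (e s) (T (x a) (x b)) (x r) = Q (e s) (T (x a) (x r)) (x b) := by
    intro a b r s
    rw [← h.xx, ← h.xx, hT.D23]
  have A1 : ∀ a, T (x a) (x 0) (y 0) = 0 := by
    intro a
    have h1 := key a 0 2 0
    simp only [h.x0] at h1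
    simpa using h1
  have A2 : ∀ a, T (x a) (x 0) (y 1) = c * T (x a) (x 2) (y 0) := by
    intro a
    have h1 := key a 0 2 1
    simp only [h.x1] at h1
    simpa using h1
  have A3 : ∀ a, T (x a) (x 1) (y 0) = c * T (x a) (x 2) (y 1) := by
    intro a
    have h1 := key a 1 2 0
    simp only [h.x0] at h1
    simpa using h1
  have A4 : ∀ a, T (x a) (x 1) (y 1) = 0 := by
    intro a
    have h1 := key a 1 2 1
    simp only [h.x1] at h1
    simpa using h1
  have c01 := hT.T_comm (x 0) (x 1)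
  have c02 := hT.T_comm (x 0) (x 2)
  have c12 := hT.T_comm (x 1) (x 2)
  have r010 : T (x 0) (x 1) (y 0) = 0 := by rw [c01]; exact A1 1
  have r011 : T (x 0) (x 1) (y 1) = 0 := A4 0
  have r021 : T (x 0) (x 2) (y 1) = 0 := by
    have := A3 0
    rw [r010] at this
    exact (mul_eq_zero.1 this.symm).resolve_left hc
  have r120 : T (x 1) (x 2) (y 0) = 0 := by
    have := A2 1
    rw [← c01, r011] at this
    exact (mul_eq_zero.1 this.symm).resolve_left hc
  have r020 : T (x 0) (x 2) (y 0) = 0 := by rw [c02]; exact A1 2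
  have r121 : T (x 1) (x 2) (y 1) = 0 := by rw [c12]; exact A4 2
  have r220 : T (x 2) (x 2) (y 0) = 0 := by
    have := A2 2
    rw [← c02, r021] at this
    exact (mul_eq_zero.1 this.symm).resolve_left hc
  have r221 : T (x 2) (x 2) (y 1) = 0 := by
    have := A3 2
    rw [← c12, r120] at this
    exact (mul_eq_zero.1 this.symm).resolve_left hc
  have r001 : T (x 0) (x 0) (y 1) = 0 := by rw [A2, r020, mul_zero]
  have r110 : T (x 1) (x 1) (y 0) = 0 := by rw [A3, r121, mul_zero]
  fin_cases s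
  · fin_cases a <;> fin_cases b
    · exact A1 0
    · exact r010
    · exact r020
    · exact A1 1
    · exact r110
    · exact r120
    · exact A1 2
    · change T (x 2) (x 1) (y 0) = 0
      rw [← c12]; exact r120
    · exact r220
  · fin_cases a <;> fin_cases b
    · exact r001
    · exact r011
    · exact r021
    · change T (x 1) (x 0) (y 1) = 0
      rw [← c01]; exact r011
    · exact A4 1
    · exact r121
    · change T (x 2) (x 0) (y 1) = 0
      rw [← c02]; exact r021
    · exact A4 2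
    · exact r221

/-- the components of the small block in itself vanish -/
lemma P32.a1 (hT : TV T D Q) (h : P32 T D Q x y c e o) (hc : c ≠ 0) (h2 : (2 : k) ≠ 0)
    (hF : (∃ f : Fin 2 → E, (∀ s τ r, Q (f s) τ (x r) = τ (y s) * (if r = o s then 1 else 0)) ∧
      (∀ s τ r, Q (f s) τ (y r) = τ (x (o s)) * (if r = s then 1 else 0))) ∨
      (∀ s r e', D (x (o s)) (y s) r e' = Q e' (T (x (o s)) (y s)) r))
    (h0 : ∀ a, T (y a) (y a) (y a) = 0) (a b s : Fin 2) : T (y a) (y b) (y s) = 0 := by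
  have c01 := hT.T_comm (y 0) (y 1)
  -- relations of the two quadrics
  have K1 : ∀ t e', Q e' (T (y 0) (y t)) (x 0) = c * Q e' (T (y 1) (y t)) (x 2) +
      Q e' (T (x 0) (y 0)) (y t) := by
    intro t e'
    have h1 := h.D1 (y t) e'
    rw [hT.D12, hT.D23, h.yy, hT.D12 (x 2), hT.D23, h.yy] at h1
    exact h1
  have K0 : ∀ t e', Q e' (T (y 1) (y t)) (x 1) = c * Q e' (T (y 0) (y t)) (x 2) +
      Q e' (T (x 1) (y 1)) (y t) := by
    intro t e'
    have h1 := h.D0 (y t) e'
    rw [hT.D12, hT.D23, h.yy, hT.D12 (x 2), hT.D23, h.yy] at h1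
    exact h1
  have r010 : T (y 0) (y 1) (y 0) = 0 := by
    have h1 := K1 0 (e 0)
    have h3 := K1 1 (e 1)
    rw [h.x0, h.x0, h.y0] at h1
    rw [h.x1, h.x1, h.y1] at h3
    simp at h1 h3
    rw [h0 1, ← c01] at *
    have h4 : (2 * c) * T (y 0) (y 1) (y 0) = 0 := by linear_combination h3 - h1
    exact (mul_eq_zero.1 h4).resolve_left (mul_ne_zero h2 hc)
  have r011 : T (y 0) (y 1) (y 1) = 0 := by
    have h1 := K0 0 (e 0)
    have h3 := K0 1 (e 1)
    rw [h.x0, h.x0, h.y0] at h1
    rw [h.x1, h.x1, h.y1] at h3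
    simp at h1 h3
    rw [h0 0, ← c01] at *
    have h4 : (2 * c) * T (y 0) (y 1) (y 1) = 0 := by linear_combination h1 - h3
    exact (mul_eq_zero.1 h4).resolve_left (mul_ne_zero h2 hc)
  have r001 : T (y 0) (y 0) (y 1) = 0 := by
    rcases hF with ⟨f, hf1, hf2⟩ | hF
    · have h1 := K1 0 (f 1)
      rw [hf1, hf1, hf2, h.ho.2] at h1
      simpa using h1
    · have h1 := hF 0 (y 0) (e 0)
      have h3 := hF 0 (y 1) (e 1)
      rw [h.ho.1, hT.D12, hT.D23, h.yy, h.x0, h.y0] at h1
      rw [h.ho.1, hT.D12, hT.D23, h.yy, h.x1, h.y1] at h3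
      simp at h1 h3
      rw [← h3] at h1
      exact (mul_eq_zero.1 h1).resolve_left hc
  have r110 : T (y 1) (y 1) (y 0) = 0 := by
    rcases hF with ⟨f, hf1, hf2⟩ | hF
    · have h1 := K0 1 (f 0)
      rw [hf1, hf1, hf2, h.ho.1] at h1
      simpa using h1
    · have h1 := hF 1 (y 1) (e 1)
      have h3 := hF 1 (y 0) (e 0)
      rw [h.ho.2, hT.D12, hT.D23, h.yy, h.x1, h.y1] at h1
      rw [h.ho.2, hT.D12, hT.D23, h.yy, h.x0, h.y0] at h3
      simp at h1 h3
      rw [← h3] at h1
      exact (mul_eq_zero.1 h1).resolve_left hc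
  fin_cases a <;> fin_cases b <;> fin_cases s
  · exact h0 0
  · exact r001
  · exact r010
  · exact r011
  · change T (y 1) (y 0) (y 0) = 0
    rw [← c01]; exact r010
  · change T (y 1) (y 0) (y 1) = 0
    rw [← c01]; exact r011
  · exact r110
  · exact h0 1

/-- nondegeneracy -/
lemma P32.nx (h : P32 T D Q x y c e o)
    (τ : U → k) (h0 : ∀ s r, Q (e s) τ (x r) = 0) (s : Fin 2) : τ (y s) = 0 := by
  have h1 := h0 s 2
  rw [h.hx, if_pos rfl] at h1
  have h2 : ¬ ((2 : Fin 3) = o s) := by
    fin_cases s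
    · change ¬ ((2 : Fin 3) = o 0)
      rw [h.ho.1]
      decide
    · change ¬ ((2 : Fin 3) = o 1)
      rw [h.ho.2]
      decide
  rw [if_neg h2] at h1
  linear_combination h1

lemma P32.ny (h : P32 T D Q x y c e o) (hc : c ≠ 0)
    (τ : U → k) (h0 : ∀ s r, Q (e s) τ (y r) = 0) (s : Fin 3) : τ (x s) = 0 := by
  have h1 := h0 0 0
  have h2 := h0 0 1
  have h3 := h0 1 0
  rw [h.y0] at h1 h2
  rw [h.y1] at h3
  simp at h1 h2 h3
  fin_cases s
  · exact h3.resolve_left hc
  · exact h2.resolve_left hc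
  · exact h1

end p32

section cross
variable {x z : Fin 3 → U} {y : Fin 2 → U} {c c' : k} {e : Fin 3 → E} {e1 : Fin 2 → E}
  {o : Fin 2 → Fin 3}

/-- the components of a small block in a large block vanish, first order of the blocks -/
lemma cross1 (hT : TV T D Q) (h : P33 T D Q x z c e) (h1 : P32 T D Q z y c' e1 o) (hc : c ≠ 0)
    (hc' : c' ≠ 0) (h0 : ∀ s τ r, Q (e s) τ (y r) = 0) (a b : Fin 2) (s : Fin 3) :
    T (y a) (y b) (x s) = 0 := by
  have K1 : ∀ t s, Q (e s) (T (y 0) (y t)) (z 0) = c' * Q (e s) (T (y 1) (y t)) (z 2) := by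
    intro t s
    have h2 := h1.D1 (y t) (e s)
    rw [hT.D12, hT.D23, h1.yy, hT.D12 (z 2), hT.D23, h1.yy, h0, add_zero] at h2
    exact h2
  have K0 : ∀ t s, Q (e s) (T (y 1) (y t)) (z 1) = c' * Q (e s) (T (y 0) (y t)) (z 2) := by
    intro t s
    have h2 := h1.D0 (y t) (e s)
    rw [hT.D12, hT.D23, h1.yy, hT.D12 (z 2), hT.D23, h1.yy, h0, add_zero] at h2
    exact h2
  have f1 : (0 : Fin 3) - 1 = 2 := rfl
  have f2 : (1 : Fin 3) - 1 = 0 := rfl
  have f3 : (2 : Fin 3) - 1 = 1 := rfl
  have f4 : (0 : Fin 3) + 1 = 1 := rfl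
  have f5 : (1 : Fin 3) + 1 = 2 := rfl
  have f6 : (2 : Fin 3) + 1 = 0 := rfl
  have p0 := K1 b 0
  have p1 := K1 b 1
  have p2 := K1 b 2
  have q0 := K0 b 0
  have q1 := K0 b 1
  have q2 := K0 b 2
  simp only [h.hy, f1, f2, f3, f4, f5, f6] at p0 p1 p2 q0 q1 q2
  simp at p0 p1 p2 q0 q1 q2
  have r00 := p0.resolve_left hc
  have r10 := p1.resolve_left hc'
  have r12 := q0
  rw [r12, mul_zero, mul_zero] at p2
  have r01 := p2
  rw [r00, mul_zero] at q1
  have r11 := (mul_eq_zero.1 q1).resolve_left hc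
  have r02 := (q2.resolve_left hc').resolve_left hc
  fin_cases a <;> fin_cases s
  · exact r00
  · exact r01
  · exact r02
  · exact r10
  · exact r11
  · exact r12

/-- the components of a small block in a large block vanish, second order of the blocks -/
lemma cross2 (hT : TV T D Q) (h : P33 T D Q z x c e) (h1 : P32 T D Q z y c' e1 o) (hc : c ≠ 0)
    (hc' : c' ≠ 0) (h0 : ∀ s τ r, Q (e s) τ (y r) = 0) (a b : Fin 2) (s : Fin 3) :
    T (y a) (y b) (x s) = 0 := by
  have K1 : ∀ t s, Q (e s) (T (y 0) (y t)) (z 0) = c' * Q (e s) (T (y 1) (y t)) (z 2) := by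
    intro t s
    have h2 := h1.D1 (y t) (e s)
    rw [hT.D12, hT.D23, h1.yy, hT.D12 (z 2), hT.D23, h1.yy, h0, add_zero] at h2
    exact h2
  have K0 : ∀ t s, Q (e s) (T (y 1) (y t)) (z 1) = c' * Q (e s) (T (y 0) (y t)) (z 2) := by
    intro t s
    have h2 := h1.D0 (y t) (e s)
    rw [hT.D12, hT.D23, h1.yy, hT.D12 (z 2), hT.D23, h1.yy, h0, add_zero] at h2
    exact h2
  have f1 : (0 : Fin 3) - 1 = 2 := rfl
  have f2 : (1 : Fin 3) - 1 = 0 := rfl
  have f3 : (2 : Fin 3) - 1 = 1 := rfl
  have f4 : (0 : Fin 3) + 1 = 1 := rfl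
  have f5 : (1 : Fin 3) + 1 = 2 := rfl
  have f6 : (2 : Fin 3) + 1 = 0 := rfl
  have p0 := K1 b 0
  have p1 := K1 b 1
  have p2 := K1 b 2
  have q0 := K0 b 0
  have q1 := K0 b 1
  have q2 := K0 b 2
  simp only [h.hx, f1, f2, f3, f4, f5, f6] at p0 p1 p2 q0 q1 q2
  simp at p0 p1 p2 q0 q1 q2
  have r02 := p1
  have r12 := (p2.resolve_left hc').resolve_left hc
  have r01 := q0.resolve_left hc'
  have r11 := q1.resolve_left hc
  rw [r11, mul_zero] at p0
  have r00 := (mul_eq_zero.1 p0).resolve_left hc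
  rw [r02, mul_zero, mul_zero] at q2
  have r10 := q2
  fin_cases a <;> fin_cases s
  · exact r00
  · exact r01
  · exact r02
  · exact r10
  · exact r11
  · exact r12

section small
variable {z : Fin 3 → U} {y y' : Fin 2 → U} {c : k} {e e' : Fin 2 → E} {o : Fin 2 → Fin 3}

/-- the components of a small block in another small block vanish -/
lemma cross3 (hT : TV T D Q) (h : P32 T D Q z y c e o) (h' : P32 T D Q z y' c e' o) (hc : c ≠ 0)
    (h0 : ∀ s τ r, Q (e' s) τ (y r) = 0) (a b s : Fin 2) :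
    T (y a) (y b) (y' s) = 0 := by
  have K1 : ∀ t s, Q (e' s) (T (y 0) (y t)) (z 0) = c * Q (e' s) (T (y 1) (y t)) (z 2) := by
    intro t s
    have h2 := h.D1 (y t) (e' s)
    rw [hT.D12, hT.D23, h.yy, hT.D12 (z 2), hT.D23, h.yy, h0, add_zero] at h2
    exact h2
  have K0 : ∀ t s, Q (e' s) (T (y 1) (y t)) (z 1) = c * Q (e' s) (T (y 0) (y t)) (z 2) := by
    intro t s
    have h2 := h.D0 (y t) (e' s)
    rw [hT.D12, hT.D23, h.yy, hT.D12 (z 2), hT.D23, h.yy, h0, add_zero] at h2
    exact h2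
  have c01 := hT.T_comm (y 0) (y 1)
  have p0 : ∀ t, T (y 1) (y t) (y' 0) = 0 := by
    intro t
    have h1 := K1 t 0
    rw [h'.x0, h'.x0] at h1
    simp at h1
    exact h1.resolve_left hc
  have p1 : ∀ t, T (y 0) (y t) (y' 0) = T (y 1) (y t) (y' 1) := by
    intro t
    have h1 := K1 t 1
    rw [h'.x1, h'.x1] at h1
    simp at h1
    exact h1.resolve_right hc
  have p2 : ∀ t, T (y 0) (y t) (y' 1) = 0 := by
    intro t
    have h1 := K0 t 1
    rw [h'.x1, h'.x1] at h1
    simp at h1
    exact h1.resolve_left hc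
  have r00 : T (y 0) (y 0) (y' 0) = 0 := by rw [p1, ← c01, p2]
  have r11 : T (y 1) (y 1) (y' 1) = 0 := by rw [← p1, c01, p0]
  fin_cases a <;> fin_cases b <;> fin_cases s
  · exact r00
  · exact p2 0
  · change T (y 0) (y 1) (y' 0) = 0
    rw [c01]; exact p0 0
  · exact p2 1
  · exact p0 0
  · change T (y 1) (y 0) (y' 1) = 0
    rw [← c01]; exact p2 1
  · exact p0 1
  · exact r11

end small

end cross

end

end Pool.Agent.H59.VC
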