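import Mathlib
import Pool.Agent.H59.VC.Blk
import Pool.Agent.H59.VC.Loc

set_option autoImplicit false
set_option linter.unusedSectionVars false

universe u

namespace Pool.Agent.H59.VC

section
variable {k : Type u} [Field k] {p b : ℕ} {F : Finset (Prs p × Fin 3)} {G : Finset (Fin p × Fin b)}

/-- all the assumptions on a tangent vector -/
structure TVB (F : Finset (Prs p × Fin 3)) (G : Finset (Fin p × Fin b))
    (T : UU p b → UU p b → UU p b → k)
    (D : UU p b → UU p b → UU p b → EI F G → k) : Prop extends TV T D PP' where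
  rep0 : ∀ e : EI F G, T (rep e).1 (rep e).2 = 0
  nor : ∀ q, T q q q = 0
  rel : ∀ p' q r e, D p' q r e = ∑ e', (BA F G k).m p' q e' * D (rep e').1 (rep e').2 r e +
    PP' e (T p' q) r

variable {T : UU p b → UU p b → UU p b → k} {D : UU p b → UU p b → UU p b → EI F G → k}

lemma TVB.same (h : TVB F G T D) (p' q r : UU p b) (hpq : blk p' = blk q) (e : EI F G) :
    D p' q r e = PP' e (T p' q) r := by
  rw [h.rel]
  simp only [m_same p' q hpq, zero_mul, Finset.sum_const_zero, zero_add]

lemma TVB.prt (h : TVB F G T D) (e' : EI F G) (he : core e') (r : UU p b) (e : EI F G) :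
    D (part e').1 (part e').2 r e = wt k e' * D (rep e').1 (rep e').2 r e +
      PP' e (T (part e').1 (part e').2) r := by
  rw [h.rel]
  simp only [m_part e' he, ite_mul, zero_mul, Finset.sum_ite_eq, Finset.mem_univ, if_true]

lemma TVB.other (h : TVB F G T D) (z : UU p b × UU p b) (hz : blk z.1 < blk z.2)
    (h1 : ∀ e : EI F G, rep e ≠ z) (h2 : ∀ e : EI F G, core e → part e ≠ z) (r : UU p b)
    (e : EI F G) : D z.1 z.2 r e = PP' e (T z.1 z.2) r := by
  rw [h.rel]
  simp only [m_other z hz h1 h2, zero_mul, Finset.sum_const_zero, zero_add]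

/-- label of a pair of large blocks -/
def eA (F : Finset (Prs p × Fin 3)) (G : Finset (Fin p × Fin b)) (i j : Fin p) (h : i < j)
    (s : Fin 3) : EI F G := Sum.inl (⟨(i, j), h⟩, s)

/-- label of a pair of a large and a small block -/
def eB (F : Finset (Prs p × Fin 3)) (G : Finset (Fin p × Fin b)) (i : Fin p) (y : Fin b)
    (s : Fin 2) : EI F G := Sum.inr (Sum.inr (Sum.inl (i, y, s)))

/-- label of a pair of small blocks -/
def eC (F : Finset (Prs p × Fin 3)) (G : Finset (Fin p × Fin b)) (y z : Fin b) (h : y < z)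
    (s : Fin 2) : EI F G := Sum.inr (Sum.inr (Sum.inr (Sum.inr (⟨(y, z), h⟩, s))))

lemma TVB.p33 (h : TVB F G T D) (i j : Fin p) (hij : i < j) :
    P33 T D PP' (fun a => Sum.inl (i, a)) (fun a => Sum.inl (j, a)) (cc k i)
      (eA F G i j hij) where
  hx s τ r := by
    have h1 : ¬ (i = j) := ne_of_lt hij
    simp only [PP', eA, rep, part, wt, Sum.inl.injEq, Prod.mk.injEq, h1, false_and, true_and,
      if_false, mul_zero, zero_add]
  hy s τ r := by
    have h1 : ¬ (j = i) := ne_of_gt hij
    simp only [PP', eA, rep, part, wt, Sum.inl.injEq, Prod.mk.injEq, h1, false_and, true_and,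
      if_false, mul_zero, add_zero]
  hD a r e' := h.prt (eA F G i j hij a) trivial r e'
  xx a b' r e' := h.same (Sum.inl (i, a)) (Sum.inl (i, b')) r rfl e'
  yy a b' r e' := h.same (Sum.inl (j, a)) (Sum.inl (j, b')) r rfl e'

lemma TVB.p32 (h : TVB F G T D) (i : Fin p) (y : Fin b) :
    P32 T D PP' (fun a => Sum.inl (i, a)) (fun a => Sum.inr (y, a)) (cc k i)
      (eB F G i y) oc where
  ho := ⟨rfl, rfl⟩
  hx s τ r := by
    simp only [PP', eB, rep, part, wt, Sum.inl.injEq, Prod.mk.injEq, true_and, reduceCtorEq,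
      if_false, mul_zero, zero_add]
  hy s τ r := by
    simp only [PP', eB, rep, part, wt, Sum.inr.injEq, Prod.mk.injEq, true_and, reduceCtorEq,
      if_false, mul_zero, add_zero]
  hD s r e' := h.prt (eB F G i y s) trivial r e'
  xx a b' r e' := h.same (Sum.inl (i, a)) (Sum.inl (i, b')) r rfl e'
  yy a b' r e' := h.same (Sum.inr (y, a)) (Sum.inr (y, b')) r rfl e'

lemma oc_injective : Function.Injective oc := by decide

lemma oc_ne_two (c : Fin 2) : oc c ≠ 2 := by revert c; decide

lemma TVB.f32 (h : TVB F G T D) (i : Fin p) (y : Fin b) :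
    (∃ f : Fin 2 → EI F G, (∀ s (τ : UU p b → k) r, PP' (f s) τ (Sum.inl (i, r)) =
        τ (Sum.inr (y, s)) * (if r = oc s then 1 else 0)) ∧
      (∀ s (τ : UU p b → k) r, PP' (f s) τ (Sum.inr (y, r)) =
        τ (Sum.inl (i, oc s)) * (if r = s then 1 else 0))) ∨
      (∀ s r e', D (Sum.inl (i, oc s)) (Sum.inr (y, s)) r e' =
        PP' e' (T (Sum.inl (i, oc s)) (Sum.inr (y, s))) r) := by
  by_cases hG : (i, y) ∈ G
  · left
    refine ⟨fun s => Sum.inr (Sum.inr (Sum.inr (Sum.inl (⟨(i, y), hG⟩, s)))), ?_, ?_⟩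
    · intro s τ r
      simp only [PP', rep, part, wt, Sum.inl.injEq, Prod.mk.injEq, true_and, reduceCtorEq,
        if_false, mul_zero, zero_add, zero_mul, add_zero]
    · intro s τ r
      simp only [PP', rep, part, wt, Sum.inr.injEq, Prod.mk.injEq, true_and, reduceCtorEq,
        if_false, mul_zero, zero_mul, add_zero]
  · right
    intro s r e'
    refine h.other (Sum.inl (i, oc s), Sum.inr (y, s)) ?_ ?_ ?_ r e'
    · have := i.2
      simp only [blk]
      omega
    · rintro (⟨z, t⟩ | f | ⟨i', y', c⟩ | ⟨g, c⟩ | ⟨z, c⟩) he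
      · simp only [rep, Prod.mk.injEq, reduceCtorEq, and_false] at he
      · simp only [rep, Prod.mk.injEq, reduceCtorEq, and_false] at he
      · simp only [rep, Prod.mk.injEq, Sum.inl.injEq, Sum.inr.injEq] at he
        exact oc_ne_two _ he.1.2.symm
      · simp only [rep, Prod.mk.injEq, Sum.inl.injEq, Sum.inr.injEq] at he
        apply hG
        have h1 : g.1 = (i, y) := Prod.ext he.1.1 he.2.1
        rw [← h1]
        exact g.2
      · simp only [rep, Prod.mk.injEq, reduceCtorEq, false_and] at he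
    · rintro (⟨z, t⟩ | f | ⟨i', y', c⟩ | ⟨g, c⟩ | ⟨z, c⟩) hc he
      · simp only [part, Prod.mk.injEq, reduceCtorEq, and_false] at he
      · exact hc
      · simp only [part, Prod.mk.injEq, Sum.inl.injEq, Sum.inr.injEq] at he
        have h1 := oc_injective he.1.2
        have h2 := he.2.2
        rw [h1] at h2
        clear * - h2
        revert h2 s
        decide
      · exact hc
      · simp only [part, Prod.mk.injEq, reduceCtorEq, false_and] at he

lemma cc_ne [CharZero k] (i : Fin p) : cc k i ≠ 0 := by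
  unfold cc
  exact Nat.cast_ne_zero.2 (by omega)

lemma cc_ne3 [CharZero k] (i : Fin p) : cc k i ^ 3 + 1 ≠ 0 := by
  unfold cc
  have : (((i.1 + 2 : ℕ) : k)) ^ 3 + 1 = (((i.1 + 2) ^ 3 + 1 : ℕ) : k) := by push_cast; ring
  rw [this]
  exact Nat.cast_ne_zero.2 (by positivity)

lemma exists_other (hp : 2 ≤ p) (i : Fin p) : ∃ j : Fin p, j ≠ i := by
  have : Nontrivial (Fin p) := Fin.nontrivial_iff_two_le.2 hp
  exact exists_ne i

/-- the values on quadrics of a large block -/
lemma TVB.large [CharZero k] (h : TVB F G T D) (hp : 2 ≤ p) (i : Fin p) (a a' : Fin 3) :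
    T (Sum.inl (i, a)) (Sum.inl (i, a')) = 0 := by
  funext u
  rcases u with ⟨j, s⟩ | ⟨y, s⟩
  · rcases lt_trichotomy i j with hij | rfl | hij
    · exact (h.p33 i j hij).b1 h.toTV (cc_ne i) a a' s
    · obtain ⟨j, hj⟩ := exists_other hp i
      rcases lt_or_gt_of_ne hj with hji | hij
      · have h1 := ((h.p33 j i hji).swap h.toTV).a1 h.toTV (cc_ne j) (cc_ne3 j) two_ne_zero
          (fun a => h.nor _) (-a) (-a') (-s)
        simp only [neg_neg] at h1
        exact h1
      · exact (h.p33 i j hij).a1 h.toTV (cc_ne i) (cc_ne3 i) two_ne_zero (fun a => h.nor _) a a' s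
    · have h1 := ((h.p33 j i hij).swap h.toTV).b1 h.toTV (cc_ne j) (-a) (-a') (-s)
      simp only [neg_neg] at h1
      exact h1
  · exact (h.p32 i y).b1 h.toTV (cc_ne i) a a' s

lemma PP'_eA (i j : Fin p) (hij : i < j) (s : Fin 3) (τ : UU p b → k) (y : Fin b) (r : Fin 2) :
    PP' (eA F G i j hij s) τ (Sum.inr (y, r)) = 0 := by
  simp only [PP', eA, rep, part, reduceCtorEq, if_false, mul_zero, add_zero]

lemma PP'_eB (i : Fin p) (y y' : Fin b) (hy : y' ≠ y) (s : Fin 2) (τ : UU p b → k) (r : Fin 2) :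
    PP' (eB F G i y s) τ (Sum.inr (y', r)) = 0 := by
  simp only [PP', eB, rep, part, Sum.inr.injEq, Prod.mk.injEq, hy, false_and, reduceCtorEq,
    if_false, mul_zero, add_zero]

/-- the values on quadrics of a small block -/
lemma TVB.small [CharZero k] (h : TVB F G T D) (hp : 2 ≤ p) (y : Fin b) (a a' : Fin 2) :
    T (Sum.inr (y, a)) (Sum.inr (y, a')) = 0 := by
  funext u
  rcases u with ⟨i, s⟩ | ⟨y', s⟩
  · obtain ⟨j, hj⟩ := exists_other hp i
    rcases lt_or_gt_of_ne hj with hji | hij
    · exact cross2 h.toTV (h.p33 j i hji) (h.p32 j y) (cc_ne j) (cc_ne j)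
        (fun s τ r => PP'_eA _ _ _ _ _ _ _) a a' s
    · exact cross1 h.toTV (h.p33 i j hij) (h.p32 j y) (cc_ne i) (cc_ne j)
        (fun s τ r => PP'_eA _ _ _ _ _ _ _) a a' s
  · have i0 : Fin p := ⟨0, by omega⟩
    by_cases hy : y = y'
    · subst hy
      exact (h.p32 i0 y).a1 h.toTV (cc_ne i0) two_ne_zero (h.f32 i0 y) (fun a => h.nor _) a a' s
    · exact cross3 h.toTV (h.p32 i0 y) (h.p32 i0 y') (cc_ne i0)
        (fun s τ r => PP'_eB _ _ _ hy _ _ _) a a' s

lemma TVB.block [CharZero k] (h : TVB F G T D) (hp : 2 ≤ p) (q r : UU p b)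
    (hqr : blk q = blk r) : T q r = 0 := by
  rcases q with ⟨i, a⟩ | ⟨y, a⟩ <;> rcases r with ⟨i', a'⟩ | ⟨y', a'⟩
  · have : i = i' := Fin.ext hqr
    subst this
    exact h.large hp i a a'
  · have := i.2
    simp only [blk] at hqr
    omega
  · have := i'.2
    simp only [blk] at hqr
    omega
  · have : y = y' := Fin.ext (by simp only [blk] at hqr; omega)
    subst this
    exact h.small hp y a a'

lemma PP'_zero (e : EI F G) (r : UU p b) : PP' e (0 : UU p b → k) r = 0 := by
  simp only [PP', Pi.zero_apply, zero_mul, add_zero, mul_zero]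

lemma TVB.D0 [CharZero k] (h : TVB F G T D) (hp : 2 ≤ p) (q r t : UU p b)
    (hqr : blk q = blk r) (e : EI F G) : D q r t e = 0 := by
  rw [h.same q r t hqr, h.block hp q r hqr, PP'_zero]

/-- nondegeneracy -/
lemma nondeg [CharZero k] (τ : UU p b → k) (q : UU p b)
    (h0 : ∀ r, blk r = blk q → ∀ e : EI F G, PP' e τ r = 0) (t : UU p b) (ht : blk t ≠ blk q) :
    τ t = 0 := by
  have hT0 : TVB F G (0 : UU p b → UU p b → UU p b → k) (0 : UU p b → UU p b → UU p b → EI F G → k) :=
    { T_comm := fun _ _ => rfl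
      D12 := fun _ _ _ => rfl
      D23 := fun _ _ _ => rfl
      rep0 := fun _ => rfl
      nor := fun _ => rfl
      rel := fun _ _ r e => by
        have : PP' e (0 : UU p b → k) r = 0 := PP'_zero e r
        simp only [Pi.zero_apply, mul_zero, Finset.sum_const_zero, zero_add]
        exact this.symm }
  rcases q with ⟨i, a⟩ | ⟨y, a⟩ <;> rcases t with ⟨j, s⟩ | ⟨z, s⟩
  · rcases lt_trichotomy i j with hij | rfl | hij
    · exact (hT0.p33 i j hij).nx (cc_ne i) τ (fun s r => h0 (Sum.inl (i, r)) rfl _) s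
    · exact absurd rfl ht
    · have h1 := ((hT0.p33 j i hij).swap hT0.toTV).nx (cc_ne j) τ
        (fun s r => h0 (Sum.inl (i, -r)) rfl _) (-s)
      simp only [neg_neg] at h1
      exact h1
  · exact (hT0.p32 i z).nx τ (fun s r => h0 (Sum.inl (i, r)) rfl _) s
  · exact (hT0.p32 j y).ny (cc_ne j) τ (fun s r => h0 (Sum.inr (y, r)) rfl _) s
  · rcases lt_trichotomy y z with hyz | rfl | hyz
    · have h1 := h0 (Sum.inr (y, 1)) rfl (eC F G y z hyz (1 - s))
      have h2 : ¬ (y = z) := ne_of_lt hyz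
      have h3 : (1 : Fin 2) - (1 - s) = s := by clear * -; revert s; decide
      simp only [PP', eC, rep, part, Sum.inr.injEq, Prod.mk.injEq, h2, false_and, true_and,
        if_false, if_true, mul_zero, add_zero, zero_add, mul_one, h3, one_ne_zero] at h1
      exact h1
    · exact absurd rfl ht
    · have h2 : ¬ (y = z) := ne_of_gt hyz
      have hw : wt k (eC F G z y hyz 0) = 1 := rfl
      have h4 := h0 (Sum.inr (y, 0)) rfl (eC F G z y hyz 0)
      have h5 := h0 (Sum.inr (y, 1)) rfl (eC F G z y hyz 0)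
      have e1 : (1 : Fin 2) - 0 = 1 := rfl
      simp only [PP', hw] at h4 h5
      simp only [eC, rep, part, Sum.inr.injEq, Prod.mk.injEq, h2, false_and, true_and,
        if_false, if_true, mul_zero, add_zero, zero_add, mul_one, one_mul, e1, one_ne_zero,
        zero_ne_one] at h4 h5
      fin_cases s
      · exact h4
      · exact h5

lemma blk_part_rep (e : EI F G) : blk (part e).1 = blk (rep e).1 ∧ blk (part e).2 = blk (rep e).2 := by
  rcases e with e | e | e | e | e <;> exact ⟨rfl, rfl⟩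

lemma TVB.zero_of_lt [CharZero k] (h : TVB F G T D) (hp : 2 ≤ p) (z : UU p b × UU p b)
    (hz : blk z.1 < blk z.2) : T z.1 z.2 = 0 := by
  by_cases h1 : ∃ e : EI F G, rep e = z
  · obtain ⟨e, rfl⟩ := h1
    exact h.rep0 e
  have hQ : ∀ r, (blk r = blk z.1 ∨ blk r = blk z.2) → ∀ e : EI F G, PP' e (T z.1 z.2) r = 0 := by
    intro r hr e
    have hD0 : ∀ q q', blk q = blk z.1 → blk q' = blk z.2 → D q q' r e = 0 := by
      intro q q' hq hq'
      rcases hr with hr | hr
      · rw [h.D23]
        exact h.D0 hp _ _ _ (by rw [hq, hr]) e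
      · rw [h.D12, h.D23]
        exact h.D0 hp _ _ _ (by rw [hq', hr]) e
    by_cases h2 : ∃ e : EI F G, core e ∧ part e = z
    · obtain ⟨e', he', rfl⟩ := h2
      have h3 := h.prt e' he' r e
      rw [hD0 _ _ rfl rfl, hD0 _ _ (blk_part_rep e').1.symm (blk_part_rep e').2.symm, mul_zero,
        zero_add] at h3
      exact h3.symm
    · have h3 := h.other z hz (fun e he => h1 ⟨e, he⟩) (fun e hc he => h2 ⟨e, hc, he⟩) r e
      rw [hD0 _ _ rfl rfl] at h3
      exact h3.symm
  funext t
  by_cases ht : blk t = blk z.1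
  · exact nondeg (F := F) (G := G) (T z.1 z.2) z.2 (fun r hr e => hQ r (Or.inr hr) e) t (by omega)
  · exact nondeg (F := F) (G := G) (T z.1 z.2) z.1 (fun r hr e => hQ r (Or.inl hr) e) t ht

/-- all tangent vectors are trivial -/
theorem TVB.zero [CharZero k] (h : TVB F G T D) (hp : 2 ≤ p) (q r : UU p b) : T q r = 0 := by
  rcases lt_trichotomy (blk q) (blk r) with h1 | h1 | h1
  · exact h.zero_of_lt hp (q, r) h1
  · exact h.block hp q r h1
  · rw [h.T_comm]
    exact h.zero_of_lt hp (r, q) h1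

end

end Pool.Agent.H59.VC
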