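import Mathlib
import Pool.Agent.H59.VC.Tan3

set_option autoImplicit false
set_option linter.unusedSectionVars false

universe u

namespace Pool.Agent.H59.VC

section loc
variable {R : Type u} [CommRing R]

/-- cancellation -/
def Canc (c : R) : Prop := ∀ y : R, c * y = 0 → y = 0

lemma g333 (x z w : Fin 3 → R) (C C' : R) (hP : ∀ s, x s * z s = C * (x (s - 1) * z (s + 1)))
    (hQ : ∀ s, x s * w s = C * (x (s - 1) * w (s + 1)))
    (hR : ∀ s, z s * w s = C' * (z (s - 1) * w (s + 1)))
    (hC : Canc C) (hC' : Canc C') (h1 : Canc (C' ^ 3 - C ^ 3)) (h2 : Canc (C ^ 3 * C' ^ 3 - 1))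
    (h3 : Canc (C ^ 6 - 1)) (s t u : Fin 3) : x s * z t * w u = 0 := by
  have e1 : ∀ s : Fin 3, s - 1 + 1 = s := by decide
  have e2 : ∀ s : Fin 3, s + 1 - 1 = s := by decide
  have e3 : ∀ s : Fin 3, s + 1 + 1 = s - 1 := by decide
  have e4 : ∀ s : Fin 3, s - 1 - 1 = s + 1 := by decide
  -- sum of the indices zero
  have a0 : ∀ s, C' * (x s * z s * w s) = C * (x (s - 1) * z (s - 1) * w (s - 1)) := by
    intro s
    have p := hP s
    have r := hR (s - 1)
    have e5 : s - 1 - 1 = s + 1 := e4 s
    rw [e5, e1] at r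
    linear_combination C' * w s * p - C * x (s - 1) * r
  have A0 : ∀ s, x s * z s * w s = 0 := by
    intro s
    apply h1
    have p1 := a0 s
    have p2 := a0 (s - 1)
    have p3 := a0 (s - 1 - 1)
    rw [e4, e2] at p3
    rw [e4] at p2
    linear_combination C' ^ 2 * p1 + C' * C * p2 + C ^ 2 * p3
  have D0 : ∀ s, x s * z (s - 1) * w (s + 1) = 0 := by
    intro s
    apply hC'
    linear_combination A0 s - x s * hR s
  have B0 : ∀ s, x s * z (s + 1) * w (s - 1) = 0 := by
    intro s
    apply hC
    have q := hQ (s + 1)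
    rw [e2, e3] at q
    linear_combination A0 (s + 1) - z (s + 1) * q
  -- sum of the indices one
  have b1 : ∀ s, x s * z (s + 1) * w s = C * C' * (x (s - 1) * z s * w (s - 1)) := by
    intro s
    have q := hQ s
    have r := hR (s + 1)
    rw [e2, e3] at r
    linear_combination z (s + 1) * q + C * x (s - 1) * r
  have B1 : ∀ s, x s * z (s + 1) * w s = 0 := by
    intro s
    apply h2
    have p1 := b1 s
    have p2 := b1 (s - 1)
    have p3 := b1 (s - 1 - 1)
    rw [e4, e3, e2] at p3
    rw [e4, e1] at p2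
    linear_combination -p1 - C * C' * p2 - C ^ 2 * C' ^ 2 * p3
  have D1 : ∀ s, x s * z (s - 1) * w (s - 1) = 0 := by
    intro s
    have r := hR (s - 1)
    rw [e4, e1] at r
    linear_combination x s * r + C' * B1 s
  have A1 : ∀ s, x s * z s * w (s + 1) = 0 := by
    intro s
    have p := hP s
    have d := D1 (s - 1)
    rw [e4] at d
    linear_combination w (s + 1) * p + C * d
  -- sum of the indices two
  have a2 : ∀ s, x s * z s * w (s - 1) = C ^ 2 * (x (s + 1) * z (s + 1) * w s) := by
    intro s
    have p := hP s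
    have q := hQ (s - 1)
    rw [e4, e1] at q
    linear_combination w (s - 1) * p + C * z (s + 1) * q
  have A2 : ∀ s, x s * z s * w (s - 1) = 0 := by
    intro s
    apply h3
    have p1 := a2 s
    have p2 := a2 (s + 1)
    have p3 := a2 (s + 1 + 1)
    rw [e3, e4, e1] at p3
    rw [e3, e2] at p2
    linear_combination -p1 - C ^ 2 * p2 - C ^ 4 * p3
  have D2 : ∀ s, x s * z (s - 1) * w s = 0 := by
    intro s
    have q := hQ s
    have a := A2 (s - 1)
    rw [e4] at a
    linear_combination z (s - 1) * q + C * a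
  have B2 : ∀ s, x s * z (s + 1) * w (s + 1) = 0 := by
    intro s
    have r := hR (s + 1)
    rw [e2, e3] at r
    linear_combination x s * r + C' * A2 s
  have hcases : ∀ s t : Fin 3, t = s ∨ t = s + 1 ∨ t = s - 1 := by decide
  rcases hcases s t with h | h | h <;> rcases hcases s u with h' | h' | h' <;> rw [h, h']
  · exact A0 _
  · exact A1 _
  · exact A2 _
  · exact B1 _
  · exact B2 _
  · exact B0 _
  · exact D2 _
  · exact D0 _
  · exact D1 _

lemma g332 (x z : Fin 3 → R) (y : Fin 2 → R) (C C' : R)
    (hP : ∀ s, x s * z s = C * (x (s - 1) * z (s + 1)))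
    (hx0 : x 0 * y 0 = C * (x 2 * y 1)) (hx1 : x 1 * y 1 = C * (x 2 * y 0))
    (hz0 : z 0 * y 0 = C' * (z 2 * y 1)) (hz1 : z 1 * y 1 = C' * (z 2 * y 0))
    (h1 : Canc (C - C')) (h2 : Canc (C ^ 2 * C' - 1)) (hC : Canc C) (hC' : Canc C')
    (s t : Fin 3) (u : Fin 2) : x s * z t * y u = 0 := by
  have P0 : x 0 * z 0 = C * (x 2 * z 1) := hP 0
  have P1 : x 1 * z 1 = C * (x 0 * z 2) := hP 1
  have P2 : x 2 * z 2 = C * (x 1 * z 0) := hP 2
  -- first cycle
  have a021 : x 0 * z 2 * y 1 = 0 := by
    apply h1
    linear_combination y 1 * (-P1) + z 1 * hx1 - y 0 * P0 + x 0 * hz0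
  have a000 : x 0 * z 0 * y 0 = 0 := by linear_combination x 0 * hz0 + C' * a021
  have a111 : x 1 * z 1 * y 1 = 0 := by linear_combination y 1 * P1 + C * a021
  have a210 : x 2 * z 1 * y 0 = 0 := by
    apply hC
    linear_combination a111 - z 1 * hx1
  have a201 : x 2 * z 0 * y 1 = 0 := by
    apply hC
    linear_combination a000 - z 0 * hx0
  have a120 : x 1 * z 2 * y 0 = 0 := by
    apply hC'
    linear_combination a111 - x 1 * hz1
  -- second cycle
  have a220 : x 2 * z 2 * y 0 = 0 := by
    apply h2
    linear_combination -y 0 * P2 - C * x 1 * hz0 - C * C' * z 2 * hx1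
  have a121 : x 1 * z 2 * y 1 = 0 := by linear_combination z 2 * hx1 + C * a220
  have a100 : x 1 * z 0 * y 0 = 0 := by linear_combination x 1 * hz0 + C' * a121
  have a211 : x 2 * z 1 * y 1 = 0 := by linear_combination x 2 * hz1 + C' * a220
  have a001 : x 0 * z 0 * y 1 = 0 := by linear_combination y 1 * P0 + C * a211
  have a010 : x 0 * z 1 * y 0 = 0 := by linear_combination z 1 * hx0 + C * a211
  -- third cycle
  have a221 : x 2 * z 2 * y 1 = 0 := by
    apply h2
    linear_combination -y 1 * P2 - C * z 0 * hx1 - C ^ 2 * x 2 * hz0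
  have a200 : x 2 * z 0 * y 0 = 0 := by linear_combination x 2 * hz0 + C' * a221
  have a101 : x 1 * z 0 * y 1 = 0 := by linear_combination z 0 * hx1 + C * a200
  have a020 : x 0 * z 2 * y 0 = 0 := by linear_combination z 2 * hx0 + C * a221
  have a110 : x 1 * z 1 * y 0 = 0 := by linear_combination y 0 * P1 + C * a020
  have a011 : x 0 * z 1 * y 1 = 0 := by linear_combination x 0 * hz1 + C' * a020
  fin_cases s <;> fin_cases t <;> fin_cases u <;> assumption

lemma g322 (x : Fin 3 → R) (y w : Fin 2 → R) (C : R)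
    (hx0 : x 0 * y 0 = C * (x 2 * y 1)) (hx1 : x 1 * y 1 = C * (x 2 * y 0))
    (hw0 : x 0 * w 0 = C * (x 2 * w 1)) (hw1 : x 1 * w 1 = C * (x 2 * w 0))
    (h0 : y 0 * w 0 = y 1 * w 1) (h1 : y 0 * w 1 = 2 * (y 1 * w 0)) (hC : Canc C)
    (s : Fin 3) (t u : Fin 2) : x s * y t * w u = 0 := by
  have a210 : x 2 * y 1 * w 0 = 0 := by
    apply hC
    linear_combination w 0 * hx0 - y 0 * hw0 - C * x 2 * h1
  have a201 : x 2 * y 0 * w 1 = 0 := by linear_combination x 2 * h1 + 2 * a210
  have a000 : x 0 * y 0 * w 0 = 0 := by linear_combination w 0 * hx0 + C * a210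
  have a011 : x 0 * y 1 * w 1 = 0 := by linear_combination -x 0 * h0 + a000
  have a211 : x 2 * y 1 * w 1 = 0 := by
    apply hC
    linear_combination w 1 * hx0 - 2 * y 1 * hw0 - x 0 * h1
  have a001 : x 0 * y 0 * w 1 = 0 := by linear_combination w 1 * hx0 + C * a211
  have a010 : x 0 * y 1 * w 0 = 0 := by linear_combination y 1 * hw0 + C * a211
  have a200 : x 2 * y 0 * w 0 = 0 := by linear_combination x 2 * h0 + a211
  have a110 : x 1 * y 1 * w 0 = 0 := by linear_combination w 0 * hx1 + C * a200
  have a111 : x 1 * y 1 * w 1 = 0 := by linear_combination w 1 * hx1 + C * a201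
  have a100 : x 1 * y 0 * w 0 = 0 := by linear_combination x 1 * h0 + a111
  have a101 : x 1 * y 0 * w 1 = 0 := by linear_combination y 0 * hw1 + C * a200
  fin_cases s <;> fin_cases t <;> fin_cases u <;> assumption

end loc

section
variable {k : Type u} [Field k] {p b : ℕ} {F : Finset (Prs p × Fin 3)} {G : Finset (Fin p × Fin b)}
variable {R : Type u} [CommRing R] [Algebra k R] {x : UU p b → R}

lemma canc_of_ne (c : k) (hc : c ≠ 0) : Canc (algebraMap k R c) := by
  intro y hy
  have h1 : (algebraMap k R c⁻¹) * (algebraMap k R c * y) = y := by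
    rw [← mul_assoc, ← map_mul, inv_mul_cancel₀ hc, map_one, one_mul]
  rw [← h1, hy, mul_zero]

variable (hx : ∀ q r, x q * x r = ∑ e : EI F G, (BA F G k).m q r e •
  (x (rep e).1 * x (rep e).2))

include hx

lemma x_same (q r : UU p b) (h : blk q = blk r) : x q * x r = 0 := by
  rw [hx]
  simp only [m_same q r h, zero_smul, Finset.sum_const_zero]

lemma x_part (e : EI F G) (he : core e) : x (part e).1 * x (part e).2 =
    algebraMap k R (wt k e) * (x (rep e).1 * x (rep e).2) := by
  rw [hx]
  simp only [m_part e he, ite_smul, zero_smul, Finset.sum_ite_eq, Finset.mem_univ, if_true]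
  rw [Algebra.smul_def]

lemma x_sorted [CharZero k] (hb : b ≤ 2) (q r t : UU p b) (h1 : blk q < blk r)
    (h2 : blk r < blk t) : x q * x r * x t = 0 := by
  have hc : ∀ i : Fin p, Canc (algebraMap k R (cc k i)) := fun i => canc_of_ne _ (cc_ne i)
  have key : ∀ (i j : Fin p) (_ : i < j) (s : Fin 3), x (Sum.inl (i, s)) * x (Sum.inl (j, s)) =
      algebraMap k R (cc k i) * (x (Sum.inl (i, s - 1)) * x (Sum.inl (j, s + 1))) := by
    intro i j hij s
    exact x_part hx (eA F G i j hij s) trivial
  have key2 : ∀ (i : Fin p) (y : Fin b) (s : Fin 2), x (Sum.inl (i, oc s)) *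
      x (Sum.inr (y, 1 - s)) =
      algebraMap k R (cc k i) * (x (Sum.inl (i, 2)) * x (Sum.inr (y, s))) := by
    intro i y s
    exact x_part hx (eB F G i y s) trivial
  rcases q with ⟨i, a⟩ | ⟨y, a⟩ <;> rcases r with ⟨j, a'⟩ | ⟨z, a'⟩ <;>
    rcases t with ⟨l, a''⟩ | ⟨w, a''⟩
  · have hij : i < j := h1
    have hjl : j < l := h2
    refine g333 (fun s => x (Sum.inl (i, s))) (fun s => x (Sum.inl (j, s)))
      (fun s => x (Sum.inl (l, s))) (algebraMap k R (cc k i)) (algebraMap k R (cc k j))
      (key i j hij) (key i l (hij.trans hjl)) (key j l hjl) (hc i) (hc j) ?_ ?_ ?_ a a' a''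
    · rw [← map_pow, ← map_pow, ← map_sub]
      apply canc_of_ne
      rw [sub_ne_zero]
      unfold cc
      intro h
      have h3 : (((j.1 + 2) ^ 3 : ℕ) : k) = (((i.1 + 2) ^ 3 : ℕ) : k) := by
        push_cast at h ⊢
        exact h
      have h4 := Nat.cast_injective h3
      have h5 := Nat.pow_left_injective (n := 3) (by norm_num) h4
      have h6 : i.1 < j.1 := hij
      omega
    · rw [← map_pow, ← map_pow, ← map_mul, ← map_one (algebraMap k R), ← map_sub]
      apply canc_of_ne
      rw [sub_ne_zero]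
      unfold cc
      intro h
      have h3 : ((((i.1 + 2) ^ 3 * (j.1 + 2) ^ 3 : ℕ)) : k) = ((1 : ℕ) : k) := by
        push_cast at h ⊢
        exact h
      have h4 := Nat.cast_injective h3
      have h5 : 1 < (i.1 + 2) ^ 3 * (j.1 + 2) ^ 3 := by
        rw [← mul_pow]
        apply Nat.one_lt_pow (by norm_num)
        nlinarith
      omega
    · rw [← map_pow, ← map_one (algebraMap k R), ← map_sub]
      apply canc_of_ne
      rw [sub_ne_zero]
      unfold cc
      intro h
      have h3 : (((i.1 + 2) ^ 6 : ℕ) : k) = ((1 : ℕ) : k) := by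
        push_cast at h ⊢
        exact h
      have h4 := Nat.cast_injective h3
      have h5 : 1 < (i.1 + 2) ^ 6 := Nat.one_lt_pow (by norm_num) (by omega)
      omega
  · have hij : i < j := h1
    have hl := j.2
    refine g332 (fun s => x (Sum.inl (i, s))) (fun s => x (Sum.inl (j, s)))
      (fun s => x (Sum.inr (w, s))) (algebraMap k R (cc k i)) (algebraMap k R (cc k j))
      (key i j hij) (key2 i w 1) (key2 i w 0) (key2 j w 1) (key2 j w 0) ?_ ?_ (hc i) (hc j) a a' a''
    · rw [← map_sub]
      apply canc_of_ne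
      rw [sub_ne_zero]
      unfold cc
      intro h
      have h4 := Nat.cast_injective h
      have h6 : i.1 < j.1 := hij
      omega
    · rw [← map_pow, ← map_mul, ← map_one (algebraMap k R), ← map_sub]
      apply canc_of_ne
      rw [sub_ne_zero]
      unfold cc
      intro h
      have h3 : (((i.1 + 2) ^ 2 * (j.1 + 2) : ℕ) : k) = ((1 : ℕ) : k) := by
        push_cast at h ⊢
        exact h
      have h4 := Nat.cast_injective h3
      have h5 : 1 < (i.1 + 2) ^ 2 * (j.1 + 2) := by
        have h6 : 2 ^ 2 ≤ (i.1 + 2) ^ 2 := Nat.pow_le_pow_left (by omega) 2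
        nlinarith
      omega
  · exfalso
    have := l.2
    simp only [blk] at h2
    omega
  · have hzw : z < w := by
      simp only [blk] at h2
      apply Fin.lt_def.2
      omega
    have k1 := x_part hx (eC F G z w hzw 0) trivial
    have k2 := x_part hx (eC F G z w hzw 1) trivial
    have e1 : wt k (eC F G z w hzw 0) = 1 := rfl
    have e2 : wt k (eC F G z w hzw 1) = 2 := rfl
    rw [e1, map_one, one_mul] at k1
    rw [e2, map_ofNat] at k2
    exact g322 (fun s => x (Sum.inl (i, s))) (fun s => x (Sum.inr (z, s)))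
      (fun s => x (Sum.inr (w, s))) (algebraMap k R (cc k i))
      (key2 i z 1) (key2 i z 0) (key2 i w 1) (key2 i w 0) k1 k2 (hc i) a a' a''
  · exfalso
    have := l.2
    have := j.2
    simp only [blk] at h1
    omega
  · exfalso
    have := j.2
    simp only [blk] at h1
    omega
  · exfalso
    have := l.2
    simp only [blk] at h2
    omega
  · exfalso
    have := y.2
    have := z.2
    have := w.2
    simp only [blk] at h1 h2
    omega

theorem x_gen [CharZero k] (hb : b ≤ 2) (q r t : UU p b) : x q * x r * x t = 0 := by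
  have hqr : blk q = blk r → x q * x r * x t = 0 := fun h => by
    rw [x_same hx q r h, zero_mul]
  have hqt : blk q = blk t → x q * x r * x t = 0 := fun h => by
    rw [mul_right_comm, x_same hx q t h, zero_mul]
  have hrt : blk r = blk t → x q * x r * x t = 0 := fun h => by
    rw [mul_assoc, x_same hx r t h, mul_zero]
  have S := x_sorted hx hb
  rcases lt_trichotomy (blk q) (blk r) with h1 | h1 | h1
  · rcases lt_trichotomy (blk r) (blk t) with h2 | h2 | h2
    · exact S q r t h1 h2
    · exact hrt h2
    · rcases lt_trichotomy (blk q) (blk t) with h3 | h3 | h3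
      · have := S q t r h3 h2
        rw [← this]; ring
      · exact hqt h3
      · have := S t q r h3 h1
        rw [← this]; ring
  · exact hqr h1
  · rcases lt_trichotomy (blk q) (blk t) with h2 | h2 | h2
    · have := S r q t h1 h2
      rw [← this]; ring
    · exact hqt h2
    · rcases lt_trichotomy (blk r) (blk t) with h3 | h3 | h3
      · have := S r t q h3 h2
        rw [← this]; ring
      · exact hrt h3
      · have := S t r q h3 h1
        rw [← this]; ring

end

/-- the block algebra has trivial negative tangents -/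
theorem BA_good {k : Type u} [Field k] [CharZero k] {p b : ℕ} (F : Finset (Prs p × Fin 3))
    (G : Finset (Fin p × Fin b)) (hp : 2 ≤ p) (hb : b ≤ 2) : (BA F G k).Good where
  gen := fun R _ _ x hx q r t => x_gen (F := F) (G := G) hx hb q r t
  tan := by
    intro T D h1 h2 h3 h4 h5 h6 q r
    have hT : TVB F G T D :=
      { T_comm := h1
        D12 := h4
        D23 := h5
        rep0 := h2
        nor := h3
        rel := fun p' q r e => by
          rw [h6, sum_m]
          rfl }
    exact hT.zero hp q r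

end Pool.Agent.H59.VC
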