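import Mathlib
import Pool.Agent.H59.VC.Gen3
import Pool.Graph.R_seed8.Results.MP_490634_ag.NotComponent

set_option autoImplicit false
set_option linter.unusedSectionVars false

open CategoryTheory AlgebraicGeometry MvPolynomial
open Pool.Agent.Helper226
open Pool.Agent.Helper17.VCG
open Pool.Agent.Results.MP_490634_ag.NotComponent

universe u

namespace Pool.Agent.H59.VC

lemma card_Prs (p : ℕ) : Fintype.card (Prs p) * 2 = p * (p - 1) := by
  rw [Fintype.card_subtype, Finset.card_filter]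
  rw [Fintype.sum_prod_type_right]
  have h1 : ∀ j : Fin p, ∑ i : Fin p, (if (i, j).1 < (i, j).2 then 1 else 0) = j.1 := by
    intro j
    rw [← Finset.card_filter]
    have h2 : (Finset.univ.filter fun i : Fin p => (i, j).1 < (i, j).2) = Finset.Iio j := by
      ext i
      simp
    rw [h2, Fin.card_Iio]
  rw [Finset.sum_congr rfl fun j _ => h1 j, ← Finset.sum_range_id_mul_two, Finset.sum_range]

lemma card_EI {p b : ℕ} (F : Finset (Prs p × Fin 3)) (G : Finset (Fin p × Fin b)) :
    Fintype.card (EI F G) = 3 * Fintype.card (Prs p) + F.card + 2 * (p * b) + 2 * G.card +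
      2 * Fintype.card (Prs b) := by
  simp only [EI, Fintype.card_sum, Fintype.card_prod, Fintype.card_fin, Fintype.card_coe]
  ring

lemma exists_FG (p b m : ℕ) (hp : 2 ≤ p) (hm : m ≤ 3 * Fintype.card (Prs p) + 2 * (p * b)) :
    ∃ (F : Finset (Prs p × Fin 3)) (G : Finset (Fin p × Fin b)), F.card + 2 * G.card = m := by
  have hP : 1 ≤ Fintype.card (Prs p) := by
    have h1 := card_Prs p
    obtain ⟨q, rfl⟩ := Nat.exists_eq_add_of_le hp
    have : 1 ≤ (2 + q) * (2 + q - 1) := Nat.one_le_iff_ne_zero.2 (by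
      apply Nat.mul_ne_zero <;> omega)
    omega
  have hF : ∀ f ≤ 3 * Fintype.card (Prs p), ∃ F : Finset (Prs p × Fin 3), F.card = f := by
    intro f hf
    obtain ⟨F, -, hF⟩ := Finset.exists_subset_card_eq (s := (Finset.univ : Finset (Prs p × Fin 3)))
      (n := f) (by
        rw [Finset.card_univ, Fintype.card_prod, Fintype.card_fin]
        omega)
    exact ⟨F, hF⟩
  have hG : ∀ g ≤ p * b, ∃ G : Finset (Fin p × Fin b), G.card = g := by
    intro g hg
    obtain ⟨G, -, hG⟩ := Finset.exists_subset_card_eq (s := (Finset.univ : Finset (Fin p × Fin b)))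
      (n := g) (by
        rw [Finset.card_univ, Fintype.card_prod, Fintype.card_fin, Fintype.card_fin]
        exact hg)
    exact ⟨G, hG⟩
  by_cases h : m / 2 ≤ p * b
  · obtain ⟨F, hF'⟩ := hF (m % 2) (by omega)
    obtain ⟨G, hG'⟩ := hG (m / 2) h
    exact ⟨F, G, by omega⟩
  · obtain ⟨F, hF'⟩ := hF (m - 2 * (p * b)) (by omega)
    obtain ⟨G, hG'⟩ := hG (p * b) le_rfl
    exact ⟨F, G, by omega⟩

/-- the numerical part -/
lemma exists_params (n r : ℕ) (hn : 8 ≤ n) (h1 : (n - 1) * (n - 2) + 12 < 6 * r)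
    (h2 : 3 * r ≤ (n - 1) * (n - 2)) :
    ∃ (p b : ℕ) (F : Finset (Prs p × Fin 3)) (G : Finset (Fin p × Fin b)), 2 ≤ p ∧ b ≤ 2 ∧
      3 * p + 2 * b = n ∧ Fintype.card (EI F G) = r := by
  have key : ∀ p b, 2 ≤ p → b ≤ 2 → 3 * p + 2 * b = n →
      3 * Fintype.card (Prs p) + 2 * (p * b) + 2 * Fintype.card (Prs b) ≤ r →
      r ≤ 6 * Fintype.card (Prs p) + 4 * (p * b) + 2 * Fintype.card (Prs b) →
      ∃ (p b : ℕ) (F : Finset (Prs p × Fin 3)) (G : Finset (Fin p × Fin b)), 2 ≤ p ∧ b ≤ 2 ∧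
      3 * p + 2 * b = n ∧ Fintype.card (EI F G) = r := by
    intro p b hp hb hn h3 h4
    obtain ⟨F, G, hFG⟩ := exists_FG p b
      (r - (3 * Fintype.card (Prs p) + 2 * (p * b) + 2 * Fintype.card (Prs b))) hp (by omega)
    exact ⟨p, b, F, G, hp, hb, hn, by rw [card_EI]; omega⟩
  have c0 : Fintype.card (Prs 0) = 0 := by have := card_Prs 0; omega
  have c1 : Fintype.card (Prs 1) = 0 := by have := card_Prs 1; omega
  have c2 : Fintype.card (Prs 2) = 1 := by have := card_Prs 2; omega
  have hmod : n % 3 = 0 ∨ n % 3 = 2 ∨ n % 3 = 1 := by omega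
  rcases hmod with h | h | h
  · obtain ⟨q, hq⟩ : ∃ q, n = 3 * (q + 2) := ⟨n / 3 - 2, by omega⟩
    have hc := card_Prs (q + 2)
    have e1 : q + 2 - 1 = q + 1 := by omega
    rw [e1] at hc
    subst hq
    have e2 : 3 * (q + 2) - 1 = 3 * q + 5 := by omega
    have e3 : 3 * (q + 2) - 2 = 3 * q + 4 := by omega
    rw [e2, e3] at h1 h2
    apply key (q + 2) 0 (by omega) (by omega) (by omega)
    · rw [c0]
      nlinarith
    · rw [c0]
      have : r ≤ 3 * ((q + 2) * (q + 1)) := by
        have h5 : (3 * q + 5) * (3 * q + 4) = 9 * ((q + 2) * (q + 1)) + 2 := by ring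
        omega
      omega
  · obtain ⟨q, hq⟩ : ∃ q, n = 3 * (q + 2) + 2 := ⟨n / 3 - 2, by omega⟩
    have hc := card_Prs (q + 2)
    have e1 : q + 2 - 1 = q + 1 := by omega
    rw [e1] at hc
    subst hq
    have e2 : 3 * (q + 2) + 2 - 1 = 3 * q + 7 := by omega
    have e3 : 3 * (q + 2) + 2 - 2 = 3 * q + 6 := by omega
    rw [e2, e3] at h1 h2
    apply key (q + 2) 1 (by omega) (by omega) (by omega)
    · rw [c1]
      nlinarith
    · rw [c1]
      nlinarith
  · obtain ⟨q, hq⟩ : ∃ q, n = 3 * (q + 2) + 4 := ⟨n / 3 - 3, by omega⟩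
    have hc := card_Prs (q + 2)
    have e1 : q + 2 - 1 = q + 1 := by omega
    rw [e1] at hc
    subst hq
    have e2 : 3 * (q + 2) + 4 - 1 = 3 * q + 9 := by omega
    have e3 : 3 * (q + 2) + 4 - 2 = 3 * q + 8 := by omega
    rw [e2, e3] at h1 h2
    apply key (q + 2) 2 (by omega) (by omega) (by omega)
    · rw [c2]
      nlinarith
    · rw [c2]
      nlinarith

/-- the locus is a component in the range -/
theorem comp_range (k : Type u) [Field k] [IsAlgClosed k] [CharZero k] (n r : ℕ) (hn : 8 ≤ n)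
    (h1 : (n - 1) * (n - 2) + 12 < 6 * r) (h2 : 3 * r ≤ (n - 1) * (n - 2)) :
    closure ((hilb k (MvPolynomial (Fin n) k) (1 + n + r)).locus (HasHF n r)) ∈
      irreducibleComponents (HilbS k (MvPolynomial (Fin n) k) (1 + n + r)) := by
  obtain ⟨p, b, F, G, hp, hb, hpb, hcard⟩ := exists_params n r hn h1 h2
  have hr1 : 1 ≤ r := by omega
  have hrN : r ≤ (n + 1).choose 2 := by
    have h3 := choose_two n
    obtain ⟨q, rfl⟩ := Nat.exists_eq_add_of_le hn
    have e2 : 8 + q - 1 = q + 7 := by omega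
    have e3 : 8 + q - 2 = q + 6 := by omega
    rw [e2, e3] at h2
    nlinarith
  have hfun : (HasHF n r : Ideal (MvPolynomial (Fin n) k) → Prop) = IsVeryCompressed (1 + n + r) :=
    funext fun I => propext (isVeryCompressed_iff n r (by omega) hr1 hrN I).symm
  rw [hfun]
  have hcU : Fintype.card (UU p b) = n := by
    simp only [UU, Fintype.card_sum, Fintype.card_prod, Fintype.card_fin]
    omega
  let eU : UU p b ≃ Fin n := Fintype.equivFinOfCardEq hcU
  have hd : n + 1 + Fintype.card (EI F G) = 1 + n + r := by omega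
  have hgood := BA_good (k := k) F G hp hb
  have htnt := hgood.tnt eU hd two_ne_zero (by omega)
  exact component_of_TNT _ (by omega) (by omega) (by rw [choose_n]; omega) _ htnt

end Pool.Agent.H59.VC
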