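import Mathlib
import Pool.Agent.H59.VC.CfgB2
import Pool.Graph.R_seed8.Results.MP_490634_ag.NotComponent

set_option autoImplicit false
set_option linter.unusedSectionVars false

open scoped TensorProduct
open MvPolynomial CategoryTheory AlgebraicGeometry
open Pool.Agent.Helper226
open Pool.Agent.Helper17.VCG
open Pool.Agent.Results.MP_490634_ag.NotComponent (HasHF isVeryCompressed_iff)

universe u

namespace Pool.Agent.H59.VC

lemma card_pairs_A {ι : Type*} [Fintype ι] [DecidableEq ι] (r : ι → ℕ)
    (hr : Function.Injective r) (n : ℕ) (hι : Fintype.card ι = n + 1) :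
    Fintype.card (PQ r (fun i j : ι => i ≠ j)) = (n + 1).choose 2 := by
  have h1 := card_PQ r hr (fun i j : ι => i ≠ j) (fun i j h => h.symm) (fun i h => h rfl)
  have h2 : ∀ b : ι, (Finset.univ.filter fun j => b ≠ j).card = n := by
    intro b
    have h3 : (Finset.univ.filter fun j => b ≠ j) = Finset.univ.erase b := by
      ext j
      simp [eq_comm]
    rw [h3, Finset.card_erase_of_mem (Finset.mem_univ b), Finset.card_univ, hι]
    rfl
  rw [Finset.sum_congr rfl fun b _ => h2 b, Finset.sum_const, Finset.card_univ, hι,
    smul_eq_mul] at h1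
  have h3 := Nat.choose_two_right (n + 1)
  rw [h3, Nat.add_sub_cancel, ← h1]
  omega

lemma card_pairs_B {m s : ℕ} (hs : s ≤ 1) (r : VB m s → ℕ) (hr : Function.Injective r) :
    Fintype.card (PQ r (RB (m := m) (s := s))) + (m + 1) = (2 + (2 * m + s)).choose 2 := by
  have h1 := card_PQ r hr (RB (m := m) (s := s)) RB_symm RB_irrefl
  have hV : Fintype.card (VB m s) = 2 + (2 * m + s) := by
    simp only [Fintype.card_sum, Fintype.card_prod, Fintype.card_bool, Fintype.card_fin]
    ring
  have hcomp : ∀ b : VB m s, (Finset.univ.filter fun j => RB b j).card +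
      (Finset.univ.filter fun j => ¬ RB b j).card = 2 + (2 * m + s) := by
    intro b
    rw [Finset.card_filter_add_card_filter_not, Finset.card_univ, hV]
  have hz : ∀ β : Bool, (Finset.univ.filter fun j => RB (zz β : VB m s) j).card =
      2 * m + s := by
    intro β
    have h2 : (Finset.univ.filter fun j => ¬ RB (zz β : VB m s) j) = {zz false, zz true} := by
      ext j
      simp only [Finset.mem_filter, Finset.mem_univ, true_and, Finset.mem_insert,
        Finset.mem_singleton]
      constructor
      · exact RB_not_z β j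
      · rintro (rfl | rfl) <;> exact RB_zz _ _
    have h3 := hcomp (zz β)
    rw [h2, Finset.card_pair (by simp [zz])] at h3
    omega
  have hv : ∀ (t : Fin m) (β : Bool), (Finset.univ.filter fun j => RB (vv t β : VB m s) j).card =
      2 * m + s := by
    intro t β
    have h2 : (Finset.univ.filter fun j => ¬ RB (vv t β : VB m s) j) =
        {vv t β, vv t (!β)} := by
      ext j
      simp only [Finset.mem_filter, Finset.mem_univ, true_and, Finset.mem_insert,
        Finset.mem_singleton]
      constructor
      · exact RB_not_v t β j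
      · rintro (rfl | rfl) h <;> rw [RB_vv] at h <;> exact h rfl
    have h3 := hcomp (vv t β)
    rw [h2, Finset.card_pair (by cases β <;> simp [vv])] at h3
    omega
  have hss : ∀ i : Fin s, (Finset.univ.filter fun j => RB (ss i : VB m s) j).card =
      2 * m + s + 1 := by
    intro i
    have h2 : (Finset.univ.filter fun j => ¬ RB (ss i : VB m s) j) = {ss i} := by
      ext j
      simp only [Finset.mem_filter, Finset.mem_univ, true_and, Finset.mem_singleton]
      constructor
      · exact RB_not_s hs i j
      · rintro rfl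
        exact RB_irrefl _
    have h3 := hcomp (ss i)
    rw [h2, Finset.card_singleton] at h3
    omega
  rw [Fintype.sum_sum_type, Fintype.sum_sum_type, Fintype.sum_prod_type] at h1
  have e1 : ∑ β : Bool, (Finset.univ.filter fun j => RB (Sum.inl β : VB m s) j).card =
      2 * (2 * m + s) := by
    refine Eq.trans (Finset.sum_congr rfl fun β _ => hz β) ?_
    rw [Finset.sum_const, Finset.card_univ, Fintype.card_bool, smul_eq_mul]
  have e2 : ∑ t : Fin m, ∑ β : Bool,
      (Finset.univ.filter fun j => RB (Sum.inr (Sum.inl (t, β)) : VB m s) j).card =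
      m * (2 * (2 * m + s)) := by
    refine Eq.trans (Finset.sum_congr rfl fun t _ => Finset.sum_congr rfl fun β _ => hv t β) ?_
    simp
  have e3 : ∑ i : Fin s,
      (Finset.univ.filter fun j => RB (Sum.inr (Sum.inr i) : VB m s) j).card =
      s * (2 * m + s + 1) := by
    refine Eq.trans (Finset.sum_congr rfl fun i _ => hss i) ?_
    simp
  rw [e1, e2, e3] at h1
  have h3 := Nat.choose_two_right (2 + (2 * m + s))
  have h4 : 2 + (2 * m + s) - 1 = 2 * m + s + 1 := by omega
  rw [h4] at h3
  have h5 : (2 + (2 * m + s)) * (2 * m + s + 1) =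
      2 * (Fintype.card (PQ r (RB (m := m) (s := s))) + (m + 1)) := by
    have h6 : 2 * (Fintype.card (PQ r (RB (m := m) (s := s))) + (m + 1)) =
        2 * Fintype.card (PQ r (RB (m := m) (s := s))) + 2 * (m + 1) := by ring
    rw [h6, h1]
    have : s = 0 ∨ s = 1 := by omega
    rcases this with rfl | rfl <;> ring
  rw [h3, h5]
  omega

/-- smoothability of the generic very compressed algebra with few quadrics -/
theorem smooth_few (k : Type u) [Field k] [IsAlgClosed k] [CharZero k] (n r : ℕ) (hn : 2 ≤ n)
    (h1 : 1 ≤ r) (h2 : r ≤ (n + 1).choose 2) (h3 : (n + 1).choose 2 ≤ r + n + 1) :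
    (hilb k (MvPolynomial (Fin n) k) (1 + n + r)).locus (HasHF n r) ⊆
      closure ((hilb k (MvPolynomial (Fin n) k) (1 + n + r)).locus Ideal.IsRadical) := by
  classical
  have hfun : (HasHF n r : Ideal (MvPolynomial (Fin n) k) → Prop) = IsVeryCompressed (1 + n + r) :=
    funext fun I => propext (isVeryCompressed_iff n r (by omega) h1 h2 I).symm
  rw [hfun]
  obtain ⟨A, -, hA⟩ := Finset.exists_subset_card_eq (s := (Finset.univ : Finset (Fin (n + 1))))
    (n := r + n + 1 - (n + 1).choose 2) (by
      rw [Finset.card_univ, Fintype.card_fin]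
      omega)
  have hg := goodA (k := k) (ι := Fin (n + 1)) two_ne_zero (by
    rw [Fintype.card_fin]
    omega) Fin.val Fin.val_injective A
  refine smoothable_of_cfg (two_ne_zero) (by omega) (by omega) (by
    rw [choose_n]
    omega) (ι := Fin (n + 1)) (Fintype.card_fin _) ?_ (PA k Fin.val A) ?_ hg
  · rw [Fintype.card_sum, card_pairs_A Fin.val Fin.val_injective n (Fintype.card_fin _),
      Fintype.card_coe, hA]
    omega
  · rintro (x | a)
    · exact sum_pv _ _
    · exact sum_pv _ _

/-- smoothability in codimension `n + 2` -/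
theorem smooth_last (k : Type u) [Field k] [IsAlgClosed k] [CharZero k] (n r : ℕ) (hn : 4 ≤ n)
    (h3 : (n + 1).choose 2 = r + n + 2) :
    (hilb k (MvPolynomial (Fin n) k) (1 + n + r)).locus (HasHF n r) ⊆
      closure ((hilb k (MvPolynomial (Fin n) k) (1 + n + r)).locus Ideal.IsRadical) := by
  classical
  have hch := choose_two n
  have h1 : 1 ≤ r := by nlinarith
  have hfun : (HasHF n r : Ideal (MvPolynomial (Fin n) k) → Prop) = IsVeryCompressed (1 + n + r) :=
    funext fun I => propext (isVeryCompressed_iff n r (by omega) h1 (by omega) I).symm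
  rw [hfun]
  obtain ⟨m, s, hs, hm1, hm, hnm⟩ : ∃ m s, s ≤ 1 ∧ 1 ≤ m ∧ 2 ≤ m + s ∧
      n + 1 = 2 + (2 * m + s) :=
    ⟨(n - 1) / 2, (n - 1) % 2, by omega, by omega, by omega, by omega⟩
  let rr : VB m s → ℕ := fun v => (Fintype.equivFin (VB m s) v).1
  have hrr : Function.Injective rr := fun a b h => (Fintype.equivFin (VB m s)).injective
    (Fin.ext h)
  let τ : Fin m → k := fun t => ((t.1 + 1 : ℕ) : k)
  have hg := goodB (k := k) hm1 hm hs rr hrr τ (fun t => by
      simp only [τ]
      exact Nat.cast_ne_zero.2 (by omega)) (by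
      intro t t' h
      simp only [τ] at h
      have h4 : ((t.1 + 1) ^ 2 : ℕ) = (t'.1 + 1) ^ 2 := by
        have h5 : (((t.1 + 1) ^ 2 : ℕ) : k) = (((t'.1 + 1) ^ 2 : ℕ) : k) := by
          push_cast
          push_cast at h
          exact h
        exact_mod_cast h5
      have h5 := Nat.pow_left_injective (n := 2) (by norm_num) h4
      apply Fin.ext
      simpa using h5) (by
      intro t t' _ h
      simp only [τ] at h
      have h5 : (((t.1 + 1) ^ 2 + (t'.1 + 1) ^ 2 : ℕ) : k) = 0 := by
        push_cast
        push_cast at h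
        exact h
      rw [Nat.cast_eq_zero] at h5
      have h6 : 0 < (t.1 + 1) ^ 2 := by positivity
      omega)
  have hV : Fintype.card (VB m s) = n + 1 := by
    rw [hnm]
    simp only [Fintype.card_sum, Fintype.card_prod, Fintype.card_bool, Fintype.card_fin]
    ring
  refine smoothable_of_cfg (two_ne_zero) (by omega) (by omega) (by
    rw [choose_n]
    omega) (ι := VB m s) hV ?_ (PB rr τ) ?_ hg
  · have h4 := card_pairs_B (m := m) hs rr hrr
    rw [← hnm] at h4
    rw [Fintype.card_sum, Fintype.card_fin]
    omega
  · rintro (x | t)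
    · exact sum_pv _ _
    · have h4 := sum_gv_mul τ t (fun _ : VB m s => (1 : k))
      simp only [mul_one] at h4
      change ∑ a, gv τ t a = 2
      rw [h4]
      ring

/-- smoothability of very compressed algebras with at most `n + 2` quadrics -/
theorem smooth_range (k : Type u) [Field k] [IsAlgClosed k] [CharZero k] (n r : ℕ) (hn : 4 ≤ n)
    (h1 : 1 ≤ r) (h2 : r ≤ (n + 1).choose 2) (h3 : (n + 1).choose 2 ≤ r + n + 2) :
    (hilb k (MvPolynomial (Fin n) k) (1 + n + r)).locus (HasHF n r) ⊆
      closure ((hilb k (MvPolynomial (Fin n) k) (1 + n + r)).locus Ideal.IsRadical) := by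
  by_cases h4 : (n + 1).choose 2 = r + n + 2
  · exact smooth_last k n r hn h4
  · exact smooth_few k n r (by omega) h1 h2 (by omega)

end Pool.Agent.H59.VC
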